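import Pool.Agent.Lib_helper39.RSF.Defs
import Pool.Agent.Lib_helper39.RSF.SMO1
import Pool.Agent.Lib_helper39.RSF.AMB2
import Pool.Agent.Lib_helper39.RSA.AMB1
import Pool.Agent.Lib_helper39.RSA.EM
/-!
# Block AAL: the main term and the error of `AA`
-/

namespace Pool.Agent.RSF

open Complex MeasureTheory Filter Topology
open Pool.Agent.RC (cc psi rv f0 IsRC Good gm pr DD)
open Pool.Agent.RSE
open scoped ContDiff

theorem cA_bd_pr (m : ℕ) : 0 ≤ cA m ∧ cA m ≤ 1 / 2 := by
  unfold cA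
  have h1 : (Nat.totient (2 * m) : ℝ) ≤ 2 * m := by exact_mod_cast Nat.totient_le (2 * m)
  refine ⟨by positivity, ?_⟩
  apply div_le_div_of_nonneg_right _ (by norm_num)
  exact div_le_one_of_le₀ h1 (by positivity)

theorem int_deriv_pr {g : ℝ → ℝ} (hg : Ker1 g) : ∫ z : ℝ, deriv g z = 0 := by
  have hc0 : Continuous g := hg.smooth.continuous
  have hc1 : Continuous (deriv g) := hg.smooth.continuous_deriv (by simp)
  have hdf : Differentiable ℝ g := hg.smooth.differentiable (by simp)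
  exact integral_eq_zero_of_hasDerivAt_of_integrable (fun x => (hdf x).hasDerivAt)
    (rse_amb1_integrable (rse_smo1_fast1 hg) hc1) (rse_amb1_integrable (rse_smo1_fast0 hg) hc0)

theorem rsf_aal_H_int {g : ℝ → ℝ} (hg : Ker1 g) : Integrable (rse_amb1_H g) := by
  have hc0 : Continuous g := hg.smooth.continuous
  have hc1 : Continuous (deriv g) := hg.smooth.continuous_deriv (by simp)
  exact (fast_int_pr (rse_smo1_fast0 hg) hc0 (a := -(1 / 4)) (by norm_num)).add
    ((fast_int_pr (rse_smo1_fast1 hg) hc1 (a := -(1 / 4)) (by norm_num)).const_mul 2)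

theorem rsf_aal_in_bound {g : ℝ → ℝ} (hg : Ker1 g) (c : ℝ) :
    |rse_amb1_in g c - 1 / 2 * ∫ z : ℝ, g z| ≤ Real.exp (c / 4) * ∫ z : ℝ, rse_amb1_H g z := by
  have hc0 : Continuous g := hg.smooth.continuous
  have hc1 : Continuous (deriv g) := hg.smooth.continuous_deriv (by simp)
  have hdf : Differentiable ℝ g := hg.smooth.differentiable (by simp)
  have hD : ∀ y : ℝ, HasDerivAt (fun y : ℝ => ((g (2 * y + c) : ℝ) : ℂ))
      ((2 * deriv g (2 * y + c) : ℝ) : ℂ) y := by
    intro y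
    have h1 : HasDerivAt (fun y : ℝ => 2 * y + c) 2 y := by
      simpa using ((hasDerivAt_id y).const_mul 2).add_const c
    have h2 : HasDerivAt (fun y : ℝ => g (2 * y + c)) (deriv g (2 * y + c) * 2) y :=
      (hdf (2 * y + c)).hasDerivAt.comp y h1
    rw [mul_comm] at h2
    exact h2.ofReal_comp
  have hD' : deriv (fun y : ℝ => ((g (2 * y + c) : ℝ) : ℂ)) =
      fun y => ((2 * deriv g (2 * y + c) : ℝ) : ℂ) := funext fun y => (hD y).deriv
  have hF : ContDiff ℝ 1 (fun y : ℝ => ((g (2 * y + c) : ℝ) : ℂ)) := by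
    rw [contDiff_one_iff_deriv]
    refine ⟨fun y => (hD y).differentiableAt, ?_⟩
    rw [hD']
    exact Complex.continuous_ofReal.comp (by fun_prop)
  have hi0 : Integrable (fun y : ℝ => ((g (2 * y + c) : ℝ) : ℂ)) :=
    (rse_amb1_integrable2 (rse_amb1_integrable (rse_smo1_fast0 hg) hc0) c).ofReal
  have hi1 : Integrable (deriv (fun y : ℝ => ((g (2 * y + c) : ℝ) : ℂ))) := by
    rw [hD']
    exact ((rse_amb1_integrable2 (rse_amb1_integrable (rse_smo1_fast1 hg) hc1) c).const_mul 2).ofReal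
  obtain ⟨-, hb⟩ := em_sum_pr 1 one_pos (fun _ => 1) (fun _ => rfl) (fun _ => by simp) _ hF hi0 hi1
  have hz : (((∑ x ∈ Finset.range 1, (fun _ : ℕ => (1 : ℝ)) x) / ((1 : ℕ) : ℝ) : ℝ) : ℂ) *
      ∫ y : ℝ, ((g (2 * y + c) : ℝ) : ℂ) = ((1 / 2 * ∫ z : ℝ, g z : ℝ) : ℂ) := by
    rw [show (∫ y : ℝ, ((g (2 * y + c) : ℝ) : ℂ)) = ((∫ y : ℝ, g (2 * y + c) : ℝ) : ℂ) from
      integral_ofReal, rse_amb1_int2]
    simp
  rw [hz] at hb
  have hs : (∑' n : ℕ, if 0 < n then (((1 : ℝ) : ℂ)) / n * ((g (2 * Real.log n + c) : ℝ) : ℂ)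
      else 0) = ((rse_amb1_in g c : ℝ) : ℂ) := by
    unfold rse_amb1_in
    rw [Complex.ofReal_tsum]
    apply tsum_congr
    intro n
    split_ifs with h
    · push_cast; ring
    · simp
  rw [hs, ← Complex.ofReal_sub, Complex.norm_real, Real.norm_eq_abs] at hb
  refine le_trans hb ?_
  have hm : ∫ y : ℝ, min 1 (Real.exp (-y)) * (‖((g (2 * y + c) : ℝ) : ℂ)‖ +
      ‖deriv (fun y : ℝ => ((g (2 * y + c) : ℝ) : ℂ)) y‖) ≤
      ∫ y : ℝ, Real.exp (c / 4) * rse_amb1_H g (2 * y + c) := by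
    apply integral_mono_of_nonneg
    · exact Eventually.of_forall fun y => by positivity
    · exact (rse_amb1_integrable2 (rsf_aal_H_int hg) c).const_mul _
    · refine Eventually.of_forall fun y => ?_
      have e1 : min 1 (Real.exp (-y)) ≤ Real.exp (-(y / 2)) := by
        rcases le_total 0 y with h | h
        · exact le_trans (min_le_right _ _) (Real.exp_le_exp.mpr (by linarith))
        · refine le_trans (min_le_left _ _) ?_
          rw [← Real.exp_zero]
          exact Real.exp_le_exp.mpr (by linarith)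
      have e2 : Real.exp (c / 4) * rse_amb1_H g (2 * y + c) =
          Real.exp (-(y / 2)) * (|g (2 * y + c)| + |2 * deriv g (2 * y + c)|) := by
        unfold rse_amb1_H
        rw [abs_mul, abs_of_pos (by norm_num : (0 : ℝ) < 2),
          show Real.exp (-(y / 2)) = Real.exp (c / 4) * Real.exp (-(1 / 4) * (2 * y + c)) by
            rw [← Real.exp_add]; congr 1; ring]
        ring
      show min 1 (Real.exp (-y)) * (‖((g (2 * y + c) : ℝ) : ℂ)‖ +
        ‖deriv (fun y : ℝ => ((g (2 * y + c) : ℝ) : ℂ)) y‖) ≤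
        Real.exp (c / 4) * rse_amb1_H g (2 * y + c)
      rw [e2, hD', Complex.norm_real, Complex.norm_real, Real.norm_eq_abs, Real.norm_eq_abs]
      exact mul_le_mul_of_nonneg_right e1 (by positivity)
  rw [integral_const_mul, rse_amb1_int2] at hm
  calc _ ≤ 2 * ((1 : ℕ) : ℝ) * (Real.exp (c / 4) * (1 / 2 * ∫ z : ℝ, rse_amb1_H g z)) := by
        apply mul_le_mul_of_nonneg_left hm (by norm_num)
    _ = _ := by push_cast; ring

theorem rsf_aal_cA (m : ℕ) (hm : 0 < m) :
    ∑ T ∈ (2 * m).primeFactors.powerset, (-1 : ℝ) ^ T.card * (1 / ((∏ p ∈ T, p : ℕ) : ℝ)) * (1 / 2) =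
      cA m := by
  have hP : ∀ p ∈ (2 * m).primeFactors, p.Prime := fun p hp => Nat.prime_of_mem_primeFactors hp
  unfold cA
  rw [← Finset.sum_mul, mul_one_div]
  congr 1
  have h1 : ∑ T ∈ (2 * m).primeFactors.powerset, (-1 : ℝ) ^ T.card * (1 / ((∏ p ∈ T, p : ℕ) : ℝ)) =
      ∏ p ∈ (2 * m).primeFactors, (1 + -(1 / (p : ℝ))) := by
    rw [Finset.prod_one_add]
    apply Finset.sum_congr rfl
    intro T _
    rw [Finset.prod_neg]
    congr 1
    rw [Nat.cast_prod, one_div, ← Finset.prod_inv_distrib]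
    apply Finset.prod_congr rfl
    intro p _
    rw [one_div]
  rw [h1]
  have h2 := Nat.totient_eq_mul_prod_factors (2 * m)
  have h3 : ((Nat.totient (2 * m) : ℚ) : ℝ) = ((((2 * m : ℕ) : ℚ) *
      ∏ p ∈ (2 * m).primeFactors, (1 - (p : ℚ)⁻¹) : ℚ) : ℝ) := by rw [h2]
  push_cast at h3
  rw [h3]
  have hm' : (2 * (m : ℝ)) ≠ 0 := by positivity
  rw [mul_div_cancel_left₀ _ hm']
  apply Finset.prod_congr rfl
  intro p _
  rw [one_div]; ring

theorem aal_bound_pr {g : ℝ → ℝ} (hg : Ker1 g) : ∃ C : ℝ, 0 < C ∧ ∀ (m : ℕ) (x : ℝ), 0 < m →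
    |AA g m x - (if x < 0 then cA m * ∫ z : ℝ, g z else 0)| ≤
      C * E1 m * Real.exp (-|x| / 4) := by
  obtain ⟨C, hC⟩ := rse_smo1_fast0 hg 1 (by norm_num)
  have hH0 : 0 ≤ ∫ z : ℝ, rse_amb1_H g z := integral_nonneg fun z => by
    unfold rse_amb1_H; positivity
  have hZ0 : 0 ≤ ∑' n : ℕ, 1 / (n : ℝ) ^ 2 := tsum_nonneg fun n => by positivity
  refine ⟨|C| * (∑' n : ℕ, 1 / (n : ℝ) ^ 2) + 2 * (∫ z : ℝ, rse_amb1_H g z) + 1, by positivity, ?_⟩
  intro m x hm
  have hE := rse_amb1_E1_pos m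
  rcases lt_or_ge x 0 with hx | hx
  swap
  · rw [if_neg (not_lt.mpr hx), sub_zero, abs_of_nonneg hx, rse_amb2_eq g]
    have hs : Summable (fun n : ℕ => 1 / (n : ℝ) ^ 2) :=
      Real.summable_one_div_nat_pow.mpr (by norm_num)
    have ht : ∀ n : ℕ, ‖rse_amb2_w m n * g (2 * Real.log n + x)‖ ≤
        |C| * Real.exp (-x) * (1 / (n : ℝ) ^ 2) := by
      intro n
      rcases Nat.eq_zero_or_pos n with rfl | hn
      · rw [rse_amb2_w_zero, zero_mul, norm_zero]; positivity
      · have hn' : (0 : ℝ) < n := Nat.cast_pos.mpr hn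
        rw [norm_mul, Real.norm_eq_abs, Real.norm_eq_abs]
        have h1 : |g (2 * Real.log n + x)| ≤ |C| * (Real.exp (-x) * (1 / (n : ℝ) ^ 2)) := by
          calc |g (2 * Real.log n + x)| ≤ C * Real.exp (-1 * (2 * Real.log n + x)) := hC _
            _ ≤ |C| * Real.exp (-1 * (2 * Real.log n + x)) :=
                mul_le_mul_of_nonneg_right (le_abs_self C) (Real.exp_pos _).le
            _ = |C| * (Real.exp (-x) * (1 / (n : ℝ) ^ 2)) := by
                rw [show -1 * (2 * Real.log n + x) = -x + -(2 * Real.log n) by ring, Real.exp_add,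
                  Real.exp_neg (2 * Real.log n), two_mul, Real.exp_add, Real.exp_log hn', one_div,
                  sq]
        calc |rse_amb2_w m n| * |g (2 * Real.log n + x)|
            ≤ 1 * (|C| * (Real.exp (-x) * (1 / (n : ℝ) ^ 2))) :=
              mul_le_mul (rse_amb2_w_le m n) h1 (abs_nonneg _) zero_le_one
          _ = _ := by ring
    have h3 := tsum_of_norm_bounded (hs.mul_left (|C| * Real.exp (-x))).hasSum ht
    rw [Real.norm_eq_abs, tsum_mul_left] at h3
    refine le_trans h3 ?_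
    have h4 : Real.exp (-x) ≤ Real.exp (-x / 4) := Real.exp_le_exp.mpr (by linarith)
    have h5 : |C| * Real.exp (-x) * (∑' n : ℕ, 1 / (n : ℝ) ^ 2) ≤
        |C| * (∑' n : ℕ, 1 / (n : ℝ) ^ 2) * Real.exp (-x / 4) := by
      rw [mul_right_comm]
      exact mul_le_mul_of_nonneg_left h4 (by positivity)
    refine le_trans h5 ?_
    apply mul_le_mul_of_nonneg_right _ (Real.exp_pos _).le
    have h6 : 0 ≤ |C| * (∑' n : ℕ, 1 / (n : ℝ) ^ 2) := by positivity
    nlinarith
  · have hx' : -|x| / 4 = x / 4 := by rw [abs_of_neg hx]; ring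
    rw [hx', if_pos hx]
    have hP : ∀ p ∈ (2 * m).primeFactors, p.Prime := fun p hp => Nat.prime_of_mem_primeFactors hp
    have hAA : AA g m x = ∑ T ∈ (2 * m).primeFactors.powerset, (-1 : ℝ) ^ T.card *
        (1 / ((∏ p ∈ T, p : ℕ) : ℝ) *
          rse_amb1_in g (2 * Real.log ((∏ p ∈ T, p : ℕ) : ℝ) + x)) := by
      have h1 : AA g m x = ∑' a : ℕ, ∑ T ∈ (2 * m).primeFactors.powerset,
          (-1 : ℝ) ^ T.card * ((if (∏ p ∈ T, p) ∣ a then 1 / (a : ℝ) else 0) *
            g (2 * Real.log a + x)) := by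
        rw [rse_amb2_eq g]
        apply tsum_congr
        intro a
        have h2 : rse_amb2_w m a = (∑ T ∈ (2 * m).primeFactors.powerset, (-1 : ℝ) ^ T.card *
            (if (∏ p ∈ T, p) ∣ a then 1 else 0)) * (1 / (a : ℝ)) := by
          unfold rse_amb2_w
          by_cases h : Odd a ∧ a.Coprime m
          · rw [if_pos h, (rse_amb1_ind _ hP a).1 ((rse_amb1_cop m a hm).mp h), one_mul]
          · rw [if_neg h, (rse_amb1_ind _ hP a).2 (fun h' => h ((rse_amb1_cop m a hm).mpr h')),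
              zero_mul]
        rw [h2, Finset.sum_mul, Finset.sum_mul]
        apply Finset.sum_congr rfl
        intro T _
        split_ifs <;> ring
      rw [h1, Summable.tsum_finsetSum]
      · apply Finset.sum_congr rfl
        intro T hT
        rw [Finset.mem_powerset] at hT
        rw [tsum_mul_left, rse_amb1_sum g _ (Finset.prod_pos fun p hp => (hP p (hT hp)).pos)]
      · intro T _
        apply Summable.mul_left
        apply rse_smo1_summable (rse_smo1_fast0 hg) (by norm_num : (1 : ℝ) ≤ 2)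
        · intro n
          split_ifs
          · rcases Nat.eq_zero_or_pos n with rfl | hn
            · simp
            · have h1 : (1 : ℝ) ≤ n := by exact_mod_cast hn
              rw [abs_of_nonneg (by positivity), div_le_one (by linarith)]
              exact h1
          · simp
        · simp
    rw [hAA, ← rsf_aal_cA m hm, Finset.sum_mul, ← Finset.sum_sub_distrib]
    have hb : ∀ T ∈ (2 * m).primeFactors.powerset, |(-1 : ℝ) ^ T.card *
        (1 / ((∏ p ∈ T, p : ℕ) : ℝ) *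
          rse_amb1_in g (2 * Real.log ((∏ p ∈ T, p : ℕ) : ℝ) + x)) -
        (-1 : ℝ) ^ T.card * (1 / ((∏ p ∈ T, p : ℕ) : ℝ)) * (1 / 2) * ∫ z : ℝ, g z| ≤
        (∏ p ∈ T, 1 / √(p : ℝ)) * (Real.exp (x / 4) * ∫ z : ℝ, rse_amb1_H g z) := by
      intro T hT
      rw [Finset.mem_powerset] at hT
      rw [show (-1 : ℝ) ^ T.card * (1 / ((∏ p ∈ T, p : ℕ) : ℝ) *
          rse_amb1_in g (2 * Real.log ((∏ p ∈ T, p : ℕ) : ℝ) + x)) -
        (-1 : ℝ) ^ T.card * (1 / ((∏ p ∈ T, p : ℕ) : ℝ)) * (1 / 2) * ∫ z : ℝ, g z =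
        (-1 : ℝ) ^ T.card * (1 / ((∏ p ∈ T, p : ℕ) : ℝ) *
          (rse_amb1_in g (2 * Real.log ((∏ p ∈ T, p : ℕ) : ℝ) + x) - 1 / 2 * ∫ z : ℝ, g z)) by ring]
      rw [abs_mul, abs_pow, abs_neg, abs_one, one_pow, one_mul, abs_mul,
        abs_of_nonneg (by positivity : 0 ≤ 1 / ((∏ p ∈ T, p : ℕ) : ℝ)),
        ← rse_amb1_exp T (fun p hp => hP p (hT hp))]
      calc _ ≤ 1 / ((∏ p ∈ T, p : ℕ) : ℝ) *
            (Real.exp ((2 * Real.log ((∏ p ∈ T, p : ℕ) : ℝ) + x) / 4) *
              ∫ z : ℝ, rse_amb1_H g z) :=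
            mul_le_mul_of_nonneg_left (rsf_aal_in_bound hg _) (by positivity)
        _ = _ := by
            rw [show (2 * Real.log ((∏ p ∈ T, p : ℕ) : ℝ) + x) / 4 =
              1 / 2 * Real.log ((∏ p ∈ T, p : ℕ) : ℝ) + x / 4 by ring, Real.exp_add]
            ring
    refine le_trans (Finset.abs_sum_le_sum_abs _ _) (le_trans (Finset.sum_le_sum hb) ?_)
    rw [← Finset.sum_mul, ← Finset.prod_one_add]
    have h6 := rse_amb1_E1_two m hm
    have h7 : 0 ≤ Real.exp (x / 4) * ∫ z : ℝ, rse_amb1_H g z := by positivity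
    refine le_trans (mul_le_mul_of_nonneg_right h6 h7) ?_
    have h8 : 0 ≤ |C| * (∑' n : ℕ, 1 / (n : ℝ) ^ 2) + 1 := by positivity
    have h9 : 0 ≤ E1 m * Real.exp (x / 4) := by positivity
    nlinarith [mul_nonneg h8 h9]

end Pool.Agent.RSF

namespace Pool.Agent.RSF

alias cA_bd := cA_bd_pr

alias int_deriv := int_deriv_pr

alias aal_bound := aal_bound_pr

end Pool.Agent.RSF
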