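import Pool.Agent.Lib_helper39.RSF.Defs
/-! RSF block UTW: weights. -/

namespace Pool.Agent.RSF

open Complex MeasureTheory Filter Topology
open Pool.Agent.RSE

theorem rsf_utw_lin {p q r : ℝ → ℝ} (hp : Integrable p) (hq : Integrable q)
    (hr : Integrable r) (x y : ℝ) : ∫ u : ℝ, (p u - x * q u + y * r u) =
      (∫ u : ℝ, p u) - x * (∫ u : ℝ, q u) + y * ∫ u : ℝ, r u := by
  have h1 : Integrable (fun u => p u - x * q u) := hp.sub (hq.const_mul x)
  have h2 : ∫ u : ℝ, (p u - x * q u) = (∫ u : ℝ, p u) - x * ∫ u : ℝ, q u := by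
    rw [integral_sub hp (hq.const_mul x), integral_const_mul]
  rw [integral_add h1 (hr.const_mul y), h2, integral_const_mul]

theorem rsf_utw_int {W : ℝ → ℝ} {a b : ℝ} (h : Wt W a b) {f : ℝ → ℝ} (hf : Measurable f)
    {B : ℝ} (hb : ∀ u ∈ Set.Icc a b, |f u| ≤ B) : Integrable (fun u => f u * W u) := by
  obtain ⟨D, hD⟩ := h.bdd
  have hD0 : 0 ≤ D := (abs_nonneg _).trans (hD 0)
  have hB0 : 0 ≤ B := (abs_nonneg _).trans (hb a ⟨le_rfl, h.le⟩)
  have hi : Integrable (Set.indicator (Set.Icc a b) (fun _ : ℝ => B * D)) := by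
    rw [integrable_indicator_iff measurableSet_Icc]
    exact (continuousOn_const).integrableOn_compact isCompact_Icc
  refine hi.mono' (hf.mul h.meas).aestronglyMeasurable (ae_of_all _ fun u => ?_)
  by_cases hu : u ∈ Set.Icc a b
  · rw [Set.indicator_of_mem hu, Real.norm_eq_abs, abs_mul]
    exact mul_le_mul (hb u hu) (hD u) (abs_nonneg _) hB0
  · rw [Set.indicator_of_notMem hu, h.supp u hu]
    simp

theorem wt_int_pr {W f : ℝ → ℝ} {a b : ℝ} (h : Wt W a b) (hf : Continuous f) :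
    Integrable (fun u => f u * W u) ∧ Integrable (fun u => W u * f u) ∧
    Integrable (fun u => W u ^ 2) ∧ Integrable (fun u => |W u|) := by
  obtain ⟨D, hD⟩ := h.bdd
  obtain ⟨B, hB⟩ := (isCompact_Icc (a := a) (b := b)).exists_bound_of_continuousOn
    hf.continuousOn
  have h1 : Integrable (fun u => f u * W u) :=
    rsf_utw_int h hf.measurable (B := B) fun u hu => by simpa using hB u hu
  have h2 : Integrable (fun u => W u * W u) :=
    rsf_utw_int h h.meas (B := D) fun u _ => hD u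
  have h3 : Integrable (fun u => 1 * W u) :=
    rsf_utw_int h measurable_const (B := 1) fun u _ => by simp
  refine ⟨h1, ?_, ?_, ?_⟩
  · simpa [mul_comm] using h1
  · simpa [sq] using h2
  · simp only [one_mul] at h3
    simpa using h3.abs

theorem wt_l1_pr {W : ℝ → ℝ} {a b : ℝ} (h : Wt W a b) :
    (∫ u : ℝ, |W u|) ^ 2 ≤ (b - a) * ∫ u : ℝ, W u ^ 2 := by
  have hi := wt_int_pr h (continuous_const (y := (1 : ℝ)))
  obtain ⟨-, -, h2, h1⟩ := hi
  set A : ℝ := ∫ u : ℝ, |W u| with hA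
  set Q : ℝ := ∫ u : ℝ, W u ^ 2 with hQ
  have hab : 0 ≤ b - a := sub_nonneg.mpr h.le
  have hind : Integrable (Set.indicator (Set.Icc a b) (fun _ : ℝ => (1 : ℝ))) := by
    rw [integrable_indicator_iff measurableSet_Icc]
    exact (continuousOn_const).integrableOn_compact isCompact_Icc
  have key : ∀ x : ℝ, 0 ≤ Q - 2 * x * A + x ^ 2 * (b - a) := by
    intro x
    have h3 : 0 ≤ ∫ u : ℝ, (W u ^ 2 - 2 * x * |W u| +
        x ^ 2 * Set.indicator (Set.Icc a b) (fun _ : ℝ => (1 : ℝ)) u) := by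
      refine integral_nonneg fun u => ?_
      show 0 ≤ _
      by_cases hu : u ∈ Set.Icc a b
      · rw [Set.indicator_of_mem hu]
        nlinarith [sq_nonneg (|W u| - x), sq_abs (W u)]
      · rw [Set.indicator_of_notMem hu, h.supp u hu]
        simp
    have h4 : ∫ u : ℝ, (W u ^ 2 - 2 * x * |W u| +
        x ^ 2 * Set.indicator (Set.Icc a b) (fun _ : ℝ => (1 : ℝ)) u) =
        Q - 2 * x * A + x ^ 2 * (b - a) := by
      rw [rsf_utw_lin h2 h1 hind, integral_indicator measurableSet_Icc]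
      simp [hab, hA, hQ]
    rw [h4] at h3
    exact h3
  rcases hab.eq_or_lt with h0 | h0
  · -- degenerate
    have h5 : W =ᵐ[volume] 0 := by
      have : ∀ u, u ≠ a → W u = 0 := by
        intro u hu
        refine h.supp u fun hc => hu ?_
        have := hc.1
        have := hc.2
        linarith
      have hs : {u : ℝ | ¬ W u = 0} ⊆ {a} := by
        intro u hu
        by_contra hc
        exact hu (this u hc)
      exact measure_mono_null hs (by simp)
    have h6 : A = 0 := by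
      rw [hA]
      have : (fun u => |W u|) =ᵐ[volume] 0 := by
        filter_upwards [h5] with u hu
        simp [hu]
      simp [integral_congr_ae this]
    rw [h6, ← h0]
    simp
  · have h7 := key (A / (b - a))
    have h8 : Q - 2 * (A / (b - a)) * A + (A / (b - a)) ^ 2 * (b - a) =
        Q - A ^ 2 / (b - a) := by
      field_simp
      ring
    rw [h8] at h7
    have h9 : A ^ 2 / (b - a) ≤ Q := by linarith
    rw [div_le_iff₀ h0] at h9
    linarith

theorem wt_shift_pr {W : ℝ → ℝ} {a b : ℝ} (h : Wt W a b) (τ : ℝ) :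
    Wt (fun u => W (u - τ)) (a + τ) (b + τ) ∧
    ∫ u : ℝ, W (u - τ) ^ 2 = ∫ u : ℝ, W u ^ 2 ∧ ∫ u : ℝ, |W (u - τ)| = ∫ u : ℝ, |W u| ∧
    ∀ f : ℝ → ℝ, ∫ u : ℝ, f u * W (u - τ) = ∫ u : ℝ, f (u + τ) * W u := by
  obtain ⟨D, hD⟩ := h.bdd
  refine ⟨⟨by linarith [h.le], h.meas.comp (measurable_id.sub_const τ), ⟨D, fun v => hD _⟩,
    fun v hv => h.supp _ fun hc => hv ⟨?_, ?_⟩⟩, ?_, ?_, fun f => ?_⟩
  · have := hc.1
    linarith
  · have := hc.2
    linarith
  · exact integral_sub_right_eq_self (fun u => W u ^ 2) τ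
  · exact integral_sub_right_eq_self (fun u => |W u|) τ
  · have := integral_sub_right_eq_self (fun u => f (u + τ) * W u) τ (μ := volume)
    simpa using this

theorem wt_refl_pr {W : ℝ → ℝ} {a b : ℝ} (h : Wt W a b) (s : ℝ) :
    Wt (fun u => W (s - u)) (s - b) (s - a) ∧
    ∫ u : ℝ, W (s - u) ^ 2 = ∫ u : ℝ, W u ^ 2 ∧ ∫ u : ℝ, |W (s - u)| = ∫ u : ℝ, |W u| ∧
    ∀ f : ℝ → ℝ, ∫ u : ℝ, f u * W (s - u) = ∫ u : ℝ, f (s - u) * W u := by
  obtain ⟨D, hD⟩ := h.bdd
  refine ⟨⟨by linarith [h.le], h.meas.comp (measurable_const.sub measurable_id),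
    ⟨D, fun v => hD _⟩, fun v hv => h.supp _ fun hc => hv ⟨?_, ?_⟩⟩, ?_, ?_, fun f => ?_⟩
  · have := hc.2
    linarith
  · have := hc.1
    linarith
  · exact integral_sub_left_eq_self (fun u => W u ^ 2) volume s
  · exact integral_sub_left_eq_self (fun u => |W u|) volume s
  · have := integral_sub_left_eq_self (fun u => f (s - u) * W u) volume s
    simpa using this

theorem wt_mono_pr {W : ℝ → ℝ} {a b a' b' : ℝ} (h : Wt W a b) (h1 : a' ≤ a) (h2 : b ≤ b') :
    Wt W a' b' :=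
  ⟨h1.trans (h.le.trans h2), h.meas, h.bdd, fun v hv => h.supp v fun hc =>
    hv ⟨h1.trans hc.1, hc.2.trans h2⟩⟩

theorem wt_sup_pr {W f : ℝ → ℝ} {a b B : ℝ} (h : Wt W a b) (hB : 0 ≤ B)
    (hf : ∀ u ∈ Set.Icc a b, |f u| ≤ B) : |∫ u : ℝ, f u * W u| ≤ B * ∫ u : ℝ, |W u| := by
  have h1 := (wt_int_pr h (continuous_const (y := (1 : ℝ)))).2.2.2
  rw [← Real.norm_eq_abs, ← integral_const_mul]
  refine norm_integral_le_of_norm_le (h1.const_mul B) (ae_of_all _ fun u => ?_)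
  rw [Real.norm_eq_abs, abs_mul]
  by_cases hu : u ∈ Set.Icc a b
  · exact mul_le_mul_of_nonneg_right (hf u hu) (abs_nonneg _)
  · rw [h.supp u hu]
    simp

theorem rsf_utw_cs {W f : ℝ → ℝ} {a b : ℝ} (h : Wt W a b) (hf : Continuous f) :
    (∫ u : ℝ, f u * W u) ^ 2 ≤ (∫ u : ℝ, |W u|) * ∫ u : ℝ, f u ^ 2 * |W u| := by
  have hW : Wt (fun u => |W u|) a b := by
    obtain ⟨D, hD⟩ := h.bdd
    exact ⟨h.le, h.meas.abs, ⟨D, fun v => by simpa using hD v⟩, fun v hv => by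
      simp [h.supp v hv]⟩
  have h1 := (wt_int_pr h hf).1
  have h2 : Integrable (fun u => f u ^ 2 * |W u|) := (wt_int_pr hW (hf.pow 2)).1
  have h3 := (wt_int_pr h hf).2.2.2
  have h4 : Integrable (fun u => |f u * W u|) := h1.abs
  set A : ℝ := ∫ u : ℝ, |W u| with hA
  set Q : ℝ := ∫ u : ℝ, f u ^ 2 * |W u| with hQ
  set P : ℝ := ∫ u : ℝ, |f u * W u| with hP
  have hA0 : 0 ≤ A := integral_nonneg fun u => abs_nonneg _
  have hQ0 : 0 ≤ Q := integral_nonneg fun u => mul_nonneg (sq_nonneg _) (abs_nonneg _)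
  have key : ∀ x : ℝ, 0 ≤ Q - 2 * x * P + x ^ 2 * A := by
    intro x
    have h5 : 0 ≤ ∫ u : ℝ, (f u ^ 2 * |W u| - 2 * x * |f u * W u| + x ^ 2 * |W u|) := by
      refine integral_nonneg fun u => ?_
      show 0 ≤ _
      rw [abs_mul]
      have : f u ^ 2 * |W u| - 2 * x * (|f u| * |W u|) + x ^ 2 * |W u| =
          |W u| * (|f u| - x) ^ 2 := by
        rw [← sq_abs (f u)]
        ring
      rw [this]
      positivity
    rw [rsf_utw_lin h2 h4 h3] at h5
    exact h5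
  have hle : |∫ u : ℝ, f u * W u| ≤ P := by
    rw [← Real.norm_eq_abs]
    refine (norm_integral_le_integral_norm _).trans (le_of_eq ?_)
    simp [hP]
  have hsq : P ^ 2 ≤ A * Q := by
    have hP0 : 0 ≤ P := integral_nonneg fun u => abs_nonneg _
    rcases hA0.eq_or_lt with h0 | h0
    · rw [← h0] at key ⊢
      have h6 : P = 0 := by
        by_contra hne
        have hpos : 0 < P := lt_of_le_of_ne hP0 (Ne.symm hne)
        have := key ((Q + 1) / P)
        have h7 : 2 * ((Q + 1) / P) * P = 2 * (Q + 1) := by field_simp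
        simp only [mul_zero, add_zero] at this
        rw [h7] at this
        linarith
      rw [h6]
      simp
    · have h6 := key (P / A)
      have h7 : Q - 2 * (P / A) * P + (P / A) ^ 2 * A = Q - P ^ 2 / A := by
        field_simp
        ring
      rw [h7] at h6
      have h8 : P ^ 2 / A ≤ Q := by linarith
      rw [div_le_iff₀ h0] at h8
      linarith
  calc (∫ u : ℝ, f u * W u) ^ 2 = |∫ u : ℝ, f u * W u| ^ 2 := (sq_abs _).symm
    _ ≤ P ^ 2 := pow_le_pow_left₀ (abs_nonneg _) hle 2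
    _ ≤ A * Q := hsq

theorem wt_fam_pr {W : ℝ → ℝ} {a b B : ℝ} (h : Wt W a b) (S : Finset ℕ) (f : ℕ → ℝ → ℝ)
    (hf : ∀ m ∈ S, Continuous (f m)) (hb : ∀ u ∈ Set.Icc a b, ∑ m ∈ S, f m u ^ 2 ≤ B) :
    ∑ m ∈ S, (∫ u : ℝ, f m u * W u) ^ 2 ≤ B * (∫ u : ℝ, |W u|) ^ 2 := by
  have hW : Wt (fun u => |W u|) a b := by
    obtain ⟨D, hD⟩ := h.bdd
    exact ⟨h.le, h.meas.abs, ⟨D, fun v => by simpa using hD v⟩, fun v hv => by
      simp [h.supp v hv]⟩
  have h3 := (wt_int_pr h (continuous_const (y := (1 : ℝ)))).2.2.2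
  have hA0 : 0 ≤ ∫ u : ℝ, |W u| := integral_nonneg fun u => abs_nonneg _
  calc ∑ m ∈ S, (∫ u : ℝ, f m u * W u) ^ 2
      ≤ ∑ m ∈ S, (∫ u : ℝ, |W u|) * ∫ u : ℝ, f m u ^ 2 * |W u| :=
        Finset.sum_le_sum fun m hm => rsf_utw_cs h (hf m hm)
    _ = (∫ u : ℝ, |W u|) * ∫ u : ℝ, ∑ m ∈ S, f m u ^ 2 * |W u| := by
        rw [← Finset.mul_sum, integral_finset_sum]
        intro m hm
        exact (wt_int_pr hW ((hf m hm).pow 2)).1
    _ ≤ (∫ u : ℝ, |W u|) * ∫ u : ℝ, B * |W u| := by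
        refine mul_le_mul_of_nonneg_left ?_ hA0
        refine integral_mono (integrable_finset_sum _ fun m hm =>
          (wt_int_pr hW ((hf m hm).pow 2)).1) (h3.const_mul B) fun u => ?_
        show ∑ m ∈ S, f m u ^ 2 * |W u| ≤ B * |W u|
        rw [← Finset.sum_mul]
        by_cases hu : u ∈ Set.Icc a b
        · exact mul_le_mul_of_nonneg_right (hb u hu) (abs_nonneg _)
        · rw [h.supp u hu]
          simp
    _ = B * (∫ u : ℝ, |W u|) ^ 2 := by
        rw [integral_const_mul]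
        ring

theorem bi_bound_pr {F : ℝ → ℝ → ℝ} {W1 W2 : ℝ → ℝ} {a1 b1 a2 b2 B : ℝ} (h1 : Wt W1 a1 b1)
    (h2 : Wt W2 a2 b2) (hB : 0 ≤ B)
    (hF : ∀ u ∈ Set.Icc a1 b1, ∀ u' ∈ Set.Icc a2 b2, |F u u'| ≤ B) :
    |bi F W1 W2| ≤ B * ((∫ u : ℝ, |W1 u|) * ∫ u : ℝ, |W2 u|) := by
  have hA2 : 0 ≤ ∫ u : ℝ, |W2 u| := integral_nonneg fun u => abs_nonneg _
  have h3 : ∀ u ∈ Set.Icc a1 b1, |∫ u' : ℝ, W2 u' * F u u'| ≤ B * ∫ u : ℝ, |W2 u| := by
    intro u hu
    have := wt_sup_pr (f := F u) h2 hB (hF u hu)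
    simpa [mul_comm] using this
  have h4 := wt_sup_pr (f := fun u => ∫ u' : ℝ, W2 u' * F u u') h1 (mul_nonneg hB hA2) h3
  unfold bi
  calc |∫ u : ℝ, W1 u * ∫ u' : ℝ, W2 u' * F u u'|
      = |∫ u : ℝ, (∫ u' : ℝ, W2 u' * F u u') * W1 u| := by simp only [mul_comm (W1 _)]
    _ ≤ B * (∫ u : ℝ, |W2 u|) * ∫ u : ℝ, |W1 u| := h4
    _ = _ := by ring

theorem bi_shift_pr (F : ℝ → ℝ → ℝ) (W1 W2 : ℝ → ℝ) (τ1 τ2 : ℝ) :
    bi F (fun u => W1 (u - τ1)) (fun u => W2 (u - τ2)) =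
      bi (fun u u' => F (u + τ1) (u' + τ2)) W1 W2 := by
  unfold bi
  have h1 := integral_sub_right_eq_self
    (fun u => W1 u * ∫ u' : ℝ, W2 u' * F (u + τ1) (u' + τ2)) τ1 (μ := volume)
  rw [← h1]
  refine integral_congr_ae (ae_of_all _ fun u => ?_)
  show W1 (u - τ1) * (∫ u' : ℝ, W2 (u' - τ2) * F u u') =
    W1 (u - τ1) * ∫ u' : ℝ, W2 u' * F (u - τ1 + τ1) (u' + τ2)
  congr 1
  have h2 := integral_sub_right_eq_self
    (fun u' => W2 u' * F (u - τ1 + τ1) (u' + τ2)) τ2 (μ := volume)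
  rw [← h2]
  simp

theorem rsf_utw_inner {F : ℝ → ℝ → ℝ} {W2 : ℝ → ℝ} {a2 b2 : ℝ}
    (h2 : Wt W2 a2 b2) (hF : Continuous (fun p : ℝ × ℝ => F p.1 p.2)) :
    (∀ u, Integrable (fun u' => W2 u' * F u u')) ∧
      Continuous (fun u => ∫ u' : ℝ, W2 u' * F u u') := by
  have hFu : ∀ u, Continuous (F u) := fun u => hF.comp (Continuous.prodMk continuous_const
    continuous_id)
  refine ⟨fun u => (wt_int_pr h2 (hFu u)).2.1, ?_⟩
  obtain ⟨D, hD⟩ := h2.bdd
  have hD0 : 0 ≤ D := (abs_nonneg _).trans (hD 0)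
  rw [continuous_iff_continuousAt]
  intro u0
  obtain ⟨B, hB⟩ := (IsCompact.prod (isCompact_Icc (a := u0 - 1) (b := u0 + 1))
    (isCompact_Icc (a := a2) (b := b2))).exists_bound_of_continuousOn hF.continuousOn
  have hi : Integrable (Set.indicator (Set.Icc a2 b2) (fun _ : ℝ => D * B)) := by
    rw [integrable_indicator_iff measurableSet_Icc]
    exact (continuousOn_const).integrableOn_compact isCompact_Icc
  refine continuousAt_of_dominated (bound := Set.indicator (Set.Icc a2 b2) (fun _ : ℝ => D * B))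
    ?_ ?_ hi ?_
  · exact Eventually.of_forall fun u => (h2.meas.mul (hFu u).measurable).aestronglyMeasurable
  · have : ∀ᶠ u in 𝓝 u0, u ∈ Set.Icc (u0 - 1) (u0 + 1) :=
      Icc_mem_nhds (by linarith) (by linarith)
    filter_upwards [this] with u hu
    refine ae_of_all _ fun u' => ?_
    by_cases hu' : u' ∈ Set.Icc a2 b2
    · rw [Set.indicator_of_mem hu', norm_mul]
      exact mul_le_mul (hD u') (hB (u, u') ⟨hu, hu'⟩) (norm_nonneg _) hD0
    · rw [Set.indicator_of_notMem hu', h2.supp u' hu']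
      simp
  · refine ae_of_all _ fun u' => ?_
    have : Continuous (fun u => F u u') := hF.comp (Continuous.prodMk continuous_id
      continuous_const)
    exact (continuous_const.mul this).continuousAt

theorem bi_add_pr {F G : ℝ → ℝ → ℝ} {W1 W2 : ℝ → ℝ} {a1 b1 a2 b2 : ℝ} (h1 : Wt W1 a1 b1)
    (h2 : Wt W2 a2 b2) (hF : Continuous (fun p : ℝ × ℝ => F p.1 p.2))
    (hG : Continuous (fun p : ℝ × ℝ => G p.1 p.2)) (x y : ℝ) :
    bi (fun u u' => x * F u u' + y * G u u') W1 W2 = x * bi F W1 W2 + y * bi G W1 W2 := by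
  obtain ⟨hF1, hF2⟩ := rsf_utw_inner h2 hF
  obtain ⟨hG1, hG2⟩ := rsf_utw_inner h2 hG
  have h3 : ∀ u, ∫ u' : ℝ, W2 u' * (x * F u u' + y * G u u') =
      x * (∫ u' : ℝ, W2 u' * F u u') + y * ∫ u' : ℝ, W2 u' * G u u' := by
    intro u
    rw [← integral_const_mul, ← integral_const_mul,
      ← integral_add ((hF1 u).const_mul x) ((hG1 u).const_mul y)]
    refine integral_congr_ae (ae_of_all _ fun u' => ?_)
    show W2 u' * (x * F u u' + y * G u u') = x * (W2 u' * F u u') + y * (W2 u' * G u u')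
    ring
  unfold bi
  simp only [h3]
  rw [← integral_const_mul, ← integral_const_mul,
    ← integral_add ((wt_int_pr h1 hF2).2.1.const_mul x) ((wt_int_pr h1 hG2).2.1.const_mul y)]
  refine integral_congr_ae (ae_of_all _ fun u => ?_)
  show W1 u * (x * _ + y * _) = x * (W1 u * _) + y * (W1 u * _)
  ring

end Pool.Agent.RSF

namespace Pool.Agent.RSF

alias wt_int := wt_int_pr

alias wt_l1 := wt_l1_pr

alias wt_shift := wt_shift_pr

alias wt_refl := wt_refl_pr

alias wt_mono := wt_mono_pr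

alias wt_sup := wt_sup_pr

alias wt_fam := wt_fam_pr

alias bi_bound := bi_bound_pr

alias bi_shift := bi_shift_pr

alias bi_add := bi_add_pr

end Pool.Agent.RSF
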