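import Pool.Agent.Lib_helper39.RSF.Defs
import Pool.Agent.Lib_helper39.RSF.KG1
import Pool.Agent.Lib_helper39.RSF.PFM
import Pool.Agent.Lib_helper39.RSF.SMO2
import Pool.Agent.Lib_helper39.RSF.AMB2
import Pool.Agent.Lib_helper39.RSF.DSQ
import Pool.Agent.Lib_helper39.RSF.XLIM
import Pool.Agent.Lib_helper39.RSF.XR2
import Pool.Agent.Lib_helper39.RSF.DDE
import Pool.Agent.Lib_helper39.RSF.DFO
import Pool.Agent.Lib_helper39.RSF.DOD
import Pool.Agent.Lib_helper39.RSF.M4B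
import Pool.Agent.Lib_helper39.RSF.FUI
import Pool.Agent.Lib_helper39.RSA.XR6
import Pool.Agent.Lib_helper39.RSA.PRM
import Pool.Agent.Lib_helper39.RSA.SOB
import Pool.Agent.Lib_helper39.RSA.BNS
import Pool.Agent.Lib_helper39.RSA.QLA
import Pool.Agent.Lib_helper39.RSA.QLB
import Pool.Agent.Lib_helper39.RSA.PER
import Pool.Agent.Lib_helper39.RSA.AVE
import Pool.Agent.Lib_helper39.RSA.CUT1
import Pool.Agent.Lib_helper39.RSA.CUT2
import Pool.Agent.Lib_helper24.ABS.Endgame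
import Pool.Agent.Lib_helper39.RSA.XRK
import Pool.Agent.Lib_helper39.RSA.RKM
import Pool.Agent.Lib_helper39.RSG.UTW
/-!
# RSF, block BIL: bilinear forms of the diagonal as limits of averages
-/

namespace Pool.Agent.RSF

open Complex MeasureTheory Filter Topology
open Pool.Agent.RC (cc psi rv f0 IsRC Good gm pr DD)
open Pool.Agent.RSE
open scoped ContDiff

theorem rsf_bil_fast {g : ℝ → ℝ} (hg : Ker1 g) : ∃ C : ℝ, 0 ≤ C ∧
    ∀ (n : ℕ) (v : ℝ), 0 < n → |g (Real.log n + v)| ≤ C * ((n : ℝ) ^ 2)⁻¹ * Real.exp (-2 * v) := by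
  obtain ⟨C, hC⟩ := hg.fast 0 2 (by norm_num)
  simp only [iteratedDeriv_zero] at hC
  refine ⟨C, ?_, ?_⟩
  · have := hC 0
    simp only [mul_zero, Real.exp_zero, mul_one] at this
    exact (abs_nonneg _).trans this
  · intro n v hn
    have h := hC (Real.log n + v)
    have hn' : (0 : ℝ) < n := by exact_mod_cast hn
    have e : Real.exp (-2 * (Real.log n + v)) = ((n : ℝ) ^ 2)⁻¹ * Real.exp (-2 * v) := by
      rw [mul_add, Real.exp_add]
      congr 1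
      rw [show (-2 : ℝ) * Real.log n = -(Real.log ((n : ℝ) ^ 2)) by rw [Real.log_pow]; push_cast; ring,
        Real.exp_neg, Real.exp_log (by positivity)]
    rw [e] at h
    rw [mul_assoc]
    exact h

/-- the bound of one term of the series -/
theorem rsf_bil_term {g : ℝ → ℝ} {C : ℝ} (hC0 : 0 ≤ C) (hC : ∀ (n : ℕ) (v : ℝ), 0 < n →
    |g (Real.log n + v)| ≤ C * ((n : ℝ) ^ 2)⁻¹ * Real.exp (-2 * v)) (S T : Finset ℕ) (n : ℕ)
    {v w : ℝ} (h : w ≤ v) : ‖xS S T n / √(n : ℝ) * g (Real.log n + v)‖ ≤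
      C * ((n : ℝ) ^ 2)⁻¹ * Real.exp (-2 * w) := by
  rcases Nat.eq_zero_or_pos n with rfl | hn
  · have : xS S T 0 = 0 := by unfold xS; rw [if_neg (by simp)]
    rw [this, zero_div, zero_mul, norm_zero]; positivity
  · rw [norm_mul, norm_div, Real.norm_eq_abs, Real.norm_eq_abs, Real.norm_eq_abs,
      abs_of_nonneg (Real.sqrt_nonneg _)]
    have h1 : |xS S T n| / √(n : ℝ) ≤ 1 := by
      refine le_trans ?_ (rse_rkm_inv_sqrt hn)
      exact div_le_div_of_nonneg_right (rse_rkm_xS S T n) (Real.sqrt_nonneg _)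
    calc |xS S T n| / √(n : ℝ) * |g (Real.log n + v)|
        ≤ 1 * (C * ((n : ℝ) ^ 2)⁻¹ * Real.exp (-2 * v)) :=
          mul_le_mul h1 (hC n v hn) (abs_nonneg _) zero_le_one
      _ = C * ((n : ℝ) ^ 2)⁻¹ * Real.exp (-2 * v) := one_mul _
      _ ≤ _ := mul_le_mul_of_nonneg_left (Real.exp_le_exp.mpr (by linarith)) (by positivity)

theorem rsf_bil_summ (C w : ℝ) : Summable (fun n : ℕ => C * ((n : ℝ) ^ 2)⁻¹ * Real.exp (-2 * w)) :=
  ((Real.summable_nat_pow_inv.mpr (by norm_num)).mul_left C).mul_right _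

theorem rsf_bil_fX_cont {g Θ : ℝ → ℝ} (hg : Ker1 g) (L : ℝ) (R : ℕ) (S T : Finset ℕ) :
    Continuous (fX g Θ L R S T) := by
  obtain ⟨C, hC0, hC⟩ := rsf_bil_fast hg
  have hgc : Continuous g := hg.smooth.continuous
  have base : ∀ c : ℝ, Continuous fun u : ℝ =>
      ∑' n : ℕ, xS S T n / √(n : ℝ) * g (Real.log n + (u + c)) := by
    intro c
    rw [continuous_iff_continuousAt]
    intro u0
    have key : ContinuousOn (fun u : ℝ =>
        ∑' n : ℕ, xS S T n / √(n : ℝ) * g (Real.log n + (u + c))) (Set.Ioi (u0 - 1)) := by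
      refine continuousOn_tsum (u := fun n : ℕ => C * ((n : ℝ) ^ 2)⁻¹ *
        Real.exp (-2 * (u0 - 1 + c))) ?_ (rsf_bil_summ C _) ?_
      · intro n
        exact (continuous_const.mul (hgc.comp (by fun_prop))).continuousOn
      · intro n u hu
        have hu' : u0 - 1 < u := hu
        exact rsf_bil_term hC0 hC S T n (by linarith)
    exact key.continuousAt (Ioi_mem_nhds (by linarith))
  have e : fX g Θ L R S T = fun u => ∑ k ∈ KL L, ∑ l ∈ KL L,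
      be Θ L R k * be Θ L R l * xS S T (k * l) / √((k : ℝ) * l) *
      ∑' n : ℕ, xS S T n / √(n : ℝ) * g (Real.log n + (u + (Real.log k - Real.log l))) := by
    funext u
    unfold fX
    simp only [add_sub_assoc]
  rw [e]
  exact continuous_finsetSum _ fun k _ => continuous_finsetSum _ fun l _ =>
    continuous_const.mul (base _)

/-- uniform bound on half lines -/
theorem rsf_bil_fX_bd {g Θ : ℝ → ℝ} (hg : Ker1 g) (L : ℝ) (R : ℕ) (a : ℝ) :
    ∃ B : ℝ, 0 ≤ B ∧ ∀ (S T : Finset ℕ) (u : ℝ), a ≤ u → |fX g Θ L R S T u| ≤ B := by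
  obtain ⟨C, hC0, hC⟩ := rsf_bil_fast hg
  refine ⟨∑ k ∈ KL L, ∑ l ∈ KL L, |be Θ L R k * be Θ L R l| / √((k : ℝ) * l) *
    ∑' n : ℕ, C * ((n : ℝ) ^ 2)⁻¹ * Real.exp (-2 * (a + Real.log k - Real.log l)),
    Finset.sum_nonneg fun k _ => Finset.sum_nonneg fun l _ => mul_nonneg (by positivity)
      (tsum_nonneg fun n => by positivity), fun S T u hu => ?_⟩
  unfold fX
  refine (Finset.abs_sum_le_sum_abs _ _).trans (Finset.sum_le_sum fun k _ => ?_)
  refine (Finset.abs_sum_le_sum_abs _ _).trans (Finset.sum_le_sum fun l _ => ?_)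
  rw [abs_mul]
  refine mul_le_mul ?_ ?_ (abs_nonneg _) (by positivity)
  · rw [abs_div, abs_of_nonneg (Real.sqrt_nonneg _), abs_mul _ (xS S T (k * l))]
    refine div_le_div_of_nonneg_right ?_ (Real.sqrt_nonneg _)
    exact mul_le_of_le_one_right (abs_nonneg _) (rse_rkm_xS S T _)
  · rw [← Real.norm_eq_abs]
    exact tsum_of_norm_bounded (rsf_bil_summ C _).hasSum fun n =>
      rsf_bil_term hC0 hC S T n (by linarith)

/-- the average of products -/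
noncomputable def rsf_bil_A (g Θ : ℝ → ℝ) (L : ℝ) (R m Y : ℕ) (u u' : ℝ) : ℝ :=
  avg (SY m Y) (fun T => fX g Θ L R (SY m Y) T u * fX g Θ L R (SY m Y) T u')

theorem rsf_bil_avg_abs {S : Finset ℕ} {F : Finset ℕ → ℝ} {B : ℝ} (h : ∀ T, |F T| ≤ B) :
    |avg S F| ≤ B := by
  refine (rse_rkm_avg_abs S F).trans ?_
  refine (rse_rkm_avg_mono S _ (fun _ => B) h).trans (le_of_eq ?_)
  unfold avg
  rw [Finset.sum_const, Finset.card_powerset, nsmul_eq_mul]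
  push_cast
  field_simp

theorem rsf_bil_A_bd {g Θ : ℝ → ℝ} {L : ℝ} {R m : ℕ} {a a' B B' : ℝ} (hB0 : 0 ≤ B)
    (hB : ∀ (S T : Finset ℕ) (u : ℝ), a ≤ u → |fX g Θ L R S T u| ≤ B)
    (hB' : ∀ (S T : Finset ℕ) (u : ℝ), a' ≤ u → |fX g Θ L R S T u| ≤ B') (Y : ℕ) {u u' : ℝ}
    (hu : a ≤ u) (hu' : a' ≤ u') : |rsf_bil_A g Θ L R m Y u u'| ≤ B * B' := by
  refine rsf_bil_avg_abs fun T => ?_
  rw [abs_mul]
  exact mul_le_mul (hB _ _ _ hu) (hB' _ _ _ hu') (abs_nonneg _) hB0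

theorem rsf_bil_in {g Θ : ℝ → ℝ} (hg : Ker1 g) (L : ℝ) (R m Y : ℕ) {W : ℝ → ℝ} {a b : ℝ}
    (h : Wt W a b) (u : ℝ) : ∫ u' : ℝ, W u' * rsf_bil_A g Θ L R m Y u u' =
      avg (SY m Y) (fun T => fX g Θ L R (SY m Y) T u * ∫ u' : ℝ, fX g Θ L R (SY m Y) T u' * W u') := by
  have h1 : ∀ T, Integrable (fun u' => fX g Θ L R (SY m Y) T u *
      (fX g Θ L R (SY m Y) T u' * W u')) := fun T =>
    (wt_int h (rsf_bil_fX_cont hg L R _ T)).1.const_mul _
  have h2 := (rse_xrk_avg_int (SY m Y) _ h1).2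
  simp only [integral_const_mul] at h2
  rw [h2]
  refine integral_congr_ae (ae_of_all _ fun u' => ?_)
  simp only
  unfold rsf_bil_A
  rw [← rse_xrk_avg_mul]
  congr 1
  funext T
  ring

theorem rsf_bil_out {g Θ : ℝ → ℝ} (hg : Ker1 g) (L : ℝ) (R m Y : ℕ)
    {W1 W2 : ℝ → ℝ} {a1 b1 a2 b2 : ℝ} (h1 : Wt W1 a1 b1) (h2 : Wt W2 a2 b2) :
    avg (SY m Y) (fun T =>
      (∫ u : ℝ, fX g Θ L R (SY m Y) T u * W1 u) * ∫ u : ℝ, fX g Θ L R (SY m Y) T u * W2 u) =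
    ∫ u : ℝ, W1 u * ∫ u' : ℝ, W2 u' * rsf_bil_A g Θ L R m Y u u' := by
  have h3 : ∀ T, Integrable (fun u => fX g Θ L R (SY m Y) T u * W1 u *
      ∫ u' : ℝ, fX g Θ L R (SY m Y) T u' * W2 u') := fun T =>
    (wt_int h1 (rsf_bil_fX_cont hg L R _ T)).1.mul_const _
  have h4 := (rse_xrk_avg_int (SY m Y) _ h3).2
  simp only [integral_mul_const] at h4
  rw [h4]
  refine integral_congr_ae (ae_of_all _ fun u => ?_)
  simp only
  rw [rsf_bil_in hg L R m Y h2, ← rse_xrk_avg_mul]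
  congr 1
  funext T
  ring

theorem rsf_bil_mul_le {W : ℝ → ℝ} {a b : ℝ} (h : Wt W a b) {x B : ℝ} (u : ℝ)
    (hx : a ≤ u → |x| ≤ B) : ‖W u * x‖ ≤ |W u| * B := by
  rw [norm_mul, Real.norm_eq_abs, Real.norm_eq_abs]
  by_cases hu : u ∈ Set.Icc a b
  · exact mul_le_mul_of_nonneg_left (hx hu.1) (abs_nonneg _)
  · rw [h.supp u hu]
    simp

theorem rsf_bil_abs_int {W : ℝ → ℝ} {a b : ℝ} (h : Wt W a b) : Integrable (fun u => |W u|) :=
  (wt_int h (continuous_const (y := (0 : ℝ)))).2.2.2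

theorem rsf_bil_A_cont {g Θ : ℝ → ℝ} (hg : Ker1 g) (L : ℝ) (R m Y : ℕ) (u : ℝ) :
    Continuous (fun u' => rsf_bil_A g Θ L R m Y u u') := by
  unfold rsf_bil_A avg
  exact (continuous_finsetSum _ fun T _ => continuous_const.mul
    (rsf_bil_fX_cont hg L R _ T)).div_const _

theorem rsf_bil_I_cont {g Θ : ℝ → ℝ} (hg : Ker1 g) (L : ℝ) (R m Y : ℕ) {W : ℝ → ℝ} {a b : ℝ}
    (h : Wt W a b) : Continuous (fun u => ∫ u' : ℝ, W u' * rsf_bil_A g Θ L R m Y u u') := by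
  simp only [rsf_bil_in hg L R m Y h]
  unfold avg
  exact (continuous_finsetSum _ fun T _ => (rsf_bil_fX_cont hg L R _ T).mul
    continuous_const).div_const _

theorem bi_lim_pr {g Θ : ℝ → ℝ} (hg : Ker1 g) (L : ℝ) (R m : ℕ) (hm : 0 < m)
    {W1 W2 : ℝ → ℝ} {a1 b1 a2 b2 : ℝ} (h1 : Wt W1 a1 b1) (h2 : Wt W2 a2 b2) :
    Tendsto (fun Y : ℕ => avg (SY m Y) (fun T =>
      (∫ u : ℝ, fX g Θ L R (SY m Y) T u * W1 u) * ∫ u : ℝ, fX g Θ L R (SY m Y) T u * W2 u))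
      atTop (𝓝 (bi (Dg g Θ L R m) W1 W2)) := by
  simp only [rsf_bil_out hg L R m _ h1 h2]
  unfold bi
  obtain ⟨B1, hB10, hB1⟩ := rsf_bil_fX_bd (Θ := Θ) hg L R a1
  obtain ⟨B2, hB20, hB2⟩ := rsf_bil_fX_bd (Θ := Θ) hg L R a2
  have w2 := rsf_bil_abs_int h2
  have w1 := rsf_bil_abs_int h1
  -- the inner integral
  have hin : ∀ u : ℝ, Tendsto (fun Y : ℕ => ∫ u' : ℝ, W2 u' * rsf_bil_A g Θ L R m Y u u') atTop
      (𝓝 (∫ u' : ℝ, W2 u' * Dg g Θ L R m u u')) := by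
    intro u
    obtain ⟨B, hB0, hB⟩ := rsf_bil_fX_bd (Θ := Θ) hg L R u
    refine tendsto_integral_of_dominated_convergence (fun u' => |W2 u'| * (B * B2))
      (fun Y => ?_) (w2.mul_const _) (fun Y => ae_of_all _ fun u' => ?_)
      (ae_of_all _ fun u' => ?_)
    · exact h2.meas.aestronglyMeasurable.mul (rsf_bil_A_cont hg L R m Y u).aestronglyMeasurable
    · exact rsf_bil_mul_le h2 u' fun hu' => rsf_bil_A_bd hB0 hB hB2 Y le_rfl hu'
    · exact (x_lim (Θ := Θ) hg L R m hm u u').const_mul _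
  refine tendsto_integral_of_dominated_convergence
    (fun u => |W1 u| * (B1 * B2 * ∫ u' : ℝ, |W2 u'|))
    (fun Y => ?_) (w1.mul_const _) (fun Y => ae_of_all _ fun u => ?_)
    (ae_of_all _ fun u => ?_)
  · exact h1.meas.aestronglyMeasurable.mul (rsf_bil_I_cont hg L R m Y h2).aestronglyMeasurable
  · refine rsf_bil_mul_le h1 u fun hu => ?_
    rw [← Real.norm_eq_abs, ← integral_const_mul]
    refine (norm_integral_le_integral_norm _).trans ?_
    refine integral_mono_of_nonneg (ae_of_all _ fun u' => norm_nonneg _) (w2.const_mul _)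
      (ae_of_all _ fun u' => ?_)
    have := rsf_bil_mul_le h2 (x := rsf_bil_A g Θ L R m Y u u') u'
      fun hu' => rsf_bil_A_bd (m := m) hB10 hB1 hB2 Y hu hu'
    simp only
    rw [mul_comm (B1 * B2)]
    exact this
  · exact (hin u).const_mul _

theorem bi_nonneg_pr {g Θ : ℝ → ℝ} (hg : Ker1 g) (L : ℝ) (R m : ℕ) (hm : 0 < m)
    {W : ℝ → ℝ} {a b : ℝ} (h : Wt W a b) : 0 ≤ bi (Dg g Θ L R m) W W := by
  refine ge_of_tendsto' (bi_lim_pr (Θ := Θ) hg L R m hm h h) fun Y => ?_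
  exact rse_rkm_avg_nonneg _ _ fun T => mul_self_nonneg _

theorem bi_cs_pr {g Θ : ℝ → ℝ} (hg : Ker1 g) (L : ℝ) (R m : ℕ) (hm : 0 < m)
    {W1 W2 : ℝ → ℝ} {a1 b1 a2 b2 : ℝ} (h1 : Wt W1 a1 b1) (h2 : Wt W2 a2 b2) :
    |bi (Dg g Θ L R m) W1 W2| ≤
      (bi (Dg g Θ L R m) W1 W1 + bi (Dg g Θ L R m) W2 W2) / 2 := by
  have k1 := (bi_lim_pr (Θ := Θ) hg L R m hm h1 h2).abs
  have k2 := ((bi_lim_pr (Θ := Θ) hg L R m hm h1 h1).add
    (bi_lim_pr (Θ := Θ) hg L R m hm h2 h2)).div_const 2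
  refine le_of_tendsto_of_tendsto' k1 k2 fun Y => ?_
  refine (rse_rkm_avg_abs _ _).trans ?_
  rw [← rse_rkm_avg_half]
  refine rse_rkm_avg_mono _ _ _ fun T => ?_
  rw [abs_mul]
  set x := ∫ u : ℝ, fX g Θ L R (SY m Y) T u * W1 u
  set y := ∫ u : ℝ, fX g Θ L R (SY m Y) T u * W2 u
  nlinarith [sq_nonneg (|x| - |y|), sq_abs x, sq_abs y]

end Pool.Agent.RSF

namespace Pool.Agent.RSF

alias bi_lim := bi_lim_pr

alias bi_nonneg := bi_nonneg_pr

alias bi_cs := bi_cs_pr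

end Pool.Agent.RSF
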