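import Pool.Agent.Lib_helper39.RSF.Defs
import Pool.Agent.Lib_helper39.RSF.KG1
import Pool.Agent.Lib_helper39.RSF.PFM
import Pool.Agent.Lib_helper39.RSF.SMO2
import Pool.Agent.Lib_helper39.RSF.AMB2
import Pool.Agent.Lib_helper39.RSF.DSQ
import Pool.Agent.Lib_helper39.RSF.XLIM
import Pool.Agent.Lib_helper39.RSF.XR2
import Pool.Agent.Lib_helper39.RSF.DDE
import Pool.Agent.Lib_helper39.RSF.DFO
import Pool.Agent.Lib_helper39.RSF.DOD
import Pool.Agent.Lib_helper39.RSF.M4B
import Pool.Agent.Lib_helper39.RSF.FUI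
import Pool.Agent.Lib_helper39.RSA.XR6
import Pool.Agent.Lib_helper39.RSA.PRM
import Pool.Agent.Lib_helper39.RSA.SOB
import Pool.Agent.Lib_helper39.RSA.BNS
import Pool.Agent.Lib_helper39.RSA.QLA
import Pool.Agent.Lib_helper39.RSA.QLB
import Pool.Agent.Lib_helper39.RSA.PER
import Pool.Agent.Lib_helper39.RSA.AVE
import Pool.Agent.Lib_helper39.RSA.CUT1
import Pool.Agent.Lib_helper39.RSA.CUT2
import Pool.Agent.Lib_helper24.ABS.Endgame
import Pool.Agent.Lib_helper39.RSA.DIL
import Pool.Agent.Lib_helper39.RSA.RB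
import Pool.Agent.Lib_helper39.RSA.SQF
import Pool.Agent.Lib_helper39.RSG.AAL
/-!
# Selberg's theorem for real characters, all windows: block SQL
-/

namespace Pool.Agent.RSF

open Complex MeasureTheory Filter Topology
open Pool.Agent.RSE
open scoped ContDiff

/-! ## Bounds for AA -/

theorem rsf_sql_exp_le (x : ℝ) : Real.exp (-|x| / 4) ≤ 1 :=
  Real.exp_le_one_iff.2 (by have := abs_nonneg x; linarith)

theorem rsf_sql_A {g : ℝ → ℝ} (hg : Ker1 g) : ∃ C : ℝ, 0 < C ∧ ∀ (m : ℕ) (x : ℝ), 0 < m →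
    |AA g m x| ≤ C * E1 m * (Real.exp (-|x| / 4) + if x < 0 then 1 else 0) ∧
    |AA g m x| ≤ C * E1 m := by
  obtain ⟨C0, hC0, h⟩ := aal_bound hg
  refine ⟨C0 + |∫ z : ℝ, g z|, by positivity, ?_⟩
  intro m x hm
  have hE : 1 ≤ E1 m := E1_pos m
  have h1 := h m x hm
  obtain ⟨hc0, hc1⟩ := cA_bd m
  set I := |∫ z : ℝ, g z| with hI
  have hI0 : 0 ≤ I := abs_nonneg _
  set e := Real.exp (-|x| / 4) with he
  have he0 : 0 < e := Real.exp_pos _
  have he1 : e ≤ 1 := rsf_sql_exp_le x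
  have h2 : |AA g m x| ≤ C0 * E1 m * e + (if x < 0 then I else 0) := by
    have h3 : |if x < 0 then cA m * ∫ z : ℝ, g z else 0| ≤ (if x < 0 then I else 0) := by
      split_ifs
      · rw [abs_mul, abs_of_nonneg hc0]
        nlinarith
      · simp
    have h4 := abs_add_le (AA g m x - (if x < 0 then cA m * ∫ z : ℝ, g z else 0))
      (if x < 0 then cA m * ∫ z : ℝ, g z else 0)
    rw [sub_add_cancel] at h4
    linarith
  have hCE : 0 ≤ C0 * E1 m := by positivity
  have hIE : I ≤ I * E1 m := le_mul_of_one_le_right hI0 hE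
  have hIE0 : 0 ≤ I * E1 m := by positivity
  split_ifs at h2 ⊢ with hx
  · constructor
    · nlinarith
    · nlinarith
  · constructor
    · nlinarith
    · nlinarith

theorem rsf_sql_B {g : ℝ → ℝ} (hg : Ker1 g) : ∃ C : ℝ, 0 < C ∧ ∀ (m : ℕ) (x : ℝ), 0 < m →
    |AA (deriv g) m x| ≤ C * E1 m * Real.exp (-|x| / 4) := by
  obtain ⟨C0, hC0, h⟩ := aal_bound (kern_deriv hg)
  refine ⟨C0, hC0, ?_⟩
  intro m x hm
  have h1 := h m x hm
  rw [int_deriv hg, mul_zero, ite_self, sub_zero] at h1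
  exact h1

/-- The product. -/
noncomputable def rsf_sql_Fn (g : ℝ → ℝ) (m : ℕ) (x1 x2 y : ℝ) : ℝ :=
  AA g m (y + x1) * AA g m (y + x2)

/-- Its derivative. -/
noncomputable def rsf_sql_Fd (g : ℝ → ℝ) (m : ℕ) (x1 x2 y : ℝ) : ℝ :=
  AA (deriv g) m (y + x1) * AA g m (y + x2) + AA g m (y + x1) * AA (deriv g) m (y + x2)

theorem rsf_sql_der {g : ℝ → ℝ} (hg : Ker1 g) (m : ℕ) (x1 x2 : ℝ) :
    (∀ y : ℝ, HasDerivAt (rsf_sql_Fn g m x1 x2) (rsf_sql_Fd g m x1 x2 y) y) ∧
    Continuous (rsf_sql_Fd g m x1 x2) ∧ Continuous (rsf_sql_Fn g m x1 x2) := by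
  have hd : ∀ x y : ℝ, HasDerivAt (fun y => AA g m (y + x)) (AA (deriv g) m (y + x)) y := by
    intro x y
    exact (aa_deriv hg m (y + x)).comp_add_const y x
  have hd' : ∀ x y : ℝ, HasDerivAt (fun y => AA (deriv g) m (y + x))
      (AA (deriv (deriv g)) m (y + x)) y := by
    intro x y
    exact (aa_deriv (kern_deriv hg) m (y + x)).comp_add_const y x
  have c : ∀ x, Continuous (fun y => AA g m (y + x)) := fun x =>
    continuous_iff_continuousAt.2 fun y => (hd x y).continuousAt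
  have c' : ∀ x, Continuous (fun y => AA (deriv g) m (y + x)) := fun x =>
    continuous_iff_continuousAt.2 fun y => (hd' x y).continuousAt
  refine ⟨fun y => (hd x1 y).mul (hd x2 y), ?_, ?_⟩
  · exact ((c' x1).mul (c x2)).add ((c x1).mul (c' x2))
  · exact (c x1).mul (c x2)

theorem rsf_sql_F {g : ℝ → ℝ} (hg : Ker1 g) : ∃ A : ℝ, 0 < A ∧ ∀ (m : ℕ) (x1 x2 y : ℝ), 0 < m →
    |rsf_sql_Fn g m x1 x2 y| ≤
      A * E1 m ^ 2 * (Real.exp (-|y + x1| / 4) + if y + x1 < 0 then 1 else 0) ∧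
    |rsf_sql_Fd g m x1 x2 y| ≤
      A * E1 m ^ 2 * (Real.exp (-|y + x1| / 4) + Real.exp (-|y + x2| / 4)) := by
  obtain ⟨C1, hC1, h1⟩ := rsf_sql_A hg
  obtain ⟨C2, hC2, h2⟩ := rsf_sql_B hg
  refine ⟨C1 * C1 + C1 * C2, by positivity, ?_⟩
  intro m x1 x2 y hm
  have hE : 1 ≤ E1 m := E1_pos m
  have hE0 : 0 ≤ E1 m := by linarith
  have e1 : 0 < Real.exp (-|y + x1| / 4) := Real.exp_pos _
  have e2 : 0 < Real.exp (-|y + x2| / 4) := Real.exp_pos _
  obtain ⟨a1, a1'⟩ := h1 m (y + x1) hm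
  obtain ⟨a2, a2'⟩ := h1 m (y + x2) hm
  have b1 := h2 m (y + x1) hm
  have b2 := h2 m (y + x2) hm
  constructor
  · unfold rsf_sql_Fn
    rw [abs_mul]
    have hif : (0 : ℝ) ≤ Real.exp (-|y + x1| / 4) + if y + x1 < 0 then 1 else 0 := by
      split_ifs <;> linarith
    calc |AA g m (y + x1)| * |AA g m (y + x2)|
        ≤ (C1 * E1 m * (Real.exp (-|y + x1| / 4) + if y + x1 < 0 then 1 else 0)) * (C1 * E1 m) :=
          mul_le_mul a1 a2' (abs_nonneg _) (by positivity)
      _ = C1 * C1 * E1 m ^ 2 * (Real.exp (-|y + x1| / 4) + if y + x1 < 0 then 1 else 0) := by ring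
      _ ≤ _ := by
          gcongr
          have : 0 < C1 * C2 := by positivity
          linarith
  · unfold rsf_sql_Fd
    have t1 : |AA (deriv g) m (y + x1) * AA g m (y + x2)| ≤
        C2 * E1 m * Real.exp (-|y + x1| / 4) * (C1 * E1 m) := by
      rw [abs_mul]
      exact mul_le_mul b1 a2' (abs_nonneg _) (by positivity)
    have t2 : |AA g m (y + x1) * AA (deriv g) m (y + x2)| ≤
        C1 * E1 m * (C2 * E1 m * Real.exp (-|y + x2| / 4)) := by
      rw [abs_mul]
      exact mul_le_mul a1' b2 (abs_nonneg _) (by positivity)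
    refine (abs_add_le _ _).trans ((add_le_add t1 t2).trans ?_)
    calc C2 * E1 m * Real.exp (-|y + x1| / 4) * (C1 * E1 m) +
          C1 * E1 m * (C2 * E1 m * Real.exp (-|y + x2| / 4))
        = C1 * C2 * E1 m ^ 2 * (Real.exp (-|y + x1| / 4) + Real.exp (-|y + x2| / 4)) := by ring
      _ ≤ _ := by
          gcongr
          have : 0 < C1 * C1 := by positivity
          linarith

/-! ## The sum over `h` -/

theorem rsf_sql_harm (x : ℝ) :
    Summable (fun h : ℕ => if 0 < h ∧ Real.log h + x < 0 then (1 : ℝ) / h else 0) ∧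
    ∑' h : ℕ, (if 0 < h ∧ Real.log h + x < 0 then (1 : ℝ) / h else 0) ≤ 1 + |x| := by
  have hz : ∀ h : ℕ, h ∉ Finset.Icc 1 ⌊Real.exp |x|⌋₊ →
      (if 0 < h ∧ Real.log h + x < 0 then (1 : ℝ) / h else 0) = 0 := by
    intro h hh
    rw [if_neg]
    rintro ⟨h1, h2⟩
    apply hh
    rw [Finset.mem_Icc]
    refine ⟨h1, Nat.le_floor ?_⟩
    have h3 : (0 : ℝ) < h := by exact_mod_cast h1
    rw [← Real.exp_log h3]
    apply Real.exp_le_exp.2
    have := neg_abs_le x
    linarith
  refine ⟨summable_of_ne_finset_zero hz, ?_⟩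
  rw [tsum_eq_sum hz]
  have h1 : (harmonic ⌊Real.exp |x|⌋₊ : ℝ) ≤ 1 + Real.log (Real.exp |x|) :=
    harmonic_floor_le_one_add_log _ (Real.one_le_exp (abs_nonneg x))
  rw [Real.log_exp] at h1
  refine le_trans ?_ h1
  rw [harmonic_eq_sum_Icc]
  push_cast
  refine Finset.sum_le_sum fun h _ => ?_
  split_ifs
  · rw [one_div]
  · positivity

theorem rsf_sql_T {g : ℝ → ℝ} (hg : Ker1 g) : ∃ C : ℝ, 0 < C ∧ ∀ (m s : ℕ) (x1 x2 : ℝ),
    0 < m → Summable (fun h : ℕ => if Odd h ∧ Squarefree h ∧ h.Coprime (m * s) then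
      1 / (h : ℝ) * (AA g m (Real.log h + x1) * AA g m (Real.log h + x2)) else 0) ∧
    |rse_dil_T g m s x1 x2| ≤ C * E1 m ^ 2 * (1 + |x1|) := by
  obtain ⟨A, hA, hF⟩ := rsf_sql_F hg
  obtain ⟨C, hC, hsum⟩ := rse_dil_sum
  refine ⟨A * (C + 1), by positivity, ?_⟩
  intro m s x1 x2 hm
  obtain ⟨hs, hb⟩ := hsum x1
  obtain ⟨hs', hb'⟩ := rsf_sql_harm x1
  have hE : 1 ≤ E1 m := E1_pos m
  have hle : ∀ h : ℕ, ‖(if Odd h ∧ Squarefree h ∧ h.Coprime (m * s) then
      1 / (h : ℝ) * (AA g m (Real.log h + x1) * AA g m (Real.log h + x2)) else 0)‖ ≤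
      A * E1 m ^ 2 * ((if 0 < h then (1 : ℝ) / h * Real.exp (-|Real.log h + x1| / 4) else 0) +
        (if 0 < h ∧ Real.log h + x1 < 0 then (1 : ℝ) / h else 0)) := by
    intro h
    by_cases hc : Odd h ∧ Squarefree h ∧ h.Coprime (m * s)
    · have hpos : 0 < h := hc.1.pos
      rw [if_pos hc, if_pos hpos, norm_mul, Real.norm_eq_abs, Real.norm_eq_abs,
        abs_of_nonneg (by positivity : (0 : ℝ) ≤ 1 / (h : ℝ))]
      have h1 := (hF m x1 x2 (Real.log h) hm).1
      unfold rsf_sql_Fn at h1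
      have h3 : (0 : ℝ) ≤ 1 / (h : ℝ) := by positivity
      have h4 : (if 0 < h ∧ Real.log h + x1 < 0 then (1 : ℝ) / h else 0) =
          1 / (h : ℝ) * (if Real.log h + x1 < 0 then 1 else 0) := by
        by_cases h5 : Real.log h + x1 < 0
        · rw [if_pos ⟨hpos, h5⟩, if_pos h5, mul_one]
        · rw [if_neg (fun h6 => h5 h6.2), if_neg h5, mul_zero]
      rw [h4]
      calc _ ≤ 1 / (h : ℝ) * (A * E1 m ^ 2 * (Real.exp (-|Real.log h + x1| / 4) +
            if Real.log h + x1 < 0 then 1 else 0)) := mul_le_mul_of_nonneg_left h1 h3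
        _ = _ := by ring
    · rw [if_neg hc, norm_zero]
      have h1 : (0 : ℝ) ≤ (if 0 < h then (1 : ℝ) / h * Real.exp (-|Real.log h + x1| / 4)
          else 0) := by
        split_ifs
        · positivity
        · exact le_rfl
      have h2 : (0 : ℝ) ≤ (if 0 < h ∧ Real.log h + x1 < 0 then (1 : ℝ) / h else 0) := by
        split_ifs
        · positivity
        · exact le_rfl
      positivity
  have hsb := (hs.add hs').mul_left (A * E1 m ^ 2)
  refine ⟨Summable.of_norm_bounded hsb hle, ?_⟩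
  have h1 := tsum_of_norm_bounded hsb.hasSum hle
  rw [Real.norm_eq_abs] at h1
  refine h1.trans ?_
  rw [tsum_mul_left, hs.tsum_add hs']
  have hx : 0 ≤ |x1| := abs_nonneg _
  calc _ ≤ A * E1 m ^ 2 * (C + (1 + |x1|)) :=
        mul_le_mul_of_nonneg_left (add_le_add hb hb') (by positivity)
    _ ≤ A * E1 m ^ 2 * ((C + 1) * (1 + |x1|)) := by
        gcongr
        nlinarith
    _ = _ := by ring

theorem rsf_sql_cmp (z y x σ : ℝ) (h : |z - y| ≤ |σ|) :
    Real.exp (-|z + x| / 4) ≤ Real.exp (|σ| / 4) * Real.exp (-|y + x| / 4) := by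
  rw [← Real.exp_add]
  apply Real.exp_le_exp.2
  have h1 : |y + x| ≤ |z + x| + |z - y| := by
    have h2 : y + x = (z + x) - (z - y) := by ring
    rw [h2]
    exact abs_sub _ _
  linarith

theorem rsf_sql_T2 {g : ℝ → ℝ} (hg : Ker1 g) : ∃ C : ℝ, 0 < C ∧
    ∀ (m s : ℕ) (x1 x2 τ : ℝ), 0 < m → Odd s →
    |rse_dil_T g m s (x1 + τ) (x2 + τ) + rse_dil_T g m s (x1 - τ) (x2 - τ) -
      2 * rse_dil_T g m s x1 x2| ≤
      C * √(s : ℝ) * E1 m ^ 3 * Real.exp |τ| * (Real.exp (x1 / 8) + Real.exp (x2 / 8)) := by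
  obtain ⟨A, hA, hFF⟩ := rsf_sql_F hg
  obtain ⟨C0, hC0, hT⟩ := rsf_sql_T hg
  obtain ⟨C, hC, hsq⟩ := sqf_sum
  set I0 : ℝ := ∫ y : ℝ, Real.exp (-(1 / 8) * y) * Real.exp (-(1 / 4 * |y|)) with hI0
  have hI0p : 0 ≤ I0 := integral_nonneg fun y => by positivity
  have hE2 : 1 ≤ E1 2 := E1_pos 2
  refine ⟨C * E1 2 * (8 * A * (I0 + 1)), by positivity, ?_⟩
  intro m s x1 x2 τ hm hs
  have hEm : 1 ≤ E1 m := E1_pos m
  have hspos : 0 < s := hs.pos
  obtain ⟨hd, hcd, hcn⟩ := rsf_sql_der hg m x1 x2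
  set F : ℝ → ℝ := rsf_sql_Fn g m x1 x2 with hFdef
  set F' : ℝ → ℝ := rsf_sql_Fd g m x1 x2 with hF'def
  set D : ℝ → ℝ := fun y => Real.exp (-|y + x1| / 4) + Real.exp (-|y + x2| / 4) with hD
  have hD0 : ∀ y, 0 ≤ D y := fun y => by positivity
  set B : ℝ := A * E1 m ^ 2 with hB
  have hB0 : 0 ≤ B := by positivity
  have hF'b : ∀ y, |F' y| ≤ B * D y := fun y => (hFF m x1 x2 y hm).2
  have hDs : ∀ z y σ : ℝ, |z - y| ≤ |σ| → D z ≤ Real.exp (|σ| / 4) * D y := by
    intro z y σ h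
    simp only [hD]
    rw [mul_add]
    exact add_le_add (rsf_sql_cmp z y x1 σ h) (rsf_sql_cmp z y x2 σ h)
  have hinc : ∀ y σ : ℝ, |F (y + σ) - F y| ≤ B * (Real.exp (|σ| / 4) * D y) * |σ| := by
    intro y σ
    have h1 := Convex.norm_image_sub_le_of_norm_hasDerivWithin_le (f := F) (f' := F')
      (C := B * (Real.exp (|σ| / 4) * D y)) (s := Metric.closedBall y |σ|) (x := y) (y := y + σ)
      (fun z _ => (hd z).hasDerivWithinAt)
      (fun z hz => by
        rw [Real.norm_eq_abs]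
        refine (hF'b z).trans (mul_le_mul_of_nonneg_left (hDs z y σ ?_) hB0)
        rw [Metric.mem_closedBall, Real.dist_eq] at hz
        exact hz)
      (convex_closedBall y |σ|) (Metric.mem_closedBall_self (abs_nonneg _))
      (by
        rw [Metric.mem_closedBall, Real.dist_eq]
        have : y + σ - y = σ := by ring
        rw [this])
    rw [Real.norm_eq_abs, Real.norm_eq_abs] at h1
    have : y + σ - y = σ := by ring
    rw [this] at h1
    exact h1
  -- integrability of D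
  have hDi : Integrable D := by
    have h1 := rse_dil_int (1 / 4) 0 (by norm_num)
    simp only [zero_mul, Real.exp_zero, one_mul] at h1
    have h2 : ∀ x : ℝ, Integrable (fun y : ℝ => Real.exp (-|y + x| / 4)) := by
      intro x
      refine (h1.comp_add_right x).congr (Filter.Eventually.of_forall fun y => ?_)
      show Real.exp (-(1 / 4 * |y + x|)) = Real.exp (-|y + x| / 4)
      congr 1
      ring
    exact (h2 x1).add (h2 x2)
  have hD8 : Integrable (fun y => Real.exp (-(1 / 8) * y) * D y) ∧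
      ∫ y, Real.exp (-(1 / 8) * y) * D y = (Real.exp (x1 / 8) + Real.exp (x2 / 8)) * I0 := by
    obtain ⟨p1, p2⟩ := rse_dil_int_shift x1
    obtain ⟨q1, q2⟩ := rse_dil_int_shift x2
    have he : (fun y => Real.exp (-(1 / 8) * y) * D y) = fun y =>
        Real.exp (-(1 / 8) * y) * Real.exp (-|y + x1| / 4) +
          Real.exp (-(1 / 8) * y) * Real.exp (-|y + x2| / 4) := by
      funext y
      simp only [hD]
      ring
    rw [he]
    refine ⟨p1.add q1, ?_⟩
    rw [integral_add p1 q1, p2, q2]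
    ring
  -- the function G
  set H : ℝ → ℝ := fun y => F (y + τ) - F y with hH
  have hHi : Integrable H := by
    refine (hDi.const_mul (B * Real.exp (|τ| / 4) * |τ|)).mono' ?_
      (Filter.Eventually.of_forall fun y => ?_)
    · exact ((hcn.comp (continuous_id.add continuous_const)).sub hcn).aestronglyMeasurable
    · rw [Real.norm_eq_abs]
      refine (hinc y τ).trans (le_of_eq ?_)
      ring
  set G : ℝ → ℝ := fun y => F (y + τ) + F (y - τ) - 2 * F y with hG
  set G' : ℝ → ℝ := fun y => F' (y + τ) + F' (y - τ) - 2 * F' y with hG'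
  have hGH : G = fun y => H y - H (y - τ) := by
    funext y
    simp only [hG, hH]
    rw [sub_add_cancel]
    ring
  have hGi : Integrable G := by
    rw [hGH]
    exact hHi.sub (hHi.comp_sub_right τ)
  have hG0 : ∫ y, G y = 0 := by
    rw [hGH, integral_sub hHi (hHi.comp_sub_right τ), integral_sub_right_eq_self H τ, sub_self]
  have hGd : ∀ y, HasDerivAt G (G' y) y := by
    intro y
    have h1 : HasDerivAt (fun y => F (y + τ)) (F' (y + τ)) y := (hd (y + τ)).comp_add_const y τ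
    have h2 : HasDerivAt (fun y => F (y - τ)) (F' (y - τ)) y := (hd (y - τ)).comp_sub_const y τ
    exact (h1.add h2).sub ((hd y).const_mul 2)
  have hG'c : Continuous G' :=
    ((hcd.comp (continuous_id.add continuous_const)).add
      (hcd.comp (continuous_id.sub continuous_const))).sub (continuous_const.mul hcd)
  have hEt : 1 ≤ Real.exp (|τ| / 4) := Real.one_le_exp (by positivity)
  have hGb : ∀ y, |G y| ≤ B * (2 * |τ| * Real.exp (|τ| / 4)) * D y := by
    intro y
    have h1 := hinc y τ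
    have h2 := hinc y (-τ)
    rw [abs_neg, ← sub_eq_add_neg] at h2
    have h3 : G y = (F (y + τ) - F y) + (F (y - τ) - F y) := by
      simp only [hG]
      ring
    rw [h3]
    refine (abs_add_le _ _).trans ((add_le_add h1 h2).trans (le_of_eq ?_))
    ring
  have hG'b : ∀ y, |G' y| ≤ B * (2 * Real.exp (|τ| / 4) + 2) * D y := by
    intro y
    have h1 : |F' (y + τ)| ≤ B * (Real.exp (|τ| / 4) * D y) :=
      (hF'b _).trans (mul_le_mul_of_nonneg_left (hDs _ y τ (by
        have : y + τ - y = τ := by ring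
        rw [this])) hB0)
    have h2 : |F' (y - τ)| ≤ B * (Real.exp (|τ| / 4) * D y) :=
      (hF'b _).trans (mul_le_mul_of_nonneg_left (hDs _ y τ (by
        have : y - τ - y = -τ := by ring
        rw [this, abs_neg])) hB0)
    have h3 := hF'b y
    simp only [hG']
    have h4 := abs_sub (F' (y + τ) + F' (y - τ)) (2 * F' y)
    have h5 := abs_add_le (F' (y + τ)) (F' (y - τ))
    rw [abs_mul, abs_of_pos (by norm_num : (0 : ℝ) < 2)] at h4
    nlinarith
  have hsum8 : ∀ y, |G y| + |G' y| ≤ 8 * B * Real.exp |τ| * D y := by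
    intro y
    have h1 := hGb y
    have h2 := hG'b y
    have h3 : 2 * |τ| * Real.exp (|τ| / 4) + (2 * Real.exp (|τ| / 4) + 2) ≤ 8 * Real.exp |τ| := by
      have k1 : 3 / 4 * |τ| + 1 ≤ Real.exp (3 / 4 * |τ|) := Real.add_one_le_exp _
      have k2 : Real.exp |τ| = Real.exp (3 / 4 * |τ|) * Real.exp (|τ| / 4) := by
        rw [← Real.exp_add]
        congr 1
        ring
      have k3 : Real.exp (|τ| / 4) ≤ Real.exp |τ| := by
        apply Real.exp_le_exp.2
        have := abs_nonneg τ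
        linarith
      have k4 : |τ| * Real.exp (|τ| / 4) ≤ 4 / 3 * Real.exp |τ| := by
        rw [k2]
        have := Real.exp_pos (|τ| / 4)
        nlinarith
      nlinarith
    have h4 := hD0 y
    calc |G y| + |G' y| ≤ B * (2 * |τ| * Real.exp (|τ| / 4)) * D y +
          B * (2 * Real.exp (|τ| / 4) + 2) * D y := add_le_add h1 h2
      _ = B * (2 * |τ| * Real.exp (|τ| / 4) + (2 * Real.exp (|τ| / 4) + 2)) * D y := by ring
      _ ≤ B * (8 * Real.exp |τ|) * D y := by gcongr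
      _ = _ := by ring
  -- apply sqf_sum
  set Gc : ℝ → ℂ := fun y => ((G y : ℝ) : ℂ) with hGc
  have hGcd : ∀ y, HasDerivAt Gc ((G' y : ℝ) : ℂ) y := fun y => (hGd y).ofReal_comp
  have hGcder : deriv Gc = fun y => ((G' y : ℝ) : ℂ) := by
    funext y
    exact (hGcd y).deriv
  have hGcc : ContDiff ℝ 1 Gc := by
    rw [contDiff_one_iff_deriv]
    refine ⟨fun y => (hGcd y).differentiableAt, ?_⟩
    rw [hGcder]
    exact Complex.continuous_ofReal.comp hG'c
  have hGci : Integrable Gc := hGi.ofReal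
  have hG'i : Integrable G' := by
    refine (hDi.const_mul (8 * B * Real.exp |τ|)).mono' hG'c.aestronglyMeasurable
      (Filter.Eventually.of_forall fun y => ?_)
    rw [Real.norm_eq_abs]
    have := hsum8 y
    have := abs_nonneg (G y)
    linarith
  have hGcdi : Integrable (deriv Gc) := by
    rw [hGcder]
    exact hG'i.ofReal
  have hnorm : ∀ y, ‖Gc y‖ + ‖deriv Gc y‖ = |G y| + |G' y| := by
    intro y
    rw [hGcder]
    simp only [hGc, Complex.norm_real, Real.norm_eq_abs]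
  have hle : ∀ y : ℝ, Real.exp (-(1 / 8) * y) * (‖Gc y‖ + ‖deriv Gc y‖) ≤
      8 * B * Real.exp |τ| * (Real.exp (-(1 / 8) * y) * D y) := by
    intro y
    rw [hnorm]
    calc _ ≤ Real.exp (-(1 / 8) * y) * (8 * B * Real.exp |τ| * D y) :=
          mul_le_mul_of_nonneg_left (hsum8 y) (Real.exp_pos _).le
      _ = _ := by ring
  have hdom := hD8.1.const_mul (8 * B * Real.exp |τ|)
  have hint : Integrable (fun y => Real.exp (-(1 / 8 : ℝ) * y) * (‖Gc y‖ + ‖deriv Gc y‖)) := by
    refine hdom.mono' ?_ (Filter.Eventually.of_forall fun y => ?_)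
    · have hcd' := hGcc.continuous_deriv le_rfl
      have hcc' := hGcc.continuous
      exact ((Real.continuous_exp.comp (continuous_const.mul continuous_id)).mul
        (hcc'.norm.add hcd'.norm)).aestronglyMeasurable
    · rw [Real.norm_eq_abs, abs_of_nonneg (by positivity)]
      exact hle y
  obtain ⟨M, hM⟩ := hsq 1 (fun _ => 1) one_pos (fun _ => rfl) (fun _ => by norm_num) rfl
    (fun _ _ => by norm_num) (2 * (m * s)) (by positivity)
  obtain ⟨hsm, hbd⟩ := hM (1 / 8) (by norm_num) (by norm_num) Gc hGcc hGci hGcdi hint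
  have hcast : ∀ n : ℕ, (if 0 < n ∧ Squarefree n ∧ n.Coprime (2 * (m * s)) then
      (((1 : ℝ) : ℂ) / n * Gc (Real.log n)) else 0) =
      (((if Odd n ∧ Squarefree n ∧ n.Coprime (m * s) then
        1 / (n : ℝ) * G (Real.log n) else 0) : ℝ) : ℂ) := by
    intro n
    have hiff : (0 < n ∧ Squarefree n ∧ n.Coprime (2 * (m * s))) ↔
        (Odd n ∧ Squarefree n ∧ n.Coprime (m * s)) := by
      rw [Nat.coprime_mul_iff_right, Nat.coprime_two_right]
      constructor
      · rintro ⟨_, h2, h3, h4⟩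
        exact ⟨h3, h2, h4⟩
      · rintro ⟨h1, h2, h3⟩
        exact ⟨h1.pos, h2, h1, h3⟩
    by_cases hc' : Odd n ∧ Squarefree n ∧ n.Coprime (m * s)
    · rw [if_pos hc', if_pos (hiff.2 hc')]
      simp [hGc]
    · rw [if_neg hc', if_neg (fun h => hc' (hiff.1 h))]
      simp
  obtain ⟨s1, -⟩ := hT m s (x1 + τ) (x2 + τ) hm
  obtain ⟨s2, -⟩ := hT m s (x1 - τ) (x2 - τ) hm
  obtain ⟨s3, -⟩ := hT m s x1 x2 hm
  have hval : (∑' n : ℕ, if Odd n ∧ Squarefree n ∧ n.Coprime (m * s) then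
      1 / (n : ℝ) * G (Real.log n) else 0) =
      rse_dil_T g m s (x1 + τ) (x2 + τ) + rse_dil_T g m s (x1 - τ) (x2 - τ) -
      2 * rse_dil_T g m s x1 x2 := by
    unfold rse_dil_T
    rw [← s1.tsum_add s2, ← tsum_mul_left, ← (s1.add s2).tsum_sub (s3.mul_left 2)]
    refine tsum_congr fun n => ?_
    by_cases hc' : Odd n ∧ Squarefree n ∧ n.Coprime (m * s)
    · simp only [if_pos hc']
      simp only [hG, hFdef, rsf_sql_Fn]
      have e1 : Real.log n + τ + x1 = Real.log n + (x1 + τ) := by ring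
      have e2 : Real.log n + τ + x2 = Real.log n + (x2 + τ) := by ring
      have e3 : Real.log n - τ + x1 = Real.log n + (x1 - τ) := by ring
      have e4 : Real.log n - τ + x2 = Real.log n + (x2 - τ) := by ring
      rw [e1, e2, e3, e4]
      ring
    · simp only [if_neg hc']
      ring
  have htot : (∑' n : ℕ, if 0 < n ∧ Squarefree n ∧ n.Coprime (2 * (m * s)) then
      (((1 : ℝ) : ℂ) / n * Gc (Real.log n)) else 0) =
      (((rse_dil_T g m s (x1 + τ) (x2 + τ) + rse_dil_T g m s (x1 - τ) (x2 - τ) -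
      2 * rse_dil_T g m s x1 x2 : ℝ)) : ℂ) := by
    rw [← hval, Complex.ofReal_tsum]
    exact tsum_congr hcast
  have hIG : ∫ y, Gc y = 0 := by
    have h1 : ∫ y, Gc y = ((∫ y, G y : ℝ) : ℂ) := integral_ofReal
    rw [h1, hG0, Complex.ofReal_zero]
  rw [htot, hIG, mul_zero, sub_zero, Complex.norm_real, Real.norm_eq_abs] at hbd
  refine hbd.trans ?_
  have h5 : ∫ y : ℝ, Real.exp (-(1 / 8) * y) * (‖Gc y‖ + ‖deriv Gc y‖) ≤
      8 * B * Real.exp |τ| * ((Real.exp (x1 / 8) + Real.exp (x2 / 8)) * I0) := by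
    rw [← hD8.2, ← integral_const_mul]
    exact integral_mono hint hdom hle
  have hE : E1 (2 * (m * s)) ≤ E1 2 * E1 m * √(s : ℝ) := by
    have e1 := E1_mul_le 2 (m * s) two_pos (by positivity)
    have e2 := E1_mul_le m s hm hspos
    have e3 := E1_odd_le s hs
    have e4 : 1 ≤ E1 s := E1_pos s
    calc _ ≤ E1 2 * E1 (m * s) := e1
      _ ≤ E1 2 * (E1 m * E1 s) := mul_le_mul_of_nonneg_left e2 (by linarith)
      _ ≤ E1 2 * (E1 m * √(s : ℝ)) := by gcongr
      _ = _ := by ring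
  have hsq0 : (0 : ℝ) ≤ √(s : ℝ) := Real.sqrt_nonneg _
  have hE' : 1 ≤ E1 (2 * (m * s)) := E1_pos _
  have p1 : 0 < Real.exp (x1 / 8) := Real.exp_pos _
  have p2 : 0 < Real.exp (x2 / 8) := Real.exp_pos _
  have p3 : 0 < Real.exp |τ| := Real.exp_pos _
  calc _ ≤ C * ((1 : ℕ) : ℝ) * E1 (2 * (m * s)) *
        (8 * B * Real.exp |τ| * ((Real.exp (x1 / 8) + Real.exp (x2 / 8)) * I0)) :=
        mul_le_mul_of_nonneg_left h5 (by positivity)
    _ = C * E1 (2 * (m * s)) * (8 * (A * E1 m ^ 2) * Real.exp |τ| *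
        ((Real.exp (x1 / 8) + Real.exp (x2 / 8)) * I0)) := by
        rw [hB]
        push_cast
        ring
    _ ≤ C * (E1 2 * E1 m * √(s : ℝ)) * (8 * (A * E1 m ^ 2) * Real.exp |τ| *
        ((Real.exp (x1 / 8) + Real.exp (x2 / 8)) * (I0 + 1))) := by
        gcongr
        linarith
    _ = _ := by ring

/-- SQL (cites AAL; SQF, DSQ, RB). -/
theorem sql_bound_pr {g : ℝ → ℝ} (hg : Ker1 g) : ∃ C : ℝ, 0 < C ∧ ∀ (m lam : ℕ) (u1 u2 : ℝ),
    0 < m →
    Odd lam → |SQs g m lam u1 u2| ≤ C * (lam : ℝ) ^ 2 * E1 m ^ 3 * (1 + |u1| + |u2|) ∧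
    ∀ τ : ℝ, |SQs g m lam (u1 + τ) (u2 + τ) + SQs g m lam (u1 - τ) (u2 - τ) -
        2 * SQs g m lam u1 u2| ≤
      C * (lam : ℝ) ^ 2 * E1 m ^ 3 * Real.exp |τ| *
        (Real.exp (u1 / 8) + Real.exp (u2 / 8)) := by
  obtain ⟨C1, hC1, hB⟩ := rsf_sql_T hg
  obtain ⟨C2, hC2, hS⟩ := rsf_sql_T2 hg
  refine ⟨C1 + C2, by positivity, ?_⟩
  intro m lam u1 u2 hm hlam
  obtain ⟨s, t, ht, hs⟩ := Nat.sq_mul_squarefree lam
  have hlam0 : 0 < lam := hlam.pos
  have hst : lam = s * t ^ 2 := by rw [← ht]; ring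
  have hspos : 0 < s := Nat.pos_of_ne_zero hs.ne_zero
  have htpos : 0 < t := by
    rcases Nat.eq_zero_or_pos t with h | h
    · rw [h] at hst
      simp at hst
      omega
    · exact h
  have hodd : Odd (s * t ^ 2) := hst ▸ hlam
  have hsodd : Odd s := (Nat.odd_mul.1 hodd).1
  have hEm : 1 ≤ E1 m := E1_pos m
  have hs1 : (1 : ℝ) ≤ s := by exact_mod_cast hspos
  have hsl : (s : ℝ) ≤ lam := by
    have : s ≤ lam := by
      rw [hst]
      exact Nat.le_mul_of_pos_right s (by positivity)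
    exact_mod_cast this
  have hl1 : (1 : ℝ) ≤ lam := hs1.trans hsl
  have hcard : ((s.divisorsAntidiagonal.card : ℕ) : ℝ) ≤ s := by
    have : s.divisorsAntidiagonal.card ≤ s := by
      rw [← Nat.map_div_right_divisors, Finset.card_map]
      exact Nat.card_divisors_le_self s
    exact_mod_cast this
  have hsq1 : 1 ≤ √(s : ℝ) := Real.one_le_sqrt.2 hs1
  have hval : ∀ w1 w2 : ℝ, SQs g m lam w1 w2 = if (s * t ^ 2).Coprime m then
      1 / √(s : ℝ) * ∑ v ∈ s.divisorsAntidiagonal,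
        rse_dil_T g m s (Real.log v.1 + w1) (Real.log v.2 + w2) else 0 := by
    intro w1 w2
    rw [hst]
    exact dsq_eq hg m s t hm hs hodd w1 w2
  have hvs : ∀ v ∈ s.divisorsAntidiagonal, 1 ≤ v.1 ∧ v.1 ≤ s ∧ 1 ≤ v.2 ∧ v.2 ≤ s := by
    intro v hv
    have hv' := Nat.mem_divisorsAntidiagonal.1 hv
    have hv1 : v.1 ≠ 0 := by
      intro h
      rw [h, zero_mul] at hv'
      exact hv'.2 hv'.1.symm
    have hv2 : v.2 ≠ 0 := by
      intro h
      rw [h, mul_zero] at hv'
      exact hv'.2 hv'.1.symm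
    refine ⟨Nat.one_le_iff_ne_zero.2 hv1, Nat.le_of_dvd hspos ⟨v.2, hv'.1.symm⟩,
      Nat.one_le_iff_ne_zero.2 hv2, Nat.le_of_dvd hspos ⟨v.1, by rw [mul_comm]; exact hv'.1.symm⟩⟩
  have ha1 : 0 ≤ |u1| := abs_nonneg _
  have ha2 : 0 ≤ |u2| := abs_nonneg _
  constructor
  · rw [hval]
    split_ifs with hc
    · rw [abs_mul, abs_of_nonneg (by positivity : (0 : ℝ) ≤ 1 / √(s : ℝ))]
      have h1 : |∑ v ∈ s.divisorsAntidiagonal,
          rse_dil_T g m s (Real.log v.1 + u1) (Real.log v.2 + u2)| ≤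
          ∑ v ∈ s.divisorsAntidiagonal, C1 * E1 m ^ 2 * (s * (1 + |u1|)) := by
        refine (Finset.abs_sum_le_sum_abs _ _).trans (Finset.sum_le_sum fun v hv => ?_)
        obtain ⟨q1, q2, -, -⟩ := hvs v hv
        refine (hB m s _ _ hm).2.trans (mul_le_mul_of_nonneg_left ?_ (by positivity))
        have q3 : (1 : ℝ) ≤ v.1 := by exact_mod_cast q1
        have q4 : (v.1 : ℝ) ≤ s := by exact_mod_cast q2
        have q5 : 0 ≤ Real.log v.1 := Real.log_nonneg q3
        have q6 : Real.log v.1 ≤ s - 1 := by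
          have := Real.log_le_sub_one_of_pos (by linarith : (0 : ℝ) < v.1)
          linarith
        have q7 := abs_add_le (Real.log v.1) u1
        rw [abs_of_nonneg q5] at q7
        nlinarith
      rw [Finset.sum_const, nsmul_eq_mul] at h1
      have h2 : 1 / √(s : ℝ) ≤ 1 := by
        rw [div_le_one (by linarith)]
        exact hsq1
      calc _ ≤ 1 * (((s.divisorsAntidiagonal.card : ℕ) : ℝ) *
            (C1 * E1 m ^ 2 * (s * (1 + |u1|)))) :=
            mul_le_mul h2 h1 (abs_nonneg _) zero_le_one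
        _ ≤ 1 * (lam * (C1 * E1 m ^ 2 * (lam * (1 + |u1|)))) := by
            have hcn : s.divisorsAntidiagonal.card ≤ lam := by exact_mod_cast hcard.trans hsl
            have hsn : s ≤ lam := by exact_mod_cast hsl
            gcongr
        _ = C1 * lam ^ 2 * E1 m ^ 2 * (1 + |u1|) := by ring
        _ ≤ (C1 + C2) * lam ^ 2 * E1 m ^ 3 * (1 + |u1| + |u2|) := by
            have h4 : E1 m ^ 2 ≤ E1 m ^ 3 := pow_le_pow_right₀ hEm (by norm_num)
            have h5 : 1 + |u1| ≤ 1 + |u1| + |u2| := by linarith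
            have h6 : C1 ≤ C1 + C2 := by linarith
            refine mul_le_mul ?_ h5 (by positivity) (by positivity)
            gcongr
    · rw [abs_zero]
      positivity
  · intro τ
    rw [hval, hval, hval]
    have p1 : 0 < Real.exp (u1 / 8) := Real.exp_pos _
    have p2 : 0 < Real.exp (u2 / 8) := Real.exp_pos _
    have p3 : 0 < Real.exp |τ| := Real.exp_pos _
    split_ifs with hc
    · have hfac : 1 / √(s : ℝ) * ∑ v ∈ s.divisorsAntidiagonal,
          rse_dil_T g m s (Real.log v.1 + (u1 + τ)) (Real.log v.2 + (u2 + τ)) +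
          1 / √(s : ℝ) * ∑ v ∈ s.divisorsAntidiagonal,
          rse_dil_T g m s (Real.log v.1 + (u1 - τ)) (Real.log v.2 + (u2 - τ)) -
          2 * (1 / √(s : ℝ) * ∑ v ∈ s.divisorsAntidiagonal,
          rse_dil_T g m s (Real.log v.1 + u1) (Real.log v.2 + u2)) =
          1 / √(s : ℝ) * ∑ v ∈ s.divisorsAntidiagonal,
          (rse_dil_T g m s (Real.log v.1 + (u1 + τ)) (Real.log v.2 + (u2 + τ)) +
          rse_dil_T g m s (Real.log v.1 + (u1 - τ)) (Real.log v.2 + (u2 - τ)) -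
          2 * rse_dil_T g m s (Real.log v.1 + u1) (Real.log v.2 + u2)) := by
        rw [Finset.sum_sub_distrib, Finset.sum_add_distrib, ← Finset.mul_sum]
        ring
      rw [hfac, abs_mul, abs_of_nonneg (by positivity : (0 : ℝ) ≤ 1 / √(s : ℝ))]
      have h1 : ∀ v ∈ s.divisorsAntidiagonal,
          |rse_dil_T g m s (Real.log v.1 + (u1 + τ)) (Real.log v.2 + (u2 + τ)) +
          rse_dil_T g m s (Real.log v.1 + (u1 - τ)) (Real.log v.2 + (u2 - τ)) -
          2 * rse_dil_T g m s (Real.log v.1 + u1) (Real.log v.2 + u2)| ≤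
          C2 * √(s : ℝ) * E1 m ^ 3 * Real.exp |τ| *
            (s * (Real.exp (u1 / 8) + Real.exp (u2 / 8))) := by
        intro v hv
        obtain ⟨q1, q2, q3, q4⟩ := hvs v hv
        have hx : ∀ (n : ℕ) (w : ℝ), 1 ≤ n → n ≤ s →
            Real.exp ((Real.log n + w) / 8) ≤ s * Real.exp (w / 8) := by
          intro n w hn1 hn2
          have hvr : (1 : ℝ) ≤ n := by exact_mod_cast hn1
          rw [show (Real.log n + w) / 8 = Real.log n / 8 + w / 8 by ring, Real.exp_add]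
          refine mul_le_mul_of_nonneg_right ?_ (Real.exp_pos _).le
          calc Real.exp (Real.log n / 8) ≤ Real.exp (Real.log n) :=
                Real.exp_le_exp.2 (by have := Real.log_nonneg hvr; linarith)
            _ = n := Real.exp_log (by linarith)
            _ ≤ s := by exact_mod_cast hn2
        have h2 := hS m s (Real.log v.1 + u1) (Real.log v.2 + u2) τ hm hsodd
        rw [add_assoc, add_assoc, add_sub_assoc (Real.log v.1), add_sub_assoc (Real.log v.2)] at h2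
        refine h2.trans ?_
        refine mul_le_mul_of_nonneg_left ?_ (by positivity)
        have := hx v.1 u1 q1 q2
        have := hx v.2 u2 q3 q4
        linarith
      have h3 := (Finset.abs_sum_le_sum_abs (fun v : ℕ × ℕ =>
        rse_dil_T g m s (Real.log v.1 + (u1 + τ)) (Real.log v.2 + (u2 + τ)) +
          rse_dil_T g m s (Real.log v.1 + (u1 - τ)) (Real.log v.2 + (u2 - τ)) -
          2 * rse_dil_T g m s (Real.log v.1 + u1) (Real.log v.2 + u2)) _).trans
        (Finset.sum_le_sum h1)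
      rw [Finset.sum_const, nsmul_eq_mul] at h3
      have hsq0 : (0 : ℝ) < √(s : ℝ) := by linarith
      calc _ ≤ 1 / √(s : ℝ) * (((s.divisorsAntidiagonal.card : ℕ) : ℝ) *
            (C2 * √(s : ℝ) * E1 m ^ 3 * Real.exp |τ| *
              (s * (Real.exp (u1 / 8) + Real.exp (u2 / 8))))) :=
            mul_le_mul_of_nonneg_left h3 (by positivity)
        _ = ((s.divisorsAntidiagonal.card : ℕ) : ℝ) * s *
            (C2 * E1 m ^ 3 * Real.exp |τ| * (Real.exp (u1 / 8) + Real.exp (u2 / 8))) := by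
            field_simp
        _ ≤ lam * lam * (C2 * E1 m ^ 3 * Real.exp |τ| *
              (Real.exp (u1 / 8) + Real.exp (u2 / 8))) := by
            have hcn : s.divisorsAntidiagonal.card ≤ lam := by exact_mod_cast hcard.trans hsl
            have hsn : s ≤ lam := by exact_mod_cast hsl
            gcongr
        _ = C2 * lam ^ 2 * E1 m ^ 3 * Real.exp |τ| *
              (Real.exp (u1 / 8) + Real.exp (u2 / 8)) := by ring
        _ ≤ _ := by
            gcongr
            linarith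
    · rw [mul_zero, sub_zero, add_zero, abs_zero]
      positivity

end Pool.Agent.RSF

namespace Pool.Agent.RSF

alias sql_bound := sql_bound_pr

end Pool.Agent.RSF
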