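import Pool.Agent.Lib_helper39.RSF.Defs
import Pool.Agent.Lib_helper39.RSF.KG1
import Pool.Agent.Lib_helper39.RSF.PFM
import Pool.Agent.Lib_helper39.RSF.SMO2
import Pool.Agent.Lib_helper39.RSF.AMB2
import Pool.Agent.Lib_helper39.RSF.DSQ
import Pool.Agent.Lib_helper39.RSF.XLIM
import Pool.Agent.Lib_helper39.RSF.XR2
import Pool.Agent.Lib_helper39.RSF.DDE
import Pool.Agent.Lib_helper39.RSF.DFO
import Pool.Agent.Lib_helper39.RSF.DOD
import Pool.Agent.Lib_helper39.RSF.M4B
import Pool.Agent.Lib_helper39.RSF.FUI
import Pool.Agent.Lib_helper39.RSA.XR6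
import Pool.Agent.Lib_helper39.RSA.PRM
import Pool.Agent.Lib_helper39.RSA.SOB
import Pool.Agent.Lib_helper39.RSA.BNS
import Pool.Agent.Lib_helper39.RSA.QLA
import Pool.Agent.Lib_helper39.RSA.QLB
import Pool.Agent.Lib_helper39.RSA.PER
import Pool.Agent.Lib_helper39.RSA.AVE
import Pool.Agent.Lib_helper39.RSA.CUT1
import Pool.Agent.Lib_helper39.RSA.CUT2
import Pool.Agent.Lib_helper24.ABS.Endgame
import Pool.Agent.Lib_helper39.RSA.DIM
import Pool.Agent.Lib_helper39.RSG.SQL
/-!
# Selberg's theorem for real characters, all windows: block DGL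
-/

namespace Pool.Agent.RSF

open Complex MeasureTheory Filter Topology
open Pool.Agent.RSE
open scoped ContDiff

/-- DGL (cites SQL). -/
theorem dgl_bound_pr {g Θ : ℝ → ℝ} (hg : Ker1 g) (hΘ : Cut Θ) : ∃ C : ℝ, 0 < C ∧
    ∀ (L : ℝ) (R m : ℕ) (u u' : ℝ), 1 ≤ L → 0 < m →
    |Dg g Θ L R m u u'| ≤ C * Real.exp (16 * L) * E1 m ^ 3 * (1 + |u| + |u'|) ∧
    ∀ τ : ℝ, |Dg g Θ L R m (u + τ) (u' + τ) + Dg g Θ L R m (u - τ) (u' - τ) -
        2 * Dg g Θ L R m u u'| ≤
      C * Real.exp (16 * L) * E1 m ^ 3 * Real.exp |τ| *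
        (Real.exp (u / 8) + Real.exp (u' / 8)) := by
  obtain ⟨C, hC, hdil⟩ := sql_bound hg
  refine ⟨C, hC, fun L R m u u' hL hm => ?_⟩
  have hE := rse_dim_E1 m
  have hlog : ∀ a ∈ KL L, 0 ≤ Real.log a ∧ Real.log a ≤ L := by
    intro a ha
    obtain ⟨h1, h2⟩ := rse_dim_KL ha
    refine ⟨Real.log_nonneg (by exact_mod_cast h1), ?_⟩
    rw [Real.log_le_iff_le_exp (by exact_mod_cast h1)]
    exact h2
  have hlam : ∀ a ∈ KL L, ∀ b ∈ KL L, ∀ a' ∈ KL L, ∀ b' ∈ KL L,
      (((a * b * (a' * b') : ℕ) : ℝ)) ^ 2 ≤ Real.exp (8 * L) := by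
    intro a ha b hb a' ha' b' hb'
    have h1 := (rse_dim_KL ha).2
    have h2 := (rse_dim_KL hb).2
    have h3 := (rse_dim_KL ha').2
    have h4 := (rse_dim_KL hb').2
    have he := (Real.exp_pos L).le
    have h5 : (((a * b * (a' * b') : ℕ) : ℝ)) ≤ Real.exp (4 * L) := by
      have h6 : Real.exp (4 * L) = Real.exp L * Real.exp L * (Real.exp L * Real.exp L) := by
        rw [← Real.exp_add, ← Real.exp_add]
        congr 1; ring
      rw [h6]
      push_cast
      gcongr
    have h7 : Real.exp (8 * L) = Real.exp (4 * L) ^ 2 := by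
      rw [← Real.exp_nat_mul]; congr 1; push_cast; ring
    rw [h7]
    exact pow_le_pow_left₀ (Nat.cast_nonneg _) h5 2
  have ha1 : 0 ≤ |u| := abs_nonneg _
  have ha2 : 0 ≤ |u'| := abs_nonneg _
  constructor
  · have h := rse_dim_sum hΘ hL R (C * Real.exp (8 * L) * E1 m ^ 3 *
        (Real.exp (4 * L) * (1 + |u| + |u'|))) (by positivity)
      (fun a b a' b' => SQs g m (a * b * (a' * b')) (u + Real.log a - Real.log b)
        (u' + Real.log a' - Real.log b')) (fun a ha b hb a' ha' b' hb' hodd => by
        refine ((hdil m _ _ _ hm hodd).1).trans ?_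
        have h5 := hlam a ha b hb a' ha' b' hb'
        obtain ⟨p1, p2⟩ := hlog a ha
        obtain ⟨p3, p4⟩ := hlog b hb
        obtain ⟨p5, p6⟩ := hlog a' ha'
        obtain ⟨p7, p8⟩ := hlog b' hb'
        have q1 : |u + Real.log a - Real.log b| ≤ |u| + L := by
          rw [abs_le]
          have := neg_abs_le u
          have := le_abs_self u
          constructor <;> linarith
        have q2 : |u' + Real.log a' - Real.log b'| ≤ |u'| + L := by
          rw [abs_le]
          have := neg_abs_le u'
          have := le_abs_self u'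
          constructor <;> linarith
        have q3 : 4 * L + 1 ≤ Real.exp (4 * L) := Real.add_one_le_exp _
        have q4 : 1 + |u + Real.log a - Real.log b| + |u' + Real.log a' - Real.log b'| ≤
            Real.exp (4 * L) * (1 + |u| + |u'|) := by nlinarith
        refine mul_le_mul ?_ q4 (by positivity) (by positivity)
        gcongr)
    refine h.trans ?_
    have h1 : Real.exp (4 * L) * (C * Real.exp (8 * L) * E1 m ^ 3 *
        (Real.exp (4 * L) * (1 + |u| + |u'|))) =
        C * (Real.exp (4 * L) * Real.exp (8 * L) * Real.exp (4 * L)) * E1 m ^ 3 *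
          (1 + |u| + |u'|) := by ring
    rw [h1, ← Real.exp_add, ← Real.exp_add]
    have h2 : 4 * L + 8 * L + 4 * L = 16 * L := by ring
    rw [h2]
  · intro τ
    have h := rse_dim_sum hΘ hL R (C * Real.exp (8 * L) * E1 m ^ 3 * Real.exp |τ| *
        (Real.exp L * (Real.exp (u / 8) + Real.exp (u' / 8)))) (by positivity)
      (fun a b a' b' => SQs g m (a * b * (a' * b')) (u + τ + Real.log a - Real.log b)
        (u' + τ + Real.log a' - Real.log b') +
        SQs g m (a * b * (a' * b')) (u - τ + Real.log a - Real.log b)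
        (u' - τ + Real.log a' - Real.log b') -
        2 * SQs g m (a * b * (a' * b')) (u + Real.log a - Real.log b)
        (u' + Real.log a' - Real.log b')) (fun a ha b hb a' ha' b' hb' hodd => by
        have h1 := (hdil m (a * b * (a' * b')) (u + Real.log a - Real.log b)
          (u' + Real.log a' - Real.log b') hm hodd).2 τ
        have e1 : u + Real.log a - Real.log b + τ = u + τ + Real.log a - Real.log b := by ring
        have e2 : u' + Real.log a' - Real.log b' + τ = u' + τ + Real.log a' - Real.log b' := by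
          ring
        have e3 : u + Real.log a - Real.log b - τ = u - τ + Real.log a - Real.log b := by ring
        have e4 : u' + Real.log a' - Real.log b' - τ = u' - τ + Real.log a' - Real.log b' := by
          ring
        rw [e1, e2, e3, e4] at h1
        refine h1.trans ?_
        obtain ⟨p1, p2⟩ := hlog a ha
        obtain ⟨p3, p4⟩ := hlog b hb
        obtain ⟨p5, p6⟩ := hlog a' ha'
        obtain ⟨p7, p8⟩ := hlog b' hb'
        have h2 : Real.exp ((u + Real.log a - Real.log b) / 8) ≤ Real.exp L * Real.exp (u / 8) := by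
          rw [← Real.exp_add]
          apply Real.exp_le_exp.mpr
          linarith
        have h3 : Real.exp ((u' + Real.log a' - Real.log b') / 8) ≤
            Real.exp L * Real.exp (u' / 8) := by
          rw [← Real.exp_add]
          apply Real.exp_le_exp.mpr
          linarith
        have h4 : Real.exp ((u + Real.log a - Real.log b) / 8) +
            Real.exp ((u' + Real.log a' - Real.log b') / 8) ≤
            Real.exp L * (Real.exp (u / 8) + Real.exp (u' / 8)) := by
          rw [mul_add]; exact add_le_add h2 h3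
        have h5 := hlam a ha b hb a' ha' b' hb'
        refine mul_le_mul ?_ h4 (by positivity) (by positivity)
        gcongr)
    have hsub : Dg g Θ L R m (u + τ) (u' + τ) + Dg g Θ L R m (u - τ) (u' - τ) -
        2 * Dg g Θ L R m u u' =
        ∑ a ∈ KL L, ∑ b ∈ KL L, ∑ a' ∈ KL L, ∑ b' ∈ KL L,
      be Θ L R a * be Θ L R b * (be Θ L R a' * be Θ L R b') / √((a : ℝ) * b * (a' * b')) *
        (SQs g m (a * b * (a' * b')) (u + τ + Real.log a - Real.log b)
        (u' + τ + Real.log a' - Real.log b') +
        SQs g m (a * b * (a' * b')) (u - τ + Real.log a - Real.log b)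
        (u' - τ + Real.log a' - Real.log b') -
        2 * SQs g m (a * b * (a' * b')) (u + Real.log a - Real.log b)
        (u' + Real.log a' - Real.log b')) := by
      unfold Dg
      rw [← Finset.sum_add_distrib, Finset.mul_sum, ← Finset.sum_sub_distrib]
      refine Finset.sum_congr rfl (fun a _ => ?_)
      rw [← Finset.sum_add_distrib, Finset.mul_sum, ← Finset.sum_sub_distrib]
      refine Finset.sum_congr rfl (fun b _ => ?_)
      rw [← Finset.sum_add_distrib, Finset.mul_sum, ← Finset.sum_sub_distrib]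
      refine Finset.sum_congr rfl (fun a' _ => ?_)
      rw [← Finset.sum_add_distrib, Finset.mul_sum, ← Finset.sum_sub_distrib]
      refine Finset.sum_congr rfl (fun b' _ => ?_)
      ring
    rw [hsub]
    refine h.trans ?_
    have h1 : Real.exp (4 * L) * (C * Real.exp (8 * L) * E1 m ^ 3 * Real.exp |τ| *
        (Real.exp L * (Real.exp (u / 8) + Real.exp (u' / 8)))) =
        C * (Real.exp (4 * L) * Real.exp (8 * L) * Real.exp L) * E1 m ^ 3 * Real.exp |τ| *
        (Real.exp (u / 8) + Real.exp (u' / 8)) := by ring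
    rw [h1, ← Real.exp_add, ← Real.exp_add]
    gcongr
    linarith

end Pool.Agent.RSF

namespace Pool.Agent.RSF

alias dgl_bound := dgl_bound_pr

end Pool.Agent.RSF
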