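import Pool.Agent.Lib_helper39.RSF.Defs
import Pool.Agent.Lib_helper39.RSF.KG1
import Pool.Agent.Lib_helper39.RSF.PFM
import Pool.Agent.Lib_helper39.RSF.SMO2
import Pool.Agent.Lib_helper39.RSF.AMB2
import Pool.Agent.Lib_helper39.RSF.DSQ
import Pool.Agent.Lib_helper39.RSF.XLIM
import Pool.Agent.Lib_helper39.RSF.XR2
import Pool.Agent.Lib_helper39.RSF.DDE
import Pool.Agent.Lib_helper39.RSF.DFO
import Pool.Agent.Lib_helper39.RSF.DOD
import Pool.Agent.Lib_helper39.RSF.M4B
import Pool.Agent.Lib_helper39.RSF.FUI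
import Pool.Agent.Lib_helper39.RSA.XR6
import Pool.Agent.Lib_helper39.RSA.PRM
import Pool.Agent.Lib_helper39.RSA.SOB
import Pool.Agent.Lib_helper39.RSA.BNS
import Pool.Agent.Lib_helper39.RSA.QLA
import Pool.Agent.Lib_helper39.RSA.QLB
import Pool.Agent.Lib_helper39.RSA.PER
import Pool.Agent.Lib_helper39.RSA.AVE
import Pool.Agent.Lib_helper39.RSA.CUT1
import Pool.Agent.Lib_helper39.RSA.CUT2
import Pool.Agent.Lib_helper24.ABS.Endgame
import Pool.Agent.Lib_helper39.RSG.DGL
/-!
# RSF, block CRL: crude bound for the second moment of `fo` above the centre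
-/

namespace Pool.Agent.RSF

open Complex MeasureTheory Filter Topology
open Pool.Agent.RC (cc psi rv f0 IsRC Good gm pr DD)
open Pool.Agent.RSE
open scoped ContDiff

/-- The block is dominated by the smooth sum. -/
theorem rsf_crl_le_Ef {φ : ℝ → ℝ} (hφ : Bump φ) (g Θ : ℝ → ℝ) (L : ℝ) (R : ℕ) (j : Fin 4)
    (c : ℕ) (K u : ℝ) (hK : 0 < K) :
    ∑ m ∈ blk8 c K, fo g Θ L R j m u ^ 2 ≤ Ef φ g Θ L R j c K u u := by
  have hsub : blk8 c K ⊆ fam c K := by
    intro m hm
    unfold blk8 at hm
    rw [Finset.mem_filter, Finset.mem_range] at hm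
    unfold fam
    rw [Finset.mem_filter, Finset.mem_range]
    refine ⟨?_, hm.2.2.2⟩
    have : m ≤ ⌊4 * K⌋₊ := by
      rw [Nat.le_floor_iff (by positivity)]
      have := hm.2.2.1
      linarith
    omega
  unfold Ef
  calc ∑ m ∈ blk8 c K, fo g Θ L R j m u ^ 2
      = ∑ m ∈ blk8 c K, φ (m / K) * (fo g Θ L R j m u * fo g Θ L R j m u) := by
        apply Finset.sum_congr rfl
        intro m hm
        unfold blk8 at hm
        rw [Finset.mem_filter, Finset.mem_range] at hm
        have h1 : (1 : ℝ) ≤ m / K := by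
          rw [le_div_iff₀ hK, one_mul]
          exact hm.2.1
        have h2 : (m : ℝ) / K ≤ 2 := by
          rw [div_le_iff₀ hK]
          exact hm.2.2.1.le
        rw [hφ.one _ h1 h2, one_mul, sq]
    _ ≤ _ := by
        apply Finset.sum_le_sum_of_subset_of_nonneg hsub
        intro m _ _
        have h3 := hφ.nonneg (m / K)
        have h4 := mul_self_nonneg (fo g Θ L R j m u)
        exact mul_nonneg h3 h4

/-- The off-diagonal above the centre. -/
theorem rsf_crl_exp {K L u : ℝ} (hK : 1 ≤ K) (h : ce K + 5 * L ≤ u) :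
    K * (Real.exp (-(u + u)) / K) ^ 5 ≤ K * Real.exp (-(50 * L)) ∧
    Real.exp (-(u + u) / 4) ≤ Real.exp (Real.log K / 4 - 5 / 2 * L) := by
  have hK0 : 0 < K := by linarith
  unfold ce at h
  constructor
  · apply mul_le_mul_of_nonneg_left _ hK0.le
    have h1 : Real.exp (-(u + u)) / K ≤ Real.exp (-(10 * L)) := by
      rw [div_le_iff₀ hK0]
      calc Real.exp (-(u + u)) ≤ Real.exp (-(10 * L) + Real.log K) :=
            Real.exp_le_exp.2 (by linarith)
        _ = Real.exp (-(10 * L)) * K := by rw [Real.exp_add, Real.exp_log hK0]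
    calc (Real.exp (-(u + u)) / K) ^ 5 ≤ Real.exp (-(10 * L)) ^ 5 :=
          pow_le_pow_left₀ (by positivity) h1 5
      _ = Real.exp (-(50 * L)) := by
          rw [← Real.exp_nat_mul]
          congr 1
          push_cast
          ring
  · apply Real.exp_le_exp.2
    linarith

/-- Size of the block. -/
theorem rsf_crl_card (c : ℕ) {K : ℝ} (hK : 1 ≤ K) : ((blk8 c K).card : ℝ) ≤ 3 * K := by
  have h1 : (blk8 c K).card ≤ ⌈2 * K⌉₊ := by
    unfold blk8
    refine (Finset.card_filter_le _ _).trans ?_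
    rw [Finset.card_range]
  have h2 : ((blk8 c K).card : ℝ) ≤ (⌈2 * K⌉₊ : ℝ) := by exact_mod_cast h1
  have h3 := Nat.ceil_lt_add_one (show (0 : ℝ) ≤ 2 * K by linarith)
  linarith

/-- CRL (cites DGL; PFM, AVE, SMO2). -/
theorem crl_bound_pr {g Θ : ℝ → ℝ} (hg : Ker1 g) (hΘ : Cut Θ) : ∃ C : ℝ, 0 < C ∧
    ∀ (j : Fin 4) (c R : ℕ) (L K u : ℝ), OC c → 1 ≤ L → 1 ≤ K → Real.log K ≤ 4001 * L →
    ce K + 5 * L ≤ u →
    ∑ m ∈ blk8 c K, fo g Θ L R j m u ^ 2 ≤ C * Real.exp (40 * L) * K := by
  obtain ⟨φ, hφ⟩ := exists_bump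
  obtain ⟨C1, hC1, h1⟩ := pfm_bound hφ hg hΘ
  obtain ⟨C2, hC2, h2⟩ := dgl_bound hg hΘ
  obtain ⟨C3, hC3, h3⟩ := ave_E1
  obtain ⟨C4, hC4, h4⟩ := fo_pos hg hΘ
  refine ⟨4003 * C2 * C3 + 2 * C1 + 3 * C4 ^ 2, by positivity, ?_⟩
  intro j c R L K u hc hL hK hlK hcu
  have hK0 : 0 < K := by linarith
  have hL0 : 0 < L := by linarith
  have hpos1 : 0 ≤ (4003 * C2 * C3 + 2 * C1) * Real.exp (40 * L) * K := by positivity
  have hpos2 : 0 ≤ 3 * C4 ^ 2 * Real.exp (40 * L) * K := by positivity
  rcases le_or_gt 0 u with hu0 | hu0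
  · have h5 : ∀ m ∈ blk8 c K, fo g Θ L R j m u ^ 2 ≤ C4 ^ 2 * Real.exp (40 * L) := by
      intro m _
      have h6 := (h4 L R j m u hL).1
      calc fo g Θ L R j m u ^ 2 = |fo g Θ L R j m u| ^ 2 := (sq_abs _).symm
        _ ≤ (C4 * Real.exp (4 * L - u)) ^ 2 := pow_le_pow_left₀ (abs_nonneg _) h6 2
        _ = C4 ^ 2 * Real.exp (2 * (4 * L - u)) := by
            rw [mul_pow, ← Real.exp_nat_mul]
            push_cast
            ring
        _ ≤ C4 ^ 2 * Real.exp (40 * L) := by
            apply mul_le_mul_of_nonneg_left _ (by positivity)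
            exact Real.exp_le_exp.2 (by linarith)
    have h6 := Finset.sum_le_sum h5
    rw [Finset.sum_const, nsmul_eq_mul] at h6
    have h7 : ((blk8 c K).card : ℝ) * (C4 ^ 2 * Real.exp (40 * L)) ≤
        3 * K * (C4 ^ 2 * Real.exp (40 * L)) :=
      mul_le_mul_of_nonneg_right (rsf_crl_card c hK) (by positivity)
    have h8 : (4003 * C2 * C3 + 2 * C1 + 3 * C4 ^ 2) * Real.exp (40 * L) * K =
        (4003 * C2 * C3 + 2 * C1) * Real.exp (40 * L) * K +
          3 * K * (C4 ^ 2 * Real.exp (40 * L)) := by ring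
    rw [h8]
    linarith
  · have h4' := rsf_crl_le_Ef hφ g Θ L R j c K u hK0
    have h5 : Ef φ g Θ L R j c K u u = Df φ g Θ L R c K u u + Pf φ g Θ L R j c K u u := by
      unfold Pf
      ring
    have h6 := (abs_le.1 (h1 j c R L K u u hc hL hK0).1).2
    obtain ⟨h7, h8⟩ := rsf_crl_exp hK hcu
    have h9 : K * Real.exp (-(50 * L)) ≤ K := by
      apply mul_le_of_le_one_right hK0.le
      rw [Real.exp_le_one_iff]
      linarith
    have h10 : Real.exp (Real.log K / 4 - 5 / 2 * L) ≤ K := by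
      calc Real.exp (Real.log K / 4 - 5 / 2 * L) ≤ Real.exp (Real.log K) := by
            apply Real.exp_le_exp.2
            have := Real.log_nonneg hK
            linarith
        _ = K := Real.exp_log hK0
    have h11 : Pf φ g Θ L R j c K u u ≤ C1 * Real.exp (40 * L) * (2 * K) := by
      refine h6.trans (mul_le_mul_of_nonneg_left ?_ (by positivity))
      linarith
    have hu1 : |u| ≤ 2001 * L := by
      rw [abs_of_neg hu0]
      unfold ce at hcu
      linarith
    have hu2 : 1 + |u| + |u| ≤ 4003 * Real.exp L := by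
      have := Real.add_one_le_exp L
      linarith
    have h12 : Df φ g Θ L R c K u u ≤ 4003 * C2 * C3 * Real.exp (40 * L) * K := by
      unfold Df
      calc ∑ m ∈ fam c K, φ (m / K) * Dg g Θ L R m u u
          ≤ ∑ m ∈ fam c K, C2 * Real.exp (16 * L) * (4003 * Real.exp L) * E1 m ^ 3 := by
            apply Finset.sum_le_sum
            intro m hm
            have hm0 : 0 < m := by
              unfold fam at hm
              rw [Finset.mem_filter, Finset.mem_range] at hm
              unfold OC at hc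
              omega
            have h13 := (h2 L R m u u hL hm0).1
            have h14 := hφ.nonneg (m / K)
            have h15 := hφ.le (m / K)
            have hE : 0 ≤ E1 m := by
              unfold E1
              positivity
            calc φ (m / K) * Dg g Θ L R m u u ≤ φ (m / K) * |Dg g Θ L R m u u| :=
                  mul_le_mul_of_nonneg_left (le_abs_self _) h14
              _ ≤ 1 * |Dg g Θ L R m u u| := mul_le_mul_of_nonneg_right h15 (abs_nonneg _)
              _ = |Dg g Θ L R m u u| := one_mul _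
              _ ≤ C2 * Real.exp (16 * L) * E1 m ^ 3 * (1 + |u| + |u|) := h13
              _ ≤ C2 * Real.exp (16 * L) * E1 m ^ 3 * (4003 * Real.exp L) :=
                  mul_le_mul_of_nonneg_left hu2 (by positivity)
              _ = _ := by ring
        _ = C2 * Real.exp (16 * L) * (4003 * Real.exp L) * ∑ m ∈ fam c K, E1 m ^ 3 := by
            rw [Finset.mul_sum]
        _ ≤ C2 * Real.exp (16 * L) * (4003 * Real.exp L) * (C3 * K) :=
            mul_le_mul_of_nonneg_left (h3 c K hc hK0) (by positivity)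
        _ = 4003 * C2 * C3 * K * (Real.exp (16 * L) * Real.exp L) := by ring
        _ ≤ 4003 * C2 * C3 * K * Real.exp (40 * L) := by
            apply mul_le_mul_of_nonneg_left _ (by positivity)
            rw [← Real.exp_add]
            exact Real.exp_le_exp.2 (by linarith)
        _ = _ := by ring
    calc ∑ m ∈ blk8 c K, fo g Θ L R j m u ^ 2
        ≤ 4003 * C2 * C3 * Real.exp (40 * L) * K + C1 * Real.exp (40 * L) * (2 * K) := by linarith
      _ = (4003 * C2 * C3 + 2 * C1) * Real.exp (40 * L) * K := by ring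
      _ ≤ (4003 * C2 * C3 + 2 * C1) * Real.exp (40 * L) * K +
          3 * C4 ^ 2 * Real.exp (40 * L) * K := by linarith
      _ = _ := by ring

end Pool.Agent.RSF

namespace Pool.Agent.RSF

alias crl_bound := crl_bound_pr

end Pool.Agent.RSF
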