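import Pool.Agent.Lib_helper39.RSF.Defs
import Pool.Agent.Lib_helper39.RSF.KG1
import Pool.Agent.Lib_helper39.RSF.PFM
import Pool.Agent.Lib_helper39.RSF.SMO2
import Pool.Agent.Lib_helper39.RSF.AMB2
import Pool.Agent.Lib_helper39.RSF.DSQ
import Pool.Agent.Lib_helper39.RSF.XLIM
import Pool.Agent.Lib_helper39.RSF.XR2
import Pool.Agent.Lib_helper39.RSF.DDE
import Pool.Agent.Lib_helper39.RSF.DFO
import Pool.Agent.Lib_helper39.RSF.DOD
import Pool.Agent.Lib_helper39.RSF.M4B
import Pool.Agent.Lib_helper39.RSF.FUI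
import Pool.Agent.Lib_helper39.RSA.XR6
import Pool.Agent.Lib_helper39.RSA.PRM
import Pool.Agent.Lib_helper39.RSA.SOB
import Pool.Agent.Lib_helper39.RSA.BNS
import Pool.Agent.Lib_helper39.RSA.QLA
import Pool.Agent.Lib_helper39.RSA.QLB
import Pool.Agent.Lib_helper39.RSA.PER
import Pool.Agent.Lib_helper39.RSA.AVE
import Pool.Agent.Lib_helper39.RSA.CUT1
import Pool.Agent.Lib_helper39.RSA.CUT2
import Pool.Agent.Lib_helper24.ABS.Endgame
import Pool.Agent.Lib_helper39.RSA.DE
import Pool.Agent.Lib_helper39.RSG.QBW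
import Pool.Agent.Lib_helper39.RSG.UTW
/-!
# Block DEW: the smeared mean square of the odd part of the approximation
-/

namespace Pool.Agent.RSF

open Complex MeasureTheory Filter Topology
open Pool.Agent.RC (cc psi rv f0 IsRC Good gm pr DD)
open Pool.Agent.RSE
open Pool.Agent.ABS (Nice LData Piece oddZ)
open Pool.Agent.SQS (hat)
open scoped ContDiff

/-- The smeared weighted sum of `|g|`. -/
theorem rsf_dew_V {g : ℝ → ℝ} (hg : Ker1 g) : ∃ C : ℝ, 0 < C ∧
    ∀ (L a b : ℝ) (W : ℝ → ℝ), 1 ≤ L → Wt W a b → -(L / 8) ≤ a →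
    Summable (fun n : ℕ => if 0 < n then (n : ℝ) ^ ((7 / 2 : ℝ) - 1) *
      (∫ u : ℝ, |g (Real.log n + u) * W u|) else 0) ∧
    ∑' n : ℕ, (if 0 < n then (n : ℝ) ^ ((7 / 2 : ℝ) - 1) *
      (∫ u : ℝ, |g (Real.log n + u) * W u|) else 0) ≤
      C * Real.exp (7 / 16 * L) * ∫ u : ℝ, |W u| := by
  have hF : Fast g := by simpa using hg.fast 0
  obtain ⟨C2, hC2, hS⟩ := fast_sum hF (a := 7 / 2) (by norm_num)
  refine ⟨C2, hC2, ?_⟩
  intro L a b W hL hW ha
  have hWi : Integrable fun u => |W u| :=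
    (wt_int hW continuous_const (f := fun _ => (1 : ℝ))).2.2.2
  have hgi : ∀ n : ℕ, Integrable fun u => |g (Real.log n + u) * W u| := fun n =>
    (wt_int hW (hg.smooth.continuous.comp (continuous_const.add continuous_id)
      : Continuous fun u => g (Real.log n + u))).1.abs
  set F : ℕ → ℝ := fun n : ℕ => if 0 < n then (n : ℝ) ^ ((7 / 2 : ℝ) - 1) *
      (∫ u : ℝ, |g (Real.log n + u) * W u|) else 0 with hFd
  have hF0 : ∀ n, 0 ≤ F n := by
    intro n
    simp only [hFd]
    split_ifs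
    · exact mul_nonneg (by positivity) (integral_nonneg fun u => abs_nonneg _)
    · exact le_rfl
  have hfin : ∀ U : Finset ℕ, ∑ n ∈ U, F n ≤ C2 * Real.exp (7 / 16 * L) * ∫ u : ℝ, |W u| := by
    intro U
    have h1 : ∑ n ∈ U, F n = ∫ u : ℝ, ∑ n ∈ U, (if 0 < n then (n : ℝ) ^ ((7 / 2 : ℝ) - 1) else 0) *
        |g (Real.log n + u) * W u| := by
      rw [integral_finsetSum]
      · apply Finset.sum_congr rfl
        intro n _
        rw [integral_const_mul]
        simp only [hFd]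
        split_ifs
        · rfl
        · rw [zero_mul]
      · intro n _
        exact (hgi n).const_mul _
    rw [h1, ← integral_const_mul]
    apply integral_mono
    · exact integrable_finsetSum _ fun n _ => (hgi n).const_mul _
    · exact hWi.const_mul _
    · intro u
      simp only
      by_cases hu : u ∈ Set.Icc a b
      · have hu1 : -(L / 8) ≤ u := ha.trans hu.1
        obtain ⟨hs, ht⟩ := hS u
        have h2 : ∑ n ∈ U, (if 0 < n then (n : ℝ) ^ ((7 / 2 : ℝ) - 1) *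
            |g (Real.log n + u)| else 0) ≤ C2 * Real.exp (7 / 16 * L) := by
          refine (hs.sum_le_tsum U fun n _ => ?_).trans (ht.trans ?_)
          · split_ifs
            · positivity
            · exact le_rfl
          · apply mul_le_mul_of_nonneg_left _ hC2.le
            apply Real.exp_le_exp.2
            linarith
        have h3 : ∑ n ∈ U, (if 0 < n then (n : ℝ) ^ ((7 / 2 : ℝ) - 1) else 0) *
            |g (Real.log n + u) * W u| = (∑ n ∈ U, (if 0 < n then (n : ℝ) ^ ((7 / 2 : ℝ) - 1) *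
            |g (Real.log n + u)| else 0)) * |W u| := by
          rw [Finset.sum_mul]
          apply Finset.sum_congr rfl
          intro n _
          rw [abs_mul]
          split_ifs
          · ring
          · ring
        rw [h3]
        exact mul_le_mul_of_nonneg_right h2 (abs_nonneg _)
      · rw [hW.supp u hu]
        simp
  have hs : Summable F := summable_of_sum_le hF0 hfin
  exact ⟨hs, hs.tsum_le_of_sum_le hfin⟩

theorem dew_bound_pr {g Θ : ℝ → ℝ} (hg : Ker1 g) (hΘ : Cut Θ) : ∃ C : ℝ, 0 < C ∧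
    ∀ (j : Fin 4) (c : ℕ) (L K a b : ℝ) (W : ℝ → ℝ), OC c → 1 ≤ L → 1 ≤ K →
    10 * L ≤ Real.log K → Wt W a b → -(L / 8) ≤ a → b - a ≤ L →
    ∑ m ∈ blk8 c K, (∫ u : ℝ, EO g Θ L j m u * W u) ^ 2 ≤ C * K / L * ∫ u : ℝ, W u ^ 2 := by
  obtain ⟨C1, hC1, hQ⟩ := qbw_bound hg hΘ
  obtain ⟨C2, hC2, hS⟩ := rsf_dew_V hg
  refine ⟨3 * C1 + 8 * C2 ^ 2, by positivity, ?_⟩
  intro j c L K a₀ b₀ W₀ hc hL hK hLK hWt ha hba
  have hL0 : 0 < L := by linarith
  have hK0 : 0 < K := by linarith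
  obtain ⟨hQs, hQt⟩ := hQ L a₀ b₀ W₀ hL hWt ha hba
  obtain ⟨hSs, hSt⟩ := hS L a₀ b₀ W₀ hL hWt ha
  have hW2 : 0 ≤ ∫ u : ℝ, W₀ u ^ 2 := integral_nonneg fun u => sq_nonneg _
  have hgc : ∀ n : ℕ, Continuous fun u => g (Real.log n + u) := fun n =>
    hg.smooth.continuous.comp (continuous_const.add continuous_id)
  have hgi : ∀ n : ℕ, Integrable fun u => g (Real.log n + u) * W₀ u := fun n =>
    (wt_int hWt (hgc n)).1
  set Gw : ℕ → ℝ := fun n => ∫ u : ℝ, |g (Real.log n + u) * W₀ u| with hGw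
  set gw : ℕ → ℝ := fun n => ∫ u : ℝ, g (Real.log n + u) * W₀ u with hgw
  have hGw0 : ∀ n, 0 ≤ Gw n := fun n => integral_nonneg fun u => abs_nonneg _
  have hgG : ∀ n, |gw n| ≤ Gw n := by
    intro n
    have := norm_integral_le_integral_norm (fun u : ℝ => g (Real.log n + u) * W₀ u)
      (μ := volume)
    simpa only [Real.norm_eq_abs] using this
  set W : ℕ → ℝ := fun n => if 0 < n then (n : ℝ) ^ ((7 / 2 : ℝ) - 1) * Gw n
    else 0 with hW
  have hW0 : ∀ n, 0 ≤ W n := by
    intro n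
    simp only [hW]
    split_ifs
    · exact mul_nonneg (by positivity) (hGw0 n)
    · exact le_refl 0
  -- crude bound with `Gw`
  have hBG : ∀ n : ℕ, 1 ≤ n → (n : ℝ) * (|bN Θ L n| / √(n : ℝ) * Gw n) ≤ W n := by
    intro n hn
    have hn0 : (0 : ℝ) < n := by exact_mod_cast hn
    have h1 := bn_crude hΘ L (N := n) hn
    simp only [hW]
    rw [if_pos (show 0 < n from hn)]
    have e1 : (n : ℝ) ^ ((7 / 2 : ℝ) - 1) = (n : ℝ) * ((n : ℝ) ^ 2 / √(n : ℝ)) := by
      rw [Real.sqrt_eq_rpow, show (7 / 2 : ℝ) - 1 = 1 + (2 - 1 / 2) by norm_num,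
        Real.rpow_add hn0, Real.rpow_sub hn0, Real.rpow_one]
      norm_num
    rw [e1, mul_assoc]
    refine mul_le_mul_of_nonneg_left ?_ hn0.le
    refine mul_le_mul_of_nonneg_right ?_ (hGw0 n)
    exact div_le_div_of_nonneg_right h1 (Real.sqrt_nonneg _)
  set B : ℕ → ℝ := fun n => bN Θ L n / √(n : ℝ) * gw n with hB
  set f : ℕ → ℕ → ℝ := fun m N => if Odd N ∧ 3 ≤ N then
    (rv j m N : ℝ) * bN Θ L N / √(N : ℝ) * gw N else 0 with hf
  have hBle : ∀ n : ℕ, |B n| ≤ |bN Θ L n| / √(n : ℝ) * Gw n := by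
    intro n
    simp only [hB]
    rw [abs_mul, abs_div, abs_of_nonneg (Real.sqrt_nonneg _)]
    exact mul_le_mul_of_nonneg_left (hgG n) (by positivity)
  have hBW : ∀ n : ℕ, 1 ≤ n → (n : ℝ) * |B n| ≤ W n := by
    intro n hn
    exact (mul_le_mul_of_nonneg_left (hBle n) (Nat.cast_nonneg n)).trans (hBG n hn)
  have hBW' : ∀ n : ℕ, 1 ≤ n → |B n| ≤ W n := by
    intro n hn
    refine le_trans ?_ (hBW n hn)
    have hn0 : (1 : ℝ) ≤ n := by exact_mod_cast hn
    nlinarith [abs_nonneg (B n)]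
  have hfB : ∀ m N, f m N = if Odd N ∧ 3 ≤ N then (rv j m N : ℝ) * B N else 0 := by
    intro m N
    simp only [hf, hB]
    split_ifs
    · ring
    · rfl
  have hfW : ∀ m N, ‖f m N‖ ≤ W N := by
    intro m N
    rw [hfB]
    split_ifs with h
    · rw [Real.norm_eq_abs, abs_mul]
      calc |(rv j m N : ℝ)| * |B N| ≤ 1 * |B N| :=
            mul_le_mul_of_nonneg_right (Pool.Agent.RC.rc_dlim_rv_abs j m N) (abs_nonneg _)
        _ = |B N| := one_mul _
        _ ≤ W N := hBW' N (by omega)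
    · rw [norm_zero]; exact hW0 N
  have hfs : ∀ m, Summable (fun N => ‖f m N‖) := fun m =>
    Summable.of_nonneg_of_le (fun _ => norm_nonneg _) (hfW m) hSs
  have hfs' : ∀ m, Summable (fun p : ℕ × ℕ => f m p.1 * f m p.2) := fun m =>
    summable_mul_of_summable_norm (hfs m) (hfs m)
  -- interchange of the sum and the integral
  have hEI : ∀ m, ∫ u : ℝ, EO g Θ L j m u * W₀ u = ∑' N, f m N := by
    intro m
    set F : ℕ → ℝ → ℝ := fun N u => (if Odd N ∧ 3 ≤ N then
      (rv j m N : ℝ) * bN Θ L N / √(N : ℝ) else 0) * (g (Real.log N + u) * W₀ u) with hFd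
    have i1 : ∀ N, Integrable (F N) := fun N => (hgi N).const_mul _
    have i2 : ∀ N, ∫ u : ℝ, ‖F N u‖ ≤ W N := by
      intro N
      have e1 : (fun u : ℝ => ‖F N u‖) = fun u : ℝ => |if Odd N ∧ 3 ≤ N then
          (rv j m N : ℝ) * bN Θ L N / √(N : ℝ) else 0| * |g (Real.log N + u) * W₀ u| := by
        funext u
        rw [Real.norm_eq_abs, abs_mul]
      rw [e1, integral_const_mul]
      split_ifs with h
      · have hN1 : 1 ≤ N := by omega
        have hNR : (1 : ℝ) ≤ N := by exact_mod_cast hN1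
        refine le_trans ?_ (hBG N hN1)
        have h2 : |(rv j m N : ℝ) * bN Θ L N / √(N : ℝ)| ≤ |bN Θ L N| / √(N : ℝ) := by
          rw [abs_div, abs_mul, abs_of_nonneg (Real.sqrt_nonneg _)]
          apply div_le_div_of_nonneg_right _ (Real.sqrt_nonneg _)
          calc |(rv j m N : ℝ)| * |bN Θ L N| ≤ 1 * |bN Θ L N| :=
                mul_le_mul_of_nonneg_right (Pool.Agent.RC.rc_dlim_rv_abs j m N) (abs_nonneg _)
            _ = _ := one_mul _
        have h3 : |(rv j m N : ℝ) * bN Θ L N / √(N : ℝ)| * Gw N ≤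
            |bN Θ L N| / √(N : ℝ) * Gw N := mul_le_mul_of_nonneg_right h2 (hGw0 N)
        have h4 : 0 ≤ |bN Θ L N| / √(N : ℝ) * Gw N := by
          have := hGw0 N
          positivity
        have h5 : |bN Θ L N| / √(N : ℝ) * Gw N ≤ N * (|bN Θ L N| / √(N : ℝ) * Gw N) :=
          le_mul_of_one_le_left h4 hNR
        exact h3.trans h5
      · rw [abs_zero, zero_mul]
        exact hW0 N
    have i3 : Summable fun N => ∫ u : ℝ, ‖F N u‖ :=
      Summable.of_nonneg_of_le (fun N => integral_nonneg fun u => norm_nonneg _) i2 hSs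
    have e2 := integral_tsum_of_summable_integral_norm i1 i3
    have e3 : ∀ N, ∫ u : ℝ, F N u = f m N := by
      intro N
      simp only [hFd]
      rw [integral_const_mul]
      simp only [hf]
      split_ifs
      · rfl
      · rw [zero_mul]
    have e4 : (fun u : ℝ => ∑' N, F N u) = fun u : ℝ => EO g Θ L j m u * W₀ u := by
      funext u
      unfold EO
      rw [← tsum_mul_right]
      apply tsum_congr
      intro N
      simp only [hFd]
      split_ifs
      · ring
      · ring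
    rw [e4] at e2
    rw [← e2]
    exact tsum_congr e3
  have hEO : ∀ m, (∫ u : ℝ, EO g Θ L j m u * W₀ u) ^ 2 = ∑' p : ℕ × ℕ, f m p.1 * f m p.2 := by
    intro m
    rw [hEI m, pow_two, ← tsum_mul_tsum_of_summable_norm (hfs m) (hfs m)]
  have hsum : ∑ m ∈ blk8 c K, (∫ u : ℝ, EO g Θ L j m u * W₀ u) ^ 2 =
      ∑' p : ℕ × ℕ, ∑ m ∈ blk8 c K, f m p.1 * f m p.2 := by
    rw [Summable.tsum_finsetSum (fun m _ => hfs' m)]
    exact Finset.sum_congr rfl fun m _ => hEO m
  set Q : ℕ × ℕ → ℝ := fun p => if Odd p.1 ∧ Odd p.2 ∧ 3 ≤ p.1 ∧ 3 ≤ p.2 ∧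
      IsSquare (p.1 * p.2) then |bN Θ L p.1 * bN Θ L p.2| / √((p.1 : ℝ) * p.2) *
        (Gw p.1 * Gw p.2) else 0 with hQd
  have hQ0 : ∀ p, 0 ≤ Q p := by
    intro p
    simp only [hQd]
    split_ifs
    · have := hGw0 p.1
      have := hGw0 p.2
      positivity
    · exact le_refl 0
  have hterm : ∀ p : ℕ × ℕ, ∑ m ∈ blk8 c K, f m p.1 * f m p.2 ≤
      (blk8 c K).card * Q p + 8 * (W p.1 * W p.2) := by
    rintro ⟨a, b⟩
    by_cases h : Odd a ∧ Odd b ∧ 3 ≤ a ∧ 3 ≤ b
    · obtain ⟨h1, h2, h3, h4⟩ := h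
      have e1 : ∑ m ∈ blk8 c K, f m a * f m b =
          (∑ m ∈ blk8 c K, (rv j m (a * b) : ℝ)) * (B a * B b) := by
        rw [Finset.sum_mul]
        refine Finset.sum_congr rfl fun m _ => ?_
        rw [hfB, hfB, if_pos ⟨h1, h3⟩, if_pos ⟨h2, h4⟩, ← rse_de_rv_mul]
        ring
      simp only
      rw [e1]
      refine (le_abs_self _).trans ?_
      rw [abs_mul]
      by_cases hsq : IsSquare (a * b)
      · have h5 : |∑ m ∈ blk8 c K, (rv j m (a * b) : ℝ)| ≤ (blk8 c K).card := by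
          refine (Finset.abs_sum_le_sum_abs _ _).trans ?_
          refine (Finset.sum_le_card_nsmul _ _ 1
            (fun m _ => Pool.Agent.RC.rc_dlim_rv_abs j m (a * b))).trans ?_
          simp
        have h6 : |B a * B b| ≤ Q (a, b) := by
          simp only [hQd]
          rw [if_pos ⟨h1, h2, h3, h4, hsq⟩, Real.sqrt_mul (Nat.cast_nonneg a), abs_mul (B a) (B b),
            abs_mul (bN Θ L a) (bN Θ L b)]
          have k0 : 0 ≤ |bN Θ L a| / √(a : ℝ) * Gw a := by
            have := hGw0 a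
            positivity
          refine (mul_le_mul (hBle a) (hBle b) (abs_nonneg _) k0).trans (le_of_eq ?_)
          ring
        have := mul_le_mul h5 h6 (abs_nonneg _) (Nat.cast_nonneg _)
        have h7 : 0 ≤ 8 * (W a * W b) := by
          have := hW0 a
          have := hW0 b
          positivity
        linarith
      · have h5 := per_sum j c hc K (by linarith) (a * b) (h1.mul h2) hsq
        have h6 : |∑ m ∈ blk8 c K, (rv j m (a * b) : ℝ)| * |B a * B b| ≤
            8 * (W a * W b) := by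
          calc _ ≤ 8 * ((a * b : ℕ) : ℝ) * |B a * B b| :=
                mul_le_mul_of_nonneg_right h5 (abs_nonneg _)
            _ = 8 * ((a * |B a|) * (b * |B b|)) := by
                rw [abs_mul]; push_cast; ring
            _ ≤ 8 * (W a * W b) := by
                have k1 := hBW a (by omega)
                have k2 := hBW b (by omega)
                have k3 : 0 ≤ (b : ℝ) * |B b| := by positivity
                have := mul_le_mul k1 k2 k3 (hW0 a)
                linarith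
        have h7 : 0 ≤ ((blk8 c K).card : ℝ) * Q (a, b) := by
          have := hQ0 (a, b)
          positivity
        linarith
    · have e1 : ∑ m ∈ blk8 c K, f m a * f m b = 0 := by
        refine Finset.sum_eq_zero fun m _ => ?_
        rw [hfB, hfB]
        by_cases ha : Odd a ∧ 3 ≤ a
        · rw [if_neg (fun hb : Odd b ∧ 3 ≤ b => h ⟨ha.1, hb.1, ha.2, hb.2⟩), mul_zero]
        · rw [if_neg ha, zero_mul]
      simp only
      rw [e1]
      have k1 := hQ0 (a, b)
      have k2 := hW0 a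
      have k3 := hW0 b
      positivity
  have hWn : Summable (fun n => ‖W n‖) := by
    simpa only [Real.norm_of_nonneg (hW0 _)] using hSs
  have hWW : Summable (fun p : ℕ × ℕ => W p.1 * W p.2) :=
    summable_mul_of_summable_norm hWn hWn
  have hlhs : Summable (fun p : ℕ × ℕ => ∑ m ∈ blk8 c K, f m p.1 * f m p.2) :=
    summable_sum fun m _ => hfs' m
  have hrhs : Summable (fun p : ℕ × ℕ => (blk8 c K).card * Q p + 8 * (W p.1 * W p.2)) :=
    (hQs.mul_left _).add (hWW.mul_left _)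
  have hle := Summable.tsum_le_tsum hterm hlhs hrhs
  rw [hsum]
  refine hle.trans ?_
  rw [Summable.tsum_add (hQs.mul_left _) (hWW.mul_left _), tsum_mul_left, tsum_mul_left,
    ← tsum_mul_tsum_of_summable_norm hWn hWn]
  have hcard := rse_de_card c hK
  have hWt0 : 0 ≤ ∑' n, W n := tsum_nonneg hW0
  have hQt0 : 0 ≤ ∑' p, Q p := tsum_nonneg hQ0
  have a1 : ((blk8 c K).card : ℝ) * ∑' p, Q p ≤ 3 * K * (C1 / L * ∫ u : ℝ, W₀ u ^ 2) :=
    mul_le_mul hcard hQt hQt0 (by linarith)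
  have hWn0 : 0 ≤ ∫ u : ℝ, |W₀ u| := integral_nonneg fun u => abs_nonneg _
  have a2 : (∑' n, W n) * ∑' n, W n ≤ (C2 * Real.exp (7 / 16 * L) * ∫ u : ℝ, |W₀ u|) ^ 2 := by
    rw [pow_two]
    exact mul_le_mul hSt hSt hWt0 (by positivity)
  have a3 : Real.exp (7 / 16 * L) ^ 2 * L ≤ K / L := by
    rw [← Real.exp_nat_mul, le_div_iff₀ hL0]
    have h1 : Real.exp (10 * L) ≤ K := by
      rw [← Real.exp_log hK0]
      exact Real.exp_le_exp.2 hLK
    have h2 : L ≤ Real.exp L := by linarith [Real.add_one_le_exp L]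
    calc Real.exp (((2 : ℕ) : ℝ) * (7 / 16 * L)) * L * L
        ≤ Real.exp L * Real.exp L * Real.exp L := by
          refine mul_le_mul (mul_le_mul (Real.exp_le_exp.2 ?_) h2 hL0.le (Real.exp_pos _).le)
            h2 hL0.le (by positivity)
          push_cast
          linarith
      _ = Real.exp (3 * L) := by rw [← Real.exp_add, ← Real.exp_add]; congr 1; ring
      _ ≤ Real.exp (10 * L) := Real.exp_le_exp.2 (by linarith)
      _ ≤ K := h1
  have a4 : (C2 * Real.exp (7 / 16 * L) * ∫ u : ℝ, |W₀ u|) ^ 2 ≤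
      C2 ^ 2 * (K / L) * ∫ u : ℝ, W₀ u ^ 2 := by
    have h1 : (∫ u : ℝ, |W₀ u|) ^ 2 ≤ L * ∫ u : ℝ, W₀ u ^ 2 :=
      (wt_l1 hWt).trans (mul_le_mul_of_nonneg_right hba hW2)
    calc (C2 * Real.exp (7 / 16 * L) * ∫ u : ℝ, |W₀ u|) ^ 2
        = C2 ^ 2 * Real.exp (7 / 16 * L) ^ 2 * (∫ u : ℝ, |W₀ u|) ^ 2 := by ring
      _ ≤ C2 ^ 2 * Real.exp (7 / 16 * L) ^ 2 * (L * ∫ u : ℝ, W₀ u ^ 2) :=
          mul_le_mul_of_nonneg_left h1 (by positivity)
      _ = C2 ^ 2 * (Real.exp (7 / 16 * L) ^ 2 * L) * ∫ u : ℝ, W₀ u ^ 2 := by ring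
      _ ≤ C2 ^ 2 * (K / L) * ∫ u : ℝ, W₀ u ^ 2 := by
          apply mul_le_mul_of_nonneg_right _ hW2
          exact mul_le_mul_of_nonneg_left a3 (by positivity)
  have e : (3 * C1 + 8 * C2 ^ 2) * K / L * (∫ u : ℝ, W₀ u ^ 2) =
      3 * K * (C1 / L * ∫ u : ℝ, W₀ u ^ 2) + 8 * (C2 ^ 2 * (K / L) * ∫ u : ℝ, W₀ u ^ 2) := by
    field_simp
  rw [e]
  linarith


end Pool.Agent.RSF

namespace Pool.Agent.RSF

alias dew_bound := dew_bound_pr

end Pool.Agent.RSF
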