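import Pool.Agent.Lib_helper39.RSF.Defs
import Pool.Agent.Lib_helper39.RSF.KG1
import Pool.Agent.Lib_helper39.RSF.PFM
import Pool.Agent.Lib_helper39.RSF.SMO2
import Pool.Agent.Lib_helper39.RSF.AMB2
import Pool.Agent.Lib_helper39.RSF.DSQ
import Pool.Agent.Lib_helper39.RSF.XLIM
import Pool.Agent.Lib_helper39.RSF.XR2
import Pool.Agent.Lib_helper39.RSF.DDE
import Pool.Agent.Lib_helper39.RSF.DFO
import Pool.Agent.Lib_helper39.RSF.DOD
import Pool.Agent.Lib_helper39.RSF.M4B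
import Pool.Agent.Lib_helper39.RSF.FUI
import Pool.Agent.Lib_helper39.RSA.XR6
import Pool.Agent.Lib_helper39.RSA.PRM
import Pool.Agent.Lib_helper39.RSA.SOB
import Pool.Agent.Lib_helper39.RSA.BNS
import Pool.Agent.Lib_helper39.RSA.QLA
import Pool.Agent.Lib_helper39.RSA.QLB
import Pool.Agent.Lib_helper39.RSA.PER
import Pool.Agent.Lib_helper39.RSA.AVE
import Pool.Agent.Lib_helper39.RSA.CUT1
import Pool.Agent.Lib_helper39.RSA.CUT2
import Pool.Agent.Lib_helper24.ABS.Endgame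
import Pool.Agent.Lib_helper39.RSG.DEW
import Pool.Agent.Lib_helper39.RSG.UTW
/-!
# RSF, block DDW: the mean square of the smeared density minus the main term
-/

namespace Pool.Agent.RSF

open Complex MeasureTheory Filter Topology
open Pool.Agent.RC (cc psi rv f0 IsRC Good gm pr DD)
open Pool.Agent.RSE
open scoped ContDiff

theorem rsf_ddw_w (a : ℕ) : (2 : ℝ) ^ (-(a : ℝ) / 2) ≤ (3 / 4 : ℝ) ^ a := by
  have h1 : (2 : ℝ) ^ (-(a : ℝ) / 2) = ((2 : ℝ) ^ (-(1 : ℝ) / 2)) ^ a := by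
    rw [← Real.rpow_natCast, ← Real.rpow_mul (by norm_num)]
    congr 1
    ring
  rw [h1]
  refine pow_le_pow_left₀ (by positivity) ?_ a
  have h2 : ((2 : ℝ) ^ (-(1 : ℝ) / 2)) ^ 2 = 1 / 2 := by
    rw [← Real.rpow_natCast, ← Real.rpow_mul (by norm_num)]
    norm_num
  have h3 : 0 ≤ (2 : ℝ) ^ (-(1 : ℝ) / 2) := by positivity
  nlinarith

theorem rsf_ddw_wsum (n : ℕ) : ∑ a ∈ Finset.range n, (2 : ℝ) ^ (-(a : ℝ) / 2) ≤ 4 := by
  have h1 : ∑ a ∈ Finset.range n, (2 : ℝ) ^ (-(a : ℝ) / 2) ≤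
      ∑ a ∈ Finset.range n, (3 / 4 : ℝ) ^ a := Finset.sum_le_sum fun a _ => rsf_ddw_w a
  refine h1.trans ?_
  have h2 : Summable (fun a : ℕ => (3 / 4 : ℝ) ^ a) :=
    summable_geometric_of_lt_one (by norm_num) (by norm_num)
  have h3 := h2.sum_le_tsum (Finset.range n) (fun a _ => by positivity)
  rw [tsum_geometric_of_lt_one (by norm_num) (by norm_num)] at h3
  refine h3.trans ?_
  norm_num

theorem rsf_ddw_summable : Summable (fun a : ℕ => (2 : ℝ) ^ (-(a : ℝ) / 2)) :=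
  Summable.of_nonneg_of_le (fun a => by positivity) rsf_ddw_w
    (summable_geometric_of_lt_one (by norm_num) (by norm_num))

/-- The coefficients of `EO` are bounded. -/
theorem rsf_ddw_bN (Θ : ℝ → ℝ) (L : ℝ) : ∃ B : ℝ, 0 ≤ B ∧ ∀ N : ℕ, |bN Θ L N| ≤ B := by
  refine ⟨∑ k ∈ KL L, ∑ l ∈ KL L, |be Θ L 1 k * be Θ L 1 l|,
    Finset.sum_nonneg fun k _ => Finset.sum_nonneg fun l _ => abs_nonneg _, ?_⟩
  intro N
  unfold bN
  refine (Finset.abs_sum_le_sum_abs _ _).trans (Finset.sum_le_sum fun k _ => ?_)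
  refine (Finset.abs_sum_le_sum_abs _ _).trans (Finset.sum_le_sum fun l _ => ?_)
  split_ifs
  · exact le_refl _
  · rw [abs_zero]; exact abs_nonneg _

theorem rsf_ddw_term {g : ℝ → ℝ} (hg : Ker1 g) (Θ : ℝ → ℝ) (L : ℝ) (j : Fin 4) (m : ℕ) :
    ∃ C : ℝ, 0 ≤ C ∧ ∀ (N : ℕ) (u : ℝ),
      |if Odd N ∧ 3 ≤ N then (rv j m N : ℝ) * bN Θ L N / √(N : ℝ) * g (Real.log N + u)
        else 0| ≤ C * ((N : ℝ) ^ 2)⁻¹ * Real.exp (-2 * u) := by
  obtain ⟨B, hB0, hB⟩ := rsf_ddw_bN Θ L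
  obtain ⟨C, hC⟩ := hg.fast 0 2 (by norm_num)
  simp only [iteratedDeriv_zero] at hC
  have hC0 : 0 ≤ C := by
    have := hC 0
    simp only [mul_zero, Real.exp_zero, mul_one] at this
    exact (abs_nonneg _).trans this
  refine ⟨B * C, by positivity, ?_⟩
  intro N u
  split_ifs with h
  · have hN : 0 < N := by omega
    have hn' : (0 : ℝ) < N := by exact_mod_cast hN
    have hs : (1 : ℝ) ≤ √(N : ℝ) := Real.one_le_sqrt.mpr (by exact_mod_cast hN)
    have e : Real.exp (-2 * (Real.log N + u)) = ((N : ℝ) ^ 2)⁻¹ * Real.exp (-2 * u) := by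
      rw [mul_add, Real.exp_add]
      congr 1
      rw [show (-2 : ℝ) * Real.log N = -(Real.log ((N : ℝ) ^ 2)) by
        rw [Real.log_pow]; push_cast; ring, Real.exp_neg, Real.exp_log (by positivity)]
    have h2 := hC (Real.log N + u)
    rw [e] at h2
    have h3 : |(rv j m N : ℝ) * bN Θ L N / √(N : ℝ)| ≤ B := by
      rw [abs_div, abs_mul, abs_of_nonneg (Real.sqrt_nonneg _)]
      refine (div_le_self (by positivity) hs).trans ?_
      calc |(rv j m N : ℝ)| * |bN Θ L N| ≤ 1 * B :=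
            mul_le_mul (rse_smo1_rv_le j m N) (hB N) (abs_nonneg _) (by norm_num)
        _ = B := one_mul _
    rw [abs_mul]
    calc |(rv j m N : ℝ) * bN Θ L N / √(N : ℝ)| * |g (Real.log N + u)|
        ≤ B * (C * (((N : ℝ) ^ 2)⁻¹ * Real.exp (-2 * u))) :=
          mul_le_mul h3 h2 (abs_nonneg _) hB0
      _ = _ := by ring
  · rw [abs_zero]; positivity

theorem rsf_ddw_cont {g : ℝ → ℝ} (hg : Ker1 g) (Θ : ℝ → ℝ) (L : ℝ) (j : Fin 4) (m : ℕ) :
    Continuous (EO g Θ L j m) := by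
  obtain ⟨C, hC0, hC⟩ := rsf_ddw_term hg Θ L j m
  have hgc : Continuous g := hg.smooth.continuous
  rw [continuous_iff_continuousAt]
  intro u0
  have key : ContinuousOn (fun u : ℝ => EO g Θ L j m u) (Set.Ioi (u0 - 1)) := by
    unfold EO
    refine continuousOn_tsum (u := fun N : ℕ =>
      C * ((N : ℝ) ^ 2)⁻¹ * Real.exp (-2 * (u0 - 1))) ?_ ?_ ?_
    · intro N
      split_ifs
      · exact (continuous_const.mul (hgc.comp (by fun_prop))).continuousOn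
      · exact continuousOn_const
    · exact ((Real.summable_nat_pow_inv.mpr (by norm_num)).mul_left C).mul_right _
    · intro N u hu
      have hu' : u0 - 1 < u := hu
      rw [Real.norm_eq_abs]
      refine (hC N u).trans ?_
      exact mul_le_mul_of_nonneg_left (Real.exp_le_exp.mpr (by linarith)) (by positivity)
  exact key.continuousAt (Ioi_mem_nhds (by linarith))

theorem rsf_ddw_bd {g : ℝ → ℝ} (hg : Ker1 g) (Θ : ℝ → ℝ) (L : ℝ) (j : Fin 4) (m : ℕ) (u0 : ℝ) :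
    ∃ B : ℝ, 0 ≤ B ∧ ∀ u : ℝ, u0 ≤ u → |EO g Θ L j m u| ≤ B := by
  obtain ⟨C, hC0, hC⟩ := rsf_ddw_term hg Θ L j m
  have hs : Summable (fun N : ℕ => C * ((N : ℝ) ^ 2)⁻¹ * Real.exp (-2 * u0)) :=
    ((Real.summable_nat_pow_inv.mpr (by norm_num)).mul_left C).mul_right _
  refine ⟨∑' N : ℕ, C * ((N : ℝ) ^ 2)⁻¹ * Real.exp (-2 * u0),
    tsum_nonneg fun N => by positivity, ?_⟩
  intro u hu
  unfold EO
  rw [← Real.norm_eq_abs]
  refine tsum_of_norm_bounded hs.hasSum fun N => ?_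
  rw [Real.norm_eq_abs]
  refine (hC N u).trans ?_
  exact mul_le_mul_of_nonneg_left (Real.exp_le_exp.mpr (by linarith)) (by positivity)

/-- The smeared density as a series. -/
theorem rsf_ddw_series {g Θ : ℝ → ℝ} (hg : Ker1 g) (hΘ : Cut Θ) {L : ℝ} (hL : 1 ≤ L) (j : Fin 4)
    (m : ℕ) {W : ℝ → ℝ} {a b : ℝ} (hW : Wt W a b) :
    HasSum (fun k : ℕ => (rv j m (2 ^ k) : ℝ) * (2 : ℝ) ^ (-(k : ℝ) / 2) *
      ∫ u : ℝ, EO g Θ L j m (u + k * Real.log 2) * W u)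
      (∫ u : ℝ, (DM g Θ L j m u - gA g j m u) * W u) := by
  obtain ⟨B, hB0, hB⟩ := rsf_ddw_bd hg Θ L j m a
  have hc := rsf_ddw_cont hg Θ L j m
  have hlog2 : 0 ≤ Real.log 2 := Real.log_nonneg (by norm_num)
  set F : ℕ → ℝ → ℝ := fun k u => (rv j m (2 ^ k) : ℝ) * (2 : ℝ) ^ (-(k : ℝ) / 2) *
      EO g Θ L j m (u + k * Real.log 2) * W u with hF
  have hck : ∀ k : ℕ, Continuous (fun u : ℝ => (rv j m (2 ^ k) : ℝ) * (2 : ℝ) ^ (-(k : ℝ) / 2) *
      EO g Θ L j m (u + k * Real.log 2)) := fun k =>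
    continuous_const.mul (hc.comp (by fun_prop))
  have hint : ∀ k, Integrable (F k) := fun k => (wt_int hW (hck k)).1
  have hWi : Integrable (fun u => |W u|) := (wt_int hW continuous_const (f := fun _ => (0 : ℝ))).2.2.2
  have hnorm : ∀ k u, ‖F k u‖ ≤ (2 : ℝ) ^ (-(k : ℝ) / 2) * (B * |W u|) := by
    intro k u
    rw [hF]
    simp only
    rw [Real.norm_eq_abs, abs_mul, abs_mul, abs_mul]
    by_cases hu : u ∈ Set.Icc a b
    · have h1 : |EO g Θ L j m (u + k * Real.log 2)| ≤ B := by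
        apply hB
        have : 0 ≤ (k : ℝ) * Real.log 2 := by positivity
        linarith [hu.1]
      have h2 := rse_smo1_rv_le j m (2 ^ k)
      have h3 : |(2 : ℝ) ^ (-(k : ℝ) / 2)| = (2 : ℝ) ^ (-(k : ℝ) / 2) := abs_of_nonneg (by positivity)
      rw [h3]
      calc |(rv j m (2 ^ k) : ℝ)| * (2 : ℝ) ^ (-(k : ℝ) / 2) *
            |EO g Θ L j m (u + k * Real.log 2)| * |W u|
          ≤ 1 * (2 : ℝ) ^ (-(k : ℝ) / 2) * B * |W u| := by gcongr
        _ = _ := by ring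
    · rw [hW.supp u hu, abs_zero, mul_zero, mul_zero, mul_zero]
  have hsum : Summable (fun k => ∫ u, ‖F k u‖) := by
    refine Summable.of_nonneg_of_le (fun k => integral_nonneg fun u => norm_nonneg _) (fun k => ?_)
      (rsf_ddw_summable.mul_right (B * ∫ u, |W u|))
    calc ∫ u, ‖F k u‖ ≤ ∫ u, (2 : ℝ) ^ (-(k : ℝ) / 2) * (B * |W u|) :=
          integral_mono (hint k).norm ((hWi.const_mul B).const_mul _) (hnorm k)
      _ = _ := by rw [integral_const_mul, integral_const_mul]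
  have h4 := hasSum_integral_of_summable_integral_norm hint hsum
  have h5 : ∫ u, ∑' k, F k u = ∫ u : ℝ, (DM g Θ L j m u - gA g j m u) * W u := by
    congr 1
    ext u
    obtain ⟨hs, he⟩ := dm_eq hg hΘ hL j m u
    rw [he, ← tsum_mul_right]
  rw [h5] at h4
  have h6 : (fun k : ℕ => ∫ u, F k u) = fun k : ℕ => (rv j m (2 ^ k) : ℝ) *
      (2 : ℝ) ^ (-(k : ℝ) / 2) * ∫ u : ℝ, EO g Θ L j m (u + k * Real.log 2) * W u := by
    ext k
    rw [← integral_const_mul]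
    congr 1
    ext u
    rw [hF]
    ring
  rwa [h6] at h4

/-- DDW (cites UTW, DEW; DDE). -/
theorem ddw_bound_pr {g Θ : ℝ → ℝ} (hg : Ker1 g) (hΘ : Cut Θ) : ∃ C : ℝ, 0 < C ∧
    ∀ (j : Fin 4) (c : ℕ) (L K : ℝ) (W : ℝ → ℝ), OC c → 1 ≤ L → 1 ≤ K →
    10 * L ≤ Real.log K → Wt W (-(L / 8)) (L / 8) →
    ∑ m ∈ blk8 c K, (∫ u : ℝ, (DM g Θ L j m u - gA g j m u) * W u) ^ 2 ≤
      C * K / L * ∫ u : ℝ, W u ^ 2 := by
  obtain ⟨C, hC, hD⟩ := dew_bound hg hΘ
  refine ⟨16 * C, by positivity, ?_⟩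
  intro j c L K W hc hL hK hLK hW
  have hlog2 : 0 ≤ Real.log 2 := Real.log_nonneg (by norm_num)
  set N : ℝ := ∫ u : ℝ, W u ^ 2 with hN
  have hN0 : 0 ≤ N := integral_nonneg fun u => sq_nonneg _
  set I : ℕ → ℕ → ℝ := fun m a => ∫ u : ℝ, EO g Θ L j m (u + a * Real.log 2) * W u with hI
  have hE : ∀ a : ℕ, ∑ m ∈ blk8 c K, I m a ^ 2 ≤ C * K / L * N := by
    intro a
    obtain ⟨w1, w2, -, w4⟩ := wt_shift hW (a * Real.log 2)
    have h1 := hD j c L K _ _ _ hc hL hK hLK w1 (by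
      have : 0 ≤ (a : ℝ) * Real.log 2 := by positivity
      linarith) (by linarith)
    rw [w2] at h1
    refine le_trans (le_of_eq (Finset.sum_congr rfl fun m _ => ?_)) h1
    rw [hI]
    simp only
    rw [w4 (fun u => EO g Θ L j m u)]
  have hpart : ∀ n : ℕ, ∑ m ∈ blk8 c K, (∑ a ∈ Finset.range n, (rv j m (2 ^ a) : ℝ) *
      (2 : ℝ) ^ (-(a : ℝ) / 2) * I m a) ^ 2 ≤ 16 * C * K / L * N := by
    intro n
    have h1 : ∀ m ∈ blk8 c K, (∑ a ∈ Finset.range n, (rv j m (2 ^ a) : ℝ) *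
        (2 : ℝ) ^ (-(a : ℝ) / 2) * I m a) ^ 2 ≤
        4 * ∑ a ∈ Finset.range n, (2 : ℝ) ^ (-(a : ℝ) / 2) * I m a ^ 2 := by
      intro m _
      have h2 := Finset.sum_sq_le_sum_mul_sum_of_sq_le_mul (Finset.range n)
        (r := fun a : ℕ => (rv j m (2 ^ a) : ℝ) * (2 : ℝ) ^ (-(a : ℝ) / 2) * I m a)
        (f := fun a : ℕ => (2 : ℝ) ^ (-(a : ℝ) / 2))
        (g := fun a : ℕ => (2 : ℝ) ^ (-(a : ℝ) / 2) *
          ((rv j m (2 ^ a) : ℝ) ^ 2 * I m a ^ 2))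
        (fun a _ => by positivity) (fun a _ => by positivity) (fun a _ => le_of_eq (by ring))
      refine h2.trans ?_
      refine mul_le_mul (rsf_ddw_wsum n) ?_ (Finset.sum_nonneg fun a _ => by positivity)
        (by norm_num)
      refine Finset.sum_le_sum fun a _ => ?_
      refine mul_le_mul_of_nonneg_left ?_ (by positivity)
      have h3 : (rv j m (2 ^ a) : ℝ) ^ 2 ≤ 1 := by
        rw [← sq_abs]
        have := rse_smo1_rv_le j m (2 ^ a)
        have h0 := abs_nonneg (rv j m (2 ^ a) : ℝ)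
        nlinarith
      have h4 : 0 ≤ I m a ^ 2 := sq_nonneg _
      nlinarith
    refine (Finset.sum_le_sum h1).trans ?_
    rw [← Finset.mul_sum, Finset.sum_comm]
    have h5 : ∑ a ∈ Finset.range n, ∑ m ∈ blk8 c K, (2 : ℝ) ^ (-(a : ℝ) / 2) * I m a ^ 2 ≤
        ∑ a ∈ Finset.range n, (2 : ℝ) ^ (-(a : ℝ) / 2) * (C * K / L * N) := by
      refine Finset.sum_le_sum fun a _ => ?_
      rw [← Finset.mul_sum]
      exact mul_le_mul_of_nonneg_left (hE a) (by positivity)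
    rw [← Finset.sum_mul] at h5
    have h6 : 0 ≤ C * K / L * N := by positivity
    have h7 := mul_le_mul_of_nonneg_right (rsf_ddw_wsum n) h6
    have h8 : 16 * C * K / L * N = 4 * (4 * (C * K / L * N)) := by ring
    rw [h8]
    linarith
  have hlim : Tendsto (fun n : ℕ => ∑ m ∈ blk8 c K, (∑ a ∈ Finset.range n,
      (rv j m (2 ^ a) : ℝ) * (2 : ℝ) ^ (-(a : ℝ) / 2) * I m a) ^ 2) atTop
      (𝓝 (∑ m ∈ blk8 c K, (∫ u : ℝ, (DM g Θ L j m u - gA g j m u) * W u) ^ 2)) := by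
    refine tendsto_finsetSum _ fun m _ => ?_
    exact (rsf_ddw_series hg hΘ hL j m hW).tendsto_sum_nat.pow 2
  exact le_of_tendsto' hlim hpart

end Pool.Agent.RSF

namespace Pool.Agent.RSF

alias ddw_bound := ddw_bound_pr

end Pool.Agent.RSF
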