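import Pool.Agent.Lib_helper39.RSF.Defs
import Pool.Agent.Lib_helper39.RSF.SMO1
/-!
# RSF, block DGC: joint continuity of the diagonal
-/

namespace Pool.Agent.RSF

open Complex MeasureTheory Filter Topology
open Pool.Agent.RC (cc psi rv f0 IsRC Good gm pr DD)
open Pool.Agent.RSE
open scoped ContDiff

theorem rsf_dgc_fast {g : ℝ → ℝ} (hg : Ker1 g) : ∃ C : ℝ, 0 ≤ C ∧
    ∀ (n : ℕ) (v : ℝ), 0 < n → |g (Real.log n + v)| ≤ C * ((n : ℝ) ^ 2)⁻¹ * Real.exp (-2 * v) := by
  obtain ⟨C, hC⟩ := hg.fast 0 2 (by norm_num)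
  simp only [iteratedDeriv_zero] at hC
  refine ⟨C, ?_, ?_⟩
  · have := hC 0
    simp only [mul_zero, Real.exp_zero, mul_one] at this
    exact (abs_nonneg _).trans this
  · intro n v hn
    have h := hC (Real.log n + v)
    have hn' : (0 : ℝ) < n := by exact_mod_cast hn
    have e : Real.exp (-2 * (Real.log n + v)) = ((n : ℝ) ^ 2)⁻¹ * Real.exp (-2 * v) := by
      rw [mul_add, Real.exp_add]
      congr 1
      rw [show (-2 : ℝ) * Real.log n = -(Real.log ((n : ℝ) ^ 2)) by rw [Real.log_pow]; push_cast; ring,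
        Real.exp_neg, Real.exp_log (by positivity)]
    rw [e] at h
    rw [mul_assoc]
    exact h

theorem rsf_dgc_sqs {g : ℝ → ℝ} (hg : Ker1 g) (m lam : ℕ) :
    Continuous (fun q : ℝ × ℝ => SQs g m lam q.1 q.2) := by
  obtain ⟨C, hC0, hC⟩ := rsf_dgc_fast hg
  have hgc : Continuous g := hg.smooth.continuous
  rw [continuous_iff_continuousAt]
  intro q0
  have key : ContinuousOn (fun q : ℝ × ℝ => SQs g m lam q.1 q.2)
      (Set.Ioi (q0.1 - 1) ×ˢ Set.Ioi (q0.2 - 1)) := by
    unfold SQs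
    have hs1 : Summable (fun n : ℕ => C * ((n : ℝ) ^ 2)⁻¹ * Real.exp (-2 * (q0.1 - 1))) :=
      ((Real.summable_nat_pow_inv.mpr (by norm_num)).mul_left C).mul_right _
    have hs2 : Summable (fun n : ℕ => C * ((n : ℝ) ^ 2)⁻¹ * Real.exp (-2 * (q0.2 - 1))) :=
      ((Real.summable_nat_pow_inv.mpr (by norm_num)).mul_left C).mul_right _
    refine continuousOn_tsum (u := fun p : ℕ × ℕ =>
      (C * ((p.1 : ℝ) ^ 2)⁻¹ * Real.exp (-2 * (q0.1 - 1))) *
        (C * ((p.2 : ℝ) ^ 2)⁻¹ * Real.exp (-2 * (q0.2 - 1)))) ?_ ?_ ?_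
    · intro p
      split_ifs
      · exact (((hgc.comp (by fun_prop)).mul (hgc.comp (by fun_prop))).div_const _).continuousOn
      · exact continuousOn_const
    · exact Summable.mul_of_nonneg hs1 hs2 (fun n => by positivity) (fun n => by positivity)
    · intro p q hq
      have hq1 : q0.1 - 1 < q.1 := hq.1
      have hq2 : q0.2 - 1 < q.2 := hq.2
      split_ifs with h
      · obtain ⟨h1, h2, -, -⟩ := h
        have p1 : 0 < p.1 := h1.pos
        have p2 : 0 < p.2 := h2.pos
        rw [norm_div, norm_mul, Real.norm_eq_abs, Real.norm_eq_abs, Real.norm_eq_abs,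
          abs_of_nonneg (Real.sqrt_nonneg _)]
        have hq : (1 : ℝ) ≤ √((p.1 : ℝ) * p.2) := by
          apply Real.one_le_sqrt.mpr
          have a1 : (1 : ℝ) ≤ p.1 := by exact_mod_cast p1
          have a2 : (1 : ℝ) ≤ p.2 := by exact_mod_cast p2
          nlinarith
        refine (div_le_self (by positivity) hq).trans ?_
        refine mul_le_mul ?_ ?_ (abs_nonneg _) (by positivity)
        · refine (hC p.1 q.1 p1).trans ?_
          refine mul_le_mul_of_nonneg_left (Real.exp_le_exp.mpr (by linarith)) (by positivity)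
        · refine (hC p.2 q.2 p2).trans ?_
          refine mul_le_mul_of_nonneg_left (Real.exp_le_exp.mpr (by linarith)) (by positivity)
      · rw [norm_zero]; positivity
  exact key.continuousAt (prod_mem_nhds (Ioi_mem_nhds (by linarith)) (Ioi_mem_nhds (by linarith)))

/-- DGC. -/
theorem dg2_cont_pr {g : ℝ → ℝ} (hg : Ker1 g) (Θ : ℝ → ℝ) (L : ℝ) (R m : ℕ) :
    Continuous (fun p : ℝ × ℝ => Dg g Θ L R m p.1 p.2) := by
  unfold Dg
  refine continuous_finsetSum _ fun a _ => continuous_finsetSum _ fun b _ =>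
    continuous_finsetSum _ fun a' _ => continuous_finsetSum _ fun b' _ => ?_
  refine continuous_const.mul ?_
  exact (rsf_dgc_sqs hg m (a * b * (a' * b'))).comp (f := fun p : ℝ × ℝ =>
    (p.1 + Real.log a - Real.log b, p.2 + Real.log a' - Real.log b')) (by fun_prop)

end Pool.Agent.RSF

namespace Pool.Agent.RSF

alias dg2_cont := dg2_cont_pr

end Pool.Agent.RSF
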