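import Pool.Agent.Lib_helper39.RSF.Defs
import Pool.Agent.Lib_helper39.RSF.XR2
import Pool.Agent.Lib_helper39.RSA.XR6
import Pool.Agent.Lib_helper39.RSA.XRK
/-!
# RSF, block XRW: Plancherel for a convolution
-/

namespace Pool.Agent.RSF

open Complex MeasureTheory Filter Topology
open Pool.Agent.RC (cc psi rv f0 IsRC Good gm pr DD)
open Pool.Agent.RSE
open Pool.Agent.SQS (hat)
open scoped ContDiff Convolution

/-- the convolution of two functions -/
noncomputable def rsf_xrw_cv (f h : ℝ → ℂ) (x : ℝ) : ℂ := ∫ u : ℝ, f u * h (x - u)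

theorem rsf_xrw_cv_int {f h : ℝ → ℂ} (hf : Integrable f) (hh : Integrable h) :
    Integrable (rsf_xrw_cv f h) := by
  have := hf.integrable_convolution (ContinuousLinearMap.mul ℂ ℂ) hh
  exact this

theorem rsf_xrw_e_norm (t u : ℝ) : ‖cexp (t * u * I)‖ = 1 := by
  have e : (t * u * I : ℂ) = ((t * u : ℝ) : ℂ) * I := by push_cast; rfl
  rw [e, norm_exp_ofReal_mul_I]

theorem rsf_xrw_tw {f : ℝ → ℂ} (hf : Integrable f) (t : ℝ) :
    Integrable (fun u : ℝ => f u * cexp (t * u * I)) := by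
  refine hf.mul_bdd (c := 1) (Continuous.aestronglyMeasurable (by fun_prop))
    (ae_of_all _ fun u => ?_)
  rw [rsf_xrw_e_norm]

theorem rsf_xrw_hat_cv {f h : ℝ → ℂ} (hf : Integrable f) (hh : Integrable h) (t : ℝ) :
    hat (rsf_xrw_cv f h) t = hat f t * hat h t := by
  have h1 := integral_convolution (L := ContinuousLinearMap.mul ℂ ℂ) (μ := volume) (ν := volume)
    (rsf_xrw_tw hf t) (rsf_xrw_tw hh t)
  unfold Pool.Agent.SQS.hat
  have h2 : ∀ x : ℝ, rsf_xrw_cv f h x * cexp (t * x * I) =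
      ((fun u : ℝ => f u * cexp (t * u * I)) ⋆[ContinuousLinearMap.mul ℂ ℂ, volume]
        (fun u : ℝ => h u * cexp (t * u * I))) x := by
    intro x
    rw [convolution_def]
    unfold rsf_xrw_cv
    rw [← integral_mul_const]
    refine integral_congr_ae (ae_of_all _ fun u => ?_)
    simp only [ContinuousLinearMap.mul_apply']
    have e : cexp (t * x * I) = cexp (t * u * I) * cexp (t * ((x - u : ℝ) : ℂ) * I) := by
      rw [← Complex.exp_add]
      congr 1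
      push_cast
      ring
    rw [e]
    ring
  rw [integral_congr_ae (ae_of_all _ h2), h1]
  rfl

theorem rsf_xrw_hat_le (f : ℝ → ℂ) (t : ℝ) : ‖hat f t‖ ≤ ∫ u : ℝ, ‖f u‖ := by
  unfold Pool.Agent.SQS.hat
  refine (norm_integral_le_integral_norm _).trans (le_of_eq ?_)
  refine integral_congr_ae (ae_of_all _ fun u => ?_)
  simp only
  rw [norm_mul, rsf_xrw_e_norm, mul_one]

/-- Plancherel for a convolution. -/
theorem rsf_xrw_pl {f h : ℝ → ℂ} (hf : Integrable f) (hf2 : Integrable (fun u => ‖f u‖ ^ 2))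
    (hh : Integrable h) :
    Integrable (fun x => ‖rsf_xrw_cv f h x‖ ^ 2) ∧
    Integrable (fun t => ‖hat h t‖ ^ 2 * ‖hat f t‖ ^ 2) ∧
    ∫ x : ℝ, ‖rsf_xrw_cv f h x‖ ^ 2 = (2 * Real.pi)⁻¹ *
      ∫ t : ℝ, ‖hat h t‖ ^ 2 * ‖hat f t‖ ^ 2 := by
  obtain ⟨p1, p2⟩ := Pool.Agent.SQS.PL1 f hf hf2
  have i1 : Integrable (fun t => ‖hat h t‖ ^ 2 * ‖hat f t‖ ^ 2) := by
    refine p1.bdd_mul (c := (∫ u : ℝ, ‖h u‖) ^ 2) ?_ (ae_of_all _ fun t => ?_)
    · exact ((rse_xrk_hat_cont hh).norm.pow 2).aestronglyMeasurable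
    · rw [norm_pow, norm_norm]
      exact pow_le_pow_left₀ (norm_nonneg _) (rsf_xrw_hat_le h t) 2
  have e1 : ∀ t, ‖hat (rsf_xrw_cv f h) t‖ ^ 2 = ‖hat h t‖ ^ 2 * ‖hat f t‖ ^ 2 := by
    intro t
    rw [rsf_xrw_hat_cv hf hh, norm_mul, mul_pow, mul_comm]
  have i2 : Integrable (fun t => ‖hat (rsf_xrw_cv f h) t‖ ^ 2) := by
    simp only [e1]
    exact i1
  obtain ⟨q1, q2⟩ := Pool.Agent.SQS.PL2 _ (rsf_xrw_cv_int hf hh) i2
  refine ⟨q1, i1, ?_⟩
  simp only [e1] at q2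
  rw [q2, ← mul_assoc, inv_mul_cancel₀ (by positivity), one_mul]

/-- The weight `e^{u/2L} W(-u)`. -/
noncomputable def rsf_xrw_V (W : ℝ → ℝ) (L : ℝ) (u : ℝ) : ℂ :=
  ((Real.exp (u / (2 * L)) * W (-u) : ℝ) : ℂ)

theorem rsf_xrw_V_bd {W : ℝ → ℝ} {a b : ℝ} (h : Wt W a b) {L : ℝ} (hL : 1 ≤ L) :
    Integrable (rsf_xrw_V W L) ∧ Integrable (fun u => ‖rsf_xrw_V W L u‖ ^ 2) ∧
      ∫ u : ℝ, ‖rsf_xrw_V W L u‖ ^ 2 ≤ Real.exp (-a / L) * ∫ u : ℝ, W u ^ 2 := by
  obtain ⟨B, hB⟩ := h.bdd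
  have hB0 : 0 ≤ B := (abs_nonneg _).trans (hB 0)
  have hL0 : 0 < L := by linarith
  have hm : Measurable (rsf_xrw_V W L) := by
    unfold rsf_xrw_V
    have := h.meas
    fun_prop
  have hz : ∀ u, u ∉ Set.Icc (-b) (-a) → W (-u) = 0 := by
    intro u hu
    refine h.supp _ fun h1 => hu ⟨by linarith [h1.2], by linarith [h1.1]⟩
  have hn : ∀ u, ‖rsf_xrw_V W L u‖ ≤
      (Set.Icc (-b) (-a)).indicator (fun _ => Real.exp (-a / (2 * L)) * B) u := by
    intro u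
    unfold rsf_xrw_V
    rw [norm_real, Real.norm_eq_abs, abs_mul, abs_of_pos (Real.exp_pos _)]
    by_cases hu : u ∈ Set.Icc (-b) (-a)
    · rw [Set.indicator_of_mem hu]
      refine mul_le_mul (Real.exp_le_exp.2 ?_) (hB _) (abs_nonneg _) (Real.exp_pos _).le
      exact div_le_div_of_nonneg_right hu.2 (by positivity)
    · rw [Set.indicator_of_notMem hu, hz u hu]
      simp
  have hind : ∀ c : ℝ, Integrable ((Set.Icc (-b) (-a)).indicator (fun _ : ℝ => c)) := by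
    intro c
    rw [integrable_indicator_iff measurableSet_Icc]
    exact integrableOn_const (by simp)
  have hn2 : ∀ u, ‖rsf_xrw_V W L u‖ ^ 2 ≤
      (Set.Icc (-b) (-a)).indicator (fun _ => (Real.exp (-a / (2 * L)) * B) ^ 2) u := by
    intro u
    refine (pow_le_pow_left₀ (norm_nonneg _) (hn u) 2).trans (le_of_eq ?_)
    by_cases hu : u ∈ Set.Icc (-b) (-a)
    · rw [Set.indicator_of_mem hu, Set.indicator_of_mem hu]
    · rw [Set.indicator_of_notMem hu, Set.indicator_of_notMem hu]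
      simp
  have i2 : Integrable (fun u => ‖rsf_xrw_V W L u‖ ^ 2) := by
    refine (hind ((Real.exp (-a / (2 * L)) * B) ^ 2)).mono'
      (hm.norm.pow_const 2).aestronglyMeasurable (ae_of_all _ fun u => ?_)
    rw [norm_pow, norm_norm]
    exact hn2 u
  refine ⟨(hind _).mono' hm.aestronglyMeasurable (ae_of_all _ hn), i2, ?_⟩
  have i3 : Integrable (fun u => W (-u) ^ 2) := by
    have hm3 : Measurable fun u => W (-u) ^ 2 := by
      have := h.meas
      fun_prop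
    refine (hind (B ^ 2)).mono' hm3.aestronglyMeasurable (ae_of_all _ fun u => ?_)
    rw [norm_pow, Real.norm_eq_abs]
    by_cases hu : u ∈ Set.Icc (-b) (-a)
    · rw [Set.indicator_of_mem hu]
      exact pow_le_pow_left₀ (abs_nonneg _) (hB _) 2
    · rw [Set.indicator_of_notMem hu, hz u hu]
      simp
  rw [← integral_neg_eq_self (fun u => W u ^ 2), ← integral_const_mul]
  refine integral_mono i2 (i3.const_mul _) fun u => ?_
  simp only
  unfold rsf_xrw_V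
  rw [norm_real, Real.norm_eq_abs, sq_abs, mul_pow]
  have e3 : Real.exp (u / (2 * L)) ^ 2 = Real.exp (u / L) := by
    rw [← Real.exp_nat_mul]
    congr 1
    push_cast
    field_simp
  rw [e3]
  by_cases hu : u ∈ Set.Icc (-b) (-a)
  · refine mul_le_mul_of_nonneg_right (Real.exp_le_exp.2 ?_) (sq_nonneg _)
    exact div_le_div_of_nonneg_right hu.2 hL0.le
  · rw [hz u hu]
    simp

theorem rsf_xrw_H (g Θ : ℝ → ℝ) (L : ℝ) (R : ℕ) (S T : Finset ℕ) (W : ℝ → ℝ)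
    (x : ℝ) :
    rsf_xrw_cv (rsf_xrw_V W L)
      (fun u => ((fX g Θ L R S T u * Real.exp (u / (2 * L)) : ℝ) : ℂ)) x =
      ((Real.exp (x / (2 * L)) * ∫ u : ℝ, fX g Θ L R S T (u + x) * W u : ℝ) : ℂ) := by
  unfold rsf_xrw_cv rsf_xrw_V
  rw [← integral_const_mul, ← integral_complex_ofReal, ← integral_neg_eq_self]
  refine integral_congr_ae (ae_of_all _ fun u => ?_)
  simp only
  rw [← ofReal_mul, neg_neg]
  have e1 : x - -u = u + x := by ring
  have e2 : Real.exp (-u / (2 * L)) * Real.exp ((u + x) / (2 * L)) = Real.exp (x / (2 * L)) := by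
    rw [← Real.exp_add]
    congr 1
    ring
  rw [e1]
  norm_cast
  rw [← e2]
  ring

theorem xrw_bound_pr {g Θ : ℝ → ℝ} (hg : Ker1 g) (hΘ : Cut Θ) : ∃ C : ℝ, 0 < C ∧
    ∀ (S : Finset ℕ) (R : ℕ) (L a b τ₁ τ₂ : ℝ) (W : ℝ → ℝ), (∀ p ∈ S, p.Prime ∧ p ≠ 2) →
    0 < R → 1 ≤ L → Wt W a b → τ₁ ≤ τ₂ →
    ∫ τ in τ₁..τ₂, avg S (fun T => (∫ u : ℝ, fX g Θ L R S T (u + τ) * W u) ^ 2) ≤
      C * E1 R ^ 3 * Real.exp (-(τ₁ + a) / L) * ∫ u : ℝ, W u ^ 2 := by
  obtain ⟨Cg, hCg, hgb⟩ := mg_bound hg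
  obtain ⟨C6, hC6, h6⟩ := xr6_bound hΘ
  refine ⟨Cg ^ 2 * C6, by positivity, fun S R L a b τ₁ τ₂ W hS hR hL hW hτ => ?_⟩
  have hL0 : 0 < L := by linarith
  have hSp : ∀ p ∈ S, p.Prime := fun p hp => (hS p hp).1
  have hE : 0 ≤ E1 R := by
    unfold E1
    exact Finset.prod_nonneg fun p _ => by positivity
  obtain ⟨v1, v2, v3⟩ := rsf_xrw_V_bd hW hL
  set V := rsf_xrw_V W L with hV
  set F : Finset ℕ → ℝ → ℂ := fun T u =>
    ((fX g Θ L R S T u * Real.exp (u / (2 * L)) : ℝ) : ℂ) with hF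
  have hFi : ∀ T, Integrable (F T) := fun T => (xr2_eq (Θ := Θ) hg S T hSp R L hL).2.1.ofReal
  have hhat : ∀ T t, hat (F T) t =
      Mg g L t * (LT L S T t * (ph1 Θ L R S T t * ph2 Θ L R S T t)) := fun T t =>
    (xr2_eq (Θ := Θ) hg S T hSp R L hL).2.2 t
  set G : Finset ℕ → ℝ → ℂ := fun T => rsf_xrw_cv V (F T) with hG
  have hGe : ∀ T x, G T x =
      ((Real.exp (x / (2 * L)) * ∫ u : ℝ, fX g Θ L R S T (u + x) * W u : ℝ) : ℂ) := fun T x =>
    rsf_xrw_H g Θ L R S T W x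
  have hpl := fun T => rsf_xrw_pl v1 v2 (hFi T)
  -- squares
  have e3 : ∀ x : ℝ, Real.exp (x / (2 * L)) ^ 2 = Real.exp (x / L) := by
    intro x
    rw [← Real.exp_nat_mul]
    congr 1
    push_cast
    field_simp
  have hsq : ∀ T x, (∫ u : ℝ, fX g Θ L R S T (u + x) * W u) ^ 2 =
      Real.exp (-x / L) * ‖G T x‖ ^ 2 := by
    intro T x
    rw [hGe, norm_real, Real.norm_eq_abs, sq_abs, mul_pow, e3, ← mul_assoc, ← Real.exp_add]
    have : -x / L + x / L = 0 := by ring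
    rw [this, Real.exp_zero, one_mul]
  -- the average of the Plancherel integrals
  have s1 : avg S (fun T => ∫ x : ℝ, ‖G T x‖ ^ 2) ≤
      Cg ^ 2 * C6 * E1 R ^ 3 * (Real.exp (-a / L) * ∫ u : ℝ, W u ^ 2) := by
    have q1 : avg S (fun T => ∫ x : ℝ, ‖G T x‖ ^ 2) = (2 * Real.pi)⁻¹ *
        ∫ t : ℝ, avg S (fun T => ‖hat (F T) t‖ ^ 2 * ‖hat V t‖ ^ 2) := by
      rw [← (rse_xrk_avg_int S _ fun T => (hpl T).2.1).2, ← rse_xrk_avg_mul]
      congr 1
      funext T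
      exact (hpl T).2.2
    obtain ⟨p1, p2⟩ := Pool.Agent.SQS.PL1 V v1 v2
    have q2 : ∫ t : ℝ, avg S (fun T => ‖hat (F T) t‖ ^ 2 * ‖hat V t‖ ^ 2) ≤
        ∫ t : ℝ, Cg ^ 2 * C6 * E1 R ^ 3 * ‖hat V t‖ ^ 2 := by
      refine integral_mono (rse_xrk_avg_int S _ fun T => (hpl T).2.1).1 (p1.const_mul _) fun t => ?_
      show avg S (fun T => ‖hat (F T) t‖ ^ 2 * ‖hat V t‖ ^ 2) ≤
        Cg ^ 2 * C6 * E1 R ^ 3 * ‖hat V t‖ ^ 2
      have e4 : avg S (fun T => ‖hat (F T) t‖ ^ 2 * ‖hat V t‖ ^ 2) =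
          (‖hat V t‖ ^ 2 * ‖Mg g L t‖ ^ 2) *
            avg S (fun T => ‖LT L S T t * (ph1 Θ L R S T t * ph2 Θ L R S T t)‖ ^ 2) := by
        rw [← rse_xrk_avg_mul]
        congr 1
        funext T
        rw [hhat, norm_mul (Mg g L t), mul_pow]
        ring
      rw [e4]
      have h7 := pow_le_pow_left₀ (norm_nonneg _) (hgb L t hL) 2
      have h8 := h6 S R L t hS hR hL
      have h9 : (Cg / (1 + t ^ 2)) ^ 2 ≤ Cg ^ 2 := by
        refine pow_le_pow_left₀ (by positivity) ?_ 2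
        exact div_le_self hCg.le (by nlinarith [sq_nonneg t])
      have h12 : 0 ≤ C6 * E1 R ^ 3 := by positivity
      calc ‖hat V t‖ ^ 2 * ‖Mg g L t‖ ^ 2 *
          avg S (fun T => ‖LT L S T t * (ph1 Θ L R S T t * ph2 Θ L R S T t)‖ ^ 2)
          ≤ ‖hat V t‖ ^ 2 * ‖Mg g L t‖ ^ 2 * (C6 * E1 R ^ 3) :=
            mul_le_mul_of_nonneg_left h8 (by positivity)
        _ ≤ ‖hat V t‖ ^ 2 * Cg ^ 2 * (C6 * E1 R ^ 3) :=
            mul_le_mul_of_nonneg_right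
              (mul_le_mul_of_nonneg_left (h7.trans h9) (by positivity)) h12
        _ = _ := by ring
    rw [q1]
    calc (2 * Real.pi)⁻¹ * ∫ t : ℝ, avg S (fun T => ‖hat (F T) t‖ ^ 2 * ‖hat V t‖ ^ 2)
        ≤ (2 * Real.pi)⁻¹ * ∫ t : ℝ, Cg ^ 2 * C6 * E1 R ^ 3 * ‖hat V t‖ ^ 2 :=
          mul_le_mul_of_nonneg_left q2 (by positivity)
      _ = Cg ^ 2 * C6 * E1 R ^ 3 * ∫ u : ℝ, ‖V u‖ ^ 2 := by
          rw [integral_const_mul, p2]
          have := Real.pi_ne_zero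
          field_simp
      _ ≤ _ := mul_le_mul_of_nonneg_left v3 (by positivity)
  -- one sample
  have i0 : ∀ T, IntervalIntegrable
      (fun x => (∫ u : ℝ, fX g Θ L R S T (u + x) * W u) ^ 2) volume τ₁ τ₂ := by
    intro T
    simp only [hsq T]
    rw [intervalIntegrable_iff_integrableOn_Icc_of_le hτ]
    exact ((hpl T).1.integrableOn).continuousOn_mul
      (Continuous.continuousOn (by fun_prop)) isCompact_Icc
  have s3 : ∀ T, ∫ x in τ₁..τ₂, (∫ u : ℝ, fX g Θ L R S T (u + x) * W u) ^ 2 ≤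
      Real.exp (-τ₁ / L) * ∫ x : ℝ, ‖G T x‖ ^ 2 := by
    intro T
    have h14 : ∫ x in τ₁..τ₂, (∫ u : ℝ, fX g Θ L R S T (u + x) * W u) ^ 2 ≤
        ∫ x in τ₁..τ₂, Real.exp (-τ₁ / L) * ‖G T x‖ ^ 2 := by
      refine intervalIntegral.integral_mono_on hτ (i0 T)
        ((hpl T).1.intervalIntegrable.const_mul _) fun x hx => ?_
      rw [hsq T]
      refine mul_le_mul_of_nonneg_right (Real.exp_le_exp.2 ?_) (by positivity)
      exact div_le_div_of_nonneg_right (by linarith [hx.1]) hL0.le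
    refine h14.trans ?_
    rw [intervalIntegral.integral_const_mul]
    refine mul_le_mul_of_nonneg_left ?_ (Real.exp_pos _).le
    rw [intervalIntegral.integral_of_le hτ]
    exact setIntegral_le_integral (hpl T).1 (ae_of_all _ fun u => by positivity)
  have s4 : ∫ x in τ₁..τ₂, avg S (fun T => (∫ u : ℝ, fX g Θ L R S T (u + x) * W u) ^ 2) =
      avg S (fun T => ∫ x in τ₁..τ₂, (∫ u : ℝ, fX g Θ L R S T (u + x) * W u) ^ 2) := by
    unfold avg
    rw [intervalIntegral.integral_div, intervalIntegral.integral_finsetSum]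
    exact fun T _ => i0 T
  rw [s4]
  refine (rse_xrk_avg_mono S s3).trans ?_
  rw [rse_xrk_avg_mul]
  calc Real.exp (-τ₁ / L) * avg S (fun T => ∫ x : ℝ, ‖G T x‖ ^ 2)
      ≤ Real.exp (-τ₁ / L) * (Cg ^ 2 * C6 * E1 R ^ 3 *
        (Real.exp (-a / L) * ∫ u : ℝ, W u ^ 2)) :=
        mul_le_mul_of_nonneg_left s1 (Real.exp_pos _).le
    _ = _ := by
        have e5 : Real.exp (-(τ₁ + a) / L) = Real.exp (-τ₁ / L) * Real.exp (-a / L) := by
          rw [← Real.exp_add]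
          congr 1
          ring
        rw [e5]
        ring

end Pool.Agent.RSF

namespace Pool.Agent.RSF

alias xrw_bound := xrw_bound_pr

end Pool.Agent.RSF
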