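import Pool.Agent.Lib_helper39.RSF.Defs
import Pool.Agent.Lib_helper39.RSF.KG1
import Pool.Agent.Lib_helper39.RSF.PFM
import Pool.Agent.Lib_helper39.RSF.SMO2
import Pool.Agent.Lib_helper39.RSF.AMB2
import Pool.Agent.Lib_helper39.RSF.DSQ
import Pool.Agent.Lib_helper39.RSF.XLIM
import Pool.Agent.Lib_helper39.RSF.XR2
import Pool.Agent.Lib_helper39.RSF.DDE
import Pool.Agent.Lib_helper39.RSF.DFO
import Pool.Agent.Lib_helper39.RSF.DOD
import Pool.Agent.Lib_helper39.RSF.M4B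
import Pool.Agent.Lib_helper39.RSF.FUI
import Pool.Agent.Lib_helper39.RSA.XR6
import Pool.Agent.Lib_helper39.RSA.PRM
import Pool.Agent.Lib_helper39.RSA.SOB
import Pool.Agent.Lib_helper39.RSA.BNS
import Pool.Agent.Lib_helper39.RSA.QLA
import Pool.Agent.Lib_helper39.RSA.QLB
import Pool.Agent.Lib_helper39.RSA.PER
import Pool.Agent.Lib_helper39.RSA.AVE
import Pool.Agent.Lib_helper39.RSA.CUT1
import Pool.Agent.Lib_helper39.RSA.CUT2
import Pool.Agent.Lib_helper24.ABS.Endgame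
import Pool.Agent.Lib_helper39.RSG.BIL
import Pool.Agent.Lib_helper39.RSG.UTW
import Pool.Agent.Lib_helper39.RSG.XRW
/-!
# RSF, block RKW: the integrated shifted diagonal
-/

namespace Pool.Agent.RSF

open Complex MeasureTheory Filter Topology
open Pool.Agent.RC (cc psi rv f0 IsRC Good gm pr DD)
open Pool.Agent.RSE
open scoped ContDiff

theorem rsf_rkw_fast {g : ℝ → ℝ} (hg : Ker1 g) : ∃ C : ℝ, 0 ≤ C ∧
    ∀ (n : ℕ) (v : ℝ), 0 < n → |g (Real.log n + v)| ≤ C * ((n : ℝ) ^ 2)⁻¹ * Real.exp (-2 * v) := by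
  obtain ⟨C, hC⟩ := hg.fast 0 2 (by norm_num)
  simp only [iteratedDeriv_zero] at hC
  refine ⟨C, ?_, ?_⟩
  · have := hC 0
    simp only [mul_zero, Real.exp_zero, mul_one] at this
    exact (abs_nonneg _).trans this
  · intro n v hn
    have h := hC (Real.log n + v)
    have hn' : (0 : ℝ) < n := by exact_mod_cast hn
    have e : Real.exp (-2 * (Real.log n + v)) = ((n : ℝ) ^ 2)⁻¹ * Real.exp (-2 * v) := by
      rw [mul_add, Real.exp_add]
      congr 1
      rw [show (-2 : ℝ) * Real.log n = -(Real.log ((n : ℝ) ^ 2)) by rw [Real.log_pow]; push_cast; ring,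
        Real.exp_neg, Real.exp_log (by positivity)]
    rw [e] at h
    rw [mul_assoc]
    exact h

theorem rsf_rkw_inv_sqrt {n : ℕ} (hn : 0 < n) : 1 / √(n : ℝ) ≤ 1 := by
  have h1 : (1 : ℝ) ≤ √(n : ℝ) := Real.one_le_sqrt.mpr (by exact_mod_cast hn)
  rw [div_le_one (by linarith)]
  exact h1

theorem rsf_rkw_xS (S T : Finset ℕ) (n : ℕ) : |xS S T n| ≤ 1 := by
  unfold xS
  split_ifs
  · rw [Finset.abs_prod]
    refine Finset.prod_le_one (fun _ _ => abs_nonneg _) fun p _ => ?_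
    rw [abs_pow, abs_neg, abs_one, one_pow]
  · rw [abs_zero]; norm_num

theorem rsf_rkw_fX {g Θ : ℝ → ℝ} (hg : Ker1 g) (L : ℝ) (R : ℕ) (S T : Finset ℕ) :
    Continuous (fX g Θ L R S T) := by
  obtain ⟨C, hC0, hC⟩ := rsf_rkw_fast hg
  have hgc : Continuous g := hg.smooth.continuous
  have base : ∀ c : ℝ, Continuous fun u : ℝ =>
      ∑' n : ℕ, xS S T n / √(n : ℝ) * g (Real.log n + (u + c)) := by
    intro c
    rw [continuous_iff_continuousAt]
    intro u0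
    have hs1 : Summable (fun n : ℕ => C * ((n : ℝ) ^ 2)⁻¹ * Real.exp (-2 * (u0 - 1 + c))) :=
      ((Real.summable_nat_pow_inv.mpr (by norm_num)).mul_left C).mul_right _
    have key : ContinuousOn (fun u : ℝ =>
        ∑' n : ℕ, xS S T n / √(n : ℝ) * g (Real.log n + (u + c))) (Set.Ioi (u0 - 1)) := by
      refine continuousOn_tsum (u := fun n : ℕ => C * ((n : ℝ) ^ 2)⁻¹ *
        Real.exp (-2 * (u0 - 1 + c))) ?_ hs1 ?_
      · intro n
        exact (continuous_const.mul (hgc.comp (by fun_prop))).continuousOn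
      · intro n u hu
        have hu' : u0 - 1 < u := hu
        rcases Nat.eq_zero_or_pos n with rfl | hn
        · have : xS S T 0 = 0 := by unfold xS; rw [if_neg (by simp)]
          rw [this, zero_div, zero_mul, norm_zero]; positivity
        · rw [norm_mul, norm_div, Real.norm_eq_abs, Real.norm_eq_abs, Real.norm_eq_abs,
            abs_of_nonneg (Real.sqrt_nonneg _)]
          have h1 : |xS S T n| / √(n : ℝ) ≤ 1 := by
            refine le_trans ?_ (rsf_rkw_inv_sqrt hn)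
            exact div_le_div_of_nonneg_right (rsf_rkw_xS S T n) (Real.sqrt_nonneg _)
          calc |xS S T n| / √(n : ℝ) * |g (Real.log n + (u + c))|
              ≤ 1 * (C * ((n : ℝ) ^ 2)⁻¹ * Real.exp (-2 * (u + c))) :=
                mul_le_mul h1 (hC n (u + c) hn) (abs_nonneg _) zero_le_one
            _ = C * ((n : ℝ) ^ 2)⁻¹ * Real.exp (-2 * (u + c)) := one_mul _
            _ ≤ _ := mul_le_mul_of_nonneg_left (Real.exp_le_exp.mpr (by linarith))
                (by positivity)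
    exact key.continuousAt (Ioi_mem_nhds (by linarith))
  have e : fX g Θ L R S T = fun u => ∑ k ∈ KL L, ∑ l ∈ KL L,
      be Θ L R k * be Θ L R l * xS S T (k * l) / √((k : ℝ) * l) *
      ∑' n : ℕ, xS S T n / √(n : ℝ) * g (Real.log n + (u + (Real.log k - Real.log l))) := by
    funext u
    unfold fX
    simp only [add_sub_assoc]
  rw [e]
  exact continuous_finsetSum _ fun k _ => continuous_finsetSum _ fun l _ =>
    continuous_const.mul (base _)

theorem rsf_rkw_avg_nonneg (S : Finset ℕ) (F : Finset ℕ → ℝ) (hF : ∀ T, 0 ≤ F T) :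
    0 ≤ avg S F := by
  unfold avg
  exact div_nonneg (Finset.sum_nonneg fun T _ => hF T) (by positivity)

theorem rsf_rkw_E1 (n : ℕ) : 0 ≤ E1 n := by
  unfold E1
  exact Finset.prod_nonneg fun p _ => by positivity


/-- the smeared model -/
noncomputable def rsf_rkw_J (g Θ : ℝ → ℝ) (L : ℝ) (R : ℕ) (S T : Finset ℕ) (W : ℝ → ℝ) (τ : ℝ) : ℝ :=
  ∫ u : ℝ, fX g Θ L R S T (u + τ) * W u

theorem rsf_rkw_meas {g Θ : ℝ → ℝ} (hg : Ker1 g) (L : ℝ) (R : ℕ) (S T : Finset ℕ) {W : ℝ → ℝ}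
    {a b : ℝ} (hW : Wt W a b) : Measurable (rsf_rkw_J g Θ L R S T W) := by
  have h1 : StronglyMeasurable (fun p : ℝ × ℝ => fX g Θ L R S T (p.2 + p.1) * W p.2) := by
    apply Measurable.stronglyMeasurable
    exact ((rsf_rkw_fX hg L R S T).measurable.comp (measurable_snd.add measurable_fst)).mul
      (hW.meas.comp measurable_snd)
  exact h1.integral_prod_right.measurable

theorem rsf_rkw_int {g Θ : ℝ → ℝ} (hg : Ker1 g) (L : ℝ) (R : ℕ) (S T : Finset ℕ) {W : ℝ → ℝ}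
    {a b : ℝ} (hW : Wt W a b) (τ₁ τ₂ : ℝ) :
    IntegrableOn (fun τ => rsf_rkw_J g Θ L R S T W τ ^ 2) (Set.Ioc τ₁ τ₂) := by
  obtain ⟨B, hB⟩ := (isCompact_Icc (a := a + τ₁) (b := b + τ₂)).exists_bound_of_continuousOn
    (rsf_rkw_fX (Θ := Θ) hg L R S T).continuousOn
  have hB' : ∀ τ ∈ Set.Ioc τ₁ τ₂, |rsf_rkw_J g Θ L R S T W τ| ≤ |B| * ∫ u : ℝ, |W u| := by
    intro τ hτ
    refine wt_sup hW (abs_nonneg B) (f := fun u => fX g Θ L R S T (u + τ)) fun u hu => ?_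
    refine (hB (u + τ) ⟨by linarith [hu.1, hτ.1], by linarith [hu.2, hτ.2]⟩).trans (le_abs_self B)
  refine Measure.integrableOn_of_bounded (M := (|B| * ∫ u : ℝ, |W u|) ^ 2) (by simp)
    ((rsf_rkw_meas hg L R S T hW).pow_const 2).aestronglyMeasurable ?_
  refine (ae_restrict_mem measurableSet_Ioc).mono fun τ hτ => ?_
  rw [Real.norm_eq_abs, abs_pow]
  exact pow_le_pow_left₀ (abs_nonneg _) (hB' τ hτ) 2

theorem rkw_bound_pr {g Θ : ℝ → ℝ} (hg : Ker1 g) (hΘ : Cut Θ) : ∃ C : ℝ, 0 < C ∧ ∀ (R m : ℕ)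
    (L a b τ₁ τ₂ : ℝ) (W : ℝ → ℝ), 0 < R → 0 < m → 1 ≤ L → Wt W a b → τ₁ ≤ τ₂ →
    ∫ τ in τ₁..τ₂, bi (fun u u' => Dg g Θ L R m (u + τ) (u' + τ)) W W ≤
      C * E1 R ^ 3 * Real.exp (-(τ₁ + a) / L) * ∫ u : ℝ, W u ^ 2 := by
  obtain ⟨C, hC0, hC⟩ := xrw_bound hg hΘ
  refine ⟨C, hC0, fun R m L a b τ₁ τ₂ W hR hm hL hW hτ => ?_⟩
  have hB : 0 ≤ C * E1 R ^ 3 * Real.exp (-(τ₁ + a) / L) * ∫ u : ℝ, W u ^ 2 := by
    have h1 := rsf_rkw_E1 R
    have h2 : 0 ≤ ∫ u : ℝ, W u ^ 2 := integral_nonneg fun u => sq_nonneg _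
    positivity
  set A : ℕ → ℝ → ℝ := fun Y τ => avg (SY m Y) (fun T => rsf_rkw_J g Θ L R (SY m Y) T W τ ^ 2)
    with hA
  have hAm : ∀ Y : ℕ, Measurable (A Y) := by
    intro Y
    simp only [hA]
    unfold avg
    exact (Finset.measurable_fun_sum _ fun T _ =>
      (rsf_rkw_meas hg L R _ T hW).pow_const 2).div_const _
  have hnn : ∀ (Y : ℕ) (τ : ℝ), 0 ≤ A Y τ :=
    fun Y τ => rsf_rkw_avg_nonneg _ _ fun T => sq_nonneg _
  have hAi : ∀ Y : ℕ, IntegrableOn (A Y) (Set.Ioc τ₁ τ₂) := by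
    intro Y
    simp only [hA]
    unfold avg
    exact (integrable_finsetSum _ fun T _ => rsf_rkw_int hg L R _ T hW τ₁ τ₂).div_const _
  have hS : ∀ Y : ℕ, ∀ p ∈ SY m Y, p.Prime ∧ p ≠ 2 := by
    intro Y p hp
    unfold SY at hp
    rw [Finset.mem_filter] at hp
    obtain ⟨hp1, hp2, -⟩ := hp
    unfold Pool.Agent.RC.pr at hp1
    rw [Finset.mem_filter] at hp1
    exact ⟨hp1.2, hp2⟩
  have hlim0 : ∀ τ : ℝ, Tendsto (fun Y : ℕ => A Y τ) atTop
      (𝓝 (bi (fun u u' => Dg g Θ L R m (u + τ) (u' + τ)) W W)) := by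
    intro τ
    obtain ⟨w1, -, -, w4⟩ := wt_shift hW τ
    have h := bi_lim (Θ := Θ) hg L R m hm w1 w1
    rw [bi_shift] at h
    refine h.congr fun Y => ?_
    simp only [hA]
    congr 1
    funext T
    rw [w4]
    unfold rsf_rkw_J
    ring
  have hBm : Measurable (fun τ => bi (fun u u' => Dg g Θ L R m (u + τ) (u' + τ)) W W) :=
    measurable_of_tendsto_metrizable hAm (tendsto_pi_nhds.2 hlim0)
  have hBn : ∀ τ : ℝ, 0 ≤ bi (fun u u' => Dg g Θ L R m (u + τ) (u' + τ)) W W :=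
    fun τ => ge_of_tendsto' (hlim0 τ) fun Y => hnn Y τ
  have hlim : ∀ τ : ℝ, Tendsto (fun Y : ℕ => ENNReal.ofReal (A Y τ)) atTop
      (𝓝 (ENNReal.ofReal (bi (fun u u' => Dg g Θ L R m (u + τ) (u' + τ)) W W))) :=
    fun τ => (ENNReal.continuous_ofReal.tendsto _).comp (hlim0 τ)
  rw [intervalIntegral.integral_of_le hτ,
    integral_eq_lintegral_of_nonneg_ae (ae_of_all _ hBn) hBm.aestronglyMeasurable]
  refine ENNReal.toReal_le_of_le_ofReal hB ?_
  calc ∫⁻ τ in Set.Ioc τ₁ τ₂,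
        ENNReal.ofReal (bi (fun u u' => Dg g Θ L R m (u + τ) (u' + τ)) W W)
      = ∫⁻ τ in Set.Ioc τ₁ τ₂, liminf (fun Y : ℕ => ENNReal.ofReal (A Y τ)) atTop := by
        refine lintegral_congr fun τ => ?_
        rw [(hlim τ).liminf_eq]
    _ ≤ liminf (fun Y : ℕ => ∫⁻ τ in Set.Ioc τ₁ τ₂, ENNReal.ofReal (A Y τ)) atTop :=
        lintegral_liminf_le fun Y => (hAm Y).ennreal_ofReal
    _ ≤ ENNReal.ofReal (C * E1 R ^ 3 * Real.exp (-(τ₁ + a) / L) * ∫ u : ℝ, W u ^ 2) := by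
        refine liminf_le_of_le (by isBoundedDefault) fun x hx => ?_
        rw [eventually_atTop] at hx
        obtain ⟨Y, hY⟩ := hx
        refine (hY Y le_rfl).trans ?_
        rw [← ofReal_integral_eq_lintegral_ofReal (hAi Y) (ae_of_all _ fun τ => hnn Y τ)]
        refine ENNReal.ofReal_le_ofReal ?_
        rw [← intervalIntegral.integral_of_le hτ]
        exact hC (SY m Y) R L a b τ₁ τ₂ W (hS Y) hR hL hW hτ

end Pool.Agent.RSF

namespace Pool.Agent.RSF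

alias rkw_bound := rkw_bound_pr

end Pool.Agent.RSF
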