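import Pool.Agent.Lib_helper39.RSF.Defs
import Pool.Agent.Lib_helper39.RSF.KG1
import Pool.Agent.Lib_helper39.RSF.PFM
import Pool.Agent.Lib_helper39.RSF.SMO2
import Pool.Agent.Lib_helper39.RSF.AMB2
import Pool.Agent.Lib_helper39.RSF.DSQ
import Pool.Agent.Lib_helper39.RSF.XLIM
import Pool.Agent.Lib_helper39.RSF.XR2
import Pool.Agent.Lib_helper39.RSF.DDE
import Pool.Agent.Lib_helper39.RSF.DFO
import Pool.Agent.Lib_helper39.RSF.DOD
import Pool.Agent.Lib_helper39.RSF.M4B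
import Pool.Agent.Lib_helper39.RSF.FUI
import Pool.Agent.Lib_helper39.RSA.XR6
import Pool.Agent.Lib_helper39.RSA.PRM
import Pool.Agent.Lib_helper39.RSA.SOB
import Pool.Agent.Lib_helper39.RSA.BNS
import Pool.Agent.Lib_helper39.RSA.QLA
import Pool.Agent.Lib_helper39.RSA.QLB
import Pool.Agent.Lib_helper39.RSA.PER
import Pool.Agent.Lib_helper39.RSA.AVE
import Pool.Agent.Lib_helper39.RSA.CUT1
import Pool.Agent.Lib_helper39.RSA.CUT2
import Pool.Agent.Lib_helper24.ABS.Endgame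
import Pool.Agent.Lib_helper39.RSG.BIL
import Pool.Agent.Lib_helper39.RSG.DGC
import Pool.Agent.Lib_helper39.RSG.DGL
import Pool.Agent.Lib_helper39.RSG.RKW
import Pool.Agent.Lib_helper39.RSG.UTW
/-! Block DUW -/

namespace Pool.Agent.RSF

open Complex MeasureTheory Filter Topology
open Pool.Agent.RC (cc psi rv f0 IsRC Good gm pr DD)
open Pool.Agent.RSE
open Pool.Agent.ABS (Nice LData Piece oddZ)
open Pool.Agent.SQS (hat)
open scoped ContDiff

theorem rsf_DUW_E1_one (n : ℕ) : 1 ≤ E1 n := by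
  unfold E1
  calc (1 : ℝ) = ∏ p ∈ n.primeFactors, (1 : ℝ) := by simp
    _ ≤ _ := by
        apply Finset.prod_le_prod (fun _ _ => zero_le_one)
        intro p _
        have : (0 : ℝ) ≤ 1 / √(p : ℝ) := by positivity
        linarith

theorem rsf_DUW_fam_pos {c : ℕ} {K : ℝ} (hc : OC c) {m : ℕ} (hm : m ∈ fam c K) : 0 < m := by
  unfold fam at hm
  rw [Finset.mem_filter, Finset.mem_range] at hm
  unfold OC at hc
  omega

theorem rsf_DUW_exp {L : ℝ} (hL : 1 ≤ L) : L * Real.exp (-(8 * L)) ≤ 1 / L := by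
  have h0 : 0 < L := by linarith
  have h1 : L ≤ Real.exp (4 * L) := by
    have := Real.add_one_le_exp (4 * L)
    linarith
  have h2 : L * L ≤ Real.exp (8 * L) := by
    have e : Real.exp (8 * L) = Real.exp (4 * L) * Real.exp (4 * L) := by
      rw [← Real.exp_add]
      congr 1
      ring
    rw [e]
    exact mul_le_mul h1 h1 h0.le (Real.exp_pos _).le
  rw [Real.exp_neg, ← div_eq_mul_inv, div_le_div_iff₀ (Real.exp_pos _) h0, one_mul]
  exact h2

/-- continuity of the translated form -/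
theorem rsf_DUW_cont {F : ℝ → ℝ → ℝ} (hF : Continuous (fun p : ℝ × ℝ => F p.1 p.2)) {W : ℝ → ℝ}
    {a b : ℝ} (h : Wt W a b) :
    Continuous (fun τ : ℝ => bi (fun u u' => F (u + τ) (u' + τ)) W W) := by
  rw [Metric.continuous_iff]
  intro τ₀ ε hε
  set M : ℝ := (∫ u : ℝ, |W u|) * ∫ u : ℝ, |W u| with hM
  have hM0 : 0 ≤ M := mul_self_nonneg _
  set S : Set (ℝ × ℝ) := Set.Icc (a + τ₀ - 1) (b + τ₀ + 1) ×ˢ Set.Icc (a + τ₀ - 1) (b + τ₀ + 1)
    with hS
  have hSc : IsCompact S := isCompact_Icc.prod isCompact_Icc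
  have hu := hSc.uniformContinuousOn_of_continuous hF.continuousOn
  rw [Metric.uniformContinuousOn_iff] at hu
  obtain ⟨δ, hδ, hδ'⟩ := hu (ε / (M + 1)) (by positivity)
  have hFs : ∀ τ : ℝ, Continuous (fun p : ℝ × ℝ => F (p.1 + τ) (p.2 + τ)) := by
    intro τ
    exact hF.comp ((continuous_fst.add continuous_const).prodMk
      (continuous_snd.add continuous_const))
  refine ⟨min δ 1, lt_min hδ one_pos, fun τ hτ => ?_⟩
  rw [Real.dist_eq] at hτ ⊢
  have hτ1 : |τ - τ₀| < 1 := hτ.trans_le (min_le_right _ _)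
  have hτ2 : |τ - τ₀| < δ := hτ.trans_le (min_le_left _ _)
  have e : bi (fun u u' => F (u + τ) (u' + τ)) W W - bi (fun u u' => F (u + τ₀) (u' + τ₀)) W W =
      bi (fun u u' => 1 * F (u + τ) (u' + τ) + (-1) * F (u + τ₀) (u' + τ₀)) W W := by
    rw [bi_add h h (hFs τ) (hFs τ₀)]
    ring
  rw [e]
  have hb : |bi (fun u u' => 1 * F (u + τ) (u' + τ) + (-1) * F (u + τ₀) (u' + τ₀)) W W| ≤
      ε / (M + 1) * M := by
    refine bi_bound h h (by positivity) fun u hu' u' hu'' => ?_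
    obtain ⟨h1, h2⟩ := abs_lt.1 hτ1
    have m1 : (u + τ, u' + τ) ∈ S := by
      rw [hS]
      refine ⟨⟨?_, ?_⟩, ⟨?_, ?_⟩⟩
      · show a + τ₀ - 1 ≤ u + τ
        linarith [hu'.1]
      · show u + τ ≤ b + τ₀ + 1
        linarith [hu'.2]
      · show a + τ₀ - 1 ≤ u' + τ
        linarith [hu''.1]
      · show u' + τ ≤ b + τ₀ + 1
        linarith [hu''.2]
    have m2 : (u + τ₀, u' + τ₀) ∈ S := by
      rw [hS]
      refine ⟨⟨?_, ?_⟩, ⟨?_, ?_⟩⟩
      · show a + τ₀ - 1 ≤ u + τ₀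
        linarith [hu'.1]
      · show u + τ₀ ≤ b + τ₀ + 1
        linarith [hu'.2]
      · show a + τ₀ - 1 ≤ u' + τ₀
        linarith [hu''.1]
      · show u' + τ₀ ≤ b + τ₀ + 1
        linarith [hu''.2]
    have h3 := hδ' _ m1 _ m2 (by
      rw [Prod.dist_eq, Real.dist_eq, Real.dist_eq]
      have e1 : u + τ - (u + τ₀) = τ - τ₀ := by ring
      have e2 : u' + τ - (u' + τ₀) = τ - τ₀ := by ring
      show max |u + τ - (u + τ₀)| |u' + τ - (u' + τ₀)| < δ
      rw [e1, e2, max_self]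
      exact hτ2)
    rw [Real.dist_eq] at h3
    have e3 : 1 * F (u + τ) (u' + τ) + (-1) * F (u + τ₀) (u' + τ₀) =
        F (u + τ) (u' + τ) - F (u + τ₀) (u' + τ₀) := by ring
    rw [e3]
    exact h3.le
  refine hb.trans_lt ?_
  rw [div_mul_eq_mul_div, div_lt_iff₀ (by positivity)]
  nlinarith

theorem rsf_DUW_shift {F : ℝ → ℝ → ℝ} (hF : Continuous (fun p : ℝ × ℝ => F p.1 p.2)) (τ : ℝ) :
    Continuous (fun p : ℝ × ℝ => F (p.1 + τ) (p.2 + τ)) :=
  hF.comp ((continuous_fst.add continuous_const).prodMk (continuous_snd.add continuous_const))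

/-- the mean over translations -/
theorem rsf_DUW_abs {F : ℝ → ℝ → ℝ} (hF : Continuous (fun p : ℝ × ℝ => F p.1 p.2)) {W : ℝ → ℝ}
    {a b : ℝ} (hW : Wt W a b) {L D : ℝ} (hL0 : 0 < L) (hab : b - a ≤ L) (hD : 0 ≤ D)
    (hF2 : ∀ τ ∈ Set.Icc (0 : ℝ) L, ∀ u ∈ Set.Icc a b, ∀ u' ∈ Set.Icc a b,
      |F (u + τ) (u' + τ) + F (u - τ) (u' - τ) - 2 * F u u'| ≤ D) :
    2 * L * bi F W W ≤ (∫ τ in (-L)..L, bi (fun u u' => F (u + τ) (u' + τ)) W W) +
      L * (D * (L * ∫ u : ℝ, W u ^ 2)) := by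
  set I : ℝ := ∫ u : ℝ, W u ^ 2 with hI
  have hI0 : 0 ≤ I := integral_nonneg fun u => sq_nonneg _
  have hFs := rsf_DUW_shift hF
  set Bt : ℝ → ℝ := fun τ => bi (fun u u' => F (u + τ) (u' + τ)) W W with hBt
  have hBc : Continuous Bt := rsf_DUW_cont hF hW
  have hpt : ∀ τ ∈ Set.Icc (0 : ℝ) L, 2 * bi F W W ≤ Bt τ + Bt (-τ) + D * (L * I) := by
    intro τ hτ
    have hbd : |bi (fun u u' => 1 * (1 * F (u + τ) (u' + τ) +
        1 * F (u + -τ) (u' + -τ)) + (-2) * F u u') W W| ≤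
        D * ((∫ u : ℝ, |W u|) * ∫ u : ℝ, |W u|) := by
      refine bi_bound hW hW hD fun u hu u' hu' => ?_
      have e1 : 1 * (1 * F (u + τ) (u' + τ) + 1 * F (u + -τ) (u' + -τ)) + (-2) * F u u' =
          F (u + τ) (u' + τ) + F (u - τ) (u' - τ) - 2 * F u u' := by
        rw [← sub_eq_add_neg, ← sub_eq_add_neg]
        ring
      rw [e1]
      exact hF2 τ hτ u hu u' hu'
    have hadd : bi (fun u u' => 1 * (1 * F (u + τ) (u' + τ) +
        1 * F (u + -τ) (u' + -τ)) + (-2) * F u u') W W =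
        Bt τ + Bt (-τ) - 2 * bi F W W := by
      rw [bi_add (F := fun u u' => 1 * F (u + τ) (u' + τ) +
        1 * F (u + -τ) (u' + -τ)) hW hW
        ((continuous_const.mul (hFs τ)).add (continuous_const.mul (hFs (-τ)))) hF,
        bi_add (F := fun u u' => F (u + τ) (u' + τ)) hW hW (hFs τ) (hFs (-τ))]
      rw [hBt]
      ring
    rw [hadd] at hbd
    have h5 := (abs_le.1 hbd).1
    have h6 : (∫ u : ℝ, |W u|) * (∫ u : ℝ, |W u|) ≤ L * I := by
      have h7 := wt_l1 hW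
      rw [pow_two] at h7
      exact h7.trans (mul_le_mul_of_nonneg_right hab hI0)
    have h8 := mul_le_mul_of_nonneg_left h6 hD
    linarith
  have hint : ∫ τ in (0 : ℝ)..L, 2 * bi F W W ≤
      ∫ τ in (0 : ℝ)..L, (Bt τ + Bt (-τ) + D * (L * I)) := by
    apply intervalIntegral.integral_mono_on hL0.le
    · exact intervalIntegrable_const
    · exact ((hBc.add (hBc.comp continuous_neg)).add continuous_const).intervalIntegrable _ _
    · exact hpt
  have hneg : ∫ τ in (0 : ℝ)..L, Bt (-τ) = ∫ τ in (-L)..0, Bt τ := by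
    rw [intervalIntegral.integral_comp_neg, neg_zero]
  have hBi : ∀ x y : ℝ, IntervalIntegrable Bt volume x y := fun x y => hBc.intervalIntegrable _ _
  have hBni : IntervalIntegrable (fun τ => Bt (-τ)) volume 0 L :=
    (hBc.comp continuous_neg).intervalIntegrable _ _
  rw [intervalIntegral.integral_const, intervalIntegral.integral_add
    ((hBi 0 L).add hBni) intervalIntegrable_const,
    intervalIntegral.integral_add (hBi 0 L) hBni, hneg,
    intervalIntegral.integral_const, smul_eq_mul, smul_eq_mul, sub_zero,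
    add_comm (∫ τ in (0 : ℝ)..L, Bt τ), intervalIntegral.integral_add_adjacent_intervals
      (hBi (-L) 0) (hBi 0 L)] at hint
  linarith

/-- DUW (cites UTW, DGC, DGL, BIL, RKW; AVE). -/
theorem duw_bound_pr {φ g Θ : ℝ → ℝ} (hφ : Bump φ) (hg : Ker1 g) (hΘ : Cut Θ) : ∃ C : ℝ, 0 < C ∧
    ∀ (c R : ℕ) (L K a b : ℝ) (W : ℝ → ℝ), OC c → 0 < R → 1 ≤ L → 0 < K → Wt W a b →
    b - a ≤ L → -(5000 * L) ≤ a → b ≤ -(200 * L) →
    ∑ m ∈ fam c K, φ (m / K) * bi (Dg g Θ L R m) W W ≤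
      C * E1 R ^ 3 * K / L * ∫ u : ℝ, W u ^ 2 := by
  obtain ⟨C1, hC1, h1⟩ := dgl_bound hg hΘ
  obtain ⟨C2, hC2, h2⟩ := rkw_bound hg hΘ
  obtain ⟨C3, hC3, h3⟩ := ave_E1
  refine ⟨C3 * (C2 * Real.exp 5001 + C1), by positivity, ?_⟩
  intro c R L K a b W hc hR hL hK hW hab ha hb
  have hL0 : 0 < L := by linarith
  have hER : 1 ≤ E1 R ^ 3 := one_le_pow₀ (rsf_DUW_E1_one R)
  set I : ℝ := ∫ u : ℝ, W u ^ 2 with hI
  have hI0 : 0 ≤ I := integral_nonneg fun u => sq_nonneg _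
  have key : ∀ m : ℕ, 0 < m → bi (Dg g Θ L R m) W W ≤
      (C2 * Real.exp 5001 + C1) * E1 R ^ 3 / L * I * E1 m ^ 3 := by
    intro m hm
    have hEm : 1 ≤ E1 m ^ 3 := one_le_pow₀ (rsf_DUW_E1_one m)
    have hFc := dg2_cont hg Θ L R m
    have h1' := fun u u' => (h1 L R m u u' hL hm).2
    have h10 := h2 R m L a b (-L) L W hR hm hL hW (by linarith)
    generalize Dg g Θ L R m = F at hFc h1' h10 ⊢
    set D : ℝ := 2 * C1 * Real.exp (-(8 * L)) * E1 m ^ 3 with hD
    have hD0 : 0 ≤ D := by positivity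
    have habs := rsf_DUW_abs hFc hW hL0 hab hD0 (by
      intro τ hτ u hu u' hu'
      refine (h1' u u' τ).trans ?_
      have h6 : Real.exp (u / 8) ≤ Real.exp (-(25 * L)) :=
        Real.exp_le_exp.2 (by have := hu.2; linarith)
      have h7 : Real.exp (u' / 8) ≤ Real.exp (-(25 * L)) :=
        Real.exp_le_exp.2 (by have := hu'.2; linarith)
      have h8 : Real.exp |τ| ≤ Real.exp L := by
        rw [abs_of_nonneg hτ.1]
        exact Real.exp_le_exp.2 hτ.2
      calc C1 * Real.exp (16 * L) * E1 m ^ 3 * Real.exp |τ| *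
            (Real.exp (u / 8) + Real.exp (u' / 8)) ≤
          C1 * Real.exp (16 * L) * E1 m ^ 3 * Real.exp L *
            (Real.exp (-(25 * L)) + Real.exp (-(25 * L))) := by
            refine mul_le_mul (mul_le_mul_of_nonneg_left h8 (by positivity))
              (add_le_add h6 h7) (by positivity) (by positivity)
        _ = 2 * C1 * (Real.exp (16 * L) * Real.exp L * Real.exp (-(25 * L))) * E1 m ^ 3 := by
            ring
        _ = 2 * C1 * Real.exp (-(8 * L)) * E1 m ^ 3 := by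
            rw [← Real.exp_add, ← Real.exp_add]
            congr 3
            ring)
    have h11 : Real.exp (-(-L + a) / L) ≤ Real.exp 5001 := by
      apply Real.exp_le_exp.2
      rw [div_le_iff₀ hL0]
      linarith
    have h12 : ∫ τ in (-L)..L, bi (fun u u' => F (u + τ) (u' + τ)) W W ≤
        C2 * E1 R ^ 3 * Real.exp 5001 * I :=
      h10.trans (mul_le_mul_of_nonneg_right
        (mul_le_mul_of_nonneg_left h11 (by positivity)) hI0)
    have h13 : bi F W W ≤ C2 * E1 R ^ 3 * Real.exp 5001 * I / L + D * (L * I) / 2 := by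
      have h14 : bi F W W ≤
          (C2 * E1 R ^ 3 * Real.exp 5001 * I + L * (D * (L * I))) / (2 * L) := by
        rw [le_div_iff₀ (by positivity)]
        linarith
      have h15 : (C2 * E1 R ^ 3 * Real.exp 5001 * I + L * (D * (L * I))) / (2 * L) =
          C2 * E1 R ^ 3 * Real.exp 5001 * I / L / 2 + D * (L * I) / 2 := by
        field_simp
      have h16 : 0 ≤ C2 * E1 R ^ 3 * Real.exp 5001 * I / L := by positivity
      linarith
    have h14 : D * (L * I) / 2 ≤ C1 * (1 / L) * E1 m ^ 3 * I := by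
      have h15 := rsf_DUW_exp hL
      have h16 : C1 * E1 m ^ 3 * I * (L * Real.exp (-(8 * L))) ≤ C1 * E1 m ^ 3 * I * (1 / L) :=
        mul_le_mul_of_nonneg_left h15 (by positivity)
      rw [hD]
      linarith
    have h15 : C1 * (1 / L) * E1 m ^ 3 * I ≤ C1 * (1 / L) * E1 m ^ 3 * I * E1 R ^ 3 :=
      le_mul_of_one_le_right (by positivity) hER
    have h16 : C2 * E1 R ^ 3 * Real.exp 5001 * I / L ≤
        C2 * E1 R ^ 3 * Real.exp 5001 * I / L * E1 m ^ 3 :=
      le_mul_of_one_le_right (by positivity) hEm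
    calc bi F W W ≤ C2 * E1 R ^ 3 * Real.exp 5001 * I / L * E1 m ^ 3 +
          C1 * (1 / L) * E1 m ^ 3 * I * E1 R ^ 3 := by linarith
      _ = _ := by ring
  calc ∑ m ∈ fam c K, φ (m / K) * bi (Dg g Θ L R m) W W
      ≤ ∑ m ∈ fam c K, (C2 * Real.exp 5001 + C1) * E1 R ^ 3 / L * I * E1 m ^ 3 := by
        apply Finset.sum_le_sum
        intro m hm
        have hm0 := rsf_DUW_fam_pos hc hm
        have h0 := bi_nonneg (Θ := Θ) hg L R m hm0 hW
        calc φ (m / K) * bi (Dg g Θ L R m) W W ≤ 1 * bi (Dg g Θ L R m) W W :=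
              mul_le_mul_of_nonneg_right (hφ.le _) h0
          _ = bi (Dg g Θ L R m) W W := one_mul _
          _ ≤ _ := key m hm0
    _ = (C2 * Real.exp 5001 + C1) * E1 R ^ 3 / L * I * ∑ m ∈ fam c K, E1 m ^ 3 := by
        rw [Finset.mul_sum]
    _ ≤ (C2 * Real.exp 5001 + C1) * E1 R ^ 3 / L * I * (C3 * K) :=
        mul_le_mul_of_nonneg_left (h3 c K hc hK) (by positivity)
    _ = _ := by ring

end Pool.Agent.RSF

namespace Pool.Agent.RSF

alias duw_bound := duw_bound_pr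

end Pool.Agent.RSF
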