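import Pool.Agent.Lib_helper39.RSF.Defs
import Pool.Agent.Lib_helper39.RSF.KG1
import Pool.Agent.Lib_helper39.RSF.PFM
import Pool.Agent.Lib_helper39.RSF.SMO2
import Pool.Agent.Lib_helper39.RSF.AMB2
import Pool.Agent.Lib_helper39.RSF.DSQ
import Pool.Agent.Lib_helper39.RSF.XLIM
import Pool.Agent.Lib_helper39.RSF.XR2
import Pool.Agent.Lib_helper39.RSF.DDE
import Pool.Agent.Lib_helper39.RSF.DFO
import Pool.Agent.Lib_helper39.RSF.DOD
import Pool.Agent.Lib_helper39.RSF.M4B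
import Pool.Agent.Lib_helper39.RSF.FUI
import Pool.Agent.Lib_helper39.RSA.XR6
import Pool.Agent.Lib_helper39.RSA.PRM
import Pool.Agent.Lib_helper39.RSA.SOB
import Pool.Agent.Lib_helper39.RSA.BNS
import Pool.Agent.Lib_helper39.RSA.QLA
import Pool.Agent.Lib_helper39.RSA.QLB
import Pool.Agent.Lib_helper39.RSA.PER
import Pool.Agent.Lib_helper39.RSA.AVE
import Pool.Agent.Lib_helper39.RSA.CUT1
import Pool.Agent.Lib_helper39.RSA.CUT2
import Pool.Agent.Lib_helper24.ABS.Endgame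
import Pool.Agent.Lib_helper39.RSG.DGC
import Pool.Agent.Lib_helper39.RSG.UTW
/-!
# RSF, block EFW: the smeared covariance
-/

namespace Pool.Agent.RSF

open Complex MeasureTheory Filter Topology
open Pool.Agent.RC (cc psi rv f0 IsRC Good gm pr DD)
open Pool.Agent.RSE
open scoped ContDiff

theorem rsf_efw_sum {W1 W2 : ℝ → ℝ} {a1 b1 a2 b2 : ℝ} (h1 : Wt W1 a1 b1) (h2 : Wt W2 a2 b2)
    (S : Finset ℕ) (x : ℕ → ℝ) (F : ℕ → ℝ → ℝ → ℝ)
    (hF : ∀ m, Continuous (fun p : ℝ × ℝ => F m p.1 p.2)) :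
    bi (fun u u' => ∑ m ∈ S, x m * F m u u') W1 W2 = ∑ m ∈ S, x m * bi (F m) W1 W2 := by
  classical
  induction S using Finset.induction_on with
  | empty => simp [bi]
  | insert a S ha ih =>
    rw [Finset.sum_insert ha, ← ih]
    have h3 := bi_add h1 h2 (hF a) (G := fun u u' => ∑ m ∈ S, x m * F m u u')
      (continuous_finsetSum _ fun m _ => continuous_const.mul (hF m)) (x a) 1
    rw [one_mul] at h3
    rw [← h3]
    congr 1
    ext u u'
    rw [Finset.sum_insert ha, one_mul]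

theorem rsf_efw_prod (f : ℝ → ℝ) (W1 W2 : ℝ → ℝ) :
    bi (fun u u' => f u * f u') W1 W2 = (∫ u : ℝ, f u * W1 u) * ∫ u : ℝ, f u * W2 u := by
  unfold bi
  have h1 : ∀ u : ℝ, W1 u * ∫ u' : ℝ, W2 u' * (f u * f u') =
      (f u * W1 u) * ∫ u' : ℝ, f u' * W2 u' := by
    intro u
    have h2 : ∀ u' : ℝ, W2 u' * (f u * f u') = f u * (f u' * W2 u') := fun u' => by ring
    simp_rw [h2]
    rw [integral_const_mul]
    ring
  simp_rw [h1]
  rw [integral_mul_const]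

/-- EFW (cites UTW, DGC; SMO2). -/
theorem efw_eq_pr {φ g : ℝ → ℝ} (hg : Ker1 g) (Θ : ℝ → ℝ) (L K : ℝ) (R : ℕ) (j : Fin 4) (c : ℕ)
    {W1 W2 : ℝ → ℝ} {a1 b1 a2 b2 : ℝ} (h1 : Wt W1 a1 b1) (h2 : Wt W2 a2 b2) :
    ∑ m ∈ fam c K, φ (m / K) * ((∫ u : ℝ, fo g Θ L R j m u * W1 u) *
      ∫ u : ℝ, fo g Θ L R j m u * W2 u) =
    (∑ m ∈ fam c K, φ (m / K) * bi (Dg g Θ L R m) W1 W2) +
      bi (Pf φ g Θ L R j c K) W1 W2 := by
  have hfo : ∀ m, Continuous (fo g Θ L R j m) := fun m =>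
    continuous_iff_continuousAt.2 fun u => (fo_deriv hg Θ L R j m u).continuousAt
  have hff : ∀ m, Continuous (fun p : ℝ × ℝ => fo g Θ L R j m p.1 * fo g Θ L R j m p.2) :=
    fun m => ((hfo m).comp continuous_fst).mul ((hfo m).comp continuous_snd)
  have hP : Pf φ g Θ L R j c K = fun u u' => ∑ m ∈ fam c K, φ (m / K) *
      (1 * (fo g Θ L R j m u * fo g Θ L R j m u') + (-1) * Dg g Θ L R m u u') := by
    ext u u'
    unfold Pf Ef Df
    rw [← Finset.sum_sub_distrib]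
    exact Finset.sum_congr rfl fun m _ => by ring
  have hC : ∀ m, Continuous (fun p : ℝ × ℝ => 1 * (fo g Θ L R j m p.1 * fo g Θ L R j m p.2) +
      (-1) * Dg g Θ L R m p.1 p.2) := fun m =>
    (continuous_const.mul (hff m)).add (continuous_const.mul (dg2_cont hg Θ L R m))
  rw [hP, rsf_efw_sum h1 h2 (fam c K) (fun m => φ (m / K)) (fun m u u' =>
      (1 * (fo g Θ L R j m u * fo g Θ L R j m u') + (-1) * Dg g Θ L R m u u')) hC,
    ← Finset.sum_add_distrib]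
  apply Finset.sum_congr rfl
  intro m _
  rw [bi_add h1 h2 (hff m) (dg2_cont hg Θ L R m) 1 (-1), rsf_efw_prod]
  ring

end Pool.Agent.RSF

namespace Pool.Agent.RSF

alias efw_eq := efw_eq_pr

end Pool.Agent.RSF
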