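import Pool.Agent.Lib_helper39.RSF.Defs
import Pool.Agent.Lib_helper39.RSA.FEK
import Pool.Agent.Lib_helper39.RSA.REPK
/-! RSF block FEL : `fel_eq`, `ffl_eq` -/

namespace Pool.Agent.RSF

open Complex MeasureTheory Filter Topology
open Pool.Agent.RC (cc psi rv f0 IsRC Good gm pr DD)
open Pool.Agent.RSE
open scoped ContDiff

theorem rsf_fel_sum {κ : ℕ} (hκ : κ ≤ 1) (j : Fin 4) (m i : ℕ) (u : ℝ) :
    DF (gl κ i) j m u = DF (iteratedDeriv (i + 2) (k0 κ)) j m u -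
      1 / 4 * DF (iteratedDeriv i (k0 κ)) j m u := by
  obtain ⟨C, hC⟩ := rse_repk_bd hκ (i + 2)
  obtain ⟨C', hC'⟩ := rse_repk_bd hκ i
  have s1 := rse_fek_t_sum hC j m u
  have s2 := rse_fek_t_sum hC' j m u
  rw [rse_fek_DF, rse_fek_DF, rse_fek_DF]
  simp only
  rw [← tsum_mul_left, ← s1.tsum_sub (s2.mul_left _)]
  refine tsum_congr fun n => ?_
  unfold rse_fek_t
  split_ifs
  · unfold gl
    ring
  · ring

theorem fel_eq_pr {κ : ℕ} {j : Fin 4} {m : ℕ} (hm : 2 ≤ m)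
    {χ : DirichletCharacter ℂ (cc j * m)} (h : IsRC κ j m χ) (i : ℕ) :
    ∃ w : ℝ, |w| = 1 ∧ ∀ u : ℝ, DF (gl κ i) j m (-Real.log ((cc j * m : ℕ) : ℝ) - u) =
      w * DF (gl κ i) j m u := by
  have hκ : κ ≤ 1 := by
    rcases h.2.2 with ⟨h, -⟩ | ⟨h, -⟩ <;> omega
  obtain ⟨w, hw, hfe⟩ := rse_repk_fe hm h
  refine ⟨(-1) ^ i * w, ?_, fun u => ?_⟩
  · rw [abs_mul, hw, abs_pow, abs_neg, abs_one, one_pow, one_mul]
  · rw [rsf_fel_sum hκ, rsf_fel_sum hκ, hfe, hfe, pow_add (-1 : ℝ) i 2]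
    ring

theorem ffl_eq_pr {κ : ℕ} {j : Fin 4} {m : ℕ} (hm : 2 ≤ m)
    {χ : DirichletCharacter ℂ (cc j * m)} (h : IsRC κ j m χ) (i : ℕ) (Θ : ℝ → ℝ) (L : ℝ)
    (R : ℕ) : ∃ w : ℝ, |w| = 1 ∧ ∀ u : ℝ,
      ff (gl κ i) Θ L R j m (-Real.log ((cc j * m : ℕ) : ℝ) - u) =
        w * ff (gl κ i) Θ L R j m u := by
  obtain ⟨w, hw, hfe⟩ := fel_eq_pr hm h i
  refine ⟨w, hw, fun u => ?_⟩
  unfold ff
  rw [Finset.sum_comm, Finset.mul_sum]
  refine Finset.sum_congr rfl fun k _ => ?_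
  rw [Finset.mul_sum]
  refine Finset.sum_congr rfl fun l _ => ?_
  have h2 := hfe (u + Real.log k - Real.log l)
  rw [show -Real.log ((cc j * m : ℕ) : ℝ) - (u + Real.log k - Real.log l) =
    -Real.log ((cc j * m : ℕ) : ℝ) - u + Real.log l - Real.log k by ring] at h2
  rw [h2, mul_comm l k, mul_comm (l : ℝ) (k : ℝ)]
  ring

end Pool.Agent.RSF

namespace Pool.Agent.RSF

alias fel_eq := fel_eq_pr

alias ffl_eq := ffl_eq_pr

end Pool.Agent.RSF
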