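import Pool.Agent.Lib_helper39.RSF.Defs
import Pool.Agent.Lib_helper39.RSF.DFO
import Pool.Agent.Lib_helper39.RSF.SMO2
/-! RSF block FFW: the Euler factor at 2, against a weight. -/

namespace Pool.Agent.RSF

open Complex MeasureTheory Filter Topology
open Pool.Agent.RC (cc psi rv f0 IsRC Good gm pr DD)
open Pool.Agent.RSE
open scoped ContDiff

theorem rsf_ffw_int {W : ℝ → ℝ} {a b : ℝ} (h : Wt W a b) {f : ℝ → ℝ} (hf : Measurable f)
    {B : ℝ} (hb : ∀ u ∈ Set.Icc a b, |f u| ≤ B) : Integrable (fun u => f u * W u) := by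
  obtain ⟨D, hD⟩ := h.bdd
  have hD0 : 0 ≤ D := (abs_nonneg _).trans (hD 0)
  have hB0 : 0 ≤ B := (abs_nonneg _).trans (hb a ⟨le_rfl, h.le⟩)
  have hi : Integrable (Set.indicator (Set.Icc a b) (fun _ : ℝ => B * D)) := by
    rw [integrable_indicator_iff measurableSet_Icc]
    exact (continuousOn_const).integrableOn_compact isCompact_Icc
  refine hi.mono' (hf.mul h.meas).aestronglyMeasurable (ae_of_all _ fun u => ?_)
  by_cases hu : u ∈ Set.Icc a b
  · rw [Set.indicator_of_mem hu, Real.norm_eq_abs, abs_mul]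
    exact mul_le_mul (hb u hu) (hD u) (abs_nonneg _) hB0
  · rw [Set.indicator_of_notMem hu, h.supp u hu]
    simp

theorem rsf_ffw_cs {r I : ℕ → ℝ} {S : ℝ} (hr : ∀ k, |r k| ≤ 1)
    (hs : Summable (fun k : ℕ => (2 : ℝ) ^ (-(k : ℝ) / 2) * I k ^ 2))
    (hS : HasSum (fun k : ℕ => r k * (2 : ℝ) ^ (-(k : ℝ) / 2) * I k) S) :
    S ^ 2 ≤ 4 * ∑' k : ℕ, (2 : ℝ) ^ (-(k : ℝ) / 2) * I k ^ 2 := by
  obtain ⟨hc, hc4⟩ := rse_dfo_c
  have hfin : ∀ s : Finset ℕ, (∑ a ∈ s, r a * (2 : ℝ) ^ (-(a : ℝ) / 2) * I a) ^ 2 ≤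
      4 * ∑' k : ℕ, (2 : ℝ) ^ (-(k : ℝ) / 2) * I k ^ 2 := by
    intro s
    have h3 := Finset.sum_mul_sq_le_sq_mul_sq s (fun a : ℕ => √((2 : ℝ) ^ (-(a : ℝ) / 2)))
      (fun a : ℕ => √((2 : ℝ) ^ (-(a : ℝ) / 2)) * (r a * I a))
    have h4 : ∀ a : ℕ, √((2 : ℝ) ^ (-(a : ℝ) / 2)) * (√((2 : ℝ) ^ (-(a : ℝ) / 2)) *
        (r a * I a)) = r a * (2 : ℝ) ^ (-(a : ℝ) / 2) * I a := by
      intro a
      rw [← mul_assoc, Real.mul_self_sqrt (by positivity)]
      ring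
    simp only [h4] at h3
    refine h3.trans ?_
    have h5 : ∑ a ∈ s, √((2 : ℝ) ^ (-(a : ℝ) / 2)) ^ 2 ≤ 4 := by
      refine le_trans ?_ hc4
      simp only [Real.sq_sqrt (by positivity : (0 : ℝ) ≤ (2 : ℝ) ^ (-((_ : ℕ) : ℝ) / 2))]
      exact hc.sum_le_tsum s fun a _ => by positivity
    have h6 : ∑ a ∈ s, (√((2 : ℝ) ^ (-(a : ℝ) / 2)) * (r a * I a)) ^ 2 ≤
        ∑' k : ℕ, (2 : ℝ) ^ (-(k : ℝ) / 2) * I k ^ 2 := by
      refine le_trans (Finset.sum_le_sum fun a _ => ?_)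
        (hs.sum_le_tsum s fun a _ => by positivity)
      rw [mul_pow, Real.sq_sqrt (by positivity)]
      refine mul_le_mul_of_nonneg_left ?_ (by positivity)
      rw [mul_pow]
      have h7 : r a ^ 2 ≤ 1 := by
        rw [← sq_abs]
        exact pow_le_one₀ (abs_nonneg _) (hr a)
      nlinarith [sq_nonneg (I a)]
    exact mul_le_mul h5 h6 (Finset.sum_nonneg fun a _ => by positivity) (by norm_num)
  exact le_of_tendsto (hS.pow 2) (Filter.Eventually.of_forall hfin)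

/-- FFW. -/
theorem ffw_le_pr {g : ℝ → ℝ} (hg : Ker1 g) {Θ : ℝ → ℝ} (hΘ : Cut Θ) {L : ℝ} (hL : 1 ≤ L) (R : ℕ)
    (j : Fin 4) (m : ℕ) {W : ℝ → ℝ} {a b : ℝ} (hW : Wt W a b) :
    Summable (fun k : ℕ => (2 : ℝ) ^ (-(k : ℝ) / 2) *
      (∫ u : ℝ, fo g Θ L R j m (u + k * Real.log 2) * W u) ^ 2) ∧
    (∫ u : ℝ, ff g Θ L R j m u * W u) ^ 2 ≤ 4 * ∑' k : ℕ, (2 : ℝ) ^ (-(k : ℝ) / 2) *
      (∫ u : ℝ, fo g Θ L R j m (u + k * Real.log 2) * W u) ^ 2 := by
  obtain ⟨C, hC0, hC⟩ := fo_pos hg hΘ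
  obtain ⟨hc, -⟩ := rse_dfo_c
  set B : ℝ := C * Real.exp (4 * L - a) with hB
  have hB0 : 0 ≤ B := by positivity
  have hcont : Continuous (fo g Θ L R j m) :=
    continuous_iff_continuousAt.mpr fun u => (fo_deriv hg Θ L R j m u).continuousAt
  have hcontk : ∀ k : ℕ, Continuous (fun u : ℝ => fo g Θ L R j m (u + k * Real.log 2)) :=
    fun k => hcont.comp (continuous_id.add continuous_const)
  have hbd : ∀ (k : ℕ), ∀ u ∈ Set.Icc a b, |fo g Θ L R j m (u + k * Real.log 2)| ≤ B := by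
    intro k u hu
    refine (hC L R j m (u + k * Real.log 2) hL).1.trans ?_
    rw [hB]
    refine mul_le_mul_of_nonneg_left ?_ hC0.le
    rw [Real.exp_le_exp]
    have h1 : 0 ≤ (k : ℝ) * Real.log 2 := by positivity
    linarith [hu.1]
  have hWi : Integrable (fun u => |W u|) := by
    have h1 := rsf_ffw_int hW (f := fun _ => (1 : ℝ)) measurable_const (B := 1)
      (fun u _ => by simp)
    simp only [one_mul] at h1
    exact h1.abs
  have hint : ∀ k : ℕ, Integrable (fun u => fo g Θ L R j m (u + k * Real.log 2) * W u) :=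
    fun k => rsf_ffw_int hW (hcontk k).measurable (hbd k)
  have hpt : ∀ (k : ℕ) (u : ℝ), |fo g Θ L R j m (u + k * Real.log 2) * W u| ≤ B * |W u| := by
    intro k u
    by_cases hu : u ∈ Set.Icc a b
    · rw [abs_mul]
      exact mul_le_mul_of_nonneg_right (hbd k u hu) (abs_nonneg _)
    · rw [hW.supp u hu]
      simp
  set M : ℝ := B * ∫ u : ℝ, |W u| with hM
  have hI : ∀ k : ℕ, |∫ u : ℝ, fo g Θ L R j m (u + k * Real.log 2) * W u| ≤ M := by
    intro k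
    refine (abs_integral_le_integral_abs).trans ?_
    rw [hM, ← integral_const_mul]
    exact integral_mono (hint k).abs (hWi.const_mul B) (hpt k)
  have hrv : ∀ k : ℕ, |(rv j m (2 ^ k) : ℝ)| ≤ 1 := fun k => Pool.Agent.RC.rc_der_rv_abs j m _
  have hsum : Summable (fun k : ℕ => (2 : ℝ) ^ (-(k : ℝ) / 2) *
      (∫ u : ℝ, fo g Θ L R j m (u + k * Real.log 2) * W u) ^ 2) := by
    refine Summable.of_nonneg_of_le (fun k => by positivity) (fun k => ?_)
      (hc.mul_right (M ^ 2))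
    refine mul_le_mul_of_nonneg_left ?_ (by positivity)
    rw [← sq_abs]
    exact pow_le_pow_left₀ (abs_nonneg _) (hI k) 2
  refine ⟨hsum, ?_⟩
  have hS : HasSum (fun k : ℕ => (rv j m (2 ^ k) : ℝ) * (2 : ℝ) ^ (-(k : ℝ) / 2) *
      ∫ u : ℝ, fo g Θ L R j m (u + k * Real.log 2) * W u)
      (∫ u : ℝ, ff g Θ L R j m u * W u) := by
    have h1 := hasSum_integral_of_summable_integral_norm (μ := volume)
      (F := fun (k : ℕ) (u : ℝ) => (rv j m (2 ^ k) : ℝ) * (2 : ℝ) ^ (-(k : ℝ) / 2) *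
        (fo g Θ L R j m (u + k * Real.log 2) * W u))
      (fun k => (hint k).const_mul _) ?_
    · have h2 : ∀ k : ℕ, ∫ u : ℝ, (rv j m (2 ^ k) : ℝ) * (2 : ℝ) ^ (-(k : ℝ) / 2) *
          (fo g Θ L R j m (u + k * Real.log 2) * W u) =
          (rv j m (2 ^ k) : ℝ) * (2 : ℝ) ^ (-(k : ℝ) / 2) *
            ∫ u : ℝ, fo g Θ L R j m (u + k * Real.log 2) * W u :=
        fun k => integral_const_mul _ _
      simp only [h2] at h1
      have h5 : ∫ u : ℝ, ∑' k : ℕ, (rv j m (2 ^ k) : ℝ) * (2 : ℝ) ^ (-(k : ℝ) / 2) *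
          (fo g Θ L R j m (u + k * Real.log 2) * W u) = ∫ u : ℝ, ff g Θ L R j m u * W u := by
        refine integral_congr_ae (ae_of_all _ fun u => ?_)
        beta_reduce
        rw [(rse_dfo_ff (Θ := Θ) hg L R j m u).2, ← tsum_mul_right]
        exact tsum_congr fun k => by ring
      rw [h5] at h1
      exact h1
    · refine Summable.of_nonneg_of_le (fun k => integral_nonneg fun u => norm_nonneg _)
        (fun k => ?_) (hc.mul_right M)
      rw [hM, ← integral_const_mul, ← integral_const_mul]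
      refine integral_mono ((hint k).const_mul _).norm ((hWi.const_mul B).const_mul _)
        fun u => ?_
      show ‖_‖ ≤ _
      rw [Real.norm_eq_abs, abs_mul, abs_mul, abs_of_nonneg
        (by positivity : (0 : ℝ) ≤ (2 : ℝ) ^ (-(k : ℝ) / 2))]
      have h3 : (0 : ℝ) ≤ (2 : ℝ) ^ (-(k : ℝ) / 2) := by positivity
      calc |(rv j m (2 ^ k) : ℝ)| * (2 : ℝ) ^ (-(k : ℝ) / 2) *
            |fo g Θ L R j m (u + k * Real.log 2) * W u|
          ≤ 1 * (2 : ℝ) ^ (-(k : ℝ) / 2) * (B * |W u|) :=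
            mul_le_mul (mul_le_mul_of_nonneg_right (hrv k) h3) (hpt k u) (abs_nonneg _)
              (by positivity)
        _ = (2 : ℝ) ^ (-(k : ℝ) / 2) * (B * |W u|) := by ring
  exact rsf_ffw_cs hrv hsum hS

end Pool.Agent.RSF

namespace Pool.Agent.RSF

alias ffw_le := ffw_le_pr

end Pool.Agent.RSF
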