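import Pool.Agent.Lib_helper39.RSF.Defs
import Pool.Agent.Lib_helper39.RSA.KG2
/-! RSF block KGL : `gl_deriv`, `ker1_gl` -/

namespace Pool.Agent.RSF

open Complex MeasureTheory Filter Topology
open Pool.Agent.RC (cc psi rv f0 IsRC Good gm pr DD)
open Pool.Agent.RSE
open scoped ContDiff

theorem rsf_kgl_gl (κ i : ℕ) : gl κ i = rse_kg2_F (1 / 2 + κ)
    ((rse_kg2_T (1 / 2 + κ))^[i + 2] 2 - Polynomial.C (1 / 4) *
      (rse_kg2_T (1 / 2 + κ))^[i] 2) := by
  funext z
  rw [gl, rse_kg2_k0, rse_kg2_iter, rse_kg2_iter, rse_kg2_smul, rse_kg2_sub]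

theorem rsf_kgl_hd (κ n : ℕ) (z : ℝ) :
    HasDerivAt (iteratedDeriv n (k0 κ)) (iteratedDeriv (n + 1) (k0 κ) z) z := by
  rw [iteratedDeriv_succ]
  apply DifferentiableAt.hasDerivAt
  rw [rse_kg2_k0, rse_kg2_iter]
  exact (rse_kg2_smooth _ _).differentiable (by simp) _

theorem gl_deriv_pr {κ : ℕ} (hκ : κ ≤ 1) (i : ℕ) : deriv (gl κ i) = gl κ (i + 1) := by
  funext z
  have h1 : HasDerivAt (gl κ i) (iteratedDeriv (i + 2 + 1) (k0 κ) z -
      1 / 4 * iteratedDeriv (i + 1) (k0 κ) z) z :=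
    (rsf_kgl_hd κ (i + 2) z).sub ((rsf_kgl_hd κ i z).const_mul _)
  rw [h1.deriv, gl]

theorem ker1_gl_pr {κ : ℕ} (hκ : κ ≤ 1) (i : ℕ) : Ker1 (gl κ i) := by
  have hc : (0 : ℝ) < 1 / 2 + κ := by positivity
  refine ⟨?_, fun j => ?_, ?_⟩
  · rw [rsf_kgl_gl]
    exact rse_kg2_smooth _ _
  · rw [rsf_kgl_gl, rse_kg2_iter]
    apply rse_kg2_fast hc
    interval_cases κ
    · right
      rw [rse_kg2_T_iter_coeff, Polynomial.coeff_sub, Polynomial.coeff_C_mul,
        rse_kg2_T_iter_coeff, rse_kg2_T_iter_coeff]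
      push_cast
      ring
    · left
      norm_num
  · have e : ∀ z, HasDerivAt (fun z => Real.exp (z / 2) * (iteratedDeriv (i + 1) (k0 κ) z -
        1 / 2 * iteratedDeriv i (k0 κ) z)) (Real.exp (z / 2) * gl κ i z) z := by
      intro z
      have h1 : HasDerivAt (fun z : ℝ => Real.exp (z / 2)) (Real.exp (z / 2) * (1 / 2)) z :=
        ((hasDerivAt_id z).div_const 2).exp
      have h2 := (rsf_kgl_hd κ (i + 1) z).sub ((rsf_kgl_hd κ i z).const_mul (1 / 2))
      have h3 : HasDerivAt (fun z => Real.exp (z / 2) * (iteratedDeriv (i + 1) (k0 κ) z -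
        1 / 2 * iteratedDeriv i (k0 κ) z)) _ z := h1.mul h2
      refine h3.congr_deriv ?_
      simp only [gl]
      ring
    have key : ∀ n, Integrable (fun z => Real.exp (z / 2) * iteratedDeriv n (k0 κ) z) := by
      intro n
      rw [rse_kg2_k0, rse_kg2_iter]
      have := rse_kg2_int (a := 1 / 2) hc (by norm_num) ((rse_kg2_T (1 / 2 + κ))^[n] 2)
      refine this.congr (ae_of_all _ fun z => ?_)
      simp only
      congr 2
      ring
    refine integral_eq_zero_of_hasDerivAt_of_integrable e ?_ ?_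
    · refine ((key (i + 2)).sub ((key i).const_mul (1 / 4))).congr (ae_of_all _ fun z => ?_)
      simp only [gl, Pi.sub_apply]
      ring
    · refine ((key (i + 1)).sub ((key i).const_mul (1 / 2))).congr (ae_of_all _ fun z => ?_)
      simp only [Pi.sub_apply]
      ring

end Pool.Agent.RSF

namespace Pool.Agent.RSF

alias gl_deriv := gl_deriv_pr

alias ker1_gl := ker1_gl_pr

end Pool.Agent.RSF
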