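import Pool.Agent.Lib_helper39.RSF.Defs
import Pool.Agent.Lib_helper39.RSF.KG1
import Pool.Agent.Lib_helper39.RSF.PFM
import Pool.Agent.Lib_helper39.RSF.SMO2
import Pool.Agent.Lib_helper39.RSF.AMB2
import Pool.Agent.Lib_helper39.RSF.DSQ
import Pool.Agent.Lib_helper39.RSF.XLIM
import Pool.Agent.Lib_helper39.RSF.XR2
import Pool.Agent.Lib_helper39.RSF.DDE
import Pool.Agent.Lib_helper39.RSF.DFO
import Pool.Agent.Lib_helper39.RSF.DOD
import Pool.Agent.Lib_helper39.RSF.M4B
import Pool.Agent.Lib_helper39.RSF.FUI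
import Pool.Agent.Lib_helper39.RSA.XR6
import Pool.Agent.Lib_helper39.RSA.PRM
import Pool.Agent.Lib_helper39.RSA.SOB
import Pool.Agent.Lib_helper39.RSA.BNS
import Pool.Agent.Lib_helper39.RSA.QLA
import Pool.Agent.Lib_helper39.RSA.QLB
import Pool.Agent.Lib_helper39.RSA.PER
import Pool.Agent.Lib_helper39.RSA.AVE
import Pool.Agent.Lib_helper39.RSA.CUT1
import Pool.Agent.Lib_helper39.RSA.CUT2
import Pool.Agent.Lib_helper24.ABS.Endgame
import Pool.Agent.Lib_helper39.RSG.DUW
import Pool.Agent.Lib_helper39.RSG.EFW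
import Pool.Agent.Lib_helper39.RSG.UTW
/-!
# Block M3W: the smeared second moment of `fo` above the centre
-/

namespace Pool.Agent.RSF

open Complex MeasureTheory Filter Topology
open Pool.Agent.RC (cc psi rv f0 IsRC Good gm pr DD)
open Pool.Agent.RSE
open Pool.Agent.ABS (Nice LData Piece oddZ)
open Pool.Agent.SQS (hat)
open scoped ContDiff

theorem rsf_m3w_E1_one (n : ℕ) : 1 ≤ E1 n := by
  unfold E1
  calc (1 : ℝ) = ∏ p ∈ n.primeFactors, (1 : ℝ) := by simp
    _ ≤ _ := by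
        apply Finset.prod_le_prod (fun _ _ => zero_le_one)
        intro p _
        have : (0 : ℝ) ≤ 1 / √(p : ℝ) := by positivity
        linarith

/-- The block is dominated by the smooth sum. -/
theorem rsf_m3w_le {φ : ℝ → ℝ} (hφ : Bump φ) (F : ℕ → ℝ) (c : ℕ) (K : ℝ) (hK : 0 < K) :
    ∑ m ∈ blk8 c K, F m ^ 2 ≤ ∑ m ∈ fam c K, φ (m / K) * (F m * F m) := by
  have hsub : blk8 c K ⊆ fam c K := by
    intro m hm
    unfold blk8 at hm
    rw [Finset.mem_filter, Finset.mem_range] at hm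
    unfold fam
    rw [Finset.mem_filter, Finset.mem_range]
    refine ⟨?_, hm.2.2.2⟩
    have : m ≤ ⌊4 * K⌋₊ := by
      rw [Nat.le_floor_iff (by positivity)]
      have := hm.2.2.1
      linarith
    omega
  calc ∑ m ∈ blk8 c K, F m ^ 2
      = ∑ m ∈ blk8 c K, φ (m / K) * (F m * F m) := by
        apply Finset.sum_congr rfl
        intro m hm
        unfold blk8 at hm
        rw [Finset.mem_filter, Finset.mem_range] at hm
        have h1 : (1 : ℝ) ≤ m / K := by
          rw [le_div_iff₀ hK, one_mul]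
          exact hm.2.1
        have h2 : (m : ℝ) / K ≤ 2 := by
          rw [div_le_iff₀ hK]
          exact hm.2.2.1.le
        rw [hφ.one _ h1 h2, one_mul, sq]
    _ ≤ _ := by
        apply Finset.sum_le_sum_of_subset_of_nonneg hsub
        intro m _ _
        have h3 := hφ.nonneg (m / K)
        have h4 := mul_self_nonneg (F m)
        exact mul_nonneg h3 h4

/-- The off-diagonal above the centre. -/
theorem rsf_m3w_exp {K L u u' : ℝ} (hK : 1 ≤ K) (h : ce K + 5 * L ≤ u) (h' : ce K + 5 * L ≤ u') :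
    K * (Real.exp (-(u + u')) / K) ^ 5 ≤ K * Real.exp (-(50 * L)) ∧
    Real.exp (-(u + u') / 4) ≤ Real.exp (Real.log K / 4 - 5 / 2 * L) := by
  have hK0 : 0 < K := by linarith
  unfold ce at h h'
  constructor
  · apply mul_le_mul_of_nonneg_left _ hK0.le
    have h1 : Real.exp (-(u + u')) / K ≤ Real.exp (-(10 * L)) := by
      rw [div_le_iff₀ hK0]
      calc Real.exp (-(u + u')) ≤ Real.exp (-(10 * L) + Real.log K) :=
            Real.exp_le_exp.2 (by linarith)
        _ = Real.exp (-(10 * L)) * K := by rw [Real.exp_add, Real.exp_log hK0]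
    calc (Real.exp (-(u + u')) / K) ^ 5 ≤ Real.exp (-(10 * L)) ^ 5 :=
          pow_le_pow_left₀ (by positivity) h1 5
      _ = Real.exp (-(50 * L)) := by
          rw [← Real.exp_nat_mul]
          congr 1
          push_cast
          ring
  · apply Real.exp_le_exp.2
    linarith

theorem m3w_bound_pr {g Θ : ℝ → ℝ} (hg : Ker1 g) (hΘ : Cut Θ) : ∃ C : ℝ, 0 < C ∧
    ∀ (j : Fin 4) (c R : ℕ) (L K a b : ℝ) (W : ℝ → ℝ), OC c → 0 < R → 1 ≤ L → 1 ≤ K →
    Real.log K ≤ 4001 * L → Wt W a b → b - a ≤ L → ce K + 5 * L ≤ a → b ≤ -(200 * L) →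
    ∑ m ∈ blk8 c K, (∫ u : ℝ, fo g Θ L R j m u * W u) ^ 2 ≤
      C * E1 R ^ 3 * K / L * ∫ u : ℝ, W u ^ 2 := by
  obtain ⟨φ, hφ⟩ := exists_bump
  obtain ⟨C1, hC1, h1⟩ := pfm_bound hφ hg hΘ
  obtain ⟨C2, hC2, h2⟩ := duw_bound hφ hg hΘ
  refine ⟨C2 + 4 * C1, by positivity, ?_⟩
  intro j c R L K a b W hc hR hL hK hlogK hW hba hcu hu
  have hK0 : 0 < K := by linarith
  have hL0 : 0 < L := by linarith
  have hER : 1 ≤ E1 R ^ 3 := one_le_pow₀ (rsf_m3w_E1_one R)
  have hW2 : 0 ≤ ∫ u : ℝ, W u ^ 2 := integral_nonneg fun u => sq_nonneg _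
  have h3 := rsf_m3w_le hφ (fun m => ∫ u : ℝ, fo g Θ L R j m u * W u) c K hK0
  have h4 := efw_eq (φ := φ) hg Θ L K R j c hW hW
  have ha : -(5000 * L) ≤ a := by
    unfold ce at hcu
    linarith
  have h5 := h2 c R L K a b W hc hR hL hK0 hW hba ha hu
  have hlog : 410 * L ≤ Real.log K := by
    have := hW.le
    unfold ce at hcu
    linarith
  have hinv : L * Real.exp (-L) ≤ 2 / L := by
    have hq := Real.quadratic_le_exp_of_nonneg hL0.le
    rw [Real.exp_neg, ← div_eq_mul_inv, div_le_div_iff₀ (Real.exp_pos _) hL0]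
    nlinarith
  have hB : ∀ u ∈ Set.Icc a b, ∀ u' ∈ Set.Icc a b,
      |Pf φ g Θ L R j c K u u'| ≤ C1 * (2 * K * Real.exp (-L)) := by
    intro u hu1 u' hu2
    have h6 := (h1 j c R L K u u' hc hL hK0).1
    obtain ⟨h7, h8⟩ := rsf_m3w_exp hK (hcu.trans hu1.1) (hcu.trans hu2.1)
    have h10 : Real.exp (40 * L) *
        (K * (Real.exp (-(u + u')) / K) ^ 5 + Real.exp (-(u + u') / 4)) ≤
        2 * K * Real.exp (-L) := by
      have h11 : Real.exp (40 * L) * (K * Real.exp (-(50 * L))) ≤ K * Real.exp (-L) := by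
        have e : Real.exp (40 * L) * (K * Real.exp (-(50 * L))) = K * Real.exp (-(10 * L)) := by
          rw [show -(10 * L) = 40 * L + -(50 * L) by ring, Real.exp_add]
          ring
        rw [e]
        exact mul_le_mul_of_nonneg_left (Real.exp_le_exp.2 (by linarith)) hK0.le
      have h12 : Real.exp (40 * L) * Real.exp (Real.log K / 4 - 5 / 2 * L) ≤
          K * Real.exp (-L) := by
        rw [← Real.exp_add]
        calc Real.exp (40 * L + (Real.log K / 4 - 5 / 2 * L)) ≤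
              Real.exp (Real.log K + -L) := Real.exp_le_exp.2 (by linarith)
          _ = K * Real.exp (-L) := by rw [Real.exp_add, Real.exp_log hK0]
      have h13 : Real.exp (40 * L) *
          (K * (Real.exp (-(u + u')) / K) ^ 5 + Real.exp (-(u + u') / 4)) ≤
          Real.exp (40 * L) * (K * Real.exp (-(50 * L)) +
            Real.exp (Real.log K / 4 - 5 / 2 * L)) :=
        mul_le_mul_of_nonneg_left (add_le_add h7 h8) (Real.exp_pos _).le
      calc _ ≤ _ := h13
        _ = Real.exp (40 * L) * (K * Real.exp (-(50 * L))) +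
            Real.exp (40 * L) * Real.exp (Real.log K / 4 - 5 / 2 * L) := by ring
        _ ≤ K * Real.exp (-L) + K * Real.exp (-L) := add_le_add h11 h12
        _ = _ := by ring
    calc |Pf φ g Θ L R j c K u u'| ≤ _ := h6
      _ = C1 * (Real.exp (40 * L) *
          (K * (Real.exp (-(u + u')) / K) ^ 5 + Real.exp (-(u + u') / 4))) := by ring
      _ ≤ C1 * (2 * K * Real.exp (-L)) := mul_le_mul_of_nonneg_left h10 hC1.le
  have hB0 : 0 ≤ C1 * (2 * K * Real.exp (-L)) := by positivity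
  have h6 := (abs_le.1 (bi_bound hW hW hB0 hB)).2
  have h7 : (∫ u : ℝ, |W u|) * (∫ u : ℝ, |W u|) ≤ L * ∫ u : ℝ, W u ^ 2 := by
    have := wt_l1 hW
    rw [sq] at this
    exact this.trans (mul_le_mul_of_nonneg_right hba hW2)
  have h8 : bi (Pf φ g Θ L R j c K) W W ≤ 4 * C1 * K / L * ∫ u : ℝ, W u ^ 2 := by
    calc bi (Pf φ g Θ L R j c K) W W ≤ C1 * (2 * K * Real.exp (-L)) *
          ((∫ u : ℝ, |W u|) * ∫ u : ℝ, |W u|) := h6
      _ ≤ C1 * (2 * K * Real.exp (-L)) * (L * ∫ u : ℝ, W u ^ 2) :=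
          mul_le_mul_of_nonneg_left h7 hB0
      _ = 2 * C1 * K * (L * Real.exp (-L)) * ∫ u : ℝ, W u ^ 2 := by ring
      _ ≤ 2 * C1 * K * (2 / L) * ∫ u : ℝ, W u ^ 2 := by
          apply mul_le_mul_of_nonneg_right _ hW2
          exact mul_le_mul_of_nonneg_left hinv (by positivity)
      _ = _ := by ring
  have h9 : 4 * C1 * K / L * ∫ u : ℝ, W u ^ 2 ≤
      (4 * C1 * K / L * ∫ u : ℝ, W u ^ 2) * E1 R ^ 3 :=
    le_mul_of_one_le_right (by positivity) hER
  calc ∑ m ∈ blk8 c K, (∫ u : ℝ, fo g Θ L R j m u * W u) ^ 2 ≤ _ := h3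
    _ = _ := h4
    _ ≤ C2 * E1 R ^ 3 * K / L * (∫ u : ℝ, W u ^ 2) +
        (4 * C1 * K / L * ∫ u : ℝ, W u ^ 2) * E1 R ^ 3 := add_le_add h5 (h8.trans h9)
    _ = _ := by ring


end Pool.Agent.RSF

namespace Pool.Agent.RSF

alias m3w_bound := m3w_bound_pr

end Pool.Agent.RSF
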