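import Pool.Agent.Lib_helper39.RSF.Defs
import Pool.Agent.Lib_helper39.RSF.KG1
import Pool.Agent.Lib_helper39.RSF.PFM
import Pool.Agent.Lib_helper39.RSF.SMO2
import Pool.Agent.Lib_helper39.RSF.AMB2
import Pool.Agent.Lib_helper39.RSF.DSQ
import Pool.Agent.Lib_helper39.RSF.XLIM
import Pool.Agent.Lib_helper39.RSF.XR2
import Pool.Agent.Lib_helper39.RSF.DDE
import Pool.Agent.Lib_helper39.RSF.DFO
import Pool.Agent.Lib_helper39.RSF.DOD
import Pool.Agent.Lib_helper39.RSF.M4B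
import Pool.Agent.Lib_helper39.RSF.FUI
import Pool.Agent.Lib_helper39.RSA.XR6
import Pool.Agent.Lib_helper39.RSA.PRM
import Pool.Agent.Lib_helper39.RSA.SOB
import Pool.Agent.Lib_helper39.RSA.BNS
import Pool.Agent.Lib_helper39.RSA.QLA
import Pool.Agent.Lib_helper39.RSA.QLB
import Pool.Agent.Lib_helper39.RSA.PER
import Pool.Agent.Lib_helper39.RSA.AVE
import Pool.Agent.Lib_helper39.RSA.CUT1
import Pool.Agent.Lib_helper39.RSA.CUT2
import Pool.Agent.Lib_helper24.ABS.Endgame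
import Pool.Agent.Lib_helper39.RSG.FEL
import Pool.Agent.Lib_helper39.RSG.FFW
import Pool.Agent.Lib_helper39.RSG.KGL
import Pool.Agent.Lib_helper39.RSG.UTW
/-! RSF block M4AW. -/

namespace Pool.Agent.RSF

open Complex MeasureTheory Filter Topology
open Pool.Agent.RC (cc psi rv f0 IsRC Good gm pr DD)
open Pool.Agent.RSE
open scoped ContDiff

/-- the reflected weight -/
theorem rsf_m4aw_refl {g : ℝ → ℝ} (hg : Ker1 g) {Θ : ℝ → ℝ} (hΘ : Cut Θ) {L : ℝ} (hL : 1 ≤ L)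
    (R : ℕ) (j : Fin 4) (m : ℕ) {W : ℝ → ℝ} {A B : ℝ} (hW : Wt W A B) (s : ℝ) :
    Summable (fun a : ℕ => (2 : ℝ) ^ (-(a : ℝ) / 2) *
      (∫ u : ℝ, fo g Θ L R j m (s - u + a * Real.log 2) * W u) ^ 2) ∧
    (∫ u : ℝ, ff g Θ L R j m (s - u) * W u) ^ 2 ≤ 4 * ∑' a : ℕ, (2 : ℝ) ^ (-(a : ℝ) / 2) *
      (∫ u : ℝ, fo g Θ L R j m (s - u + a * Real.log 2) * W u) ^ 2 := by
  obtain ⟨h1, -, -, h2⟩ := wt_refl hW s
  have h3 := ffw_le hg hΘ hL R j m h1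
  have h4 : ∀ a : ℕ, ∫ u : ℝ, fo g Θ L R j m (u + a * Real.log 2) * W (s - u) =
      ∫ u : ℝ, fo g Θ L R j m (s - u + a * Real.log 2) * W u := fun a =>
    h2 (fun u => fo g Θ L R j m (u + a * Real.log 2))
  rw [h2 (ff g Θ L R j m)] at h3
  simp only [h4] at h3
  exact h3

/-- M4AW. -/
theorem m4aw_bound_pr {κ : ℕ} (hκ : κ ≤ 1) {Θ : ℝ → ℝ} (hΘ : Cut Θ) {L : ℝ} (hL : 1 ≤ L)
    {j : Fin 4}
    {m1 m2 : ℕ} (hp : Par κ j m1) (h1 : Odd m1) (hs : Squarefree m1) (h3 : 3 ≤ m1)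
    (h2 : Odd m2) (i : ℕ) {W : ℝ → ℝ} {A B : ℝ} (hW : Wt W A B) :
    (∀ d : ℕ, Summable (fun a : ℕ => (2 : ℝ) ^ (-(a : ℝ) / 2) *
      (∫ u : ℝ, fo (gl κ i) Θ L m2 j m1
        (-Real.log ((cc j * m1 : ℕ) : ℝ) - u - Real.log d + a * Real.log 2) * W u) ^ 2)) ∧
    (∫ u : ℝ, fo (gl κ i) Θ L 1 j (m1 * m2 ^ 2) u * W u) ^ 2 ≤
      4 * ((sd (2 * m2)).card : ℝ) * ∑ d ∈ sd (2 * m2), 1 / (d : ℝ) *
        ∑' a : ℕ, (2 : ℝ) ^ (-(a : ℝ) / 2) * (∫ u : ℝ, fo (gl κ i) Θ L m2 j m1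
          (-Real.log ((cc j * m1 : ℕ) : ℝ) - u - Real.log d + a * Real.log 2) * W u) ^ 2 := by
  have hg : Ker1 (gl κ i) := ker1_gl hκ i
  have e5 : ∀ (d a : ℕ) (u : ℝ),
      -Real.log ((cc j * m1 : ℕ) : ℝ) - u - Real.log d + a * Real.log 2 =
      (-Real.log ((cc j * m1 : ℕ) : ℝ) - Real.log d) - u + a * Real.log 2 :=
    fun d a u => by ring
  simp only [e5]
  refine ⟨fun d => (rsf_m4aw_refl hg hΘ hL m2 j m1 hW _).1, ?_⟩
  obtain ⟨χ, hχ⟩ := exists_isRC hp h1 hs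
  have hffc : Continuous (ff (gl κ i) Θ L m2 j m1) :=
    continuous_iff_continuousAt.mpr fun u => (ff_deriv hg Θ L m2 j m1 u).continuousAt
  have hdec : ∫ u : ℝ, fo (gl κ i) Θ L 1 j (m1 * m2 ^ 2) u * W u =
      ∑ d ∈ sd (2 * m2), (ArithmeticFunction.moebius d : ℝ) * (rv j m1 d : ℝ) / √(d : ℝ) *
        ∫ u : ℝ, ff (gl κ i) Θ L m2 j m1 (u + Real.log d) * W u := by
    have e1 : ∀ u : ℝ, fo (gl κ i) Θ L 1 j (m1 * m2 ^ 2) u * W u =
        ∑ d ∈ sd (2 * m2), (ArithmeticFunction.moebius d : ℝ) * (rv j m1 d : ℝ) / √(d : ℝ) *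
          (ff (gl κ i) Θ L m2 j m1 (u + Real.log d) * W u) := by
      intro u
      rw [fo_dec hg Θ L j h1 h2 u, Finset.sum_mul]
      exact Finset.sum_congr rfl fun d _ => by ring
    simp only [e1]
    rw [integral_finset_sum]
    · exact Finset.sum_congr rfl fun d _ => integral_const_mul _ _
    · intro d _
      exact ((wt_int hW (hffc.comp (continuous_id.add continuous_const))).1).const_mul _
  rw [hdec]
  refine (sq_sum_le_card_mul_sum_sq (s := sd (2 * m2))).trans ?_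
  rw [mul_comm (4 : ℝ), mul_assoc]
  refine mul_le_mul_of_nonneg_left ?_ (by positivity : (0 : ℝ) ≤ ((sd (2 * m2)).card : ℝ))
  rw [Finset.mul_sum]
  refine Finset.sum_le_sum fun d hd => ?_
  have hd0 : 0 < d := by
    have hd' := (Finset.mem_filter.mp hd).1
    exact Nat.pos_of_mem_divisors hd'
  have hdR : (0 : ℝ) < d := Nat.cast_pos.mpr hd0
  obtain ⟨w, hw, hwe⟩ := ffl_eq (by omega : 2 ≤ m1) hχ i Θ L m2
  have e2 : (∫ u : ℝ, ff (gl κ i) Θ L m2 j m1 (u + Real.log d) * W u) ^ 2 =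
      (∫ u : ℝ, ff (gl κ i) Θ L m2 j m1
        ((-Real.log ((cc j * m1 : ℕ) : ℝ) - Real.log d) - u) * W u) ^ 2 := by
    have e3 : ∀ u : ℝ, ff (gl κ i) Θ L m2 j m1
        ((-Real.log ((cc j * m1 : ℕ) : ℝ) - Real.log d) - u) * W u =
        w * (ff (gl κ i) Θ L m2 j m1 (u + Real.log d) * W u) := by
      intro u
      rw [show (-Real.log ((cc j * m1 : ℕ) : ℝ) - Real.log d) - u =
        -Real.log ((cc j * m1 : ℕ) : ℝ) - (u + Real.log d) by ring, hwe]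
      ring
    simp only [e3]
    rw [integral_const_mul, mul_pow, ← sq_abs w, hw]
    ring
  have e3 := (rsf_m4aw_refl hg hΘ hL m2 j m1 hW
    (-Real.log ((cc j * m1 : ℕ) : ℝ) - Real.log d)).2
  rw [← e2] at e3
  have e4 : (((ArithmeticFunction.moebius d : ℤ) : ℝ) * (rv j m1 d : ℝ) / √(d : ℝ)) ^ 2 ≤
      1 / (d : ℝ) := by
    rw [div_pow, Real.sq_sqrt hdR.le]
    refine div_le_div_of_nonneg_right ?_ hdR.le
    rw [mul_pow]
    have a1 : (((ArithmeticFunction.moebius d : ℤ) : ℝ)) ^ 2 ≤ 1 := by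
      have : |ArithmeticFunction.moebius d| ≤ 1 := ArithmeticFunction.abs_moebius_le_one
      have h' : |((ArithmeticFunction.moebius d : ℤ) : ℝ)| ≤ 1 := by exact_mod_cast this
      rw [← sq_abs]
      exact pow_le_one₀ (abs_nonneg _) h'
    have a2 : ((rv j m1 d : ℝ)) ^ 2 ≤ 1 := by
      rw [← sq_abs]
      exact pow_le_one₀ (abs_nonneg _) (Pool.Agent.RC.rc_der_rv_abs j m1 d)
    calc (((ArithmeticFunction.moebius d : ℤ) : ℝ)) ^ 2 * ((rv j m1 d : ℝ)) ^ 2 ≤ 1 * 1 :=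
          mul_le_mul a1 a2 (sq_nonneg _) (by norm_num)
      _ = 1 := by norm_num
  rw [mul_pow]
  calc (((ArithmeticFunction.moebius d : ℤ) : ℝ) * (rv j m1 d : ℝ) / √(d : ℝ)) ^ 2 *
        (∫ u : ℝ, ff (gl κ i) Θ L m2 j m1 (u + Real.log d) * W u) ^ 2
      ≤ 1 / (d : ℝ) * (∫ u : ℝ, ff (gl κ i) Θ L m2 j m1 (u + Real.log d) * W u) ^ 2 :=
        mul_le_mul_of_nonneg_right e4 (sq_nonneg _)
    _ ≤ 1 / (d : ℝ) * (4 * ∑' a : ℕ, (2 : ℝ) ^ (-(a : ℝ) / 2) *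
        (∫ u : ℝ, fo (gl κ i) Θ L m2 j m1
          ((-Real.log ((cc j * m1 : ℕ) : ℝ) - Real.log d) - u + a * Real.log 2) * W u) ^ 2) :=
        mul_le_mul_of_nonneg_left e3 (by positivity)
    _ = _ := by ring

end Pool.Agent.RSF

namespace Pool.Agent.RSF

alias m4aw_bound := m4aw_bound_pr

end Pool.Agent.RSF
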