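import Pool.Agent.Lib_helper39.RSF.Defs
import Pool.Agent.Lib_helper39.RSF.KG1
import Pool.Agent.Lib_helper39.RSF.PFM
import Pool.Agent.Lib_helper39.RSF.SMO2
import Pool.Agent.Lib_helper39.RSF.AMB2
import Pool.Agent.Lib_helper39.RSF.DSQ
import Pool.Agent.Lib_helper39.RSF.XLIM
import Pool.Agent.Lib_helper39.RSF.XR2
import Pool.Agent.Lib_helper39.RSF.DDE
import Pool.Agent.Lib_helper39.RSF.DFO
import Pool.Agent.Lib_helper39.RSF.DOD
import Pool.Agent.Lib_helper39.RSF.M4B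
import Pool.Agent.Lib_helper39.RSF.FUI
import Pool.Agent.Lib_helper39.RSA.XR6
import Pool.Agent.Lib_helper39.RSA.PRM
import Pool.Agent.Lib_helper39.RSA.SOB
import Pool.Agent.Lib_helper39.RSA.BNS
import Pool.Agent.Lib_helper39.RSA.QLA
import Pool.Agent.Lib_helper39.RSA.QLB
import Pool.Agent.Lib_helper39.RSA.PER
import Pool.Agent.Lib_helper39.RSA.AVE
import Pool.Agent.Lib_helper39.RSA.CUT1
import Pool.Agent.Lib_helper39.RSA.CUT2
import Pool.Agent.Lib_helper24.ABS.Endgame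
import Pool.Agent.Lib_helper39.RSA.RB
import Pool.Agent.Lib_helper39.RSG.KGL
import Pool.Agent.Lib_helper39.RSG.M4CW1
import Pool.Agent.Lib_helper39.RSG.UTW
/-!
# RSF, block M4CW
-/

namespace Pool.Agent.RSF

open Complex MeasureTheory Filter Topology
open Pool.Agent.RC (cc psi rv f0 IsRC Good gm pr DD)
open Pool.Agent.RSE
open scoped ContDiff

/-- The possible values of the square part. -/
noncomputable def rsf_M4CW_S (K : ℝ) : Finset ℕ :=
  (Finset.range (⌈2 * K⌉₊ + 1)).filter (fun m2 => Odd m2 ∧ (m2 : ℝ) ^ 2 < 2 * K)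

theorem rsf_M4CW_dec {c : ℕ} (hc : OC c) {K : ℝ} (_hK : 1 ≤ K) (G : ℕ → ℝ)
    (hG : ∀ n, 0 ≤ G n) :
    ∑ m ∈ blk8 c K, G m ≤
      (∑ m2 ∈ rsf_M4CW_S K, ∑ m1 ∈ (blk8 c (K / (m2 : ℝ) ^ 2)).filter
        (fun m1 => Squarefree m1 ∧ 3 ≤ m1), G (m1 * m2 ^ 2)) +
      ∑ m2 ∈ rsf_M4CW_S K, (if K ≤ (m2 : ℝ) ^ 2 then G (m2 ^ 2) else 0) := by
  have key : ∀ m ∈ blk8 c K, G m ≤
      (∑ m2 ∈ rsf_M4CW_S K, ∑ m1 ∈ (blk8 c (K / (m2 : ℝ) ^ 2)).filter
        (fun m1 => Squarefree m1 ∧ 3 ≤ m1), (if m1 * m2 ^ 2 = m then G m else 0)) +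
      ∑ m2 ∈ rsf_M4CW_S K,
        (if K ≤ (m2 : ℝ) ^ 2 then (if m2 ^ 2 = m then G m else 0) else 0) := by
    intro m hm
    simp only [blk8, Finset.mem_filter, Finset.mem_range] at hm
    obtain ⟨-, hm1, hm2, hm3⟩ := hm
    have hmodd : Odd m := by
      rw [Nat.odd_iff]
      rcases hc with h | h | h | h <;> omega
    obtain ⟨a, b, hab, hsq⟩ := Nat.sq_mul_squarefree m
    have hodd2 : Odd (b ^ 2 * a) := by rw [hab]; exact hmodd
    rw [Nat.odd_mul] at hodd2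
    obtain ⟨hb2, ha⟩ := hodd2
    have hb : Odd b := Nat.Odd.of_mul_right (by rw [sq] at hb2; exact hb2)
    have hb8 : b ^ 2 % 8 = 1 := by
      have h1 : b % 8 = 1 ∨ b % 8 = 3 ∨ b % 8 = 5 ∨ b % 8 = 7 := by
        rw [Nat.odd_iff] at hb
        omega
      rw [Nat.pow_mod]
      rcases h1 with h | h | h | h <;> rw [h]
    have ha8 : a % 8 = c := by
      rw [← hm3, ← hab, Nat.mul_mod, hb8, one_mul, Nat.mod_mod]
    have ha1 : 1 ≤ a := ha.pos
    have hb1 : 1 ≤ b := hb.pos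
    have haR : (1 : ℝ) ≤ a := by exact_mod_cast ha1
    have hbR : (1 : ℝ) ≤ b := by exact_mod_cast hb1
    have hmR : (m : ℝ) = (b : ℝ) ^ 2 * a := by rw [← hab]; push_cast; ring
    have hb2R : (b : ℝ) ^ 2 < 2 * K := by
      calc (b : ℝ) ^ 2 = (b : ℝ) ^ 2 * 1 := by ring
        _ ≤ (b : ℝ) ^ 2 * a := mul_le_mul_of_nonneg_left haR (by positivity)
        _ = m := hmR.symm
        _ < 2 * K := hm2
    have hbS : b ∈ rsf_M4CW_S K := by
      rw [rsf_M4CW_S, Finset.mem_filter, Finset.mem_range]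
      refine ⟨?_, hb, hb2R⟩
      have h1 : (b : ℝ) < (⌈2 * K⌉₊ : ℝ) := by
        calc (b : ℝ) ≤ (b : ℝ) ^ 2 := by nlinarith
          _ < 2 * K := hb2R
          _ ≤ (⌈2 * K⌉₊ : ℝ) := Nat.le_ceil _
      have h2 : b < ⌈2 * K⌉₊ := by exact_mod_cast h1
      omega
    have n1 : ∀ m2 ∈ rsf_M4CW_S K, 0 ≤ ∑ m1 ∈ (blk8 c (K / (m2 : ℝ) ^ 2)).filter
        (fun m1 => Squarefree m1 ∧ 3 ≤ m1), (if m1 * m2 ^ 2 = m then G m else 0) :=
      fun m2 _ => Finset.sum_nonneg fun m1 _ => by split_ifs <;> [exact hG m; exact le_rfl]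
    have n2 : ∀ m2 ∈ rsf_M4CW_S K,
        0 ≤ (if K ≤ (m2 : ℝ) ^ 2 then (if m2 ^ 2 = m then G m else 0) else 0) := by
      intro m2 _
      split_ifs <;> first | exact hG m | exact le_rfl
    by_cases h1 : a = 1
    · subst h1
      have hbm : b ^ 2 = m := by rw [← hab]; ring
      have hKb : K ≤ (b : ℝ) ^ 2 := by
        rw [hmR] at hm1
        simpa using hm1
      have h2 := Finset.single_le_sum n2 hbS
      simp only [hKb, hbm, if_true] at h2
      exact h2.trans (le_add_of_nonneg_left (Finset.sum_nonneg n1))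
    · have h3 : 3 ≤ a := by
        rcases ha with ⟨t, ht⟩
        omega
      have hb20 : (0 : ℝ) < (b : ℝ) ^ 2 := by positivity
      have hlt : (a : ℝ) < 2 * (K / (b : ℝ) ^ 2) := by
        rw [mul_div_assoc', lt_div_iff₀ hb20]
        rw [hmR] at hm2
        linarith
      have hmem : a ∈ (blk8 c (K / (b : ℝ) ^ 2)).filter (fun m1 => Squarefree m1 ∧ 3 ≤ m1) := by
        rw [Finset.mem_filter]
        refine ⟨?_, hsq, h3⟩
        simp only [blk8, Finset.mem_filter, Finset.mem_range]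
        refine ⟨Nat.lt_ceil.2 hlt, ?_, hlt, ha8⟩
        rw [div_le_iff₀ hb20]
        rw [hmR] at hm1
        linarith
      have h2 := Finset.single_le_sum n1 hbS
      have h4 := Finset.single_le_sum (f := fun m1 => if m1 * b ^ 2 = m then G m else 0)
        (s := (blk8 c (K / (b : ℝ) ^ 2)).filter (fun m1 => Squarefree m1 ∧ 3 ≤ m1))
        (fun m1 _ => by
          show (0 : ℝ) ≤ if m1 * b ^ 2 = m then G m else 0
          split_ifs <;> [exact hG m; exact le_rfl]) hmem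
      have hbm : a * b ^ 2 = m := by rw [← hab]; ring
      simp only [hbm, if_true] at h4
      exact (h4.trans h2).trans (le_add_of_nonneg_right (Finset.sum_nonneg n2))
  refine (Finset.sum_le_sum key).trans ?_
  rw [Finset.sum_add_distrib]
  refine add_le_add ?_ ?_
  · rw [Finset.sum_comm]
    refine Finset.sum_le_sum fun m2 _ => ?_
    rw [Finset.sum_comm]
    refine Finset.sum_le_sum fun m1 _ => ?_
    rw [Finset.sum_ite_eq]
    split_ifs
    · exact le_rfl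
    · exact hG _
  · rw [Finset.sum_comm]
    refine Finset.sum_le_sum fun m2 _ => ?_
    by_cases h : K ≤ (m2 : ℝ) ^ 2
    · simp only [h, if_true]
      rw [Finset.sum_ite_eq]
      split_ifs
      · exact le_rfl
      · exact hG _
    · simp only [h, if_false, Finset.sum_const_zero]
      exact le_rfl

theorem rsf_M4CW_sd : ∃ C : ℝ, 0 < C ∧ ∀ m2 : ℕ, Odd m2 →
    ((sd (2 * m2)).card : ℝ) ^ 2 ≤ C * (m2 : ℝ) ^ (1 / 8 : ℝ) := by
  obtain ⟨C, hC, h⟩ := sd_le
  refine ⟨4 * C ^ 2, by positivity, fun m2 h2 => ?_⟩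
  have hp : 0 < m2 := h2.pos
  have hx : (0 : ℝ) < m2 := by exact_mod_cast hp
  have h1 := h (2 * m2) (by omega)
  have h3 : (((2 * m2 : ℕ) : ℝ)) ^ (1 / 16 : ℝ) ≤ 2 * (m2 : ℝ) ^ (1 / 16 : ℝ) := by
    push_cast
    rw [Real.mul_rpow (by norm_num) hx.le]
    refine mul_le_mul_of_nonneg_right ?_ (by positivity)
    calc (2 : ℝ) ^ (1 / 16 : ℝ) ≤ (2 : ℝ) ^ (1 : ℝ) :=
          Real.rpow_le_rpow_of_exponent_le (by norm_num) (by norm_num)
      _ = 2 := Real.rpow_one 2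
  calc ((sd (2 * m2)).card : ℝ) ^ 2 ≤ (C * (2 * (m2 : ℝ) ^ (1 / 16 : ℝ))) ^ 2 := by
        refine pow_le_pow_left₀ (by positivity) (h1.trans ?_) 2
        exact mul_le_mul_of_nonneg_left h3 hC.le
    _ = 4 * C ^ 2 * ((m2 : ℝ) ^ (1 / 16 : ℝ)) ^ 2 := by ring
    _ = 4 * C ^ 2 * (m2 : ℝ) ^ (1 / 8 : ℝ) := by
        rw [← Real.rpow_natCast ((m2 : ℝ) ^ (1 / 16 : ℝ)) 2, ← Real.rpow_mul hx.le]
        norm_num

theorem rsf_M4CW_E1 : ∃ C : ℝ, 0 < C ∧ ∀ m2 : ℕ, Odd m2 →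
    E1 m2 ^ 3 ≤ C * (m2 : ℝ) ^ (3 / 16 : ℝ) := by
  obtain ⟨C, hC, h⟩ := rb_bound
  refine ⟨C ^ 3, by positivity, fun m2 h2 => ?_⟩
  have hp : 0 < m2 := h2.pos
  have hx : (0 : ℝ) < m2 := by exact_mod_cast hp
  have h1 := h m2 hp
  have hE : 1 ≤ E1 m2 := E1_pos m2
  have hprod : (1 : ℝ) ≤ ∏ p ∈ m2.primeFactors, (1 - (p : ℝ) ^ (-(3 / 4) : ℝ))⁻¹ := by
    have : ∏ p ∈ m2.primeFactors, (1 : ℝ) ≤
        ∏ p ∈ m2.primeFactors, (1 - (p : ℝ) ^ (-(3 / 4) : ℝ))⁻¹ := by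
      refine Finset.prod_le_prod (fun _ _ => zero_le_one) fun p hp => ?_
      have hpp := Nat.prime_of_mem_primeFactors hp
      have hp1 : (1 : ℝ) < p := by exact_mod_cast hpp.one_lt
      have h3 : (p : ℝ) ^ (-(3 / 4) : ℝ) < 1 := Real.rpow_lt_one_of_one_lt_of_neg hp1 (by norm_num)
      have h4 : 0 < (p : ℝ) ^ (-(3 / 4) : ℝ) := by positivity
      rw [one_le_inv₀ (by linarith)]
      linarith
    simpa using this
  have h2 : E1 m2 ≤ C * (m2 : ℝ) ^ (1 / 16 : ℝ) := by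
    calc E1 m2 = E1 m2 * 1 := by ring
      _ ≤ E1 m2 * ∏ p ∈ m2.primeFactors, (1 - (p : ℝ) ^ (-(3 / 4) : ℝ))⁻¹ :=
        mul_le_mul_of_nonneg_left hprod (by linarith)
      _ ≤ _ := h1
  calc E1 m2 ^ 3 ≤ (C * (m2 : ℝ) ^ (1 / 16 : ℝ)) ^ 3 :=
        pow_le_pow_left₀ (by linarith) h2 3
    _ = C ^ 3 * ((m2 : ℝ) ^ (1 / 16 : ℝ)) ^ 3 := by ring
    _ = C ^ 3 * (m2 : ℝ) ^ (3 / 16 : ℝ) := by
        rw [← Real.rpow_natCast ((m2 : ℝ) ^ (1 / 16 : ℝ)) 3, ← Real.rpow_mul hx.le]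
        norm_num

/-- M4CW (cites UTW, M4CW1; M4B, RB). -/
theorem m4cw_bound_pr {Θ : ℝ → ℝ} (hΘ : Cut Θ) {κ : ℕ} (hκ : κ ≤ 1) (i : ℕ) : ∃ C : ℝ, 0 < C ∧
    ∀ (j : Fin 4) (c : ℕ) (L K A B : ℝ) (W : ℝ → ℝ), OC c → Par κ j c → 4 ≤ L → 1 ≤ K →
    1900 * L ≤ Real.log K → Real.log K ≤ 4001 * L → Wt W A B → B - A ≤ L →
    ce K - 14 * L ≤ A → B ≤ ce K - 6 * L →
    ∑ m ∈ blk8 c K, (∫ u : ℝ, fo (gl κ i) Θ L 1 j m u * W u) ^ 2 ≤
      C * K / L * ∫ u : ℝ, W u ^ 2 := by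
  have hg : Ker1 (gl κ i) := ker1_gl hκ i
  obtain ⟨C1, hC1, h1⟩ := m4cw1_bound hΘ hκ i
  obtain ⟨C2, hC2, h2⟩ := m4b_bound hg hΘ
  obtain ⟨Cs, hCs, hsd⟩ := rsf_M4CW_sd
  obtain ⟨Ce, hCe, hE⟩ := rsf_M4CW_E1
  have hZs : Summable (fun n : ℕ => (n : ℝ) ^ (-(3 / 2) : ℝ)) :=
    Real.summable_nat_rpow.2 (by norm_num)
  set Z : ℝ := ∑' n : ℕ, (n : ℝ) ^ (-(3 / 2) : ℝ) with hZ
  have hZ0 : 0 ≤ Z := tsum_nonneg fun n => by positivity
  set D1 : ℝ := C1 * (Ce + 1) * Cs with hD1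
  set D2 : ℝ := 4 * C2 ^ 2 * Cs with hD2
  refine ⟨(D1 + D2) * Z + 1, by positivity, ?_⟩
  intro j c L K A B W hc hp hL hK hKL hKU hW hBA hA' hB'
  have hL0 : 0 < L := by linarith
  have hK0 : 0 < K := by linarith
  have hLexp : L ≤ Real.exp L := by
    have := Real.add_one_le_exp L
    linarith
  set I : ℝ := ∫ u : ℝ, W u ^ 2 with hI
  have hI0 : 0 ≤ I := integral_nonneg fun u => sq_nonneg _
  have hl1 : (∫ u : ℝ, |W u|) ^ 2 ≤ L * I :=
    (wt_l1 hW).trans (mul_le_mul_of_nonneg_right hBA hI0)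
  refine (rsf_M4CW_dec hc hK (fun m => (∫ u : ℝ, fo (gl κ i) Θ L 1 j m u * W u) ^ 2)
    fun n => sq_nonneg _).trans ?_
  -- the common bound
  have b1 : ∀ m2 ∈ rsf_M4CW_S K, ∑ m1 ∈ (blk8 c (K / (m2 : ℝ) ^ 2)).filter
      (fun m1 => Squarefree m1 ∧ 3 ≤ m1),
        (∫ u : ℝ, fo (gl κ i) Θ L 1 j (m1 * m2 ^ 2) u * W u) ^ 2 ≤
        D1 * (K / L) * I * (m2 : ℝ) ^ (-(3 / 2) : ℝ) := by
    intro m2 hm2
    rw [rsf_M4CW_S, Finset.mem_filter] at hm2
    obtain ⟨-, hodd, hlt⟩ := hm2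
    have hm2p : 0 < m2 := hodd.pos
    have hx1 : (1 : ℝ) ≤ m2 := by exact_mod_cast hm2p
    have hx0 : (0 : ℝ) < m2 := by linarith
    by_cases hle : (m2 : ℝ) ^ 2 ≤ K
    · obtain ⟨hA, hB⟩ := h1 j c m2 L K A B W hc hp hodd hL hKL hKU hW hBA hA' hB' hle
      have hsd2 := hsd m2 hodd
      by_cases hsm : (m2 : ℝ) ≤ K ^ (1 / 16 : ℝ)
      · refine (hB hsm).trans ?_
        have e0 : C1 * E1 m2 ^ 3 * ((sd (2 * m2)).card : ℝ) ^ 2 * (K / (m2 : ℝ) ^ 2) / L ≤
            D1 * (K / L) * (m2 : ℝ) ^ (-(3 / 2) : ℝ) := by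
          calc C1 * E1 m2 ^ 3 * ((sd (2 * m2)).card : ℝ) ^ 2 * (K / (m2 : ℝ) ^ 2) / L
              ≤ C1 * (Ce * (m2 : ℝ) ^ (3 / 16 : ℝ)) * (Cs * (m2 : ℝ) ^ (1 / 8 : ℝ)) *
                (K / (m2 : ℝ) ^ 2) / L := by
                have hE2 := hE m2 hodd
                have hE0 : 0 ≤ E1 m2 ^ 3 := by
                  have := E1_pos m2
                  positivity
                gcongr
            _ = C1 * Ce * Cs * (K / L) *
                ((m2 : ℝ) ^ (3 / 16 : ℝ) * (m2 : ℝ) ^ (1 / 8 : ℝ) * ((m2 : ℝ) ^ 2)⁻¹) := by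
                field_simp
            _ = C1 * Ce * Cs * (K / L) * (m2 : ℝ) ^ (-(27 / 16) : ℝ) := by
                congr 1
                rw [← Real.rpow_natCast (m2 : ℝ) 2, ← Real.rpow_neg hx0.le, ← Real.rpow_add hx0,
                  ← Real.rpow_add hx0]
                norm_num
            _ ≤ D1 * (K / L) * (m2 : ℝ) ^ (-(3 / 2) : ℝ) := by
                refine mul_le_mul ?_ (Real.rpow_le_rpow_of_exponent_le hx1 (by norm_num))
                  (by positivity) (by positivity)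
                refine mul_le_mul_of_nonneg_right ?_ (by positivity)
                rw [hD1]
                refine mul_le_mul_of_nonneg_right ?_ hCs.le
                nlinarith
        calc _ ≤ D1 * (K / L) * (m2 : ℝ) ^ (-(3 / 2) : ℝ) * I :=
              mul_le_mul_of_nonneg_right e0 hI0
          _ = _ := by ring
      · push Not at hsm
        refine hA.trans ?_
        have hlog : 1 / 16 * Real.log K ≤ Real.log m2 := by
          rw [← Real.log_rpow hK0]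
          exact Real.log_le_log (by positivity) hsm.le
        have hdec : (m2 : ℝ) ^ (-(3 / 8) : ℝ) ≤ Real.exp (-(44 * L)) := by
          rw [Real.rpow_def_of_pos hx0]
          refine Real.exp_le_exp.2 ?_
          linarith
        have hLL : Real.exp (41 * L) * Real.exp (-(44 * L)) ≤ 1 / L := by
          rw [← Real.exp_add, le_div_iff₀ hL0]
          calc Real.exp (41 * L + -(44 * L)) * L
              ≤ Real.exp (41 * L + -(44 * L)) * Real.exp L :=
                mul_le_mul_of_nonneg_left hLexp (by positivity)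
            _ = Real.exp (41 * L + -(44 * L) + L) := by rw [← Real.exp_add]
            _ ≤ Real.exp 0 := Real.exp_le_exp.2 (by linarith)
            _ = 1 := Real.exp_zero
        have e0 : C1 * Real.exp (41 * L) * ((sd (2 * m2)).card : ℝ) ^ 2 * (K / (m2 : ℝ) ^ 2) ≤
            D1 * (K / L) * (m2 : ℝ) ^ (-(3 / 2) : ℝ) := by
          calc C1 * Real.exp (41 * L) * ((sd (2 * m2)).card : ℝ) ^ 2 * (K / (m2 : ℝ) ^ 2)
              ≤ C1 * Real.exp (41 * L) * (Cs * (m2 : ℝ) ^ (1 / 8 : ℝ)) *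
                (K / (m2 : ℝ) ^ 2) := by
                gcongr
            _ = C1 * Cs * K * Real.exp (41 * L) *
                ((m2 : ℝ) ^ (1 / 8 : ℝ) * ((m2 : ℝ) ^ 2)⁻¹) := by
                field_simp
            _ = C1 * Cs * K * Real.exp (41 * L) *
                ((m2 : ℝ) ^ (-(3 / 8) : ℝ) * (m2 : ℝ) ^ (-(3 / 2) : ℝ)) := by
                congr 1
                rw [← Real.rpow_natCast (m2 : ℝ) 2, ← Real.rpow_neg hx0.le, ← Real.rpow_add hx0,
                  ← Real.rpow_add hx0]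
                norm_num
            _ ≤ C1 * Cs * K * Real.exp (41 * L) *
                (Real.exp (-(44 * L)) * (m2 : ℝ) ^ (-(3 / 2) : ℝ)) := by
                gcongr
            _ = C1 * Cs * K * (m2 : ℝ) ^ (-(3 / 2) : ℝ) *
                (Real.exp (41 * L) * Real.exp (-(44 * L))) := by ring
            _ ≤ C1 * Cs * K * (m2 : ℝ) ^ (-(3 / 2) : ℝ) * (1 / L) :=
                mul_le_mul_of_nonneg_left hLL (by positivity)
            _ = C1 * 1 * Cs * (K / L) * (m2 : ℝ) ^ (-(3 / 2) : ℝ) := by ring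
            _ ≤ D1 * (K / L) * (m2 : ℝ) ^ (-(3 / 2) : ℝ) := by
                rw [hD1]
                gcongr
                linarith
        calc _ ≤ D1 * (K / L) * (m2 : ℝ) ^ (-(3 / 2) : ℝ) * I :=
              mul_le_mul_of_nonneg_right e0 hI0
          _ = _ := by ring
    · push Not at hle
      have hempty : (blk8 c (K / (m2 : ℝ) ^ 2)).filter
          (fun m1 => Squarefree m1 ∧ 3 ≤ m1) = ∅ := by
        rw [Finset.filter_eq_empty_iff]
        rintro m1 hm1 ⟨-, h3⟩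
        simp only [blk8, Finset.mem_filter, Finset.mem_range] at hm1
        have h4 : (m1 : ℝ) < 2 * (K / (m2 : ℝ) ^ 2) := hm1.2.2.1
        have h5 : K / (m2 : ℝ) ^ 2 < 1 := (div_lt_one (by positivity)).2 hle
        have h6 : (3 : ℝ) ≤ m1 := by exact_mod_cast h3
        linarith
      rw [hempty, Finset.sum_empty]
      positivity
  have b2 : ∀ m2 ∈ rsf_M4CW_S K,
      (if K ≤ (m2 : ℝ) ^ 2 then (∫ u : ℝ, fo (gl κ i) Θ L 1 j (m2 ^ 2) u * W u) ^ 2 else 0) ≤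
        D2 * (K / L) * I * (m2 : ℝ) ^ (-(3 / 2) : ℝ) := by
    intro m2 hm2
    rw [rsf_M4CW_S, Finset.mem_filter] at hm2
    obtain ⟨-, hodd, hlt⟩ := hm2
    have hm2p : 0 < m2 := hodd.pos
    have hx1 : (1 : ℝ) ≤ m2 := by exact_mod_cast hm2p
    have hx0 : (0 : ℝ) < m2 := by linarith
    split_ifs with hKm
    · have hb : ∀ u ∈ Set.Icc A B, |fo (gl κ i) Θ L 1 j (m2 ^ 2) u| ≤
          C2 * Real.exp (3 * L) * ((sd (2 * m2)).card : ℝ) * Real.exp ((ce K - 6 * L) / 2) := by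
        intro u hu
        refine (h2 j m2 L u hodd (by linarith)).trans ?_
        refine mul_le_mul_of_nonneg_left (Real.exp_le_exp.2 ?_) (by positivity)
        linarith [hu.2]
      have hb2 := wt_sup hW (by positivity) hb
      have hsd2 := hsd m2 hodd
      -- logs
      have hX : Real.log m2 ≤ Real.log 2 / 2 + Real.log K / 2 := by
        have := Real.log_le_log (by positivity) hlt.le
        rw [Real.log_pow, Real.log_mul (by norm_num) hK0.ne'] at this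
        push_cast at this
        linarith
      have hl2 : Real.log 2 < 0.6931471808 := Real.log_two_lt_d9
      have hl20 : 0 < Real.log 2 := Real.log_pos (by norm_num)
      calc (∫ u : ℝ, fo (gl κ i) Θ L 1 j (m2 ^ 2) u * W u) ^ 2
          = |∫ u : ℝ, fo (gl κ i) Θ L 1 j (m2 ^ 2) u * W u| ^ 2 := (sq_abs _).symm
        _ ≤ (C2 * Real.exp (3 * L) * ((sd (2 * m2)).card : ℝ) *
              Real.exp ((ce K - 6 * L) / 2) * ∫ u : ℝ, |W u|) ^ 2 :=
            pow_le_pow_left₀ (abs_nonneg _) hb2 2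
        _ = C2 ^ 2 * ((sd (2 * m2)).card : ℝ) ^ 2 *
              (Real.exp (3 * L) * Real.exp ((ce K - 6 * L) / 2)) ^ 2 *
                (∫ u : ℝ, |W u|) ^ 2 := by ring
        _ = C2 ^ 2 * ((sd (2 * m2)).card : ℝ) ^ 2 *
              Real.exp (ce K) * (∫ u : ℝ, |W u|) ^ 2 := by
            rw [← Real.exp_add, ← Real.exp_nat_mul]
            congr 3
            push_cast
            ring
        _ ≤ C2 ^ 2 * (Cs * (m2 : ℝ) ^ (1 / 8 : ℝ)) * Real.exp (ce K) * (L * I) := by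
            gcongr
        _ = C2 ^ 2 * Cs * (m2 : ℝ) ^ (-(3 / 2) : ℝ) * I *
              ((m2 : ℝ) ^ (13 / 8 : ℝ) * Real.exp (ce K) * L) := by
            have : (m2 : ℝ) ^ (1 / 8 : ℝ) =
                (m2 : ℝ) ^ (-(3 / 2) : ℝ) * (m2 : ℝ) ^ (13 / 8 : ℝ) := by
              rw [← Real.rpow_add hx0]
              norm_num
            rw [this]
            ring
        _ ≤ C2 ^ 2 * Cs * (m2 : ℝ) ^ (-(3 / 2) : ℝ) * I * (4 * (K / L)) := by
            refine mul_le_mul_of_nonneg_left ?_ (by positivity)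
            rw [mul_div_assoc', le_div_iff₀ hL0]
            calc (m2 : ℝ) ^ (13 / 8 : ℝ) * Real.exp (ce K) * L * L
                ≤ (m2 : ℝ) ^ (13 / 8 : ℝ) * Real.exp (ce K) * Real.exp L * Real.exp L := by
                  gcongr
              _ = Real.exp (Real.log m2 * (13 / 8) + ce K + L + L) := by
                  rw [Real.rpow_def_of_pos hx0, ← Real.exp_add, ← Real.exp_add, ← Real.exp_add]
              _ ≤ Real.exp (Real.log 4 + Real.log K) := by
                  refine Real.exp_le_exp.2 ?_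
                  have e4 : Real.log 4 = 2 * Real.log 2 := by
                    rw [show (4 : ℝ) = 2 ^ 2 by norm_num, Real.log_pow]
                    norm_num
                  rw [e4, ce]
                  linarith
              _ = 4 * K := by
                  rw [Real.exp_add, Real.exp_log (by norm_num), Real.exp_log hK0]
        _ = D2 * (K / L) * I * (m2 : ℝ) ^ (-(3 / 2) : ℝ) := by
            rw [hD2]
            ring
    · positivity
  have hsumZ : ∑ m2 ∈ rsf_M4CW_S K, (m2 : ℝ) ^ (-(3 / 2) : ℝ) ≤ Z :=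
    hZs.sum_le_tsum _ fun n _ => by positivity
  calc _ ≤ (∑ m2 ∈ rsf_M4CW_S K, D1 * (K / L) * I * (m2 : ℝ) ^ (-(3 / 2) : ℝ)) +
        ∑ m2 ∈ rsf_M4CW_S K, D2 * (K / L) * I * (m2 : ℝ) ^ (-(3 / 2) : ℝ) :=
        add_le_add (Finset.sum_le_sum b1) (Finset.sum_le_sum b2)
    _ = (D1 + D2) * (K / L) * I * ∑ m2 ∈ rsf_M4CW_S K, (m2 : ℝ) ^ (-(3 / 2) : ℝ) := by
        rw [← Finset.mul_sum, ← Finset.mul_sum]
        ring
    _ ≤ (D1 + D2) * (K / L) * I * Z := mul_le_mul_of_nonneg_left hsumZ (by positivity)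
    _ = ((D1 + D2) * Z) * K / L * I := by ring
    _ ≤ ((D1 + D2) * Z + 1) * K / L * I := by
        gcongr
        linarith

end Pool.Agent.RSF

namespace Pool.Agent.RSF

alias m4cw_bound := m4cw_bound_pr

end Pool.Agent.RSF
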