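import Pool.Agent.Lib_helper39.RSF.Defs
import Pool.Agent.Lib_helper39.RSF.KG1
import Pool.Agent.Lib_helper39.RSF.PFM
import Pool.Agent.Lib_helper39.RSF.SMO2
import Pool.Agent.Lib_helper39.RSF.AMB2
import Pool.Agent.Lib_helper39.RSF.DSQ
import Pool.Agent.Lib_helper39.RSF.XLIM
import Pool.Agent.Lib_helper39.RSF.XR2
import Pool.Agent.Lib_helper39.RSF.DDE
import Pool.Agent.Lib_helper39.RSF.DFO
import Pool.Agent.Lib_helper39.RSF.DOD
import Pool.Agent.Lib_helper39.RSF.M4B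
import Pool.Agent.Lib_helper39.RSF.FUI
import Pool.Agent.Lib_helper39.RSA.XR6
import Pool.Agent.Lib_helper39.RSA.PRM
import Pool.Agent.Lib_helper39.RSA.SOB
import Pool.Agent.Lib_helper39.RSA.BNS
import Pool.Agent.Lib_helper39.RSA.QLA
import Pool.Agent.Lib_helper39.RSA.QLB
import Pool.Agent.Lib_helper39.RSA.PER
import Pool.Agent.Lib_helper39.RSA.AVE
import Pool.Agent.Lib_helper39.RSA.CUT1
import Pool.Agent.Lib_helper39.RSA.CUT2
import Pool.Agent.Lib_helper24.ABS.Endgame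
import Pool.Agent.Lib_helper39.RSG.BIL
import Pool.Agent.Lib_helper39.RSG.DGC
import Pool.Agent.Lib_helper39.RSG.DUW
import Pool.Agent.Lib_helper39.RSG.EFW
import Pool.Agent.Lib_helper39.RSG.KGL
import Pool.Agent.Lib_helper39.RSG.M3W
import Pool.Agent.Lib_helper39.RSG.M4CW
import Pool.Agent.Lib_helper39.RSG.UTW
/-!
# M5W: the smeared mean square near the centre
-/

namespace Pool.Agent.RSF

open Complex MeasureTheory Filter Topology
open Pool.Agent.RC (cc psi rv f0 IsRC Good gm pr DD)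
open Pool.Agent.RSE
open Pool.Agent.ABS (Nice LData Piece oddZ)
open Pool.Agent.SQS (hat)
open scoped ContDiff

theorem rsf_m5w_exp_le {L : ℝ} (hL : 4 ≤ L) {a : ℝ} (ha : 2 ≤ a) :
    L * Real.exp (-(a * L)) ≤ 1 / L := by
  have hL0 : 0 < L := by linarith
  have h11 : Real.exp (-L) ≤ 1 / L := by
    rw [Real.exp_neg, one_div]
    apply inv_anti₀ hL0
    linarith [Real.add_one_le_exp L]
  have h12 : 0 < Real.exp (-L) := Real.exp_pos _
  have h9 : Real.exp (-(a * L)) ≤ Real.exp (-L) * Real.exp (-L) := by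
    rw [← Real.exp_add]
    apply Real.exp_le_exp.2
    nlinarith
  calc L * Real.exp (-(a * L)) ≤ L * (Real.exp (-L) * Real.exp (-L)) :=
        mul_le_mul_of_nonneg_left h9 hL0.le
    _ ≤ L * (1 / L * (1 / L)) := by
        apply mul_le_mul_of_nonneg_left _ hL0.le
        exact mul_le_mul h11 h11 h12.le (by positivity)
    _ = 1 / L := by field_simp

theorem rsf_m5w_E1_one : E1 1 = 1 := by simp [E1]

theorem rsf_m5w_OC_odd {c m : ℕ} (hc : OC c) (hm : m % 8 = c) : 0 < m := by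
  rcases Nat.eq_zero_or_pos m with h | h
  · subst h
    rcases hc with h | h | h | h <;> omega
  · exact h

theorem rsf_m5w_mem_fam {c : ℕ} {K : ℝ} (hK : 0 ≤ K) {m : ℕ} :
    m ∈ fam c K ↔ (m : ℝ) ≤ 4 * K ∧ m % 8 = c := by
  simp only [fam, Finset.mem_filter, Finset.mem_range, Nat.lt_succ_iff]
  rw [Nat.le_floor_iff (by positivity)]

theorem rsf_m5w_mem_blk {c : ℕ} {K : ℝ} {m : ℕ} :
    m ∈ blk8 c K ↔ K ≤ (m : ℝ) ∧ (m : ℝ) < 2 * K ∧ m % 8 = c := by
  simp only [blk8, Finset.mem_filter, Finset.mem_range]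
  constructor
  · rintro ⟨-, h⟩
    exact h
  · rintro ⟨h1, h2, h3⟩
    exact ⟨Nat.lt_ceil.2 h2, h1, h2, h3⟩

theorem rsf_m5w_phi_four {φ : ℝ → ℝ} (hφ : Bump φ) : φ 4 = 0 := by
  have hc : Continuous φ := hφ.smooth.continuous
  have h1 : Tendsto φ (𝓝[>] 4) (𝓝 (φ 4)) := hc.continuousAt.mono_left nhdsWithin_le_nhds
  have h2 : Tendsto φ (𝓝[>] 4) (𝓝 0) := by
    refine tendsto_const_nhds.congr' ?_
    filter_upwards [self_mem_nhdsWithin] with x hx
    exact (hφ.supp x (Or.inr hx)).symm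
  exact tendsto_nhds_unique h1 h2

/-- The weighted sum is bounded by the sum over three dyadic blocks. -/
theorem rsf_m5w_fam_le {φ : ℝ → ℝ} (hφ : Bump φ) {c : ℕ} {K : ℝ} (hK : 0 < K) (f : ℕ → ℝ)
    (hf : ∀ m, 0 ≤ f m) : ∑ m ∈ fam c K, φ (m / K) * f m ≤
      ∑ m ∈ blk8 c (K / 2), f m + ∑ m ∈ blk8 c K, f m + ∑ m ∈ blk8 c (2 * K), f m := by
  classical
  have h1 : ∀ m ∈ fam c K, φ (m / K) * f m ≤
      (if m ∈ blk8 c (K / 2) then f m else 0) + (if m ∈ blk8 c K then f m else 0) +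
        (if m ∈ blk8 c (2 * K) then f m else 0) := by
    intro m hm
    rw [rsf_m5w_mem_fam hK.le] at hm
    have h2 : φ (m / K) * f m ≤ f m := by
      have := hφ.le (m / K)
      nlinarith [hf m]
    have hf1 := hf m
    have g1 : 0 ≤ (if m ∈ blk8 c (K / 2) then f m else 0) := by split_ifs <;> simp [hf1]
    have g2 : 0 ≤ (if m ∈ blk8 c K then f m else 0) := by split_ifs <;> simp [hf1]
    have g3 : 0 ≤ (if m ∈ blk8 c (2 * K) then f m else 0) := by split_ifs <;> simp [hf1]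
    by_cases c1 : (m : ℝ) < K / 2
    · have : φ (m / K) = 0 := by
        apply hφ.supp
        left
        rw [div_lt_iff₀ hK]
        linarith
      rw [this]
      linarith
    push Not at c1
    by_cases c2 : (m : ℝ) < K
    · have : m ∈ blk8 c (K / 2) := rsf_m5w_mem_blk.2 ⟨c1, by linarith, hm.2⟩
      rw [if_pos this]
      linarith
    push Not at c2
    by_cases c3 : (m : ℝ) < 2 * K
    · have : m ∈ blk8 c K := rsf_m5w_mem_blk.2 ⟨c2, c3, hm.2⟩
      rw [if_pos this]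
      linarith
    push Not at c3
    by_cases c4 : (m : ℝ) < 4 * K
    · have : m ∈ blk8 c (2 * K) := rsf_m5w_mem_blk.2 ⟨c3, by linarith, hm.2⟩
      rw [if_pos this]
      linarith
    · have : φ (m / K) = 0 := by
        have e : (m : ℝ) / K = 4 := by
          rw [div_eq_iff hK.ne']
          linarith [hm.1]
        rw [e]
        exact rsf_m5w_phi_four hφ
      rw [this]
      linarith
  refine (Finset.sum_le_sum h1).trans ?_
  rw [Finset.sum_add_distrib, Finset.sum_add_distrib]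
  have h3 : ∀ K' : ℝ, K' ≤ 2 * K → 0 < K' → ∑ m ∈ fam c K, (if m ∈ blk8 c K' then f m else 0) ≤
      ∑ m ∈ blk8 c K', f m := by
    intro K' hK' h0
    rw [← Finset.sum_filter]
    apply Finset.sum_le_sum_of_subset_of_nonneg
    · intro m hm
      exact (Finset.mem_filter.1 hm).2
    · intro m _ _
      exact hf m
  linarith [h3 (K / 2) (by linarith) (by linarith), h3 K (by linarith) hK,
    h3 (2 * K) le_rfl (by linarith)]

theorem rsf_m5w_cont {g : ℝ → ℝ} (hg : Ker1 g) (Θ : ℝ → ℝ) (L : ℝ) (R : ℕ) (j : Fin 4) (m : ℕ) :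
    Continuous (fo g Θ L R j m) :=
  continuous_iff_continuousAt.2 fun u => (fo_deriv hg Θ L R j m u).continuousAt

theorem rsf_m5w_Pf_cont {g : ℝ → ℝ} (hg : Ker1 g) (φ Θ : ℝ → ℝ) (L : ℝ) (R : ℕ) (j : Fin 4)
    (c : ℕ) (K : ℝ) : Continuous (fun p : ℝ × ℝ => Pf φ g Θ L R j c K p.1 p.2) := by
  unfold Pf Ef Df
  refine Continuous.sub ?_ ?_
  · refine continuous_finsetSum _ fun m _ => ?_
    have h1 := rsf_m5w_cont hg Θ L R j m
    exact continuous_const.mul ((h1.comp continuous_fst).mul (h1.comp continuous_snd))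
  · refine continuous_finsetSum _ fun m _ => ?_
    exact continuous_const.mul (dg2_cont hg Θ L R m)

/-- the first step: the block is bounded by the weighted sum -/
theorem rsf_m5w_up {φ : ℝ → ℝ} (hφ : Bump φ) {c : ℕ} {K : ℝ} (hK : 0 < K) (I : ℕ → ℝ) :
    ∑ m ∈ blk8 c K, I m ^ 2 ≤ ∑ m ∈ fam c K, φ (m / K) * (I m * I m) := by
  have h1 : ∑ m ∈ blk8 c K, I m ^ 2 = ∑ m ∈ blk8 c K, φ (m / K) * (I m * I m) := by
    apply Finset.sum_congr rfl
    intro m hm
    rw [rsf_m5w_mem_blk] at hm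
    rw [hφ.one (m / K) (by rw [le_div_iff₀ hK]; linarith [hm.1])
      (by rw [div_le_iff₀ hK]; linarith [hm.2.1])]
    ring
  rw [h1]
  apply Finset.sum_le_sum_of_subset_of_nonneg
  · intro m hm
    rw [rsf_m5w_mem_blk] at hm
    rw [rsf_m5w_mem_fam hK.le]
    exact ⟨by linarith [hm.2.1], hm.2.2⟩
  · intro m _ _
    exact mul_nonneg (hφ.nonneg _) (mul_self_nonneg _)

theorem rsf_m5w_off {F : ℝ → ℝ → ℝ} (hF : Continuous (fun p : ℝ × ℝ => F p.1 p.2)) {W : ℝ → ℝ}
    {A B s T : ℝ} (hW : Wt W A B) (hT : 0 ≤ T)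
    (h : ∀ u ∈ Set.Icc A B, ∀ u' ∈ Set.Icc A B, |F (u + s) (u' - s) - F u u'| ≤ T) :
    bi F W W ≤ bi F (fun u => W (u - s)) (fun u => W (u - -s)) + T * (∫ u : ℝ, |W u|) ^ 2 := by
  have hF2 : Continuous (fun p : ℝ × ℝ => F (p.1 + s) (p.2 + -s)) :=
    hF.comp ((continuous_fst.add continuous_const).prodMk (continuous_snd.add continuous_const))
  have hadd := bi_add (G := fun u u' => F (u + s) (u' + -s)) hW hW hF hF2 1 (-1)
  have hsh := bi_shift F W W s (-s)
  have hdiff : |bi (fun u u' => 1 * F u u' + (-1) * F (u + s) (u' + -s)) W W| ≤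
      T * ((∫ u : ℝ, |W u|) * ∫ u : ℝ, |W u|) := by
    apply bi_bound hW hW hT
    intro u hu u' hu'
    have e0 : 1 * F u u' + (-1) * F (u + s) (u' + -s) = -(F (u + s) (u' - s) - F u u') := by
      rw [← sub_eq_add_neg u']
      ring
    rw [e0, abs_neg]
    exact h u hu u' hu'
  rw [hadd, ← hsh] at hdiff
  have := (le_abs_self _).trans hdiff
  nlinarith

theorem rsf_m5w_tiny {C1 L K A B u u' : ℝ} (hC1 : 0 < C1) (hL : 4 ≤ L) (hK0 : 0 < K)
    (hLK : 2000 * L ≤ Real.log K) (hA : ce K - 3 ≤ A) (hB : B ≤ ce K + 6 * L)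
    (hu : u ∈ Set.Icc A B) (hu' : u' ∈ Set.Icc A B) : C1 * Real.exp (40 * L) *
      (K * (Real.exp (-(u + u')) / K) ^ 5 * (Real.exp (|13 * L| / 2) *
          (Real.exp (u / 4 - u' / 16) + Real.exp (u' / 4 - u / 16))) +
        Real.exp (-(u + u') / 4)) ≤
      C1 * (Real.exp 31 * 2 + Real.exp 2) * K * Real.exp (-(139 * L)) := by
  have hce : ce K = -(1 / 2) * Real.log K := rfl
  have hL0 : 0 < L := by linarith
  obtain ⟨hu1, hu2⟩ := hu
  obtain ⟨hu1', hu2'⟩ := hu'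
  have t1 : (Real.exp (-(u + u')) / K) ^ 5 ≤ Real.exp 30 := by
    have : Real.exp (-(u + u')) / K ≤ Real.exp 6 := by
      rw [div_le_iff₀ hK0]
      have h9 : Real.exp (-(u + u')) ≤ Real.exp 6 * Real.exp (Real.log K) := by
        rw [← Real.exp_add]
        apply Real.exp_le_exp.2
        rw [hce] at hA
        linarith
      rwa [Real.exp_log hK0] at h9
    calc (Real.exp (-(u + u')) / K) ^ 5 ≤ (Real.exp 6) ^ 5 := by
          apply pow_le_pow_left₀ (by positivity) this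
      _ = Real.exp 30 := by rw [← Real.exp_nat_mul]; norm_num
  have t2 : |13 * L| / 2 = 13 / 2 * L := by
    rw [abs_of_nonneg (by linarith)]
    ring
  have t3 : Real.exp (u / 4 - u' / 16) ≤ Real.exp (1 - 186 * L) := by
    apply Real.exp_le_exp.2
    rw [hce] at hA hB
    linarith
  have t3' : Real.exp (u' / 4 - u / 16) ≤ Real.exp (1 - 186 * L) := by
    apply Real.exp_le_exp.2
    rw [hce] at hA hB
    linarith
  have t4 : Real.exp (-(u + u') / 4) ≤ K * Real.exp (2 - 1400 * L) := by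
    have h9 : Real.exp (-(u + u') / 4) ≤ Real.exp (Real.log K) * Real.exp (2 - 1400 * L) := by
      rw [← Real.exp_add]
      apply Real.exp_le_exp.2
      rw [hce] at hA
      linarith
    rwa [Real.exp_log hK0] at h9
  have t5 : K * (Real.exp (-(u + u')) / K) ^ 5 * (Real.exp (|13 * L| / 2) *
        (Real.exp (u / 4 - u' / 16) + Real.exp (u' / 4 - u / 16))) ≤
      K * Real.exp 30 * (Real.exp (13 / 2 * L) * (2 * Real.exp (1 - 186 * L))) := by
    rw [t2]
    apply mul_le_mul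
    · exact mul_le_mul_of_nonneg_left t1 hK0.le
    · apply mul_le_mul_of_nonneg_left _ (Real.exp_pos _).le
      linarith
    · positivity
    · positivity
  have t6 : C1 * Real.exp (40 * L) *
    (K * (Real.exp (-(u + u')) / K) ^ 5 * (Real.exp (|13 * L| / 2) *
        (Real.exp (u / 4 - u' / 16) + Real.exp (u' / 4 - u / 16))) +
      Real.exp (-(u + u') / 4)) ≤ C1 * Real.exp (40 * L) *
      (K * Real.exp 30 * (Real.exp (13 / 2 * L) * (2 * Real.exp (1 - 186 * L))) +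
        K * Real.exp (2 - 1400 * L)) := by
    apply mul_le_mul_of_nonneg_left _ (by positivity)
    linarith
  refine t6.trans ?_
  have e1 : Real.exp (40 * L) * (Real.exp 30 * (Real.exp (13 / 2 * L) *
      Real.exp (1 - 186 * L))) ≤ Real.exp 31 * Real.exp (-(139 * L)) := by
    rw [← Real.exp_add, ← Real.exp_add, ← Real.exp_add, ← Real.exp_add]
    apply Real.exp_le_exp.2
    linarith
  have e2 : Real.exp (40 * L) * Real.exp (2 - 1400 * L) ≤
      Real.exp 2 * Real.exp (-(139 * L)) := by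
    rw [← Real.exp_add, ← Real.exp_add]
    apply Real.exp_le_exp.2
    linarith
  have e3 : C1 * Real.exp (40 * L) *
      (K * Real.exp 30 * (Real.exp (13 / 2 * L) * (2 * Real.exp (1 - 186 * L))) +
        K * Real.exp (2 - 1400 * L)) = C1 * K *
      (2 * (Real.exp (40 * L) * (Real.exp 30 * (Real.exp (13 / 2 * L) *
        Real.exp (1 - 186 * L)))) + Real.exp (40 * L) * Real.exp (2 - 1400 * L)) := by ring
  rw [e3]
  calc C1 * K * (2 * (Real.exp (40 * L) * (Real.exp 30 * (Real.exp (13 / 2 * L) *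
        Real.exp (1 - 186 * L)))) + Real.exp (40 * L) * Real.exp (2 - 1400 * L))
      ≤ C1 * K * (2 * (Real.exp 31 * Real.exp (-(139 * L))) +
        Real.exp 2 * Real.exp (-(139 * L))) := by
        apply mul_le_mul_of_nonneg_left _ (by positivity)
        linarith
    _ = _ := by ring

/-- M5W (cites UTW, DGC, EFW, BIL, DUW, M3W, M4CW; CUT1, PFM). -/
theorem m5w_bound_pr {Θ : ℝ → ℝ} (hΘ : Cut Θ) {κ : ℕ} (hκ : κ ≤ 1) (i : ℕ) : ∃ C : ℝ, 0 < C ∧
    ∀ (j : Fin 4) (c : ℕ) (L K A B : ℝ) (W : ℝ → ℝ), OC c → Par κ j c → 4 ≤ L → 1 ≤ K →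
    2000 * L ≤ Real.log K → Real.log K ≤ 4000 * L → Wt W A B → B - A ≤ L →
    ce K - 3 ≤ A → B ≤ ce K + 6 * L →
    ∑ m ∈ blk8 c K, (∫ u : ℝ, fo (gl κ i) Θ L 1 j m u * W u) ^ 2 ≤
      C * K / L * ∫ u : ℝ, W u ^ 2 := by
  obtain ⟨φ, hφ⟩ := exists_bump
  have hg := ker1_gl hκ i
  obtain ⟨C1, hC1, H1⟩ := pfm_bound hφ hg hΘ
  obtain ⟨C2, hC2, H2⟩ := duw_bound hφ hg hΘ
  obtain ⟨C3, hC3, H3⟩ := m3w_bound hg hΘ
  obtain ⟨C4, hC4, H4⟩ := m4cw_bound hΘ hκ i
  refine ⟨C1 * (Real.exp 31 * 2 + Real.exp 2) + 2 * C2 + (7 / 4) * (C3 + C4), by positivity, ?_⟩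
  intro j c L K A B W hc hp hL hK hLK hLK2 hW hAB hA hB
  have hK0 : 0 < K := by linarith
  have hL0 : 0 < L := by linarith
  have hce : ce K = -(1 / 2) * Real.log K := rfl
  have hAle := hW.le
  set N : ℝ := ∫ u : ℝ, W u ^ 2 with hN
  have hN0 : 0 ≤ N := integral_nonneg fun u => sq_nonneg _
  obtain ⟨hWp, hWp2, -, -⟩ := wt_shift hW (13 * L)
  obtain ⟨hWm, hWm2, -, -⟩ := wt_shift hW (-(13 * L))
  set Wp : ℝ → ℝ := fun u => W (u - 13 * L) with hWpd
  set Wm : ℝ → ℝ := fun u => W (u - -(13 * L)) with hWmd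
  set I : (ℝ → ℝ) → ℕ → ℝ := fun V m => ∫ u : ℝ, fo (gl κ i) Θ L 1 j m u * V u with hI
  -- the first step
  have hS1 := rsf_m5w_up hφ (c := c) hK0 (I W)
  have hE1 := efw_eq (φ := φ) hg Θ L K 1 j c hW hW
  have hE2 := efw_eq (φ := φ) hg Θ L K 1 j c hWp hWm
  -- the diagonal
  have hD1 := H2 c 1 L K A B W hc one_pos (by linarith) hK0 hW hAB
    (by rw [hce] at hA; linarith) (by rw [hce] at hB; linarith)
  have hD2 := H2 c 1 L K (A + 13 * L) (B + 13 * L) Wp hc one_pos (by linarith) hK0 hWp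
    (by linarith) (by rw [hce] at hA; linarith) (by rw [hce] at hB; linarith)
  have hD3 := H2 c 1 L K (A + -(13 * L)) (B + -(13 * L)) Wm hc one_pos (by linarith) hK0 hWm
    (by linarith) (by rw [hce] at hA; linarith) (by rw [hce] at hB; linarith)
  rw [rsf_m5w_E1_one, one_pow, mul_one] at hD1 hD2 hD3
  rw [hWp2] at hD2
  rw [hWm2] at hD3
  have hD4 : -∑ m ∈ fam c K, φ (m / K) * bi (Dg (gl κ i) Θ L 1 m) Wp Wm ≤ C2 * K / L * N := by
    have h1 : -∑ m ∈ fam c K, φ (m / K) * bi (Dg (gl κ i) Θ L 1 m) Wp Wm ≤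
        ∑ m ∈ fam c K, (φ (m / K) * bi (Dg (gl κ i) Θ L 1 m) Wp Wp +
          φ (m / K) * bi (Dg (gl κ i) Θ L 1 m) Wm Wm) / 2 := by
      rw [← Finset.sum_neg_distrib]
      apply Finset.sum_le_sum
      intro m hm
      rw [rsf_m5w_mem_fam hK0.le] at hm
      have h0 := rsf_m5w_OC_odd hc hm.2
      have h1 := hφ.nonneg (m / K)
      have h2 := (neg_le_abs _).trans (bi_cs (Θ := Θ) hg L 1 m h0 hWp hWm)
      have h3 := mul_le_mul_of_nonneg_left h2 h1
      linarith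
    rw [← Finset.sum_div, Finset.sum_add_distrib] at h1
    linarith
  -- the mean squares
  have hlog2 : 0 ≤ Real.log 2 := Real.log_nonneg (by norm_num)
  have hlog2' : Real.log 2 ≤ 0.7 := by linarith [Real.log_two_lt_d9]
  have hck : ∀ K' : ℝ, (K' = K / 2 ∨ K' = K ∨ K' = 2 * K) →
      ∑ m ∈ blk8 c K', I Wp m ^ 2 ≤ C3 * K' / L * N ∧
      ∑ m ∈ blk8 c K', I Wm m ^ 2 ≤ C4 * K' / L * N := by
    intro K' hK'
    have hlK : Real.log K' ≤ Real.log K + 0.7 ∧ Real.log K - 0.7 ≤ Real.log K' ∧ 1 ≤ K' := by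
      have hKbig : 2 ≤ K := by
        by_contra hcon
        push Not at hcon
        have := Real.log_le_sub_one_of_pos hK0
        linarith
      rcases hK' with h | h | h
      · rw [h, Real.log_div hK0.ne' two_ne_zero]
        exact ⟨by linarith, by linarith, by linarith⟩
      · rw [h]
        exact ⟨by linarith, by linarith, hK⟩
      · rw [h, Real.log_mul two_ne_zero hK0.ne']
        exact ⟨by linarith, by linarith, by linarith⟩
    obtain ⟨l1, l2, l3⟩ := hlK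
    have hce' : ce K' = -(1 / 2) * Real.log K' := rfl
    constructor
    · have := H3 j c 1 L K' (A + 13 * L) (B + 13 * L) Wp hc one_pos (by linarith) l3
        (by linarith) hWp (by linarith) (by rw [hce']; rw [hce] at hA; linarith)
        (by rw [hce] at hB; linarith)
      rw [rsf_m5w_E1_one, one_pow, mul_one, hWp2] at this
      exact this
    · have := H4 j c L K' (A + -(13 * L)) (B + -(13 * L)) Wm hc hp hL l3 (by linarith)
        (by linarith) hWm (by linarith) (by rw [hce']; rw [hce] at hA; linarith)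
        (by rw [hce']; rw [hce] at hB; linarith)
      rw [hWm2] at this
      exact this
  obtain ⟨a1, b1⟩ := hck (K / 2) (Or.inl rfl)
  obtain ⟨a2, b2⟩ := hck K (Or.inr (Or.inl rfl))
  obtain ⟨a3, b3⟩ := hck (2 * K) (Or.inr (Or.inr rfl))
  have hEE : ∀ (V : ℝ → ℝ) (D : ℝ), ∑ m ∈ blk8 c (K / 2), I V m ^ 2 ≤ D * (K / 2) / L * N →
      ∑ m ∈ blk8 c K, I V m ^ 2 ≤ D * K / L * N →
      ∑ m ∈ blk8 c (2 * K), I V m ^ 2 ≤ D * (2 * K) / L * N →
      ∑ m ∈ fam c K, φ (m / K) * I V m ^ 2 ≤ (7 / 2) * (D * K / L * N) := by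
    intro V D q1 q2 q3
    have h := rsf_m5w_fam_le hφ (c := c) hK0 (fun m => I V m ^ 2) (fun m => sq_nonneg _)
    refine h.trans ?_
    have e2 : (7 / 2) * (D * K / L * N) = D * (K / 2) / L * N + D * K / L * N +
        D * (2 * K) / L * N := by
      field_simp
      ring
    rw [e2]
    linarith
  have hM1 := hEE Wp C3 a1 a2 a3
  have hM2 := hEE Wm C4 b1 b2 b3
  have hM3 : ∑ m ∈ fam c K, φ (m / K) * (I Wp m * I Wm m) ≤
      (7 / 4) * (C3 * K / L * N) + (7 / 4) * (C4 * K / L * N) := by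
    have h1 : ∑ m ∈ fam c K, φ (m / K) * (I Wp m * I Wm m) ≤
        ∑ m ∈ fam c K, (φ (m / K) * I Wp m ^ 2 + φ (m / K) * I Wm m ^ 2) / 2 := by
      apply Finset.sum_le_sum
      intro m _
      have h1 := hφ.nonneg (m / K)
      have h2 := two_mul_le_add_sq (I Wp m) (I Wm m)
      have h3 := mul_le_mul_of_nonneg_left h2 h1
      nlinarith
    rw [← Finset.sum_div, Finset.sum_add_distrib] at h1
    linarith
  -- the off-diagonal
  set T : ℝ := C1 * (Real.exp 31 * 2 + Real.exp 2) * K * Real.exp (-(139 * L)) with hT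
  have hT0 : 0 ≤ T := by positivity
  have hoff := rsf_m5w_off (rsf_m5w_Pf_cont hg φ Θ L 1 j c K) (s := 13 * L) hW hT0
    (fun u hu u' hu' => ((H1 j c 1 L K u u' hc (by linarith) hK0).2 (13 * L)).trans
      (rsf_m5w_tiny hC1 hL hK0 hLK hA hB hu hu'))
  have hl1 := wt_l1 hW
  have hTb : T * (∫ u : ℝ, |W u|) ^ 2 ≤
      C1 * (Real.exp 31 * 2 + Real.exp 2) * K / L * N := by
    have x1 := rsf_m5w_exp_le hL (a := 139) (by norm_num)
    calc T * (∫ u : ℝ, |W u|) ^ 2
        ≤ T * (L * N) := by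
          apply mul_le_mul_of_nonneg_left _ hT0
          exact hl1.trans (mul_le_mul_of_nonneg_right hAB hN0)
      _ = C1 * (Real.exp 31 * 2 + Real.exp 2) * K * (L * Real.exp (-(139 * L))) * N := by
          rw [hT]; ring
      _ ≤ C1 * (Real.exp 31 * 2 + Real.exp 2) * K * (1 / L) * N := by
          apply mul_le_mul_of_nonneg_right _ hN0
          exact mul_le_mul_of_nonneg_left x1 (by positivity)
      _ = _ := by ring
  have hfin : (C1 * (Real.exp 31 * 2 + Real.exp 2) + 2 * C2 + (7 / 4) * (C3 + C4)) * K / L * N =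
      C1 * (Real.exp 31 * 2 + Real.exp 2) * K / L * N + 2 * (C2 * K / L * N) +
        (7 / 4) * (C3 * K / L * N) + (7 / 4) * (C4 * K / L * N) := by ring
  rw [hfin]
  have hS2 : ∑ m ∈ fam c K, φ (m / K) * (I W m * I W m) =
      (∑ m ∈ fam c K, φ (m / K) * bi (Dg (gl κ i) Θ L 1 m) W W) +
      bi (Pf φ (gl κ i) Θ L 1 j c K) W W := hE1
  have hS3 : ∑ m ∈ fam c K, φ (m / K) * (I Wp m * I Wm m) =
      (∑ m ∈ fam c K, φ (m / K) * bi (Dg (gl κ i) Θ L 1 m) Wp Wm) +
      bi (Pf φ (gl κ i) Θ L 1 j c K) Wp Wm := hE2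
  have hgoal : ∑ m ∈ blk8 c K, (∫ u : ℝ, fo (gl κ i) Θ L 1 j m u * W u) ^ 2 =
      ∑ m ∈ blk8 c K, I W m ^ 2 := rfl
  rw [hgoal]
  linarith

end Pool.Agent.RSF

namespace Pool.Agent.RSF

alias m5w_bound := m5w_bound_pr

end Pool.Agent.RSF
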