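import Pool.Agent.Lib_helper39.RSF.Defs
import Pool.Agent.Lib_helper39.RSF.KG1
import Pool.Agent.Lib_helper39.RSF.PFM
import Pool.Agent.Lib_helper39.RSF.SMO2
import Pool.Agent.Lib_helper39.RSF.AMB2
import Pool.Agent.Lib_helper39.RSF.DSQ
import Pool.Agent.Lib_helper39.RSF.XLIM
import Pool.Agent.Lib_helper39.RSF.XR2
import Pool.Agent.Lib_helper39.RSF.DDE
import Pool.Agent.Lib_helper39.RSF.DFO
import Pool.Agent.Lib_helper39.RSF.DOD
import Pool.Agent.Lib_helper39.RSF.M4B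
import Pool.Agent.Lib_helper39.RSF.FUI
import Pool.Agent.Lib_helper39.RSA.XR6
import Pool.Agent.Lib_helper39.RSA.PRM
import Pool.Agent.Lib_helper39.RSA.SOB
import Pool.Agent.Lib_helper39.RSA.BNS
import Pool.Agent.Lib_helper39.RSA.QLA
import Pool.Agent.Lib_helper39.RSA.QLB
import Pool.Agent.Lib_helper39.RSA.PER
import Pool.Agent.Lib_helper39.RSA.AVE
import Pool.Agent.Lib_helper39.RSA.CUT1
import Pool.Agent.Lib_helper39.RSA.CUT2
import Pool.Agent.Lib_helper24.ABS.Endgame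
import Pool.Agent.Lib_helper39.RSG.CRL
import Pool.Agent.Lib_helper39.RSG.FFW
import Pool.Agent.Lib_helper39.RSG.KGL
import Pool.Agent.Lib_helper39.RSG.M3W
import Pool.Agent.Lib_helper39.RSG.M5W
import Pool.Agent.Lib_helper39.RSG.UTW
/-!
# FUW
-/

namespace Pool.Agent.RSF

open Complex MeasureTheory Filter Topology
open Pool.Agent.RC (cc psi rv f0 IsRC Good gm pr DD)
open Pool.Agent.RSE
open Pool.Agent.ABS (Nice LData Piece oddZ)
open Pool.Agent.SQS (hat)
open scoped ContDiff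

theorem rsf_fuw_cont {g : ℝ → ℝ} (hg : Ker1 g) (Θ : ℝ → ℝ) (L : ℝ) (R : ℕ) (j : Fin 4) (m : ℕ) :
    Continuous (fo g Θ L R j m) :=
  continuous_iff_continuousAt.2 fun u => (fo_deriv hg Θ L R j m u).continuousAt

/-- FUW (cites UTW, FFW, CRL, M3W, M5W). -/
theorem fuw_bound_pr {Θ : ℝ → ℝ} (hΘ : Cut Θ) {κ : ℕ} (hκ : κ ≤ 1) (i : ℕ) : ∃ C : ℝ, 0 < C ∧
    ∀ (j : Fin 4) (c : ℕ) (L K A B : ℝ) (W : ℝ → ℝ), OC c → Par κ j c → 4 ≤ L → 1 ≤ K →
    2000 * L ≤ Real.log K → Real.log K ≤ 4000 * L → Wt W A B → B - A ≤ L →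
    ce K - 3 ≤ A → B ≤ -(300 * L) →
    ∑ m ∈ blk8 c K, (∫ u : ℝ, ff (gl κ i) Θ L 1 j m u * W u) ^ 2 ≤
      C * K / L * ∫ u : ℝ, W u ^ 2 := by
  have hg := ker1_gl hκ i
  obtain ⟨C3, hC3, H3⟩ := m3w_bound hg hΘ
  obtain ⟨C5, hC5, H5⟩ := m5w_bound hΘ hκ i
  obtain ⟨C6, hC6, H6⟩ := crl_bound hg hΘ
  set q : ℝ := (2 : ℝ) ^ (-(1 / 20) : ℝ) with hq
  set p : ℝ := (2 : ℝ) ^ (-(9 / 20) : ℝ) with hp
  have hq0 : 0 < q := by positivity
  have hq1 : q < 1 := by
    rw [hq]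
    apply Real.rpow_lt_one_of_one_lt_of_neg <;> norm_num
  have hp0 : 0 < p := by positivity
  have hp1 : p ≤ 1 := by
    rw [hp]
    apply Real.rpow_le_one_of_one_le_of_nonpos <;> norm_num
  have hgeo : Summable (fun a : ℕ => q ^ a) := summable_geometric_of_lt_one hq0.le hq1
  have hqa : ∀ a : ℕ, (2 : ℝ) ^ (-(a : ℝ) / 2) = q ^ a * p ^ a := by
    intro a
    rw [hq, hp, ← Real.rpow_natCast, ← Real.rpow_natCast, ← Real.rpow_mul (by norm_num),
      ← Real.rpow_mul (by norm_num), ← Real.rpow_add (by norm_num)]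
    congr 1
    ring
  have hpe : ∀ a : ℕ, p ^ a = Real.exp (-(9 / 20 * (a * Real.log 2))) := by
    intro a
    rw [hp, ← Real.rpow_natCast, ← Real.rpow_mul (by norm_num), Real.rpow_def_of_pos (by norm_num)]
    congr 1
    ring
  have hE1 : E1 1 = 1 := by simp [E1]
  refine ⟨4 * ((C3 + C5 + C6) * (1 - q)⁻¹), by
    have : 0 < (1 - q)⁻¹ := inv_pos.2 (by linarith)
    positivity, ?_⟩
  intro j c L K A B W hc hpar hL hK hLK hLK2 hW hAB hA hB
  have hK0 : 0 < K := by linarith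
  have hL0 : 0 < L := by linarith
  set N : ℝ := ∫ u : ℝ, W u ^ 2 with hN
  have hN0 : 0 ≤ N := integral_nonneg fun u => sq_nonneg _
  -- the sums for each `a`
  have hS : ∀ a : ℕ, (2 : ℝ) ^ (-(a : ℝ) / 2) *
      ∑ m ∈ blk8 c K, (∫ u : ℝ, fo (gl κ i) Θ L 1 j m (u + a * Real.log 2) * W u) ^ 2 ≤
        q ^ a * ((C3 + C5 + C6) * K / L * N) := by
    intro a
    have ha0 : 0 ≤ (a : ℝ) * Real.log 2 := by
      have := Real.log_nonneg (show (1 : ℝ) ≤ 2 by norm_num)
      positivity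
    have hpa1 : p ^ a ≤ 1 := pow_le_one₀ hp0.le hp1
    have hpa0 : 0 < p ^ a := pow_pos hp0 a
    have hqa0 : 0 < q ^ a := pow_pos hq0 a
    obtain ⟨hW', hW2, hW1, hWs⟩ := wt_shift hW (a * Real.log 2)
    have hsh : ∀ m, ∫ u : ℝ, fo (gl κ i) Θ L 1 j m (u + a * Real.log 2) * W u =
        ∫ u : ℝ, fo (gl κ i) Θ L 1 j m u * W (u - a * Real.log 2) := fun m =>
      (hWs (fo (gl κ i) Θ L 1 j m)).symm
    simp only [hsh]
    have hsplit : (C3 + C5 + C6) * K / L * N = C3 * K / L * N + C5 * K / L * N + C6 * K / L * N := by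
      ring
    have hp3 : 0 ≤ C3 * K / L * N := by positivity
    have hp5 : 0 ≤ C5 * K / L * N := by positivity
    have hp6 : 0 ≤ C6 * K / L * N := by positivity
    have hsimple : ∑ m ∈ blk8 c K,
        (∫ u : ℝ, fo (gl κ i) Θ L 1 j m u * W (u - a * Real.log 2)) ^ 2 ≤
        (C3 + C5 + C6) * K / L * N → (2 : ℝ) ^ (-(a : ℝ) / 2) *
      ∑ m ∈ blk8 c K, (∫ u : ℝ, fo (gl κ i) Θ L 1 j m u * W (u - a * Real.log 2)) ^ 2 ≤
        q ^ a * ((C3 + C5 + C6) * K / L * N) := by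
      intro h
      rw [hqa]
      have h0 : 0 ≤ ∑ m ∈ blk8 c K,
          (∫ u : ℝ, fo (gl κ i) Θ L 1 j m u * W (u - a * Real.log 2)) ^ 2 :=
        Finset.sum_nonneg fun m _ => sq_nonneg _
      calc q ^ a * p ^ a * ∑ m ∈ blk8 c K,
            (∫ u : ℝ, fo (gl κ i) Θ L 1 j m u * W (u - a * Real.log 2)) ^ 2
          ≤ q ^ a * 1 * ∑ m ∈ blk8 c K,
            (∫ u : ℝ, fo (gl κ i) Θ L 1 j m u * W (u - a * Real.log 2)) ^ 2 := by
            apply mul_le_mul_of_nonneg_right _ h0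
            exact mul_le_mul_of_nonneg_left hpa1 hqa0.le
        _ ≤ q ^ a * ((C3 + C5 + C6) * K / L * N) := by
            rw [mul_one]
            exact mul_le_mul_of_nonneg_left h hqa0.le
    by_cases c1 : A + a * Real.log 2 < ce K + 5 * L
    · apply hsimple
      have := H5 j c L K (A + a * Real.log 2) (B + a * Real.log 2)
        (fun u => W (u - a * Real.log 2)) hc hpar hL hK hLK hLK2 hW' (by linarith) (by linarith)
        (by linarith)
      rw [hW2] at this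
      rw [hsplit]
      linarith
    push Not at c1
    by_cases c2 : B + a * Real.log 2 ≤ -(200 * L)
    · apply hsimple
      have := H3 j c 1 L K (A + a * Real.log 2) (B + a * Real.log 2)
        (fun u => W (u - a * Real.log 2)) hc one_pos (by linarith) hK (by linarith) hW'
        (by linarith) c1 c2
      rw [hE1, one_pow, mul_one, hW2] at this
      rw [hsplit]
      linarith
    push Not at c2
    have h6 := wt_fam (B := C6 * Real.exp (40 * L) * K) hW' (blk8 c K)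
      (fun m => fo (gl κ i) Θ L 1 j m) (fun m _ => rsf_fuw_cont hg Θ L 1 j m) (fun u hu =>
        H6 j c 1 L K u hc (by linarith) hK (by linarith) (c1.trans hu.1))
    have h6b := wt_l1 hW'
    rw [hW2] at h6b
    have h7 : p ^ a * (C6 * Real.exp (40 * L) * K * (L * N)) ≤ C6 * K / L * N := by
      rw [hpe]
      have h8 : Real.exp (-(9 / 20 * (a * Real.log 2))) * Real.exp (40 * L) * L ≤ 1 / L := by
        rw [← Real.exp_add]
        have h9 : -(9 / 20 * (a * Real.log 2)) + 40 * L ≤ -(2 * L) := by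
          linarith
        have h10 : Real.exp (-(2 * L)) = Real.exp (-L) * Real.exp (-L) := by
          rw [← Real.exp_add]
          congr 1
          ring
        have h11 : Real.exp (-L) ≤ 1 / L := by
          rw [Real.exp_neg, one_div]
          apply inv_anti₀ hL0
          linarith [Real.add_one_le_exp L]
        have h12 : 0 < Real.exp (-L) := Real.exp_pos _
        calc Real.exp (-(9 / 20 * (a * Real.log 2)) + 40 * L) * L
            ≤ (Real.exp (-L) * Real.exp (-L)) * L := by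
              apply mul_le_mul_of_nonneg_right _ hL0.le
              rw [← h10]
              exact Real.exp_le_exp.2 h9
          _ ≤ (1 / L * (1 / L)) * L := by
              apply mul_le_mul_of_nonneg_right _ hL0.le
              exact mul_le_mul h11 h11 h12.le (by positivity)
          _ = 1 / L := by field_simp
      calc Real.exp (-(9 / 20 * (a * Real.log 2))) * (C6 * Real.exp (40 * L) * K * (L * N))
          = C6 * K * (Real.exp (-(9 / 20 * (a * Real.log 2))) * Real.exp (40 * L) * L) * N := by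
            ring
        _ ≤ C6 * K * (1 / L) * N :=
            mul_le_mul_of_nonneg_right (mul_le_mul_of_nonneg_left h8 (by positivity)) hN0
        _ = C6 * K / L * N := by ring
    rw [hqa, mul_assoc]
    apply mul_le_mul_of_nonneg_left _ hqa0.le
    rw [hsplit]
    have h13 : ∑ m ∈ blk8 c K,
        (∫ u : ℝ, fo (gl κ i) Θ L 1 j m u * W (u - a * Real.log 2)) ^ 2 ≤
        C6 * Real.exp (40 * L) * K * (L * N) := by
      refine h6.trans (mul_le_mul_of_nonneg_left ?_ (by positivity))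
      refine h6b.trans (mul_le_mul_of_nonneg_right ?_ hN0)
      linarith
    have := mul_le_mul_of_nonneg_left h13 hpa0.le
    linarith
  -- sum over `m`
  have hsum : ∀ m ∈ blk8 c K, Summable (fun a : ℕ => (2 : ℝ) ^ (-(a : ℝ) / 2) *
      (∫ u : ℝ, fo (gl κ i) Θ L 1 j m (u + a * Real.log 2) * W u) ^ 2) := fun m _ =>
    (ffw_le hg hΘ (by linarith) 1 j m hW).1
  have h1 : ∑ m ∈ blk8 c K, (∫ u : ℝ, ff (gl κ i) Θ L 1 j m u * W u) ^ 2 ≤
      ∑ m ∈ blk8 c K, 4 * ∑' a : ℕ, (2 : ℝ) ^ (-(a : ℝ) / 2) *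
        (∫ u : ℝ, fo (gl κ i) Θ L 1 j m (u + a * Real.log 2) * W u) ^ 2 :=
    Finset.sum_le_sum fun m _ => (ffw_le hg hΘ (by linarith) 1 j m hW).2
  rw [← Finset.mul_sum, ← Summable.tsum_finsetSum hsum] at h1
  refine h1.trans ?_
  have hexch : (fun a : ℕ => ∑ m ∈ blk8 c K, (2 : ℝ) ^ (-(a : ℝ) / 2) *
      (∫ u : ℝ, fo (gl κ i) Θ L 1 j m (u + a * Real.log 2) * W u) ^ 2) =
      fun a : ℕ => (2 : ℝ) ^ (-(a : ℝ) / 2) *
      ∑ m ∈ blk8 c K, (∫ u : ℝ, fo (gl κ i) Θ L 1 j m (u + a * Real.log 2) * W u) ^ 2 := by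
    funext a
    rw [Finset.mul_sum]
  rw [hexch]
  have hs2 : Summable (fun a : ℕ => q ^ a * ((C3 + C5 + C6) * K / L * N)) := hgeo.mul_right _
  have hs1 : Summable (fun a : ℕ => (2 : ℝ) ^ (-(a : ℝ) / 2) *
      ∑ m ∈ blk8 c K, (∫ u : ℝ, fo (gl κ i) Θ L 1 j m (u + a * Real.log 2) * W u) ^ 2) := by
    rw [← hexch]
    exact summable_sum hsum
  have h2 := Summable.tsum_le_tsum hS hs1 hs2
  rw [tsum_mul_right, tsum_geometric_of_lt_one hq0.le hq1] at h2
  calc 4 * ∑' a : ℕ, (2 : ℝ) ^ (-(a : ℝ) / 2) *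
      ∑ m ∈ blk8 c K, (∫ u : ℝ, fo (gl κ i) Θ L 1 j m (u + a * Real.log 2) * W u) ^ 2
      ≤ 4 * ((1 - q)⁻¹ * ((C3 + C5 + C6) * K / L * N)) := by linarith
    _ = 4 * ((C3 + C5 + C6) * (1 - q)⁻¹) * K / L * N := by ring

end Pool.Agent.RSF

namespace Pool.Agent.RSF

alias fuw_bound := fuw_bound_pr

end Pool.Agent.RSF
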