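import Pool.Agent.Lib_helper39.RSF.Defs
import Pool.Agent.Lib_helper39.RSF.KG1
import Pool.Agent.Lib_helper39.RSF.PFM
import Pool.Agent.Lib_helper39.RSF.SMO2
import Pool.Agent.Lib_helper39.RSF.AMB2
import Pool.Agent.Lib_helper39.RSF.DSQ
import Pool.Agent.Lib_helper39.RSF.XLIM
import Pool.Agent.Lib_helper39.RSF.XR2
import Pool.Agent.Lib_helper39.RSF.DDE
import Pool.Agent.Lib_helper39.RSF.DFO
import Pool.Agent.Lib_helper39.RSF.DOD
import Pool.Agent.Lib_helper39.RSF.M4B
import Pool.Agent.Lib_helper39.RSF.FUI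
import Pool.Agent.Lib_helper39.RSA.XR6
import Pool.Agent.Lib_helper39.RSA.PRM
import Pool.Agent.Lib_helper39.RSA.SOB
import Pool.Agent.Lib_helper39.RSA.BNS
import Pool.Agent.Lib_helper39.RSA.QLA
import Pool.Agent.Lib_helper39.RSA.QLB
import Pool.Agent.Lib_helper39.RSA.PER
import Pool.Agent.Lib_helper39.RSA.AVE
import Pool.Agent.Lib_helper39.RSA.CUT1
import Pool.Agent.Lib_helper39.RSA.CUT2
import Pool.Agent.Lib_helper24.ABS.Endgame
import Pool.Agent.Lib_helper39.RSG.FUW
import Pool.Agent.Lib_helper39.RSG.KGL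
import Pool.Agent.Lib_helper39.RSG.UTW
/-!
# FVW
-/

namespace Pool.Agent.RSF

open Complex MeasureTheory Filter Topology
open Pool.Agent.RC (cc psi rv f0 IsRC Good gm pr DD)
open Pool.Agent.RSE
open Pool.Agent.ABS (Nice LData Piece oddZ)
open Pool.Agent.SQS (hat)
open scoped ContDiff

theorem rsf_fvw_cc (j : Fin 4) : 0 < cc j ∧ cc j ≤ 8 := by
  fin_cases j <;> simp [cc]

theorem rsf_fvw_mem_blk {c : ℕ} {K : ℝ} {m : ℕ} (hm : m ∈ blk8 c K) :
    K ≤ (m : ℝ) ∧ (m : ℝ) < 2 * K := by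
  simp only [blk8, Finset.mem_filter, Finset.mem_range] at hm
  exact ⟨hm.2.1, hm.2.2.1⟩

/-- smearing and differentiation -/
theorem rsf_fvw_deriv {f f' : ℝ → ℝ} (hf : ∀ x, HasDerivAt f (f' x) x) (hc : Continuous f')
    {W : ℝ → ℝ} {a b : ℝ} (hW : Wt W a b) (t y : ℝ) :
    HasDerivAt (fun y => ∫ v : ℝ, f (v + (t - y)) * W v)
      (∫ v : ℝ, -f' (v + (t - y)) * W v) y := by
  have hfc : Continuous f := continuous_iff_continuousAt.2 fun x => (hf x).continuousAt
  obtain ⟨B, hB⟩ := hW.bdd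
  have hB0 : 0 ≤ B := (abs_nonneg _).trans (hB 0)
  obtain ⟨M, hM⟩ := (isCompact_Icc (a := a + (t - (y + 1))) (b := b + (t - (y - 1)))).exists_bound_of_continuousOn
    hc.continuousOn
  have hbi : Integrable (fun v => (Set.Icc a b).indicator (fun _ => M * B) v) := by
    rw [integrable_indicator_iff measurableSet_Icc]
    exact integrableOn_const (by simp)
  refine (hasDerivAt_integral_of_dominated_loc_of_deriv_le (μ := volume)
    (F := fun y v => f (v + (t - y)) * W v) (F' := fun y v => -f' (v + (t - y)) * W v)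
    (bound := (Set.Icc a b).indicator (fun _ => M * B))
    (Metric.ball_mem_nhds y one_pos) ?_ ?_ ?_ ?_ hbi ?_).2
  · refine Eventually.of_forall fun z => ?_
    exact ((hfc.comp (continuous_id.add continuous_const)).measurable.mul
      hW.meas).aestronglyMeasurable
  · exact (wt_int hW (hfc.comp (continuous_id.add continuous_const))).1
  · exact ((hc.comp (continuous_id.add continuous_const)).neg.measurable.mul
      hW.meas).aestronglyMeasurable
  · refine Eventually.of_forall fun v z hz => ?_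
    rw [Metric.mem_ball, Real.dist_eq, abs_lt] at hz
    by_cases hv : v ∈ Set.Icc a b
    · rw [Set.indicator_of_mem hv, norm_mul, norm_neg, Real.norm_eq_abs (W v)]
      have h1 := hM (v + (t - z)) ⟨by linarith [hv.1, hz.2], by linarith [hv.2, hz.1]⟩
      exact mul_le_mul h1 (hB v) (abs_nonneg _) ((norm_nonneg _).trans h1)
    · rw [hW.supp v hv, mul_zero, norm_zero, Set.indicator_of_notMem hv]
  · refine Eventually.of_forall fun v z _ => ?_
    have h1 : HasDerivAt (fun z : ℝ => v + (t - z)) (-1) z := by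
      have := ((hasDerivAt_id z).const_sub t).const_add v
      simpa using this
    have h2 := (hf (v + (t - z))).comp z h1
    have h3 := h2.mul_const (W v)
    have e : f' (v + (t - z)) * -1 * W v = -f' (v + (t - z)) * W v := by ring
    rw [e] at h3
    exact h3

/-- FVW (cites UTW, KGL, FUW; SOB, SMO2). -/
theorem fvw_bound_pr {Θ : ℝ → ℝ} (hΘ : Cut Θ) {κ : ℕ} (hκ : κ ≤ 1) (i : ℕ) : ∃ C : ℝ, 0 < C ∧
    ∀ (j : Fin 4) (c : ℕ) (L K : ℝ) (W : ℝ → ℝ), OC c → Par κ j c → 4 ≤ L → 1 ≤ K →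
    2000 * L ≤ Real.log K → Real.log K ≤ 4000 * L → Wt W 0 L →
    ∑ m ∈ blk8 c K, (∫ v : ℝ,
      ff (gl κ i) Θ L 1 j m (v - Real.log ((cc j * m : ℕ) : ℝ) / 2) * W v) ^ 2 ≤
      C * K / L * ∫ v : ℝ, W v ^ 2 := by
  have hg := ker1_gl hκ i
  have hg' := ker1_gl hκ (i + 1)
  have hg'' := ker1_gl hκ (i + 2)
  obtain ⟨C1, hC1, H1⟩ := fuw_bound hΘ hκ i
  obtain ⟨C1', hC1', H1'⟩ := fuw_bound hΘ hκ (i + 1)
  have hder : ∀ (L : ℝ) (j : Fin 4) (m : ℕ) (x : ℝ), HasDerivAt (ff (gl κ i) Θ L 1 j m)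
      (ff (gl κ (i + 1)) Θ L 1 j m x) x := by
    intro L j m x
    have := ff_deriv hg Θ L 1 j m x
    rwa [gl_deriv hκ i] at this
  have hder' : ∀ (L : ℝ) (j : Fin 4) (m : ℕ) (x : ℝ), HasDerivAt (ff (gl κ (i + 1)) Θ L 1 j m)
      (ff (gl κ (i + 2)) Θ L 1 j m x) x := by
    intro L j m x
    have := ff_deriv hg' Θ L 1 j m x
    rwa [gl_deriv hκ (i + 1)] at this
  have hcont : ∀ (L : ℝ) (j : Fin 4) (m : ℕ), Continuous (ff (gl κ i) Θ L 1 j m) := by
    intro L j m
    rw [continuous_iff_continuousAt]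
    exact fun x => (ff_deriv hg Θ L 1 j m x).continuousAt
  have hcont' : ∀ (L : ℝ) (j : Fin 4) (m : ℕ), Continuous (ff (gl κ (i + 1)) Θ L 1 j m) := by
    intro L j m
    rw [continuous_iff_continuousAt]
    exact fun x => (ff_deriv hg' Θ L 1 j m x).continuousAt
  have hcont'' : ∀ (L : ℝ) (j : Fin 4) (m : ℕ), Continuous (ff (gl κ (i + 2)) Θ L 1 j m) := by
    intro L j m
    rw [continuous_iff_continuousAt]
    exact fun x => (ff_deriv hg'' Θ L 1 j m x).continuousAt
  refine ⟨2 * (C1 + C1'), by positivity, ?_⟩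
  intro j c L K W hc hp hL hK hLK hLK2 hW
  have hK0 : 0 < K := by linarith
  have hL0 : 0 < L := by linarith
  have hce : ce K = -(1 / 2) * Real.log K := rfl
  obtain ⟨hcc1, hcc2⟩ := rsf_fvw_cc j
  have hl0 : 0 < Real.log 2 := Real.log_pos (by norm_num)
  have hl1 : Real.log 2 ≤ 0.7 := by linarith [Real.log_two_lt_d9]
  have hccl : Real.log (cc j : ℝ) ≤ 3 * Real.log 2 := by
    have h8 : Real.log (8 : ℝ) = 3 * Real.log 2 := by
      rw [show (8 : ℝ) = 2 ^ 3 by norm_num, Real.log_pow]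
      norm_num
    rw [← h8]
    apply Real.log_le_log (by exact_mod_cast hcc1)
    exact_mod_cast hcc2
  have hccl0 : 0 ≤ Real.log (cc j : ℝ) := Real.log_nonneg (by exact_mod_cast hcc1)
  have hlogm : ∀ m ∈ blk8 c K, Real.log ((cc j * m : ℕ) : ℝ) = Real.log (cc j : ℝ) + Real.log m ∧
      Real.log K ≤ Real.log m ∧ Real.log m ≤ Real.log 2 + Real.log K := by
    intro m hm
    obtain ⟨h1, h2⟩ := rsf_fvw_mem_blk hm
    have hm0 : (0 : ℝ) < m := by linarith
    refine ⟨?_, Real.log_le_log hK0 h1, ?_⟩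
    · push_cast
      rw [Real.log_mul (by exact_mod_cast hcc1.ne') hm0.ne']
    · rw [← Real.log_mul two_ne_zero hK0.ne']
      exact Real.log_le_log hm0 h2.le
  set N : ℝ := ∫ v : ℝ, W v ^ 2 with hN
  have hN0 : 0 ≤ N := integral_nonneg fun u => sq_nonneg _
  set b0 : ℝ := ce K - Real.log (cc j : ℝ) / 2 with hb0
  set l : ℝ := Real.log 2 / 2 with hl
  have hlpos : 0 < l := by positivity
  set h : ℕ → ℝ → ℝ := fun m y => ∫ v : ℝ, ff (gl κ i) Θ L 1 j m (v + (b0 - y)) * W v with hh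
  set h' : ℕ → ℝ → ℝ := fun m y => ∫ v : ℝ, -ff (gl κ (i + 1)) Θ L 1 j m (v + (b0 - y)) * W v
    with hh'
  have hd : ∀ m y, HasDerivAt (h m) (h' m y) y := fun m y =>
    rsf_fvw_deriv (hder L j m) (hcont' L j m) hW b0 y
  have hh'eq : ∀ m y, h' m y = -∫ v : ℝ, ff (gl κ (i + 1)) Θ L 1 j m (v + (b0 - y)) * W v := by
    intro m y
    rw [hh', ← integral_neg]
    refine integral_congr_ae (Eventually.of_forall fun v => ?_)
    simp only
    ring
  have hhc : ∀ m, Continuous (h m) := fun m =>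
    continuous_iff_continuousAt.2 fun y => (hd m y).continuousAt
  have hhc' : ∀ m, Continuous (h' m) := by
    intro m
    have h1 : Continuous (fun y => ∫ v : ℝ, ff (gl κ (i + 1)) Θ L 1 j m (v + (b0 - y)) * W v) :=
      continuous_iff_continuousAt.2 fun y =>
        (rsf_fvw_deriv (hder' L j m) (hcont'' L j m) hW b0 y).continuousAt
    have h2 : h' m = fun y => -∫ v : ℝ, ff (gl κ (i + 1)) Θ L 1 j m (v + (b0 - y)) * W v :=
      funext fun y => hh'eq m y
    rw [h2]
    exact h1.neg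
  -- the mean squares for each `y`
  have hy : ∀ y ∈ Set.Icc (0 : ℝ) (0 + l), ∑ m ∈ blk8 c K, (h m y ^ 2 + h' m y ^ 2) ≤
      (C1 + C1') * K / L * N := by
    intro y hy
    obtain ⟨hW', hW2, -, hWs⟩ := wt_shift hW (b0 - y)
    have hA : ce K - 3 ≤ 0 + (b0 - y) := by
      have := hy.2
      rw [hb0]
      rw [hl] at this
      linarith
    have hB : L + (b0 - y) ≤ -(300 * L) := by
      have := hy.1
      rw [hb0, hce]
      linarith
    have h1 := H1 j c L K (0 + (b0 - y)) (L + (b0 - y)) (fun u => W (u - (b0 - y))) hc hp hL hK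
      hLK hLK2 hW' (by linarith) hA hB
    have h2 := H1' j c L K (0 + (b0 - y)) (L + (b0 - y)) (fun u => W (u - (b0 - y))) hc hp hL hK
      hLK hLK2 hW' (by linarith) hA hB
    rw [hW2] at h1 h2
    have e1 : ∀ m, h m y = ∫ u : ℝ, ff (gl κ i) Θ L 1 j m u * W (u - (b0 - y)) := fun m =>
      (hWs (ff (gl κ i) Θ L 1 j m)).symm
    have e2 : ∀ m, h' m y ^ 2 =
        (∫ u : ℝ, ff (gl κ (i + 1)) Θ L 1 j m u * W (u - (b0 - y))) ^ 2 := by
      intro m
      rw [hh'eq, neg_sq, hWs (ff (gl κ (i + 1)) Θ L 1 j m)]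
    rw [Finset.sum_add_distrib]
    simp only [e1, e2]
    have e : (C1 + C1') * K / L * N = C1 * K / L * N + C1' * K / L * N := by ring
    rw [e]
    exact add_le_add h1 h2
  have hbd : ∀ m ∈ blk8 c K, (∫ v : ℝ,
      ff (gl κ i) Θ L 1 j m (v - Real.log ((cc j * m : ℕ) : ℝ) / 2) * W v) ^ 2 ≤
      (1 / l + 1) * ∫ y in (0 : ℝ)..(0 + l), (h m y ^ 2 + h' m y ^ 2) := by
    intro m hm
    obtain ⟨e1, e2, e3⟩ := hlogm m hm
    have h1 := sob_le (hd m) (hhc' m) 0 l ((Real.log m - Real.log K) / 2) hlpos (by linarith)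
      (by rw [hl]; linarith)
    have h2 : h m ((Real.log m - Real.log K) / 2) = ∫ v : ℝ,
      ff (gl κ i) Θ L 1 j m (v - Real.log ((cc j * m : ℕ) : ℝ) / 2) * W v := by
      rw [hh]
      refine integral_congr_ae (Eventually.of_forall fun v => ?_)
      simp only
      congr 2
      rw [e1, hb0, hce]
      ring
    rw [h2] at h1
    exact h1
  refine (Finset.sum_le_sum hbd).trans ?_
  rw [← Finset.mul_sum, ← intervalIntegral.integral_finsetSum]
  · have hint : ∫ y in (0 : ℝ)..(0 + l), ∑ m ∈ blk8 c K, (h m y ^ 2 + h' m y ^ 2) ≤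
        ∫ y in (0 : ℝ)..(0 + l), ((C1 + C1') * K / L * N) := by
      apply intervalIntegral.integral_mono_on (by linarith)
      · apply Continuous.intervalIntegrable
        apply continuous_finsetSum
        intro m _
        have h1 := hhc m
        have h2 := hhc' m
        exact (h1.pow 2).add (h2.pow 2)
      · exact intervalIntegrable_const
      · exact hy
    rw [intervalIntegral.integral_const] at hint
    have e2 : (0 + l - 0) • ((C1 + C1') * K / L * N) = l * ((C1 + C1') * K / L * N) := by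
      rw [smul_eq_mul]
      ring
    rw [e2] at hint
    calc (1 / l + 1) * ∫ y in (0 : ℝ)..(0 + l), ∑ m ∈ blk8 c K, (h m y ^ 2 + h' m y ^ 2)
        ≤ (1 / l + 1) * (l * ((C1 + C1') * K / L * N)) :=
          mul_le_mul_of_nonneg_left hint (by positivity)
      _ = (1 + l) * ((C1 + C1') * K / L * N) := by
          field_simp
      _ ≤ 2 * ((C1 + C1') * K / L * N) := by
          apply mul_le_mul_of_nonneg_right _ (by positivity)
          rw [hl]
          linarith
      _ = 2 * (C1 + C1') * K / L * N := by ring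
  · intro m _
    apply Continuous.intervalIntegrable
    have h1 := hhc m
    have h2 := hhc' m
    exact (h1.pow 2).add (h2.pow 2)

end Pool.Agent.RSF

namespace Pool.Agent.RSF

alias fvw_bound := fvw_bound_pr

end Pool.Agent.RSF
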