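import Pool.Agent.Lib_helper39.RSF.Defs
import Pool.Agent.Lib_helper39.RSA.K0T
/-! RSF block K0L : the transform of the kernel -/

namespace Pool.Agent.RSF

open Complex MeasureTheory Filter Topology
open Pool.Agent.RC (cc psi rv f0 IsRC Good gm pr DD)
open Pool.Agent.RSE
open Pool.Agent.SQS (hat)
open scoped ContDiff

theorem rsf_k0l_zero (κ : ℕ) (t : ℝ) :
    hat (fun z => ((iteratedDeriv 0 (k0 κ) z : ℝ) : ℂ)) t = gm κ t := by
  have hg := (GRH.gam κ)
  unfold hat Pool.Agent.RC.gm
  rw [hg.2 t]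
  refine integral_congr_ae (Filter.Eventually.of_forall fun v => ?_)
  simp only [iteratedDeriv_zero, Pool.Agent.RC.rc_gk_dens]
  rfl

theorem gl_hat_pr {κ : ℕ} (hκ : κ ≤ 1) : (∀ i : ℕ, Integrable (fun z => (gl κ i z : ℂ))) ∧
    ∀ t : ℝ, hat (fun z => (gl κ 0 z : ℂ)) t = -(t ^ 2 + 1 / 4) * gm κ t := by
  constructor
  · intro i
    exact ((rse_K0T_int κ (i + 2)).sub ((rse_K0T_int κ i).const_mul (1 / 4))).ofReal
  · intro t
    have hcont : Continuous fun z : ℝ => cexp (t * z * I) := by fun_prop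
    have hI : ∀ n, Integrable (fun z : ℝ =>
        ((iteratedDeriv n (k0 κ) z : ℝ) : ℂ) * cexp (t * z * I)) := by
      intro n
      have := ((rse_K0T_int κ n).ofReal (𝕜 := ℂ)).bdd_mul hcont.aestronglyMeasurable
        (Filter.Eventually.of_forall fun z => (rse_K0T_norm t z).le)
      refine this.congr (Filter.Eventually.of_forall fun z => ?_)
      simp only [RCLike.ofReal_eq_complex_ofReal]
      exact mul_comm _ _
    have h1 : hat (fun z => (gl κ 0 z : ℂ)) t =
        hat (fun z => ((iteratedDeriv 2 (k0 κ) z : ℝ) : ℂ)) t -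
          1 / 4 * hat (fun z => ((iteratedDeriv 0 (k0 κ) z : ℝ) : ℂ)) t := by
      unfold hat
      rw [← integral_const_mul, ← integral_sub (hI 2) ((hI 0).const_mul _)]
      refine integral_congr_ae (Filter.Eventually.of_forall fun z => ?_)
      simp only [gl]
      push_cast
      ring
    rw [h1, rse_K0T_step, rse_K0T_step, rsf_k0l_zero]
    linear_combination ((t ^ 2) * gm κ t) * Complex.I_sq

end Pool.Agent.RSF

namespace Pool.Agent.RSF

alias gl_hat := gl_hat_pr

end Pool.Agent.RSF
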