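import Pool.Agent.Lib_helper39.RSF.Defs
import Pool.Agent.Lib_helper39.RSF.KG1
import Pool.Agent.Lib_helper39.RSF.PFM
import Pool.Agent.Lib_helper39.RSF.SMO2
import Pool.Agent.Lib_helper39.RSF.AMB2
import Pool.Agent.Lib_helper39.RSF.DSQ
import Pool.Agent.Lib_helper39.RSF.XLIM
import Pool.Agent.Lib_helper39.RSF.XR2
import Pool.Agent.Lib_helper39.RSF.DDE
import Pool.Agent.Lib_helper39.RSF.DFO
import Pool.Agent.Lib_helper39.RSF.DOD
import Pool.Agent.Lib_helper39.RSF.M4B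
import Pool.Agent.Lib_helper39.RSF.FUI
import Pool.Agent.Lib_helper39.RSA.XR6
import Pool.Agent.Lib_helper39.RSA.PRM
import Pool.Agent.Lib_helper39.RSA.SOB
import Pool.Agent.Lib_helper39.RSA.BNS
import Pool.Agent.Lib_helper39.RSA.QLA
import Pool.Agent.Lib_helper39.RSA.QLB
import Pool.Agent.Lib_helper39.RSA.PER
import Pool.Agent.Lib_helper39.RSA.AVE
import Pool.Agent.Lib_helper39.RSA.CUT1
import Pool.Agent.Lib_helper39.RSA.CUT2
import Pool.Agent.Lib_helper24.ABS.Endgame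
import Pool.Agent.Lib_helper39.RSA.GLO
import Pool.Agent.Lib_helper39.RSG.K0L
import Pool.Agent.Lib_helper39.RSG.KGL
/-! RSF block GLL : the density of the main term -/

namespace Pool.Agent.RSF

open Complex MeasureTheory Filter Topology
open Pool.Agent.RC (cc psi rv f0 IsRC Good gm pr DD)
open Pool.Agent.RSE
open Pool.Agent.ABS (Nice LData Piece oddZ)
open Pool.Agent.SQS (hat)
open scoped ContDiff

theorem rsf_gll_g {g : ℝ → ℝ} (hg : Ker1 g) : ∃ C : ℝ, 0 ≤ C ∧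
    ∀ z : ℝ, |g z| ≤ C * Real.exp (-|z|) := by
  obtain ⟨C1, h1⟩ := hg.fast 0 2 (by norm_num)
  obtain ⟨C2, h2⟩ := hg.fast 0 (-1) (by norm_num)
  simp only [iteratedDeriv_zero] at h1 h2
  have p1 : 0 ≤ C1 := by
    have := h1 0
    simp only [mul_zero, Real.exp_zero, mul_one] at this
    exact (abs_nonneg _).trans this
  have p2 : 0 ≤ C2 := by
    have := h2 0
    simp only [mul_zero, Real.exp_zero, mul_one] at this
    exact (abs_nonneg _).trans this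
  refine ⟨C1 + C2, by linarith, fun z => ?_⟩
  have e0 := Real.exp_pos (-|z|)
  rcases le_total 0 z with hz | hz
  · rw [abs_of_nonneg hz] at e0 ⊢
    have e1 : Real.exp (-2 * z) ≤ Real.exp (-z) := Real.exp_le_exp.mpr (by linarith)
    calc |g z| ≤ C1 * Real.exp (-2 * z) := h1 z
      _ ≤ C1 * Real.exp (-z) := mul_le_mul_of_nonneg_left e1 p1
      _ ≤ (C1 + C2) * Real.exp (-z) := by nlinarith
  · rw [abs_of_nonpos hz] at e0 ⊢
    rw [neg_neg] at e0 ⊢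
    calc |g z| ≤ C2 * Real.exp (-(-1) * z) := h2 z
      _ = C2 * Real.exp z := by rw [neg_neg, one_mul]
      _ ≤ (C1 + C2) * Real.exp z := by nlinarith

theorem rsf_gll_cont {g : ℝ → ℝ} (hg : Ker1 g) {e : ℤ} (he : |(e : ℝ)| ≤ 1) :
    Continuous (rse_glo_ga g e) := by
  obtain ⟨C, hC, hb⟩ := rsf_gll_g hg
  have hgc : Continuous g := hg.smooth.continuous
  unfold rse_glo_ga
  refine continuous_tsum (u := fun a => C * Real.exp (-(Real.log 2 / 4)) ^ a) ?_ ?_ ?_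
  · intro a
    exact continuous_const.mul (hgc.comp (by fun_prop))
  · exact (summable_geometric_of_lt_one (Real.exp_pos _).le rse_glo_r).mul_left C
  · intro a u
    rw [Real.norm_eq_abs]
    refine (rse_glo_term hC hb he u a).trans ?_
    refine mul_le_mul_of_nonneg_right ?_ (pow_nonneg (Real.exp_pos _).le a)
    have : Real.exp (-|u| / 4) ≤ 1 := by
      rw [Real.exp_le_one_iff]
      have := abs_nonneg u
      linarith
    nlinarith

theorem rsf_gll_bd {g : ℝ → ℝ} (hg : Ker1 g) : ∃ D : ℝ, 0 ≤ D ∧ ∀ (e : ℤ), |(e : ℝ)| ≤ 1 →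
    ∀ u : ℝ, |rse_glo_ga g e u| ≤ D * Real.exp (-|u| / 4) := by
  obtain ⟨C, hC, hb⟩ := rsf_gll_g hg
  have hr := rse_glo_r
  refine ⟨C * (1 - Real.exp (-(Real.log 2 / 4)))⁻¹, by
    have : 0 < 1 - Real.exp (-(Real.log 2 / 4)) := by linarith
    positivity, fun e he u => ?_⟩
  have hs : HasSum (fun a : ℕ => C * Real.exp (-|u| / 4) * Real.exp (-(Real.log 2 / 4)) ^ a)
      (C * Real.exp (-|u| / 4) * (1 - Real.exp (-(Real.log 2 / 4)))⁻¹) :=
    (hasSum_geometric_of_lt_one (Real.exp_pos _).le hr).mul_left _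
  have h := tsum_of_norm_bounded hs (f := fun a : ℕ => (e : ℝ) ^ a * (2 : ℝ) ^ (-(a : ℝ) / 2) *
    g (u + a * Real.log 2)) fun a => by
      rw [Real.norm_eq_abs]
      exact rse_glo_term hC hb he u a
  unfold rse_glo_ga
  rw [Real.norm_eq_abs] at h
  refine h.trans (le_of_eq ?_)
  ring

theorem rsf_gll_nice {g : ℝ → ℝ} (hg : Ker1 g) {e : ℤ} (he : |(e : ℝ)| ≤ 1) :
    Nice (fun u => (rse_glo_ga g e u : ℂ)) := by
  obtain ⟨D, hD, hb⟩ := rsf_gll_bd hg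
  have hc : Continuous (fun u => (rse_glo_ga g e u : ℂ)) :=
    Complex.continuous_ofReal.comp (rsf_gll_cont hg he)
  have hn : ∀ u : ℝ, ‖(rse_glo_ga g e u : ℂ)‖ ≤ D * Real.exp (-|u| / 4) := by
    intro u
    rw [Complex.norm_real, Real.norm_eq_abs]
    exact hb e he u
  refine ⟨hc.measurable, ?_, D, fun u => ?_⟩
  · exact (rse_glo_expint.const_mul D).mono' hc.aestronglyMeasurable (ae_of_all _ hn)
  · refine (hn u).trans ?_
    have : Real.exp (-|u| / 4) ≤ 1 := by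
      rw [Real.exp_le_one_iff]
      have := abs_nonneg u
      linarith
    nlinarith

theorem rsf_gll_hat {g : ℝ → ℝ} (hg : Ker1 g) {e : ℤ} (he : |(e : ℝ)| ≤ 1) (t : ℝ)
    (h0 : hat (fun z => (g z : ℂ)) t ≠ 0) :
    hat (fun u => (rse_glo_ga g e u : ℂ)) t ≠ 0 := by
  obtain ⟨C, hC, hb⟩ := rsf_gll_g hg
  have hgc : Continuous g := hg.smooth.continuous
  have hgi : Integrable (fun z => (g z : ℂ)) := by
    refine (rse_glo_expint.const_mul C).mono'
      (Complex.continuous_ofReal.comp hgc).aestronglyMeasurable (ae_of_all _ fun z => ?_)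
    rw [Complex.norm_real, Real.norm_eq_abs]
    refine (hb z).trans (mul_le_mul_of_nonneg_left (Real.exp_le_exp.mpr ?_) hC)
    have := abs_nonneg z
    linarith
  set w : ℂ := ((e : ℝ) : ℂ) * ((Real.exp (-(Real.log 2 / 2)) : ℝ) : ℂ) *
    cexp (-(t * Real.log 2 * I)) with hw
  have hwn : ‖w‖ < 1 := by
    rw [hw, norm_mul, norm_mul, Complex.norm_real, Complex.norm_real, Real.norm_eq_abs,
      Real.norm_eq_abs, abs_of_pos (Real.exp_pos _),
      show (-(t * Real.log 2 * I) : ℂ) = ((-(t * Real.log 2) : ℝ) : ℂ) * I by push_cast; ring,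
      Complex.norm_exp_ofReal_mul_I, mul_one]
    calc |(e : ℝ)| * Real.exp (-(Real.log 2 / 2)) ≤ 1 * Real.exp (-(Real.log 2 / 2)) :=
          mul_le_mul_of_nonneg_right he (Real.exp_pos _).le
      _ < 1 := by rw [one_mul]; exact rse_glo_r2
  set F : ℕ → ℝ → ℂ := fun a u => (((e : ℝ) ^ a * (2 : ℝ) ^ (-(a : ℝ) / 2) : ℝ) : ℂ) *
    ((g (u + a * Real.log 2) : ℂ) * cexp (t * u * I)) with hF
  have hshift : ∀ a : ℕ, Integrable (fun u : ℝ => (g (u + a * Real.log 2) : ℂ)) := fun a =>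
    hgi.comp_add_right (a * Real.log 2)
  have hFi : ∀ a, Integrable (F a) := fun a =>
    (Pool.Agent.ABS.hat_integrable (hshift a) t).const_mul _
  have hFv : ∀ a, ∫ u, F a u = w ^ a * hat (fun z => (g z : ℂ)) t := by
    intro a
    rw [hF]
    beta_reduce
    rw [integral_const_mul]
    have h1 := Pool.Agent.ABS.hat_shift (fun z => (g z : ℂ)) (a * Real.log 2) t
    have h2 : ∫ u : ℝ, (g (u + a * Real.log 2) : ℂ) * cexp (t * u * I) =
      hat (fun u => (g (u + a * Real.log 2) : ℂ)) t := rfl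
    rw [h2, h1, rse_glo_two, hw, mul_pow, mul_pow, ← Complex.exp_nat_mul]
    push_cast
    rw [show (-((t : ℂ) * (a * (Real.log 2 : ℂ)) * I) : ℂ) = a * (-(t * (Real.log 2 : ℂ) * I)) by ring]
    ring
  have hFn : ∀ a, ∫ u, ‖F a u‖ ≤ Real.exp (-(Real.log 2 / 2)) ^ a * ∫ u, ‖(g u : ℂ)‖ := by
    intro a
    have e1 : ∀ u, ‖F a u‖ = |(e : ℝ) ^ a * (2 : ℝ) ^ (-(a : ℝ) / 2)| *
        ‖(g (u + a * Real.log 2) : ℂ)‖ := by
      intro u
      rw [hF]
      beta_reduce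
      rw [norm_mul, norm_mul, Pool.Agent.ABS.expI_norm, mul_one, Complex.norm_real,
        Real.norm_eq_abs]
    rw [show (fun u => ‖F a u‖) = fun u => |(e : ℝ) ^ a * (2 : ℝ) ^ (-(a : ℝ) / 2)| *
        ‖(g (u + a * Real.log 2) : ℂ)‖ from funext e1, integral_const_mul,
      integral_add_right_eq_self (fun u => ‖(g u : ℂ)‖) (a * Real.log 2)]
    refine mul_le_mul_of_nonneg_right ?_ (integral_nonneg fun u => norm_nonneg _)
    rw [abs_mul, abs_pow, rse_glo_two, abs_of_pos (pow_pos (Real.exp_pos _) a)]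
    have h1 : |(e : ℝ)| ^ a ≤ 1 := pow_le_one₀ (abs_nonneg _) he
    have h2 : 0 < Real.exp (-(Real.log 2 / 2)) ^ a := pow_pos (Real.exp_pos _) a
    nlinarith
  have hsum : Summable fun a => ∫ u, ‖F a u‖ := by
    refine Summable.of_nonneg_of_le (fun a => integral_nonneg fun u => norm_nonneg _) hFn ?_
    exact (summable_geometric_of_lt_one (Real.exp_pos _).le rse_glo_r2).mul_right _
  have key := hasSum_integral_of_summable_integral_norm hFi hsum
  have e2 : (∫ u, ∑' a, F a u) = hat (fun u => (rse_glo_ga g e u : ℂ)) t := by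
    unfold Pool.Agent.SQS.hat
    refine integral_congr_ae (ae_of_all _ fun u => ?_)
    beta_reduce
    unfold rse_glo_ga
    rw [Complex.ofReal_tsum, ← tsum_mul_right]
    refine tsum_congr fun a => ?_
    rw [hF]
    push_cast
    ring
  have e3 : HasSum (fun a => ∫ u, F a u) ((1 - w)⁻¹ * hat (fun z => (g z : ℂ)) t) := by
    have := (hasSum_geometric_of_norm_lt_one hwn).mul_right (hat (fun z => (g z : ℂ)) t)
    exact this.congr_fun fun a => (hFv a)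
  rw [← e2, ← key.tsum_eq, e3.tsum_eq]
  refine mul_ne_zero (inv_ne_zero ?_) h0
  intro h1
  have h2 : w = 1 := (sub_eq_zero.mp h1).symm
  rw [h2, norm_one] at hwn
  exact lt_irrefl _ hwn

theorem gal_nice_pr {g : ℝ → ℝ} (hg : Ker1 g) (j : Fin 4) (m : ℕ) :
    Nice (fun u => (gA g j m u : ℂ)) := by
  rw [rse_glo_eq]
  exact rsf_gll_nice hg (rse_glo_abs j m)

theorem rsf_gll_low {F : ℝ → ℂ} (hF : Continuous F) {T : ℝ}
    (h : ∀ t, |t| ≤ T → F t ≠ 0) : ∃ c : ℝ, 0 < c ∧ ∀ t : ℝ, |t| ≤ T → c ≤ ‖F t‖ := by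
  by_cases hT : 0 ≤ T
  · obtain ⟨t0, ht0, hmin⟩ := (isCompact_Icc (a := -T) (b := T)).exists_isMinOn
      (Set.nonempty_Icc.mpr (by linarith)) hF.norm.continuousOn
    refine ⟨‖F t0‖, norm_pos_iff.mpr (h t0 (abs_le.mpr ht0)), fun t ht => ?_⟩
    exact hmin (abs_le.mp ht)
  · exact ⟨1, one_pos, fun t ht => absurd ((abs_nonneg t).trans ht) hT⟩

theorem rsf_gll_uc {F : ℝ → ℂ} (hF : Continuous F) (T : ℝ) {ε : ℝ} (hε : 0 < ε) :
    ∃ δ : ℝ, 0 < δ ∧ ∀ t s : ℝ, |t| ≤ T → |s| ≤ T → |t - s| < δ → ‖F t - F s‖ ≤ ε := by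
  have huc := (isCompact_Icc (a := -T) (b := T)).uniformContinuousOn_of_continuous
    hF.continuousOn
  rw [Metric.uniformContinuousOn_iff] at huc
  obtain ⟨δ, hδ, hd⟩ := huc ε hε
  refine ⟨δ, hδ, fun t s ht hs hts => ?_⟩
  have := hd t (abs_le.mp ht) s (abs_le.mp hs) (by rw [Real.dist_eq]; exact hts)
  rw [dist_eq_norm] at this
  exact this.le

theorem rsf_gll_gl {κ : ℕ} (hκ : κ ≤ 1) (t : ℝ) :
    hat (fun z => (gl κ 0 z : ℂ)) t ≠ 0 := by
  rw [(gl_hat hκ).2 t]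
  have h2 : ((t : ℂ) ^ 2 + 1 / 4) ≠ 0 := by
    have : ((t : ℂ) ^ 2 + 1 / 4) = ((t ^ 2 + 1 / 4 : ℝ) : ℂ) := by push_cast; ring
    rw [this]
    exact Complex.ofReal_ne_zero.mpr (by positivity)
  have h3 : gm κ t ≠ 0 := by
    unfold Pool.Agent.RC.gm
    refine Complex.Gammaℝ_ne_zero_of_re_pos ?_
    have : (1 / 2 + (κ : ℂ) + t * I) = ((1 / 2 + κ : ℝ) : ℂ) + (t : ℂ) * I := by push_cast; ring
    rw [this, Complex.add_re, Complex.ofReal_re, Complex.re_ofReal_mul, Complex.I_re, mul_zero,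
      add_zero]
    positivity
  exact mul_ne_zero (neg_ne_zero.mpr h2) h3

theorem gal_bound_pr {κ : ℕ} (hκ : κ ≤ 1) (T : ℝ) : ∃ m₀ δ M : ℝ, 0 < m₀ ∧ 0 < δ ∧ 0 ≤ M ∧
    ∀ (j : Fin 4) (m : ℕ), ∫ u : ℝ, ‖(gA (gl κ 0) j m u : ℂ)‖ ≤ M ∧
    (∀ t : ℝ, |t| ≤ T → m₀ ≤ ‖hat (fun u => (gA (gl κ 0) j m u : ℂ)) t‖) ∧
    ∀ t s : ℝ, |t| ≤ T → |s| ≤ T → |t - s| < δ →
      ‖hat (fun u => (gA (gl κ 0) j m u : ℂ)) t - hat (fun u => (gA (gl κ 0) j m u : ℂ)) s‖ ≤
        m₀ / 2 := by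
  have hg := ker1_gl hκ 0
  have hcont : ∀ e : ℤ, |(e : ℝ)| ≤ 1 →
      Continuous (hat (fun u => (rse_glo_ga (gl κ 0) e u : ℂ))) := fun e he =>
    Pool.Agent.ABS.continuous_hat (rsf_gll_nice hg he).int
  have key : ∀ e : ℤ, |(e : ℝ)| ≤ 1 → ∃ c : ℝ, 0 < c ∧ ∀ t : ℝ, |t| ≤ T →
      c ≤ ‖hat (fun u => (rse_glo_ga (gl κ 0) e u : ℂ)) t‖ := fun e he =>
    rsf_gll_low (hcont e he) fun t _ => rsf_gll_hat hg he t (rsf_gll_gl hκ t)
  have e0 : |((0 : ℤ) : ℝ)| ≤ 1 := by simp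
  have e1 : |((1 : ℤ) : ℝ)| ≤ 1 := by simp
  have e2 : |((-1 : ℤ) : ℝ)| ≤ 1 := by simp
  obtain ⟨c1, hc1, k1⟩ := key 0 e0
  obtain ⟨c2, hc2, k2⟩ := key 1 e1
  obtain ⟨c3, hc3, k3⟩ := key (-1) e2
  set m₀ : ℝ := min c1 (min c2 c3) with hm₀
  have hm : 0 < m₀ := by positivity
  obtain ⟨d1, hd1, l1⟩ := rsf_gll_uc (hcont 0 e0) T (half_pos hm)
  obtain ⟨d2, hd2, l2⟩ := rsf_gll_uc (hcont 1 e1) T (half_pos hm)
  obtain ⟨d3, hd3, l3⟩ := rsf_gll_uc (hcont (-1) e2) T (half_pos hm)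
  set I1 : ℤ → ℝ := fun e => ∫ u : ℝ, ‖(rse_glo_ga (gl κ 0) e u : ℂ)‖ with hI1
  have hI0 : ∀ e, 0 ≤ I1 e := fun e => integral_nonneg fun u => by positivity
  refine ⟨m₀, min d1 (min d2 d3), I1 0 + I1 1 + I1 (-1), hm,
    by positivity, by linarith [hI0 0, hI0 1, hI0 (-1)], fun j m => ?_⟩
  have m1 : m₀ ≤ c1 := min_le_left _ _
  have m2 : m₀ ≤ c2 := (min_le_right _ _).trans (min_le_left _ _)
  have m3 : m₀ ≤ c3 := (min_le_right _ _).trans (min_le_right _ _)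
  have n1 : min d1 (min d2 d3) ≤ d1 := min_le_left _ _
  have n2 : min d1 (min d2 d3) ≤ d2 := (min_le_right _ _).trans (min_le_left _ _)
  have n3 : min d1 (min d2 d3) ≤ d3 := (min_le_right _ _).trans (min_le_right _ _)
  rw [rse_glo_eq]
  rcases rse_glo_rv2 j m with h | h | h
  · rw [h]
    refine ⟨?_, fun t ht => m1.trans (k1 t ht), fun t s ht hs hts =>
      l1 t s ht hs (hts.trans_le n1)⟩
    show I1 0 ≤ _
    linarith [hI0 0, hI0 1, hI0 (-1)]
  · rw [h]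
    refine ⟨?_, fun t ht => m2.trans (k2 t ht), fun t s ht hs hts =>
      l2 t s ht hs (hts.trans_le n2)⟩
    show I1 1 ≤ _
    linarith [hI0 0, hI0 1, hI0 (-1)]
  · rw [h]
    refine ⟨?_, fun t ht => m3.trans (k3 t ht), fun t s ht hs hts =>
      l3 t s ht hs (hts.trans_le n3)⟩
    show I1 (-1) ≤ _
    linarith [hI0 0, hI0 1, hI0 (-1)]

end Pool.Agent.RSF

namespace Pool.Agent.RSF

alias gal_nice := gal_nice_pr

alias gal_bound := gal_bound_pr

end Pool.Agent.RSF
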