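import Pool.Agent.Lib_helper39.RSF.Defs
import Pool.Agent.Lib_helper39.RSF.KG1
import Pool.Agent.Lib_helper39.RSF.PFM
import Pool.Agent.Lib_helper39.RSF.SMO2
import Pool.Agent.Lib_helper39.RSF.AMB2
import Pool.Agent.Lib_helper39.RSF.DSQ
import Pool.Agent.Lib_helper39.RSF.XLIM
import Pool.Agent.Lib_helper39.RSF.XR2
import Pool.Agent.Lib_helper39.RSF.DDE
import Pool.Agent.Lib_helper39.RSF.DFO
import Pool.Agent.Lib_helper39.RSF.DOD
import Pool.Agent.Lib_helper39.RSF.M4B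
import Pool.Agent.Lib_helper39.RSF.FUI
import Pool.Agent.Lib_helper39.RSA.XR6
import Pool.Agent.Lib_helper39.RSA.PRM
import Pool.Agent.Lib_helper39.RSA.SOB
import Pool.Agent.Lib_helper39.RSA.BNS
import Pool.Agent.Lib_helper39.RSA.QLA
import Pool.Agent.Lib_helper39.RSA.QLB
import Pool.Agent.Lib_helper39.RSA.PER
import Pool.Agent.Lib_helper39.RSA.AVE
import Pool.Agent.Lib_helper39.RSA.CUT1
import Pool.Agent.Lib_helper39.RSA.CUT2
import Pool.Agent.Lib_helper24.ABS.Endgame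
import Pool.Agent.Lib_helper39.RSG.FUW
import Pool.Agent.Lib_helper39.RSG.KGL
/-!
# RSF, block FUP: pointwise bound of the family
-/

namespace Pool.Agent.RSF

open Complex MeasureTheory Filter Topology
open Pool.Agent.RC (cc psi rv f0 IsRC Good gm pr DD)
open Pool.Agent.RSE
open scoped ContDiff

theorem rsf_fup_wt (u : ℝ) {h : ℝ → ℝ} (hh : Measurable h) (hb : ∀ v ∈ Set.Icc u (u + 1), |h v| ≤ 1) :
    Wt ((Set.Icc u (u + 1)).indicator h) u (u + 1) ∧
      ∫ v : ℝ, (Set.Icc u (u + 1)).indicator h v ^ 2 ≤ 1 := by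
  have hbd : ∀ v : ℝ, |(Set.Icc u (u + 1)).indicator h v| ≤ 1 := by
    intro v
    by_cases hv : v ∈ Set.Icc u (u + 1)
    · rw [Set.indicator_of_mem hv]; exact hb v hv
    · rw [Set.indicator_of_notMem hv, abs_zero]; norm_num
  refine ⟨⟨by linarith, hh.indicator measurableSet_Icc, ⟨1, hbd⟩, fun v hv =>
    Set.indicator_of_notMem hv h⟩, ?_⟩
  have e : ∀ v : ℝ, (Set.Icc u (u + 1)).indicator h v ^ 2 =
      (Set.Icc u (u + 1)).indicator (fun v => h v ^ 2) v := by
    intro v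
    by_cases hv : v ∈ Set.Icc u (u + 1)
    · rw [Set.indicator_of_mem hv, Set.indicator_of_mem hv]
    · rw [Set.indicator_of_notMem hv, Set.indicator_of_notMem hv]; norm_num
  simp only [e]
  rw [integral_indicator measurableSet_Icc]
  calc ∫ v in Set.Icc u (u + 1), h v ^ 2 ≤ ∫ v in Set.Icc u (u + 1), (1 : ℝ) := by
        refine setIntegral_mono_on ?_ (by simp) measurableSet_Icc fun v hv => ?_
        · refine Measure.integrableOn_of_bounded (M := 1) (by simp)
            (hh.pow_const 2).aestronglyMeasurable ?_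
          refine (ae_restrict_mem measurableSet_Icc).mono fun v hv => ?_
          rw [Real.norm_eq_abs, abs_pow]
          exact pow_le_one₀ (abs_nonneg _) (hb v hv)
        · rw [← sq_abs]
          exact pow_le_one₀ (abs_nonneg _) (hb v hv)
    _ = 1 := by simp

theorem rsf_fup_int (u : ℝ) (f h : ℝ → ℝ) :
    ∫ v : ℝ, f v * (Set.Icc u (u + 1)).indicator h v = ∫ v in u..(u + 1), f v * h v := by
  rw [intervalIntegral.integral_of_le (by linarith), ← integral_Icc_eq_integral_Ioc,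
    ← integral_indicator measurableSet_Icc]
  congr 1
  funext v
  by_cases hv : v ∈ Set.Icc u (u + 1)
  · rw [Set.indicator_of_mem hv, Set.indicator_of_mem hv]
  · rw [Set.indicator_of_notMem hv, Set.indicator_of_notMem hv, mul_zero]

theorem rsf_fup_parts {f f' : ℝ → ℝ} (hf : ∀ v, HasDerivAt f (f' v) v) (hc : Continuous f') (u : ℝ) :
    f u = (∫ v in u..(u + 1), f v * 1) - ∫ v in u..(u + 1), f' v * (u + 1 - v) := by
  have hfc : Continuous f := continuous_iff_continuousAt.2 fun v => (hf v).continuousAt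
  have h1 : ∀ v ∈ Set.uIcc u (u + 1), HasDerivAt (fun v => (u + 1 - v) * f v)
      (-f v + (u + 1 - v) * f' v) v := by
    intro v _
    have h2 : HasDerivAt (fun v : ℝ => u + 1 - v) (-1) v := by
      simpa using (hasDerivAt_id v).const_sub (u + 1)
    have h3 : HasDerivAt (fun v => (u + 1 - v) * f v) (-1 * f v + (u + 1 - v) * f' v) v :=
      h2.mul (hf v)
    rwa [neg_one_mul] at h3
  have h4 := intervalIntegral.integral_eq_sub_of_hasDerivAt h1
    (Continuous.intervalIntegrable (by fun_prop) _ _)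
  have h5 : ∫ v in u..(u + 1), (-f v + (u + 1 - v) * f' v) =
      (∫ v in u..(u + 1), f' v * (u + 1 - v)) - ∫ v in u..(u + 1), f v * 1 := by
    rw [← intervalIntegral.integral_sub
      (Continuous.intervalIntegrable (by fun_prop) _ _)
      (Continuous.intervalIntegrable (by fun_prop) _ _)]
    congr 1
    funext v
    ring
  rw [h5] at h4
  linarith

theorem fup_bound_pr {Θ : ℝ → ℝ} (hΘ : Cut Θ) {κ : ℕ} (hκ : κ ≤ 1) (i : ℕ) : ∃ C : ℝ, 0 < C ∧
    ∀ (j : Fin 4) (c : ℕ) (L K u : ℝ), OC c → Par κ j c → 4 ≤ L → 1 ≤ K →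
    2000 * L ≤ Real.log K → Real.log K ≤ 4000 * L → ce K - 3 ≤ u → u ≤ -(301 * L) →
    ∑ m ∈ blk8 c K, ff (gl κ i) Θ L 1 j m u ^ 2 ≤ C * K / L := by
  obtain ⟨C1, hC1, h1⟩ := fuw_bound hΘ hκ i
  obtain ⟨C2, hC2, h2⟩ := fuw_bound hΘ hκ (i + 1)
  refine ⟨2 * (C1 + C2), by linarith, fun j c L K u hc hp hL hK hk1 hk2 hu1 hu2 => ?_⟩
  obtain ⟨w1, n1⟩ := rsf_fup_wt u (h := fun _ => 1) measurable_const (fun v _ => by simp)
  obtain ⟨w2, n2⟩ := rsf_fup_wt u (h := fun v => u + 1 - v) (by fun_prop) (fun v hv => by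
    rw [abs_le]
    constructor <;> linarith [hv.1, hv.2])
  have g1 := h1 j c L K u (u + 1) _ hc hp hL hK hk1 hk2 w1 (by linarith) hu1 (by linarith)
  have g2 := h2 j c L K u (u + 1) _ hc hp hL hK hk1 hk2 w2 (by linarith) hu1 (by linarith)
  have hKL : 0 ≤ K / L := by
    have : (0 : ℝ) < L := by linarith
    positivity
  have g1' := g1.trans (mul_le_mul_of_nonneg_left n1 (by
    have : 0 ≤ C1 * (K / L) := mul_nonneg hC1.le hKL
    rw [mul_div_assoc]
    exact this))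
  have g2' := g2.trans (mul_le_mul_of_nonneg_left n2 (by
    have : 0 ≤ C2 * (K / L) := mul_nonneg hC2.le hKL
    rw [mul_div_assoc]
    exact this))
  have key : ∀ m ∈ blk8 c K, ff (gl κ i) Θ L 1 j m u ^ 2 ≤
      2 * (∫ v : ℝ, ff (gl κ i) Θ L 1 j m v * (Set.Icc u (u + 1)).indicator (fun _ => 1) v) ^ 2 +
      2 * (∫ v : ℝ, ff (gl κ (i + 1)) Θ L 1 j m v *
        (Set.Icc u (u + 1)).indicator (fun v => u + 1 - v) v) ^ 2 := by
    intro m _
    have hd : ∀ v, HasDerivAt (ff (gl κ i) Θ L 1 j m) (ff (gl κ (i + 1)) Θ L 1 j m v) v := by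
      intro v
      have := ff_deriv_pr (ker1_gl hκ i) Θ L 1 j m v
      rwa [gl_deriv hκ i] at this
    have hcont : Continuous (ff (gl κ (i + 1)) Θ L 1 j m) :=
      continuous_iff_continuousAt.2 fun v =>
        (ff_deriv_pr (ker1_gl hκ (i + 1)) Θ L 1 j m v).continuousAt
    rw [rsf_fup_int, rsf_fup_int, rsf_fup_parts hd hcont u]
    nlinarith [sq_nonneg ((∫ v in u..(u + 1), ff (gl κ i) Θ L 1 j m v * 1) +
      ∫ v in u..(u + 1), ff (gl κ (i + 1)) Θ L 1 j m v * (u + 1 - v))]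
  calc ∑ m ∈ blk8 c K, ff (gl κ i) Θ L 1 j m u ^ 2
      ≤ ∑ m ∈ blk8 c K, (2 * (∫ v : ℝ, ff (gl κ i) Θ L 1 j m v *
          (Set.Icc u (u + 1)).indicator (fun _ => 1) v) ^ 2 +
        2 * (∫ v : ℝ, ff (gl κ (i + 1)) Θ L 1 j m v *
        (Set.Icc u (u + 1)).indicator (fun v => u + 1 - v) v) ^ 2) := Finset.sum_le_sum key
    _ = 2 * (∑ m ∈ blk8 c K, (∫ v : ℝ, ff (gl κ i) Θ L 1 j m v *
          (Set.Icc u (u + 1)).indicator (fun _ => 1) v) ^ 2) +
        2 * ∑ m ∈ blk8 c K, (∫ v : ℝ, ff (gl κ (i + 1)) Θ L 1 j m v *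
        (Set.Icc u (u + 1)).indicator (fun v => u + 1 - v) v) ^ 2 := by
        rw [Finset.sum_add_distrib, Finset.mul_sum, Finset.mul_sum]
    _ ≤ 2 * (C1 * K / L * 1) + 2 * (C2 * K / L * 1) := by linarith
    _ = 2 * (C1 + C2) * K / L := by ring

end Pool.Agent.RSF

namespace Pool.Agent.RSF

alias fup_bound := fup_bound_pr

end Pool.Agent.RSF
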