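import Pool.Agent.Lib_helper39.RSF.Defs
/-!
# Block OMF: Fourier representation of a smooth step
-/

namespace Pool.Agent.RSF

open Complex MeasureTheory Filter Topology
open Pool.Agent.RC (cc psi rv f0 IsRC Good gm pr DD)
open Pool.Agent.RSE
open scoped ContDiff FourierTransform

/-- The function to be transformed. -/
noncomputable def rsf_omf_F (x : ℝ) : ℂ := ((om x * Real.exp (-x / 2) : ℝ) : ℂ)

/-- Its germ at infinity. -/
noncomputable def rsf_omf_E (x : ℝ) : ℂ := ((Real.exp (-x / 2) : ℝ) : ℂ)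

theorem rsf_omf_smooth : ContDiff ℝ ∞ rsf_omf_F := by
  have h1 : ContDiff ℝ ∞ (fun x : ℝ => om x * Real.exp (-x / 2)) := by
    have h0 : ContDiff ℝ ∞ om := Real.smoothTransition.contDiff
    have h3 : ContDiff ℝ ∞ (fun x : ℝ => Real.exp (-x / 2)) := by fun_prop
    exact h0.mul h3
  exact Complex.ofRealCLM.contDiff.comp h1

theorem rsf_omf_E_deriv (n : ℕ) :
    iteratedDeriv n rsf_omf_E = fun x => (-(1 / 2) : ℂ) ^ n * rsf_omf_E x := by
  induction n with
  | zero => simp [iteratedDeriv_zero]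
  | succ n ih =>
    rw [iteratedDeriv_succ, ih]
    funext x
    have h1 : HasDerivAt rsf_omf_E (-(1 / 2) * rsf_omf_E x) x := by
      have h2 : HasDerivAt (fun x : ℝ => Real.exp (-x / 2)) (Real.exp (-x / 2) * (-1 / 2)) x :=
        ((hasDerivAt_neg x).div_const 2).exp
      have h3 := h2.ofReal_comp
      refine h3.congr_deriv ?_
      unfold rsf_omf_E
      push_cast
      ring
    rw [(h1.const_mul ((-(1 / 2) : ℂ) ^ n)).deriv]
    ring

theorem rsf_omf_int (n : ℕ) : Integrable (iteratedDeriv n rsf_omf_F) := by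
  have hc : Continuous (iteratedDeriv n rsf_omf_F) :=
    (contDiff_infty.1 rsf_omf_smooth n).continuous_iteratedDeriv n le_rfl
  have h0 : ∀ x : ℝ, x < 0 → iteratedDeriv n rsf_omf_F x = 0 := by
    intro x hx
    have h1 : rsf_omf_F =ᶠ[𝓝 x] (fun _ => (0 : ℂ)) := by
      filter_upwards [Iio_mem_nhds hx] with y hy
      unfold rsf_omf_F om
      rw [Real.smoothTransition.zero_of_nonpos (le_of_lt hy)]
      simp
    rw [h1.iteratedDeriv_eq n]
    simp [iteratedDeriv_const]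
  have h1 : ∀ x : ℝ, 1 < x → iteratedDeriv n rsf_omf_F x = (-(1 / 2) : ℂ) ^ n * rsf_omf_E x := by
    intro x hx
    have h1 : rsf_omf_F =ᶠ[𝓝 x] rsf_omf_E := by
      filter_upwards [Ioi_mem_nhds hx] with y hy
      unfold rsf_omf_F om rsf_omf_E
      rw [Real.smoothTransition.one_of_one_le (le_of_lt hy), one_mul]
    rw [h1.iteratedDeriv_eq n, rsf_omf_E_deriv n]
  have i0 : IntegrableOn (iteratedDeriv n rsf_omf_F) (Set.Iio 0) := by
    refine IntegrableOn.congr_fun (f := fun _ => (0 : ℂ)) integrableOn_zero ?_ measurableSet_Iio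
    intro x hx
    exact (h0 x hx).symm
  have i1 : IntegrableOn (iteratedDeriv n rsf_omf_F) (Set.Icc 0 1) :=
    hc.continuousOn.integrableOn_compact isCompact_Icc
  have i2 : IntegrableOn (iteratedDeriv n rsf_omf_F) (Set.Ioi 1) := by
    refine IntegrableOn.congr_fun (f := fun x => (-(1 / 2) : ℂ) ^ n * rsf_omf_E x) ?_ ?_
      measurableSet_Ioi
    · apply Integrable.const_mul
      have h2 : IntegrableOn (fun x : ℝ => Real.exp (-(1 / 2) * x)) (Set.Ioi 1) :=
        integrableOn_exp_mul_Ioi (by norm_num) 1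
      have h3 : Integrable (fun x : ℝ => ((Real.exp (-(1 / 2) * x) : ℝ) : ℂ))
        (volume.restrict (Set.Ioi 1)) := h2.ofReal
      refine h3.congr (ae_of_all _ fun x => ?_)
      simp only [rsf_omf_E]
      congr 2
      ring
    · intro x hx
      exact (h1 x hx).symm
  have hu : (Set.univ : Set ℝ) = Set.Iio 0 ∪ Set.Icc 0 1 ∪ Set.Ioi 1 := by
    ext x
    simp only [Set.mem_univ, Set.mem_union, Set.mem_Iio, Set.mem_Icc, Set.mem_Ioi, true_iff]
    rcases lt_or_ge x 0 with h | h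
    · exact Or.inl (Or.inl h)
    · rcases le_or_gt x 1 with h' | h'
      · exact Or.inl (Or.inr ⟨h, h'⟩)
      · exact Or.inr h'
  rw [← integrableOn_univ, hu]
  exact (i0.union i1).union i2

theorem om_fourier_pr : ∃ θ : ℝ → ℂ, Continuous θ ∧ (∃ C : ℝ, ∀ s : ℝ, ‖θ s‖ ≤ C / (1 + s ^ 2)) ∧
    ∀ x : ℝ, ((om x * Real.exp (-x / 2) : ℝ) : ℂ) = ∫ s : ℝ, θ s * cexp (s * x * I) := by
  have hpi : (0 : ℝ) < 2 * Real.pi := by positivity
  have hpi1 : (1 : ℝ) ≤ 2 * Real.pi := by
    have := Real.two_le_pi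
    linarith
  have hF0 : Integrable rsf_omf_F := by simpa [iteratedDeriv_zero] using rsf_omf_int 0
  have hcF : Continuous rsf_omf_F := rsf_omf_smooth.continuous
  have hcH : Continuous (𝓕 rsf_omf_F) := VectorFourier.fourierIntegral_continuous
    Real.continuous_fourierChar (by fun_prop) hF0
  set A0 : ℝ := ∫ x : ℝ, ‖rsf_omf_F x‖ with hA0
  set A2 : ℝ := ∫ x : ℝ, ‖iteratedDeriv 2 rsf_omf_F x‖ with hA2
  have hb0 : ∀ v : ℝ, ‖𝓕 rsf_omf_F v‖ ≤ A0 := fun v =>
    VectorFourier.norm_fourierIntegral_le_integral_norm _ _ _ _ _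
  have hb2 : ∀ v : ℝ, (2 * Real.pi * v) ^ 2 * ‖𝓕 rsf_omf_F v‖ ≤ A2 := by
    intro v
    have h1 := Real.fourier_iteratedDeriv (N := 2) (n := 2)
      (contDiff_infty.1 rsf_omf_smooth 2) (fun n _ => rsf_omf_int n) le_rfl
    have h2 : ‖𝓕 (iteratedDeriv 2 rsf_omf_F) v‖ ≤ A2 :=
      VectorFourier.norm_fourierIntegral_le_integral_norm _ _ _ _ _
    rw [h1] at h2
    simp only at h2
    rw [norm_smul, norm_pow] at h2
    have h3 : ‖(2 * Real.pi * I * v : ℂ)‖ = |2 * Real.pi * v| := by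
      rw [show (2 * Real.pi * I * v : ℂ) = ((2 * Real.pi * v : ℝ) : ℂ) * I by push_cast; ring,
        norm_mul, Complex.norm_real, Complex.norm_I, mul_one, Real.norm_eq_abs]
    rw [h3, sq_abs] at h2
    exact h2
  have hA0' : 0 ≤ A0 := integral_nonneg fun _ => norm_nonneg _
  have hA2' : 0 ≤ A2 := integral_nonneg fun _ => norm_nonneg _
  have hb : ∀ v : ℝ, ‖𝓕 rsf_omf_F v‖ ≤ (A0 + A2) / (1 + (2 * Real.pi * v) ^ 2) := by
    intro v
    rw [le_div_iff₀ (by positivity)]
    nlinarith [hb0 v, hb2 v]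
  have hHint : Integrable (𝓕 rsf_omf_F) := by
    have h1 : Integrable (fun v : ℝ => (A0 + A2) * (1 + v ^ 2)⁻¹) :=
      integrable_inv_one_add_sq.const_mul _
    refine h1.mono' hcH.aestronglyMeasurable (ae_of_all _ fun v => ?_)
    refine le_trans (hb v) ?_
    rw [div_eq_mul_inv]
    apply mul_le_mul_of_nonneg_left _ (by positivity)
    apply inv_anti₀ (by positivity)
    have : v ^ 2 ≤ (2 * Real.pi * v) ^ 2 := by
      rw [mul_pow]
      have : (1 : ℝ) ≤ (2 * Real.pi) ^ 2 := one_le_pow₀ hpi1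
      nlinarith [sq_nonneg v]
    linarith
  have hinv : ∀ x : ℝ, rsf_omf_F x = ∫ v : ℝ, 𝓕 rsf_omf_F v * cexp ((2 * Real.pi * v * x : ℝ) * I) := by
    intro x
    have e1 := hF0.fourierInv_fourier_eq hHint (v := x) hcF.continuousAt
    rw [← e1, Real.fourierInv_eq']
    refine integral_congr_ae (ae_of_all _ fun v => ?_)
    simp only [smul_eq_mul, RCLike.inner_apply, conj_trivial]
    rw [mul_comm]
    congr 2
    push_cast
    ring
  refine ⟨fun y => ((1 / (2 * Real.pi) : ℝ) : ℂ) * 𝓕 rsf_omf_F (y / (2 * Real.pi)), ?_, ?_, ?_⟩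
  · exact continuous_const.mul (hcH.comp (continuous_id.div_const _))
  · refine ⟨A0 + A2, fun y => ?_⟩
    rw [norm_mul, Complex.norm_real, Real.norm_eq_abs, abs_of_pos (by positivity)]
    have h3 := hb (y / (2 * Real.pi))
    rw [show 2 * Real.pi * (y / (2 * Real.pi)) = y by field_simp] at h3
    have h6 : 1 / (2 * Real.pi) ≤ 1 := by
      rw [div_le_one hpi]
      exact hpi1
    calc 1 / (2 * Real.pi) * ‖𝓕 rsf_omf_F (y / (2 * Real.pi))‖
        ≤ 1 * ‖𝓕 rsf_omf_F (y / (2 * Real.pi))‖ := mul_le_mul_of_nonneg_right h6 (norm_nonneg _)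
      _ ≤ _ := by rw [one_mul]; exact h3
  · intro x
    have e0 : ((om x * Real.exp (-x / 2) : ℝ) : ℂ) = rsf_omf_F x := rfl
    rw [e0, hinv x]
    have e3 := Measure.integral_comp_div
      (fun v : ℝ => 𝓕 rsf_omf_F v * cexp ((2 * Real.pi * v * x : ℝ) * I)) (2 * Real.pi)
    rw [abs_of_pos hpi] at e3
    have e4 : ∫ v : ℝ, 𝓕 rsf_omf_F v * cexp ((2 * Real.pi * v * x : ℝ) * I) =
        ((1 / (2 * Real.pi) : ℝ) : ℂ) * ∫ y : ℝ, 𝓕 rsf_omf_F (y / (2 * Real.pi)) *
          cexp ((2 * Real.pi * (y / (2 * Real.pi)) * x : ℝ) * I) := by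
      rw [e3, Complex.real_smul, ← mul_assoc, ← Complex.ofReal_mul]
      rw [one_div_mul_cancel hpi.ne', Complex.ofReal_one, one_mul]
    rw [e4, ← integral_const_mul]
    refine integral_congr_ae (ae_of_all _ fun y => ?_)
    simp only
    have e5 : 2 * Real.pi * (y / (2 * Real.pi)) = y := by field_simp
    rw [e5]
    push_cast
    ring

end Pool.Agent.RSF

namespace Pool.Agent.RSF

alias om_fourier := om_fourier_pr

end Pool.Agent.RSF
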