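import Pool.Agent.Lib_helper39.RSF.Defs
import Pool.Agent.Lib_helper39.RSF.KG1
import Pool.Agent.Lib_helper39.RSF.PFM
import Pool.Agent.Lib_helper39.RSF.SMO2
import Pool.Agent.Lib_helper39.RSF.AMB2
import Pool.Agent.Lib_helper39.RSF.DSQ
import Pool.Agent.Lib_helper39.RSF.XLIM
import Pool.Agent.Lib_helper39.RSF.XR2
import Pool.Agent.Lib_helper39.RSF.DDE
import Pool.Agent.Lib_helper39.RSF.DFO
import Pool.Agent.Lib_helper39.RSF.DOD
import Pool.Agent.Lib_helper39.RSF.M4B
import Pool.Agent.Lib_helper39.RSF.FUI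
import Pool.Agent.Lib_helper39.RSA.XR6
import Pool.Agent.Lib_helper39.RSA.PRM
import Pool.Agent.Lib_helper39.RSA.SOB
import Pool.Agent.Lib_helper39.RSA.BNS
import Pool.Agent.Lib_helper39.RSA.QLA
import Pool.Agent.Lib_helper39.RSA.QLB
import Pool.Agent.Lib_helper39.RSA.PER
import Pool.Agent.Lib_helper39.RSA.AVE
import Pool.Agent.Lib_helper39.RSA.CUT1
import Pool.Agent.Lib_helper39.RSA.CUT2
import Pool.Agent.Lib_helper24.ABS.Endgame
import Pool.Agent.Lib_helper39.RSA.XRK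
import Pool.Agent.Lib_helper39.RSG.OMF
/-!
# Block XRS: the twisted transform of `fX` with the smooth cut-off
-/

namespace Pool.Agent.RSF

open Complex MeasureTheory Filter Topology
open Pool.Agent.RC (cc psi rv f0 IsRC Good gm pr DD)
open Pool.Agent.RSE
open scoped ContDiff

/-- The cut-off transform as an average of shifted transforms. -/
theorem rsf_xrs_rep {θ : ℝ → ℂ} (hθc : Continuous θ) (hθi : Integrable θ)
    (hθ : ∀ x : ℝ, ((om x * Real.exp (-x / 2) : ℝ) : ℂ) = ∫ s : ℝ, θ s * cexp (s * x * I))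
    {f : ℝ → ℝ} {L : ℝ} (hL : 1 ≤ L) (b t : ℝ)
    (hf : Integrable (fun u : ℝ => f u * Real.exp (u / (2 * L)))) :
    ∫ w : ℝ, ((f w * om ((w - b) / L) : ℝ) : ℂ) * cexp (t * w * I) =
      ((Real.exp (-b / (2 * L)) : ℝ) : ℂ) * ∫ s : ℝ, θ s * (cexp (-(s * b / L) * I) *
        Pool.Agent.SQS.hat (fun w => ((f w * Real.exp (w / (2 * L)) : ℝ) : ℂ)) (t + s / L)) := by
  have hL0 : 0 < L := by linarith
  set F : ℝ → ℂ := fun w => ((f w * Real.exp (w / (2 * L)) : ℝ) : ℂ) with hF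
  have hFi : Integrable F := hf.ofReal
  have e1 : ∀ w : ℝ, ((f w * om ((w - b) / L) : ℝ) : ℂ) * cexp (t * w * I) =
      ((Real.exp (-b / (2 * L)) : ℝ) : ℂ) * ∫ s : ℝ, (F w * θ s) *
        (cexp (s * ((w - b) / L : ℝ) * I) * cexp (t * w * I)) := by
    intro w
    have h1 : om ((w - b) / L) = Real.exp ((w - b) / (2 * L)) *
        (om ((w - b) / L) * Real.exp (-((w - b) / L) / 2)) := by
      have : Real.exp ((w - b) / (2 * L)) * Real.exp (-((w - b) / L) / 2) = 1 := by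
        rw [← Real.exp_add, ← Real.exp_zero]
        congr 1
        field_simp
        ring
      calc om ((w - b) / L) = om ((w - b) / L) *
            (Real.exp ((w - b) / (2 * L)) * Real.exp (-((w - b) / L) / 2)) := by
              rw [this, mul_one]
        _ = _ := by ring
    have h2 : Real.exp ((w - b) / (2 * L)) =
        Real.exp (-b / (2 * L)) * Real.exp (w / (2 * L)) := by
      rw [← Real.exp_add]
      congr 1
      ring
    have h3 : ∫ s : ℝ, (F w * θ s) *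
        (cexp (s * ((w - b) / L : ℝ) * I) * cexp (t * w * I)) =
        (F w * cexp (t * w * I)) * ∫ s : ℝ, θ s * cexp (s * ((w - b) / L : ℝ) * I) := by
      rw [← integral_const_mul]
      refine integral_congr_ae (ae_of_all _ fun s => ?_)
      show (F w * θ s) * (cexp (s * ((w - b) / L : ℝ) * I) * cexp (t * w * I)) =
        (F w * cexp (t * w * I)) * (θ s * cexp (s * ((w - b) / L : ℝ) * I))
      ring
    rw [h3, ← hθ]
    have h4 : f w * om ((w - b) / L) = Real.exp (-b / (2 * L)) *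
        ((f w * Real.exp (w / (2 * L))) *
        (om ((w - b) / L) * Real.exp (-((w - b) / L) / 2))) := by
      calc f w * om ((w - b) / L) = f w * (Real.exp ((w - b) / (2 * L)) *
            (om ((w - b) / L) * Real.exp (-((w - b) / L) / 2))) := by rw [← h1]
        _ = _ := by
          rw [h2]
          ring
    rw [h4, ofReal_mul, ofReal_mul (f w * Real.exp (w / (2 * L)))]
    simp only [hF]
    ring
  have hbd : ∀ x y : ℝ, ‖cexp (x * y * I)‖ = 1 := by
    intro x y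
    have e : (x * y * I : ℂ) = ((x * y : ℝ) : ℂ) * I := by push_cast; rfl
    rw [e, norm_exp_ofReal_mul_I]
  have hprod : Integrable (Function.uncurry fun w s : ℝ => (F w * θ s) *
      (cexp (s * ((w - b) / L : ℝ) * I) * cexp (t * w * I))) (volume.prod volume) := by
    have h1 := hFi.mul_prod hθi
    refine h1.mul_bdd (c := 1) ?_ (ae_of_all _ fun p => ?_)
    · refine Continuous.aestronglyMeasurable ?_
      fun_prop
    · rw [norm_mul, hbd, hbd, mul_one]
  simp only [e1]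
  rw [integral_const_mul, integral_integral_swap hprod]
  congr 1
  refine integral_congr_ae (ae_of_all _ fun s => ?_)
  show ∫ w : ℝ, (F w * θ s) * (cexp (s * ((w - b) / L : ℝ) * I) * cexp (t * w * I)) =
    θ s * (cexp (-(s * b / L) * I) * Pool.Agent.SQS.hat F (t + s / L))
  unfold Pool.Agent.SQS.hat
  rw [← integral_const_mul, ← integral_const_mul]
  refine integral_congr_ae (ae_of_all _ fun w => ?_)
  show (F w * θ s) * (cexp (s * ((w - b) / L : ℝ) * I) * cexp (t * w * I)) =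
    θ s * (cexp (-(s * b / L) * I) * (F w * cexp ((t + s / L : ℝ) * w * I)))
  have h5 : cexp (s * ((w - b) / L : ℝ) * I) * cexp (t * w * I) =
      cexp (-(s * b / L) * I) * cexp ((t + s / L : ℝ) * w * I) := by
    rw [← Complex.exp_add, ← Complex.exp_add]
    congr 1
    push_cast
    have : (L : ℂ) ≠ 0 := by exact_mod_cast hL0.ne'
    field_simp
    ring
  rw [h5]
  ring

theorem xrs_bound_pr {g Θ : ℝ → ℝ} (hg : Ker1 g) (hΘ : Cut Θ) : ∃ C : ℝ, 0 < C ∧
    ∀ (S : Finset ℕ) (R : ℕ) (L b t : ℝ), (∀ p ∈ S, p.Prime ∧ p ≠ 2) → 0 < R → 1 ≤ L →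
    avg S (fun T => ‖∫ w : ℝ, ((fX g Θ L R S T w * om ((w - b) / L) : ℝ) : ℂ) *
      cexp (t * w * I)‖ ^ 2) ≤ C * E1 R ^ 3 * Real.exp (-b / L) := by
  obtain ⟨θ, hθc, ⟨Cθ, hθb⟩, hθ⟩ := om_fourier
  have hθi : Integrable θ := by
    refine (integrable_inv_one_add_sq.const_mul Cθ).mono' hθc.aestronglyMeasurable
      (ae_of_all _ fun s => ?_)
    rw [← div_eq_mul_inv]
    exact hθb s
  obtain ⟨Cg, hCg, hgb⟩ := mg_bound hg
  obtain ⟨C6, hC6, h6⟩ := xr6_bound hΘ
  set N := ∫ s, ‖θ s‖ with hN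
  have hN0 : 0 ≤ N := integral_nonneg fun s => norm_nonneg _
  refine ⟨N * N * (Cg ^ 2 * C6) + 1, by positivity, fun S R L b t hS hR hL => ?_⟩
  have hL0 : 0 < L := by linarith
  have hSp : ∀ p ∈ S, p.Prime := fun p hp => (hS p hp).1
  have hE : 0 ≤ E1 R := by
    unfold E1
    exact Finset.prod_nonneg fun p _ => by positivity
  have hx := fun T => xr2_eq (Θ := Θ) hg S T hSp R L hL
  set F : Finset ℕ → ℝ → ℂ := fun T w =>
    ((fX g Θ L R S T w * Real.exp (w / (2 * L)) : ℝ) : ℂ) with hF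
  have hFi : ∀ T, Integrable (F T) := fun T => (hx T).2.1.ofReal
  have hhat : ∀ T τ, Pool.Agent.SQS.hat (F T) τ =
      Mg g L τ * (LT L S T τ * (ph1 Θ L R S T τ * ph2 Θ L R S T τ)) := fun T τ => (hx T).2.2 τ
  have hhc : ∀ T, Continuous (Pool.Agent.SQS.hat (F T)) := fun T => rse_xrk_hat_cont (hFi T)
  have hhb : ∀ T τ, ‖Pool.Agent.SQS.hat (F T) τ‖ ≤ ∫ w, ‖F T w‖ := by
    intro T τ
    unfold Pool.Agent.SQS.hat
    refine (norm_integral_le_integral_norm _).trans (le_of_eq ?_)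
    refine integral_congr_ae (ae_of_all _ fun w => ?_)
    show ‖F T w * cexp (τ * w * I)‖ = ‖F T w‖
    have e : (τ * w * I : ℂ) = ((τ * w : ℝ) : ℂ) * I := by push_cast; rfl
    rw [norm_mul, e, norm_exp_ofReal_mul_I, mul_one]
  -- one sample
  set A : Finset ℕ → ℝ → ℂ := fun T s => cexp (-(s * b / L) * I) *
    Pool.Agent.SQS.hat (F T) (t + s / L) with hA
  have hAc : ∀ T, Continuous (A T) := by
    intro T
    have := hhc T
    simp only [hA]
    fun_prop
  have hAn : ∀ T s, ‖A T s‖ = ‖Pool.Agent.SQS.hat (F T) (t + s / L)‖ := by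
    intro T s
    simp only [hA]
    have e : (-(s * b / L) * I : ℂ) = ((-(s * b / L) : ℝ) : ℂ) * I := by push_cast; rfl
    rw [norm_mul, e, norm_exp_ofReal_mul_I, one_mul]
  have hAb : ∀ T s, ‖A T s‖ ≤ ∫ w, ‖F T w‖ := fun T s => by
    rw [hAn]
    exact hhb T _
  have s1 : ∀ T, ‖∫ w : ℝ, ((fX g Θ L R S T w * om ((w - b) / L) : ℝ) : ℂ) *
      cexp (t * w * I)‖ ^ 2 ≤ Real.exp (-b / L) * N * (1 * ∫ s, ‖θ s‖ * ‖A T s‖ ^ 2) := by
    intro T
    rw [rsf_xrs_rep hθc hθi hθ hL b t (hx T).2.1, norm_mul, mul_pow, norm_real,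
      Real.norm_of_nonneg (Real.exp_pos _).le]
    have e3 : Real.exp (-b / (2 * L)) ^ 2 = Real.exp (-b / L) := by
      rw [← Real.exp_nat_mul]
      congr 1
      push_cast
      field_simp
    rw [e3, mul_assoc]
    refine mul_le_mul_of_nonneg_left ?_ (Real.exp_pos _).le
    rw [one_mul]
    exact rse_xr6_cs hθi (hAc T) (hAb T)
  have s2 : avg S (fun T => 1 * ∫ s, ‖θ s‖ * ‖A T s‖ ^ 2) ≤
      ∫ s, ‖θ s‖ * (Cg ^ 2 * C6 * E1 R ^ 3) := by
    refine rse_xr6_avg S hθi (fun _ => 1) (fun T s => ‖A T s‖ ^ 2)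
      (fun T => (hAc T).norm.pow 2)
      (fun T => ⟨(∫ w, ‖F T w‖) ^ 2, fun s => by
        rw [abs_of_nonneg (by positivity)]
        exact pow_le_pow_left₀ (norm_nonneg _) (hAb T s) 2⟩)
      (fun _ => Cg ^ 2 * C6 * E1 R ^ 3) (hθi.norm.mul_const _) (fun s => ?_)
    have e2 : avg S (fun T => 1 * ‖A T s‖ ^ 2) = ‖Mg g L (t + s / L)‖ ^ 2 *
        avg S (fun T => ‖LT L S T (t + s / L) *
          (ph1 Θ L R S T (t + s / L) * ph2 Θ L R S T (t + s / L))‖ ^ 2) := by
      rw [← rse_xrk_avg_mul]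
      congr 1
      funext T
      rw [one_mul, hAn, hhat, norm_mul, mul_pow]
    rw [e2]
    have h7 : ‖Mg g L (t + s / L)‖ ≤ Cg := by
      refine (hgb L (t + s / L) hL).trans (div_le_self hCg.le ?_)
      have := sq_nonneg (t + s / L)
      linarith
    have h8 := h6 S R L (t + s / L) hS hR hL
    have h9 := pow_le_pow_left₀ (norm_nonneg _) h7 2
    have h12 : 0 ≤ C6 * E1 R ^ 3 := by positivity
    calc _ ≤ ‖Mg g L (t + s / L)‖ ^ 2 * (C6 * E1 R ^ 3) :=
          mul_le_mul_of_nonneg_left h8 (by positivity)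
      _ ≤ Cg ^ 2 * (C6 * E1 R ^ 3) := mul_le_mul_of_nonneg_right h9 h12
      _ = _ := by ring
  rw [integral_mul_const] at s2
  refine (rse_xrk_avg_mono S s1).trans ?_
  rw [rse_xrk_avg_mul]
  have hE3 : 0 ≤ E1 R ^ 3 := by positivity
  have hexp := (Real.exp_pos (-b / L)).le
  calc Real.exp (-b / L) * N * avg S (fun T => 1 * ∫ s, ‖θ s‖ * ‖A T s‖ ^ 2)
      ≤ Real.exp (-b / L) * N * (N * (Cg ^ 2 * C6 * E1 R ^ 3)) :=
        mul_le_mul_of_nonneg_left s2 (by positivity)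
    _ = N * N * (Cg ^ 2 * C6) * (E1 R ^ 3 * Real.exp (-b / L)) := by ring
    _ ≤ (N * N * (Cg ^ 2 * C6) + 1) * (E1 R ^ 3 * Real.exp (-b / L)) :=
        mul_le_mul_of_nonneg_right (by linarith) (by positivity)
    _ = _ := by ring

end Pool.Agent.RSF

namespace Pool.Agent.RSF

alias xrs_bound := xrs_bound_pr

end Pool.Agent.RSF
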