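import Pool.Agent.Lib_helper39.RSF.Defs
import Pool.Agent.Lib_helper39.RSF.KG1
import Pool.Agent.Lib_helper39.RSF.PFM
import Pool.Agent.Lib_helper39.RSF.SMO2
import Pool.Agent.Lib_helper39.RSF.AMB2
import Pool.Agent.Lib_helper39.RSF.DSQ
import Pool.Agent.Lib_helper39.RSF.XLIM
import Pool.Agent.Lib_helper39.RSF.XR2
import Pool.Agent.Lib_helper39.RSF.DDE
import Pool.Agent.Lib_helper39.RSF.DFO
import Pool.Agent.Lib_helper39.RSF.DOD
import Pool.Agent.Lib_helper39.RSF.M4B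
import Pool.Agent.Lib_helper39.RSF.FUI
import Pool.Agent.Lib_helper39.RSA.XR6
import Pool.Agent.Lib_helper39.RSA.PRM
import Pool.Agent.Lib_helper39.RSA.SOB
import Pool.Agent.Lib_helper39.RSA.BNS
import Pool.Agent.Lib_helper39.RSA.QLA
import Pool.Agent.Lib_helper39.RSA.QLB
import Pool.Agent.Lib_helper39.RSA.PER
import Pool.Agent.Lib_helper39.RSA.AVE
import Pool.Agent.Lib_helper39.RSA.CUT1
import Pool.Agent.Lib_helper39.RSA.CUT2
import Pool.Agent.Lib_helper24.ABS.Endgame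
import Pool.Agent.Lib_helper39.RSG.DGC
import Pool.Agent.Lib_helper39.RSG.XRS
/-!
# RSF, block TLM; cites xrs_bound, dg2_cont
-/

namespace Pool.Agent.RSF

open Complex MeasureTheory Filter Topology
open Pool.Agent.RC (cc psi rv f0 IsRC Good gm pr DD)
open Pool.Agent.RSE
open scoped ContDiff

theorem rsf_tlm_om (x : ℝ) : 0 ≤ om x ∧ om x ≤ 1 ∧ (x ≤ 0 → om x = 0) :=
  ⟨Real.smoothTransition.nonneg x, Real.smoothTransition.le_one x,
    fun h => Real.smoothTransition.zero_of_nonpos h⟩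

theorem rsf_tlm_om_cont : Continuous om := Real.smoothTransition.continuous

/-- the dominating function -/
noncomputable def rsf_tlm_h (b w : ℝ) : ℝ := (Set.Ioi b).indicator (fun u : ℝ => Real.exp (-1 * u)) w

theorem rsf_tlm_h_int (b : ℝ) : Integrable (rsf_tlm_h b) :=
  (integrable_indicator_iff measurableSet_Ioi).2
    (exp_neg_integrableOn_Ioi b (by norm_num : (0 : ℝ) < 1))

theorem rsf_tlm_h_nonneg (b w : ℝ) : 0 ≤ rsf_tlm_h b w := by
  unfold rsf_tlm_h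
  exact Set.indicator_nonneg (fun _ _ => (Real.exp_pos _).le) w

theorem rsf_tlm_om_h {b L : ℝ} (hL : 1 ≤ L) (w : ℝ) :
    om ((w - b) / L) * Real.exp (-w) ≤ rsf_tlm_h b w := by
  unfold rsf_tlm_h
  by_cases hw : w ∈ Set.Ioi b
  · rw [Set.indicator_of_mem hw]
    have h1 := rsf_tlm_om ((w - b) / L)
    rw [neg_one_mul]
    have h2 := Real.exp_pos (-w)
    nlinarith [h1.2.1]
  · rw [Set.indicator_of_notMem hw]
    have h1 : w ≤ b := not_lt.1 hw
    rw [(rsf_tlm_om _).2.2 (div_nonpos_of_nonpos_of_nonneg (by linarith) (by linarith)), zero_mul]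

/-- bound of the random model -/
theorem rsf_tlm_fX {g : ℝ → ℝ} (hg : Ker1 g) (Θ : ℝ → ℝ) (L : ℝ) (R : ℕ) : ∃ B : ℝ, 0 ≤ B ∧
    ∀ (S T : Finset ℕ) (w : ℝ), |fX g Θ L R S T w| ≤ B * Real.exp (-w) := by
  obtain ⟨C, hC⟩ := rse_smo1_fast0 hg 1 (by norm_num)
  set D : ℝ := |C| * ∑' n : ℕ, 1 / (n : ℝ) ^ (3 / 2 : ℝ) with hD
  have hD0 : 0 ≤ D := by
    have : 0 ≤ ∑' n : ℕ, 1 / (n : ℝ) ^ (3 / 2 : ℝ) := tsum_nonneg fun n => by positivity
    positivity
  have hJ : ∀ (S T : Finset ℕ) (u : ℝ),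
      |∑' n : ℕ, xS S T n / √(n : ℝ) * g (Real.log n + u)| ≤ D * Real.exp (-u) := by
    intro S T u
    refine rse_smo2_tsum hC (fun n => xS S T n / √(n : ℝ)) (fun n => ?_) ?_ u
    · rw [abs_div, abs_of_nonneg (Real.sqrt_nonneg _)]
      exact div_le_div_of_nonneg_right (rse_xlim_xS_le S T n) (Real.sqrt_nonneg _)
    · rw [rse_xlim_xS_zero, zero_div]
  refine ⟨∑ k ∈ KL L, ∑ l ∈ KL L, |be Θ L R k * be Θ L R l| / √((k : ℝ) * l) *
    (D * Real.exp (-(Real.log k - Real.log l))), Finset.sum_nonneg fun k _ =>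
      Finset.sum_nonneg fun l _ => by positivity, fun S T w => ?_⟩
  unfold fX
  rw [Finset.sum_mul]
  refine (Finset.abs_sum_le_sum_abs _ _).trans (Finset.sum_le_sum fun k _ => ?_)
  rw [Finset.sum_mul]
  refine (Finset.abs_sum_le_sum_abs _ _).trans (Finset.sum_le_sum fun l _ => ?_)
  rw [abs_mul, abs_div, abs_mul (be Θ L R k * be Θ L R l) (xS S T (k * l)),
    abs_of_nonneg (Real.sqrt_nonneg _)]
  have h1 : |be Θ L R k * be Θ L R l| * |xS S T (k * l)| / √((k : ℝ) * l) ≤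
      |be Θ L R k * be Θ L R l| / √((k : ℝ) * l) := by
    refine div_le_div_of_nonneg_right ?_ (Real.sqrt_nonneg _)
    calc _ ≤ |be Θ L R k * be Θ L R l| * 1 :=
          mul_le_mul_of_nonneg_left (rse_xlim_xS_le S T _) (abs_nonneg _)
      _ = _ := mul_one _
  calc _ ≤ |be Θ L R k * be Θ L R l| / √((k : ℝ) * l) *
        (D * Real.exp (-(w + Real.log k - Real.log l))) :=
        mul_le_mul h1 (hJ S T _) (abs_nonneg _) (by positivity)
    _ = _ := by
        rw [show -(w + Real.log k - Real.log l) = -(Real.log k - Real.log l) + -w by ring,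
          Real.exp_add]
        ring

theorem rsf_tlm_fX_cont {g : ℝ → ℝ} (hg : Ker1 g) (Θ : ℝ → ℝ) (L : ℝ) (R : ℕ) (S T : Finset ℕ)
    (hS : ∀ p ∈ S, p.Prime) : Continuous (fX g Θ L R S T) := by
  have h1 : fX g Θ L R S T = fun u => ∑ k ∈ KL L, ∑ l ∈ KL L,
      be Θ L R k * be Θ L R l * xS S T (k * l) / √((k : ℝ) * l) *
        rse_xr2_J g S T (u + (Real.log k - Real.log l)) := funext fun u => rse_xr2_fX g Θ L R S T u
  rw [h1]
  have h2 := rse_xr2_J_cont hg S T hS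
  fun_prop

theorem rsf_tlm_exp (t u v : ℝ) : ‖cexp (t * ((u : ℂ) - (v : ℂ)) * I)‖ = 1 := by
  rw [show (t : ℂ) * ((u : ℂ) - (v : ℂ)) * I = ((t * (u - v) : ℝ) : ℂ) * I by push_cast; ring]
  exact Complex.norm_exp_ofReal_mul_I _

/-- one term -/
theorem rsf_tlm_one {f : ℝ → ℝ} (hf : Continuous f) {B b L t : ℝ} (hB : 0 ≤ B) (hL : 1 ≤ L)
    (hb : ∀ w, |f w| ≤ B * Real.exp (-w)) :
    Integrable (fun p : ℝ × ℝ => ((om ((p.1 - b) / L) * om ((p.2 - b) / L) *
      (f p.1 * f p.2) : ℝ) : ℂ) * cexp (t * (p.1 - p.2) * I)) ∧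
    ∫ p : ℝ × ℝ, ((om ((p.1 - b) / L) * om ((p.2 - b) / L) *
      (f p.1 * f p.2) : ℝ) : ℂ) * cexp (t * (p.1 - p.2) * I) =
      ((‖∫ w : ℝ, ((f w * om ((w - b) / L) : ℝ) : ℂ) * cexp (t * w * I)‖ ^ 2 : ℝ) : ℂ) := by
  set Φ : ℝ → ℂ := fun w => ((f w * om ((w - b) / L) : ℝ) : ℂ) * cexp (t * w * I) with hΦ
  have hom := rsf_tlm_om_cont
  have hΦc : Continuous Φ := by
    simp only [hΦ]
    fun_prop
  have hexp : ∀ u : ℝ, ‖cexp (t * u * I)‖ = 1 := fun u => by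
    rw [show (t : ℂ) * u * I = ((t * u : ℝ) : ℂ) * I by push_cast; ring]
    exact Complex.norm_exp_ofReal_mul_I _
  have hΦi : Integrable Φ := by
    refine ((rsf_tlm_h_int b).const_mul B).mono' hΦc.aestronglyMeasurable
      (Eventually.of_forall fun w => ?_)
    simp only [hΦ]
    rw [norm_mul, hexp, mul_one, Complex.norm_real, Real.norm_eq_abs, abs_mul,
      abs_of_nonneg (rsf_tlm_om _).1]
    calc |f w| * om ((w - b) / L) ≤ B * Real.exp (-w) * om ((w - b) / L) :=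
          mul_le_mul_of_nonneg_right (hb w) (rsf_tlm_om _).1
      _ = B * (om ((w - b) / L) * Real.exp (-w)) := by ring
      _ ≤ B * rsf_tlm_h b w := mul_le_mul_of_nonneg_left (rsf_tlm_om_h hL w) hB
  have hΨi : Integrable (fun w => starRingEnd ℂ (Φ w)) := by
    have h1 := (RCLike.conjCLE (K := ℂ)).toContinuousLinearMap.integrable_comp hΦi
    exact h1
  have e : ∀ p : ℝ × ℝ, ((om ((p.1 - b) / L) * om ((p.2 - b) / L) *
      (f p.1 * f p.2) : ℝ) : ℂ) * cexp (t * (p.1 - p.2) * I) =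
      Φ p.1 * starRingEnd ℂ (Φ p.2) := by
    intro p
    simp only [hΦ]
    rw [map_mul, Complex.conj_ofReal, ← Complex.exp_conj]
    have h1 : starRingEnd ℂ ((t : ℂ) * (p.2 : ℂ) * I) = -((t : ℂ) * (p.2 : ℂ) * I) := by
      rw [map_mul, map_mul, Complex.conj_ofReal, Complex.conj_ofReal, Complex.conj_I]
      ring
    rw [h1]
    have h2 : cexp ((t : ℂ) * ((p.1 : ℂ) - (p.2 : ℂ)) * I) =
        cexp ((t : ℂ) * (p.1 : ℂ) * I) * cexp (-((t : ℂ) * (p.2 : ℂ) * I)) := by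
      rw [← Complex.exp_add]
      congr 1
      ring
    rw [h2]
    push_cast
    ring
  simp only [e]
  refine ⟨Integrable.mul_prod hΦi hΨi, ?_⟩
  have h3 := integral_prod_mul (μ := volume) (ν := volume) Φ (fun w => starRingEnd ℂ (Φ w))
  have h4 : ∫ w, starRingEnd ℂ (Φ w) = starRingEnd ℂ (∫ w, Φ w) := integral_conj
  rw [h4, Complex.mul_conj, Complex.normSq_eq_norm_sq] at h3
  exact h3

/-- TLM (cites XRS, DGC; XLIM). -/
theorem tlm_bound_pr {g Θ : ℝ → ℝ} (hg : Ker1 g) (hΘ : Cut Θ) : ∃ C : ℝ, 0 < C ∧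
    ∀ (R m : ℕ) (L b t : ℝ), 0 < R → 0 < m → 1 ≤ L →
    Integrable (fun p : ℝ × ℝ => om ((p.1 - b) / L) * om ((p.2 - b) / L) *
      Dg g Θ L R m p.1 p.2) ∧
    ‖∫ p : ℝ × ℝ, ((om ((p.1 - b) / L) * om ((p.2 - b) / L) *
      Dg g Θ L R m p.1 p.2 : ℝ) : ℂ) * cexp (t * (p.1 - p.2) * I)‖ ≤
        C * E1 R ^ 3 * Real.exp (-b / L) := by
  obtain ⟨C, hC, hxrs⟩ := xrs_bound hg hΘ
  refine ⟨C, hC, fun R m L b t hR hm hL => ?_⟩
  obtain ⟨B, hB, hfX⟩ := rsf_tlm_fX hg Θ L R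
  have hom := rsf_tlm_om_cont
  have hSp : ∀ Y, ∀ p ∈ SY m Y, p.Prime := fun Y p hp => by
    unfold SY pr at hp
    exact (Finset.mem_filter.1 (Finset.mem_filter.1 hp).1).2
  have hS2 : ∀ Y, ∀ p ∈ SY m Y, p.Prime ∧ p ≠ 2 := fun Y p hp => ⟨hSp Y p hp, by
    unfold SY at hp
    exact (Finset.mem_filter.1 hp).2.1⟩
  set A : ℕ → ℝ × ℝ → ℝ := fun Y p => avg (SY m Y)
    (fun T => fX g Θ L R (SY m Y) T p.1 * fX g Θ L R (SY m Y) T p.2) with hA
  have hlim : ∀ p : ℝ × ℝ, Tendsto (fun Y => A Y p) atTop (𝓝 (Dg g Θ L R m p.1 p.2)) :=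
    fun p => x_lim hg L R m hm p.1 p.2
  set H : ℝ × ℝ → ℝ := fun p => B ^ 2 * (rsf_tlm_h b p.1 * rsf_tlm_h b p.2) with hH
  have hHi : Integrable H :=
    (Integrable.mul_prod (rsf_tlm_h_int b) (rsf_tlm_h_int b)).const_mul _
  -- the bound
  have hAb : ∀ (Y : ℕ) (p : ℝ × ℝ), |A Y p| ≤ B ^ 2 * (Real.exp (-p.1) * Real.exp (-p.2)) := by
    intro Y p
    simp only [hA]
    unfold avg
    rw [abs_div, abs_of_pos (by positivity : (0 : ℝ) < 2 ^ (SY m Y).card),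
      div_le_iff₀ (by positivity)]
    refine (Finset.abs_sum_le_sum_abs _ _).trans ?_
    calc ∑ T ∈ (SY m Y).powerset, |fX g Θ L R (SY m Y) T p.1 * fX g Θ L R (SY m Y) T p.2|
        ≤ ∑ _T ∈ (SY m Y).powerset, B ^ 2 * (Real.exp (-p.1) * Real.exp (-p.2)) := by
          refine Finset.sum_le_sum fun T _ => ?_
          rw [abs_mul]
          calc _ ≤ (B * Real.exp (-p.1)) * (B * Real.exp (-p.2)) :=
                mul_le_mul (hfX _ _ _) (hfX _ _ _) (abs_nonneg _) (by positivity)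
            _ = _ := by ring
      _ = B ^ 2 * (Real.exp (-p.1) * Real.exp (-p.2)) * 2 ^ (SY m Y).card := by
          rw [Finset.sum_const, Finset.card_powerset, nsmul_eq_mul]
          push_cast
          ring
  have hgen : ∀ (x : ℝ) (p : ℝ × ℝ), |x| ≤ B ^ 2 * (Real.exp (-p.1) * Real.exp (-p.2)) →
      |om ((p.1 - b) / L) * om ((p.2 - b) / L) * x| ≤ H p := by
    intro x p hx
    have o1 := (rsf_tlm_om ((p.1 - b) / L)).1
    have o2 := (rsf_tlm_om ((p.2 - b) / L)).1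
    rw [abs_mul, abs_of_nonneg (mul_nonneg o1 o2)]
    calc _ ≤ om ((p.1 - b) / L) * om ((p.2 - b) / L) *
          (B ^ 2 * (Real.exp (-p.1) * Real.exp (-p.2))) :=
          mul_le_mul_of_nonneg_left hx (mul_nonneg o1 o2)
      _ = B ^ 2 * ((om ((p.1 - b) / L) * Real.exp (-p.1)) *
          (om ((p.2 - b) / L) * Real.exp (-p.2))) := by ring
      _ ≤ B ^ 2 * (rsf_tlm_h b p.1 * rsf_tlm_h b p.2) := by
          refine mul_le_mul_of_nonneg_left ?_ (by positivity)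
          exact mul_le_mul (rsf_tlm_om_h hL _) (rsf_tlm_om_h hL _) (by positivity)
            (rsf_tlm_h_nonneg _ _)
  have hDb : ∀ p : ℝ × ℝ, |Dg g Θ L R m p.1 p.2| ≤
      B ^ 2 * (Real.exp (-p.1) * Real.exp (-p.2)) := fun p =>
    le_of_tendsto (hlim p).abs (Eventually.of_forall fun Y => hAb Y p)
  have hDc := dg2_cont hg Θ L R m
  have hint : Integrable (fun p : ℝ × ℝ => om ((p.1 - b) / L) * om ((p.2 - b) / L) *
      Dg g Θ L R m p.1 p.2) := by
    refine hHi.mono' ?_ (Eventually.of_forall fun p => ?_)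
    · apply Continuous.aestronglyMeasurable
      fun_prop
    · rw [Real.norm_eq_abs]
      exact hgen _ p (hDb p)
  refine ⟨hint, ?_⟩
  -- the value for `Y`
  have hval : ∀ Y : ℕ, Integrable (fun p : ℝ × ℝ => ((om ((p.1 - b) / L) * om ((p.2 - b) / L) *
      A Y p : ℝ) : ℂ) * cexp (t * (p.1 - p.2) * I)) ∧
      ∫ p : ℝ × ℝ, ((om ((p.1 - b) / L) * om ((p.2 - b) / L) *
      A Y p : ℝ) : ℂ) * cexp (t * (p.1 - p.2) * I) =
      ((avg (SY m Y) (fun T => ‖∫ w : ℝ, ((fX g Θ L R (SY m Y) T w * om ((w - b) / L) : ℝ) : ℂ) *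
        cexp (t * w * I)‖ ^ 2) : ℝ) : ℂ) := by
    intro Y
    have h1 : ∀ T : Finset ℕ, _ := fun T =>
      rsf_tlm_one (f := fX g Θ L R (SY m Y) T) (b := b) (L := L) (t := t)
        (rsf_tlm_fX_cont hg Θ L R (SY m Y) T (hSp Y)) hB hL (hfX (SY m Y) T)
    have e : ∀ p : ℝ × ℝ, ((om ((p.1 - b) / L) * om ((p.2 - b) / L) *
        A Y p : ℝ) : ℂ) * cexp (t * (p.1 - p.2) * I) =
        (∑ T ∈ (SY m Y).powerset, ((om ((p.1 - b) / L) * om ((p.2 - b) / L) *
        (fX g Θ L R (SY m Y) T p.1 * fX g Θ L R (SY m Y) T p.2) : ℝ) : ℂ) *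
          cexp (t * (p.1 - p.2) * I)) / 2 ^ (SY m Y).card := by
      intro p
      rw [← Finset.sum_mul, ← Complex.ofReal_sum, ← Finset.mul_sum]
      simp only [hA]
      unfold avg
      push_cast
      ring
    simp only [e]
    constructor
    · exact (integrable_finsetSum _ fun T _ => (h1 T).1).div_const _
    · rw [integral_div, integral_finsetSum _ fun T _ => (h1 T).1]
      unfold avg
      rw [Finset.sum_congr rfl fun T _ => (h1 T).2]
      push_cast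
      rfl
  have htend : Tendsto (fun Y : ℕ => ∫ p : ℝ × ℝ, ((om ((p.1 - b) / L) * om ((p.2 - b) / L) *
      A Y p : ℝ) : ℂ) * cexp (t * (p.1 - p.2) * I)) atTop
      (𝓝 (∫ p : ℝ × ℝ, ((om ((p.1 - b) / L) * om ((p.2 - b) / L) *
        Dg g Θ L R m p.1 p.2 : ℝ) : ℂ) * cexp (t * (p.1 - p.2) * I))) := by
    refine tendsto_integral_of_dominated_convergence H
      (fun Y => (hval Y).1.aestronglyMeasurable) hHi (fun Y => Eventually.of_forall fun p => ?_)
      (Eventually.of_forall fun p => ?_)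
    · rw [norm_mul, rsf_tlm_exp, mul_one, Complex.norm_real, Real.norm_eq_abs]
      exact hgen _ p (hAb Y p)
    · refine Tendsto.mul_const _ ?_
      exact (Complex.continuous_ofReal.tendsto _).comp ((hlim p).const_mul _)
  refine le_of_tendsto htend.norm (Eventually.of_forall fun Y => ?_)
  rw [(hval Y).2, Complex.norm_real, Real.norm_eq_abs, abs_of_nonneg]
  · exact hxrs (SY m Y) R L b t (hS2 Y) hR hL
  · unfold avg
    positivity

end Pool.Agent.RSF

namespace Pool.Agent.RSF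

alias tlm_bound := tlm_bound_pr

end Pool.Agent.RSF
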