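import Pool.Agent.Lib_helper39.RSF.Defs
import Pool.Agent.Lib_helper39.RSF.KG1
import Pool.Agent.Lib_helper39.RSF.PFM
import Pool.Agent.Lib_helper39.RSF.SMO2
import Pool.Agent.Lib_helper39.RSF.AMB2
import Pool.Agent.Lib_helper39.RSF.DSQ
import Pool.Agent.Lib_helper39.RSF.XLIM
import Pool.Agent.Lib_helper39.RSF.XR2
import Pool.Agent.Lib_helper39.RSF.DDE
import Pool.Agent.Lib_helper39.RSF.DFO
import Pool.Agent.Lib_helper39.RSF.DOD
import Pool.Agent.Lib_helper39.RSF.M4B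
import Pool.Agent.Lib_helper39.RSF.FUI
import Pool.Agent.Lib_helper39.RSA.XR6
import Pool.Agent.Lib_helper39.RSA.PRM
import Pool.Agent.Lib_helper39.RSA.SOB
import Pool.Agent.Lib_helper39.RSA.BNS
import Pool.Agent.Lib_helper39.RSA.QLA
import Pool.Agent.Lib_helper39.RSA.QLB
import Pool.Agent.Lib_helper39.RSA.PER
import Pool.Agent.Lib_helper39.RSA.AVE
import Pool.Agent.Lib_helper39.RSA.CUT1
import Pool.Agent.Lib_helper39.RSA.CUT2
import Pool.Agent.Lib_helper24.ABS.Endgame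
import Pool.Agent.Lib_helper39.RSG.TLM
/-!
# RSF, block T2A; cites tlm_bound
-/

namespace Pool.Agent.RSF

open Complex MeasureTheory Filter Topology
open Pool.Agent.RC (cc psi rv f0 IsRC Good gm pr DD)
open Pool.Agent.RSE
open scoped ContDiff

theorem rsf_t2a_om (x : ℝ) : 0 ≤ om x ∧ om x ≤ 1 ∧ (x ≤ 0 → om x = 0) :=
  ⟨Real.smoothTransition.nonneg x, Real.smoothTransition.le_one x,
    fun h => Real.smoothTransition.zero_of_nonpos h⟩

theorem rsf_t2a_om_cont : Continuous om := Real.smoothTransition.continuous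

/-- the dominating functions -/
noncomputable def rsf_t2a_q (a b w : ℝ) : ℝ :=
  (Set.Ioi b).indicator (fun u : ℝ => Real.exp (-a * u)) w

theorem rsf_t2a_q_int {a : ℝ} (ha : 0 < a) (b : ℝ) : Integrable (rsf_t2a_q a b) :=
  (integrable_indicator_iff measurableSet_Ioi).2 (exp_neg_integrableOn_Ioi b ha)

theorem rsf_t2a_q_val {a : ℝ} (ha : 0 < a) (b : ℝ) :
    ∫ w, rsf_t2a_q a b w = Real.exp (-a * b) / a := by
  unfold rsf_t2a_q
  rw [integral_indicator measurableSet_Ioi, integral_exp_mul_Ioi (by linarith) b]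
  field_simp

theorem rsf_t2a_q_nonneg (a b w : ℝ) : 0 ≤ rsf_t2a_q a b w := by
  unfold rsf_t2a_q
  exact Set.indicator_nonneg (fun _ _ => (Real.exp_pos _).le) w

theorem rsf_t2a_om_q (a : ℝ) {b L : ℝ} (hL : 0 < L) (w : ℝ) :
    om ((w - b) / L) * Real.exp (-a * w) ≤ rsf_t2a_q a b w := by
  unfold rsf_t2a_q
  by_cases hw : w ∈ Set.Ioi b
  · rw [Set.indicator_of_mem hw]
    have h1 := rsf_t2a_om ((w - b) / L)
    have h2 := Real.exp_pos (-a * w)
    nlinarith [h1.2.1]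
  · rw [Set.indicator_of_notMem hw]
    have h1 : w ≤ b := not_lt.1 hw
    rw [(rsf_t2a_om _).2.2 (div_nonpos_of_nonpos_of_nonneg (by linarith) hL.le), zero_mul]

theorem rsf_t2a_exp (t u v : ℝ) : ‖cexp (t * ((u : ℂ) - (v : ℂ)) * I)‖ = 1 := by
  rw [show (t : ℂ) * ((u : ℂ) - (v : ℂ)) * I = ((t * (u - v) : ℝ) : ℂ) * I by push_cast; ring]
  exact Complex.norm_exp_ofReal_mul_I _

/-- one term -/
theorem rsf_t2a_one {f : ℝ → ℝ} (hf : Continuous f) {B b L t : ℝ} (hB : 0 ≤ B) (hL : 0 < L)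
    (hb : ∀ w, |f w| ≤ B * Real.exp (-w)) :
    Integrable (fun p : ℝ × ℝ => ((om ((p.1 - b) / L) * om ((p.2 - b) / L) *
      (f p.1 * f p.2) : ℝ) : ℂ) * cexp (t * (p.1 - p.2) * I)) ∧
    ∫ p : ℝ × ℝ, ((om ((p.1 - b) / L) * om ((p.2 - b) / L) *
      (f p.1 * f p.2) : ℝ) : ℂ) * cexp (t * (p.1 - p.2) * I) =
      ((‖∫ w : ℝ, ((f w * om ((w - b) / L) : ℝ) : ℂ) * cexp (t * w * I)‖ ^ 2 : ℝ) : ℂ) := by
  set Φ : ℝ → ℂ := fun w => ((f w * om ((w - b) / L) : ℝ) : ℂ) * cexp (t * w * I) with hΦ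
  have hom := rsf_t2a_om_cont
  have hΦc : Continuous Φ := by
    simp only [hΦ]
    fun_prop
  have hexp : ∀ u : ℝ, ‖cexp (t * u * I)‖ = 1 := fun u => by
    rw [show (t : ℂ) * u * I = ((t * u : ℝ) : ℂ) * I by push_cast; ring]
    exact Complex.norm_exp_ofReal_mul_I _
  have hΦi : Integrable Φ := by
    refine ((rsf_t2a_q_int one_pos b).const_mul B).mono' hΦc.aestronglyMeasurable
      (Eventually.of_forall fun w => ?_)
    simp only [hΦ]
    rw [norm_mul, hexp, mul_one, Complex.norm_real, Real.norm_eq_abs, abs_mul,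
      abs_of_nonneg (rsf_t2a_om _).1]
    calc |f w| * om ((w - b) / L) ≤ B * Real.exp (-w) * om ((w - b) / L) :=
          mul_le_mul_of_nonneg_right (hb w) (rsf_t2a_om _).1
      _ = B * (om ((w - b) / L) * Real.exp (-1 * w)) := by rw [neg_one_mul]; ring
      _ ≤ B * rsf_t2a_q 1 b w := mul_le_mul_of_nonneg_left (rsf_t2a_om_q 1 hL w) hB
  have hΨi : Integrable (fun w => starRingEnd ℂ (Φ w)) := by
    have h1 := (RCLike.conjCLE (K := ℂ)).toContinuousLinearMap.integrable_comp hΦi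
    exact h1
  have e : ∀ p : ℝ × ℝ, ((om ((p.1 - b) / L) * om ((p.2 - b) / L) *
      (f p.1 * f p.2) : ℝ) : ℂ) * cexp (t * (p.1 - p.2) * I) =
      Φ p.1 * starRingEnd ℂ (Φ p.2) := by
    intro p
    simp only [hΦ]
    rw [map_mul, Complex.conj_ofReal, ← Complex.exp_conj]
    have h1 : starRingEnd ℂ ((t : ℂ) * (p.2 : ℂ) * I) = -((t : ℂ) * (p.2 : ℂ) * I) := by
      rw [map_mul, map_mul, Complex.conj_ofReal, Complex.conj_ofReal, Complex.conj_I]
      ring
    rw [h1]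
    have h2 : cexp ((t : ℂ) * ((p.1 : ℂ) - (p.2 : ℂ)) * I) =
        cexp ((t : ℂ) * (p.1 : ℂ) * I) * cexp (-((t : ℂ) * (p.2 : ℂ) * I)) := by
      rw [← Complex.exp_add]
      congr 1
      ring
    rw [h2]
    push_cast
    ring
  simp only [e]
  refine ⟨Integrable.mul_prod hΦi hΨi, ?_⟩
  have h3 := integral_prod_mul (μ := volume) (ν := volume) Φ (fun w => starRingEnd ℂ (Φ w))
  have h4 : ∫ w, starRingEnd ℂ (Φ w) = starRingEnd ℂ (∫ w, Φ w) := integral_conj
  rw [h4, Complex.mul_conj, Complex.normSq_eq_norm_sq] at h3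
  exact h3

theorem rsf_t2a_fam {c : ℕ} {K : ℝ} (hK : 1 ≤ K) {m : ℕ} (hm : m ∈ blk8 c K) :
    m ∈ fam c K ∧ 1 ≤ (m : ℝ) / K ∧ (m : ℝ) / K ≤ 2 := by
  have hK0 : 0 < K := by linarith
  unfold blk8 at hm
  rw [Finset.mem_filter] at hm
  obtain ⟨-, h1, h2, h3⟩ := hm
  refine ⟨?_, ?_, ?_⟩
  · unfold fam
    rw [Finset.mem_filter, Finset.mem_range]
    refine ⟨?_, h3⟩
    have : m ≤ ⌊4 * K⌋₊ := Nat.le_floor (by linarith)
    omega
  · rw [le_div_iff₀ hK0]
    linarith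
  · rw [div_le_iff₀ hK0]
    linarith

theorem rsf_t2a_card (c : ℕ) {K : ℝ} (hK : 1 ≤ K) : ((fam c K).card : ℝ) ≤ 5 * K := by
  have h1 : (fam c K).card ≤ ⌊4 * K⌋₊ + 1 := by
    unfold fam
    refine (Finset.card_filter_le _ _).trans ?_
    rw [Finset.card_range]
  have h2 : ((⌊4 * K⌋₊ : ℕ) : ℝ) ≤ 4 * K := Nat.floor_le (by linarith)
  have h3 : ((fam c K).card : ℝ) ≤ (⌊4 * K⌋₊ : ℝ) + 1 := by exact_mod_cast h1
  linarith

/-- T2A (cites TLM; PFM, CUT1, SMO2). -/
theorem t2a_bound_pr {g Θ : ℝ → ℝ} (hg : Ker1 g) (hΘ : Cut Θ) : ∃ C : ℝ, 0 < C ∧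
    ∀ (j : Fin 4) (c : ℕ) (L K b t : ℝ), OC c → 4 ≤ L → 1 ≤ K → 2000 * L ≤ Real.log K →
    -(302 * L) ≤ b →
    ∑ m ∈ blk8 c K, ‖∫ w : ℝ, ((fo g Θ L 1 j m w * om ((w - b) / L) : ℝ) : ℂ) *
      cexp (t * w * I)‖ ^ 2 ≤ C * K := by
  obtain ⟨φ, hφ⟩ := exists_bump
  obtain ⟨C1, hC1, htlm⟩ := tlm_bound hg hΘ
  obtain ⟨C2, hC2, hpfm⟩ := pfm_bound hφ hg hΘ
  obtain ⟨C0, hC0, hfo⟩ := fo_pos hg hΘ
  refine ⟨5 * C1 * Real.exp 302 + 17 * C2, by positivity, fun j c L K b t hc hL hK hLK hb => ?_⟩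
  have hL0 : 0 < L := by linarith
  have hL1 : 1 ≤ L := by linarith
  have hK0 : 0 < K := by linarith
  have hom := rsf_t2a_om_cont
  set N : ℕ → ℝ := fun m => ‖∫ w : ℝ, ((fo g Θ L 1 j m w * om ((w - b) / L) : ℝ) : ℂ) *
      cexp (t * w * I)‖ ^ 2 with hN
  set e : ℝ × ℝ → ℂ := fun p => cexp (t * (p.1 - p.2) * I) with he
  have hec : Continuous e := by
    simp only [he]
    fun_prop
  have hen : ∀ p, ‖e p‖ = 1 := fun p => rsf_t2a_exp t p.1 p.2
  set oo : ℝ × ℝ → ℝ := fun p => om ((p.1 - b) / L) * om ((p.2 - b) / L) with hoo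
  set F : ℕ → ℝ × ℝ → ℂ := fun m p =>
    ((oo p * (fo g Θ L 1 j m p.1 * fo g Θ L 1 j m p.2) : ℝ) : ℂ) * e p with hF
  set G : ℕ → ℝ × ℝ → ℂ := fun m p => ((oo p * Dg g Θ L 1 m p.1 p.2 : ℝ) : ℂ) * e p with hG
  have hfoc : ∀ m, Continuous (fo g Θ L 1 j m) := fun m =>
    continuous_iff_continuousAt.2 fun u => (fo_deriv hg Θ L 1 j m u).continuousAt
  have hF1 : ∀ m, Integrable (F m) ∧ ∫ p, F m p = ((N m : ℝ) : ℂ) := by
    intro m
    refine rsf_t2a_one (hfoc m) (B := C0 * Real.exp (4 * L)) (by positivity) hL0 fun w => ?_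
    refine (hfo L 1 j m w hL1).1.trans (le_of_eq ?_)
    rw [mul_assoc, ← Real.exp_add]
    congr 2
  have hG1 : ∀ m, 0 < m → Integrable (G m) ∧ ‖∫ p, G m p‖ ≤ C1 * Real.exp 302 := by
    intro m hm
    obtain ⟨i1, i2⟩ := htlm 1 m L b t one_pos hm hL1
    constructor
    · refine i1.norm.mono' (i1.ofReal.aestronglyMeasurable.mul hec.aestronglyMeasurable)
        (Eventually.of_forall fun p => ?_)
      refine le_of_eq ((norm_mul _ _).trans ?_)
      rw [hen, mul_one]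
      exact Complex.norm_real _
    · refine i2.trans ?_
      have h1 : E1 1 = 1 := by
        unfold E1
        simp
      rw [h1, one_pow, mul_one]
      refine mul_le_mul_of_nonneg_left ?_ hC1.le
      rw [Real.exp_le_exp, div_le_iff₀ hL0]
      linarith
  have hpos : ∀ m ∈ fam c K, 0 < m := fun m hm => by
    unfold fam at hm
    rw [Finset.mem_filter] at hm
    rcases hc with h | h | h | h <;> omega
  -- first reduction
  have h1 : ∑ m ∈ blk8 c K, N m ≤ ∑ m ∈ fam c K, φ (m / K) * N m := by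
    calc ∑ m ∈ blk8 c K, N m = ∑ m ∈ blk8 c K, φ (m / K) * N m := by
          refine Finset.sum_congr rfl fun m hm => ?_
          obtain ⟨-, h2, h3⟩ := rsf_t2a_fam hK hm
          rw [hφ.one _ h2 h3, one_mul]
      _ ≤ ∑ m ∈ fam c K, φ (m / K) * N m :=
          Finset.sum_le_sum_of_subset_of_nonneg (fun m hm => (rsf_t2a_fam hK hm).1)
            fun m _ _ => mul_nonneg (hφ.nonneg _) (sq_nonneg _)
  refine h1.trans ?_
  -- the identity
  set P : ℝ × ℝ → ℂ := fun p => ((oo p * Pf φ g Θ L 1 j c K p.1 p.2 : ℝ) : ℂ) * e p with hP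
  have hPe : ∀ p, P p = ∑ m ∈ fam c K, ((φ (m / K) : ℝ) : ℂ) * (F m p - G m p) := by
    intro p
    simp only [hP, hF, hG]
    unfold Pf Ef Df
    rw [← Finset.sum_sub_distrib, Finset.mul_sum, Complex.ofReal_sum, Finset.sum_mul]
    refine Finset.sum_congr rfl fun m _ => ?_
    push_cast
    ring
  have hkey : ((∑ m ∈ fam c K, φ (m / K) * N m : ℝ) : ℂ) =
      (∑ m ∈ fam c K, ((φ (m / K) : ℝ) : ℂ) * ∫ p, G m p) + ∫ p, P p := by
    have hFG : ∀ m ∈ fam c K, Integrable (fun p => ((φ (m / K) : ℝ) : ℂ) * (F m p - G m p)) :=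
      fun m hm => ((hF1 m).1.sub (hG1 m (hpos m hm)).1).const_mul _
    simp only [hPe]
    rw [integral_finsetSum _ hFG, ← Finset.sum_add_distrib, Complex.ofReal_sum]
    refine Finset.sum_congr rfl fun m hm => ?_
    rw [integral_const_mul, integral_sub (hF1 m).1 (hG1 m (hpos m hm)).1, (hF1 m).2]
    push_cast
    ring
  have hnn : 0 ≤ ∑ m ∈ fam c K, φ (m / K) * N m :=
    Finset.sum_nonneg fun m _ => mul_nonneg (hφ.nonneg _) (sq_nonneg _)
  have h2 : ∑ m ∈ fam c K, φ (m / K) * N m ≤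
      ‖∑ m ∈ fam c K, ((φ (m / K) : ℝ) : ℂ) * ∫ p, G m p‖ + ‖∫ p, P p‖ := by
    have h3 := congrArg norm hkey
    rw [Complex.norm_real, Real.norm_eq_abs, abs_of_nonneg hnn] at h3
    rw [h3]
    exact norm_add_le _ _
  refine h2.trans ?_
  -- the diagonal
  have h3 : ‖∑ m ∈ fam c K, ((φ (m / K) : ℝ) : ℂ) * ∫ p, G m p‖ ≤ 5 * C1 * Real.exp 302 * K := by
    calc _ ≤ ∑ m ∈ fam c K, ‖((φ (m / K) : ℝ) : ℂ) * ∫ p, G m p‖ := norm_sum_le _ _
      _ ≤ ∑ _m ∈ fam c K, C1 * Real.exp 302 := by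
          refine Finset.sum_le_sum fun m hm => ?_
          rw [norm_mul, Complex.norm_real, Real.norm_eq_abs, abs_of_nonneg (hφ.nonneg _)]
          calc _ ≤ 1 * (C1 * Real.exp 302) :=
                mul_le_mul (hφ.le _) (hG1 m (hpos m hm)).2 (norm_nonneg _) zero_le_one
            _ = _ := one_mul _
      _ = (fam c K).card * (C1 * Real.exp 302) := by
          rw [Finset.sum_const, nsmul_eq_mul]
      _ ≤ 5 * K * (C1 * Real.exp 302) :=
          mul_le_mul_of_nonneg_right (rsf_t2a_card c hK) (by positivity)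
      _ = _ := by ring
  -- the rest
  set H : ℝ × ℝ → ℝ := fun p => C2 * Real.exp (40 * L) *
    ((K ^ 4)⁻¹ * (rsf_t2a_q 5 b p.1 * rsf_t2a_q 5 b p.2) +
      rsf_t2a_q (1 / 4) b p.1 * rsf_t2a_q (1 / 4) b p.2) with hH
  have i5 := rsf_t2a_q_int (a := 5) (by norm_num) b
  have i4 := rsf_t2a_q_int (a := 1 / 4) (by norm_num) b
  have hHi : Integrable H :=
    (((Integrable.mul_prod i5 i5).const_mul _).add (Integrable.mul_prod i4 i4)).const_mul _
  have hPb : ∀ p, ‖P p‖ ≤ H p := by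
    intro p
    simp only [hP]
    rw [norm_mul, hen, mul_one, Complex.norm_real, Real.norm_eq_abs, abs_mul]
    have o1 := (rsf_t2a_om ((p.1 - b) / L)).1
    have o2 := (rsf_t2a_om ((p.2 - b) / L)).1
    have hoo0 : 0 ≤ oo p := mul_nonneg o1 o2
    have hoo1 : oo p ≤ 1 := by
      simp only [hoo]
      exact mul_le_one₀ (rsf_t2a_om _).2.1 o2 (rsf_t2a_om _).2.1
    rw [abs_of_nonneg hoo0]
    refine (mul_le_mul_of_nonneg_left (hpfm j c 1 L K p.1 p.2 hc hL1 hK0).1 hoo0).trans ?_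
    have q5 : K * (Real.exp (-(p.1 + p.2)) / K) ^ 5 =
        (K ^ 4)⁻¹ * (Real.exp (-5 * p.1) * Real.exp (-5 * p.2)) := by
      rw [div_pow, ← Real.exp_nat_mul, ← Real.exp_add]
      have : ((5 : ℕ) : ℝ) * -(p.1 + p.2) = -5 * p.1 + -5 * p.2 := by push_cast; ring
      rw [this]
      field_simp
    have q4 : Real.exp (-(p.1 + p.2) / 4) =
        Real.exp (-(1 / 4) * p.1) * Real.exp (-(1 / 4) * p.2) := by
      rw [← Real.exp_add]
      congr 1
      ring
    rw [q5, q4]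
    have hq : ∀ a : ℝ, oo p * (Real.exp (-a * p.1) * Real.exp (-a * p.2)) ≤
        rsf_t2a_q a b p.1 * rsf_t2a_q a b p.2 := by
      intro a
      calc _ = (om ((p.1 - b) / L) * Real.exp (-a * p.1)) *
            (om ((p.2 - b) / L) * Real.exp (-a * p.2)) := by
            simp only [hoo]
            ring
        _ ≤ _ := mul_le_mul (rsf_t2a_om_q a hL0 _) (rsf_t2a_om_q a hL0 _) (by positivity)
            (rsf_t2a_q_nonneg _ _ _)
    have hq5 := hq 5
    have hq4 := hq (1 / 4)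
    have hK4 : 0 ≤ (K ^ 4)⁻¹ := by positivity
    calc oo p * (C2 * Real.exp (40 * L) * ((K ^ 4)⁻¹ * (Real.exp (-5 * p.1) *
          Real.exp (-5 * p.2)) + Real.exp (-(1 / 4) * p.1) * Real.exp (-(1 / 4) * p.2)))
        = C2 * Real.exp (40 * L) * ((K ^ 4)⁻¹ * (oo p * (Real.exp (-5 * p.1) *
          Real.exp (-5 * p.2))) + oo p * (Real.exp (-(1 / 4) * p.1) *
          Real.exp (-(1 / 4) * p.2))) := by ring
      _ ≤ H p := by
          simp only [hH]
          refine mul_le_mul_of_nonneg_left (add_le_add ?_ hq4) (by positivity)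
          exact mul_le_mul_of_nonneg_left hq5 hK4
  have h4 : ‖∫ p, P p‖ ≤ 17 * C2 * K := by
    refine (norm_integral_le_of_norm_le hHi (Eventually.of_forall hPb)).trans ?_
    have hval : ∫ p, H p = C2 * Real.exp (40 * L) * ((K ^ 4)⁻¹ *
        ((Real.exp (-5 * b) / 5) * (Real.exp (-5 * b) / 5)) +
        (Real.exp (-(1 / 4) * b) / (1 / 4)) * (Real.exp (-(1 / 4) * b) / (1 / 4))) := by
      have e5 : ∫ p : ℝ × ℝ, rsf_t2a_q 5 b p.1 * rsf_t2a_q 5 b p.2 = _ :=
        integral_prod_mul (μ := volume) (ν := volume) (rsf_t2a_q 5 b) (rsf_t2a_q 5 b)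
      have e4 : ∫ p : ℝ × ℝ, rsf_t2a_q (1 / 4) b p.1 * rsf_t2a_q (1 / 4) b p.2 = _ :=
        integral_prod_mul (μ := volume) (ν := volume) (rsf_t2a_q (1 / 4) b) (rsf_t2a_q (1 / 4) b)
      rw [rsf_t2a_q_val (by norm_num)] at e5 e4
      have a5 : Integrable (fun p : ℝ × ℝ => (K ^ 4)⁻¹ *
          (rsf_t2a_q 5 b p.1 * rsf_t2a_q 5 b p.2)) := (Integrable.mul_prod i5 i5).const_mul _
      have a4 : Integrable (fun p : ℝ × ℝ => rsf_t2a_q (1 / 4) b p.1 * rsf_t2a_q (1 / 4) b p.2) :=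
        Integrable.mul_prod i4 i4
      simp only [hH]
      rw [integral_const_mul, integral_add a5 a4, integral_const_mul, e5, e4]
    rw [hval]
    have hKexp : Real.exp (2000 * L) ≤ K := by
      rw [← Real.le_log_iff_exp_le hK0]
      exact hLK
    have hK4 : (K ^ 4)⁻¹ ≤ Real.exp (-(8000 * L)) := by
      rw [Real.exp_neg]
      refine inv_anti₀ (Real.exp_pos _) ?_
      calc Real.exp (8000 * L) = Real.exp (2000 * L) ^ 4 := by
            rw [← Real.exp_nat_mul]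
            congr 1
            push_cast
            ring
        _ ≤ K ^ 4 := pow_le_pow_left₀ (Real.exp_pos _).le hKexp 4
    have t1 : Real.exp (40 * L) * ((K ^ 4)⁻¹ *
        ((Real.exp (-5 * b) / 5) * (Real.exp (-5 * b) / 5))) ≤ K := by
      have e1 : Real.exp (-5 * b) ≤ Real.exp (1510 * L) := by
        rw [Real.exp_le_exp]
        linarith
      calc Real.exp (40 * L) * ((K ^ 4)⁻¹ *
            ((Real.exp (-5 * b) / 5) * (Real.exp (-5 * b) / 5)))
          ≤ Real.exp (40 * L) * (Real.exp (-(8000 * L)) *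
            (Real.exp (1510 * L) * Real.exp (1510 * L))) := by
            refine mul_le_mul_of_nonneg_left ?_ (Real.exp_pos _).le
            refine mul_le_mul hK4 ?_ (by positivity) (Real.exp_pos _).le
            have e2 : Real.exp (-5 * b) / 5 ≤ Real.exp (1510 * L) := by
              have := Real.exp_pos (-5 * b)
              linarith
            exact mul_le_mul e2 e2 (by positivity) (Real.exp_pos _).le
        _ = Real.exp (-(4940 * L)) := by
            rw [← Real.exp_add, ← Real.exp_add, ← Real.exp_add]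
            congr 1
            ring
        _ ≤ 1 := by
            rw [Real.exp_le_one_iff]
            linarith
        _ ≤ K := hK
    have t2 : Real.exp (40 * L) * ((Real.exp (-(1 / 4) * b) / (1 / 4)) *
        (Real.exp (-(1 / 4) * b) / (1 / 4))) ≤ 16 * K := by
      calc Real.exp (40 * L) * ((Real.exp (-(1 / 4) * b) / (1 / 4)) *
            (Real.exp (-(1 / 4) * b) / (1 / 4)))
          = 16 * Real.exp (40 * L + (-(1 / 4) * b + -(1 / 4) * b)) := by
            rw [Real.exp_add, Real.exp_add]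
            ring
        _ ≤ 16 * Real.exp (2000 * L) := by
            refine mul_le_mul_of_nonneg_left ?_ (by norm_num)
            rw [Real.exp_le_exp]
            linarith
        _ ≤ 16 * K := mul_le_mul_of_nonneg_left hKexp (by norm_num)
    calc _ = C2 * (Real.exp (40 * L) * ((K ^ 4)⁻¹ *
          ((Real.exp (-5 * b) / 5) * (Real.exp (-5 * b) / 5))) + Real.exp (40 * L) *
          ((Real.exp (-(1 / 4) * b) / (1 / 4)) * (Real.exp (-(1 / 4) * b) / (1 / 4)))) := by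
          ring
      _ ≤ C2 * (K + 16 * K) := mul_le_mul_of_nonneg_left (add_le_add t1 t2) hC2.le
      _ = _ := by ring
  calc _ ≤ 5 * C1 * Real.exp 302 * K + 17 * C2 * K := add_le_add h3 h4
    _ = _ := by ring

end Pool.Agent.RSF

namespace Pool.Agent.RSF

alias t2a_bound := t2a_bound_pr

end Pool.Agent.RSF
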