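import Pool.Agent.Lib_helper39.RSF.Defs
import Pool.Agent.Lib_helper39.RSF.KG1
import Pool.Agent.Lib_helper39.RSF.PFM
import Pool.Agent.Lib_helper39.RSF.SMO2
import Pool.Agent.Lib_helper39.RSF.AMB2
import Pool.Agent.Lib_helper39.RSF.DSQ
import Pool.Agent.Lib_helper39.RSF.XLIM
import Pool.Agent.Lib_helper39.RSF.XR2
import Pool.Agent.Lib_helper39.RSF.DDE
import Pool.Agent.Lib_helper39.RSF.DFO
import Pool.Agent.Lib_helper39.RSF.DOD
import Pool.Agent.Lib_helper39.RSF.M4B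
import Pool.Agent.Lib_helper39.RSF.FUI
import Pool.Agent.Lib_helper39.RSA.XR6
import Pool.Agent.Lib_helper39.RSA.PRM
import Pool.Agent.Lib_helper39.RSA.SOB
import Pool.Agent.Lib_helper39.RSA.BNS
import Pool.Agent.Lib_helper39.RSA.QLA
import Pool.Agent.Lib_helper39.RSA.QLB
import Pool.Agent.Lib_helper39.RSA.PER
import Pool.Agent.Lib_helper39.RSA.AVE
import Pool.Agent.Lib_helper39.RSA.CUT1
import Pool.Agent.Lib_helper39.RSA.CUT2
import Pool.Agent.Lib_helper24.ABS.Endgame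
import Pool.Agent.Lib_helper39.RSG.T2A
/-!
# RSF, block T2; cites t2a_bound
-/

namespace Pool.Agent.RSF

open Complex MeasureTheory Filter Topology
open Pool.Agent.RC (cc psi rv f0 IsRC Good gm pr DD)
open Pool.Agent.RSE
open scoped ContDiff

theorem rsf_t2_om (x : ℝ) : 0 ≤ om x ∧ om x ≤ 1 ∧ (x ≤ 0 → om x = 0) :=
  ⟨Real.smoothTransition.nonneg x, Real.smoothTransition.le_one x,
    fun h => Real.smoothTransition.zero_of_nonpos h⟩

theorem rsf_t2_om_cont : Continuous om := Real.smoothTransition.continuous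

theorem rsf_t2_fo_cont {g : ℝ → ℝ} (hg : Ker1 g) (Θ : ℝ → ℝ) (L : ℝ) (R : ℕ) (j : Fin 4) (m : ℕ) :
    Continuous (fo g Θ L R j m) :=
  continuous_iff_continuousAt.2 fun u => (fo_deriv hg Θ L R j m u).continuousAt

/-- the dominating function -/
theorem rsf_t2_dom (B a : ℝ) :
    Integrable ((Set.Ioi a).indicator fun u : ℝ => B * Real.exp (-1 * u)) :=
  (integrable_indicator_iff measurableSet_Ioi).2
    ((exp_neg_integrableOn_Ioi a (by norm_num : (0 : ℝ) < 1)).const_mul B)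

/-- Cauchy-Schwarz with weights -/
theorem rsf_t2_cs (x : ℕ → ℝ) (hx : ∀ a, 0 ≤ x a) {B : ℝ} (hB : ∀ a, x a ^ 2 ≤ B) :
    Summable (fun a : ℕ => (2 : ℝ) ^ (-(a : ℝ) / 2) * x a) ∧
    Summable (fun a : ℕ => (2 : ℝ) ^ (-(a : ℝ) / 2) * x a ^ 2) ∧
    (∑' a : ℕ, (2 : ℝ) ^ (-(a : ℝ) / 2) * x a) ^ 2 ≤
      4 * ∑' a : ℕ, (2 : ℝ) ^ (-(a : ℝ) / 2) * x a ^ 2 := by
  obtain ⟨hc, hc4⟩ := rse_dfo_c
  have hB0 : 0 ≤ B := (sq_nonneg _).trans (hB 0)
  have hxB : ∀ a, x a ≤ √B := fun a => by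
    rw [← Real.sqrt_sq (hx a)]
    exact Real.sqrt_le_sqrt (hB a)
  have h1 : Summable (fun a : ℕ => (2 : ℝ) ^ (-(a : ℝ) / 2) * x a) :=
    Summable.of_nonneg_of_le (fun a => mul_nonneg (by positivity) (hx a))
      (fun a => mul_le_mul_of_nonneg_left (hxB a) (by positivity)) (hc.mul_right (√B))
  have h2 : Summable (fun a : ℕ => (2 : ℝ) ^ (-(a : ℝ) / 2) * x a ^ 2) :=
    Summable.of_nonneg_of_le (fun a => mul_nonneg (by positivity) (sq_nonneg _))
      (fun a => mul_le_mul_of_nonneg_left (hB a) (by positivity)) (hc.mul_right B)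
  refine ⟨h1, h2, ?_⟩
  set S : ℝ := ∑' a : ℕ, (2 : ℝ) ^ (-(a : ℝ) / 2) * x a ^ 2 with hS
  have hfin : ∀ s : Finset ℕ, (∑ a ∈ s, (2 : ℝ) ^ (-(a : ℝ) / 2) * x a) ^ 2 ≤ 4 * S := by
    intro s
    have h3 := Finset.sum_mul_sq_le_sq_mul_sq s (fun a : ℕ => √((2 : ℝ) ^ (-(a : ℝ) / 2)))
      (fun a : ℕ => √((2 : ℝ) ^ (-(a : ℝ) / 2)) * x a)
    have h4 : ∀ a : ℕ, √((2 : ℝ) ^ (-(a : ℝ) / 2)) * (√((2 : ℝ) ^ (-(a : ℝ) / 2)) * x a) =
        (2 : ℝ) ^ (-(a : ℝ) / 2) * x a := by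
      intro a
      rw [← mul_assoc, Real.mul_self_sqrt (by positivity)]
    simp only [h4] at h3
    refine h3.trans ?_
    have h5 : ∑ a ∈ s, √((2 : ℝ) ^ (-(a : ℝ) / 2)) ^ 2 ≤ 4 := by
      refine le_trans ?_ hc4
      simp only [Real.sq_sqrt (by positivity : (0 : ℝ) ≤ (2 : ℝ) ^ (-((_ : ℕ) : ℝ) / 2))]
      exact hc.sum_le_tsum s fun a _ => by positivity
    have h6 : ∑ a ∈ s, (√((2 : ℝ) ^ (-(a : ℝ) / 2)) * x a) ^ 2 ≤ S := by
      refine le_trans (Finset.sum_le_sum fun a _ => ?_) (h2.sum_le_tsum s fun a _ =>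
        mul_nonneg (by positivity) (sq_nonneg _))
      rw [mul_pow, Real.sq_sqrt (by positivity)]
    exact mul_le_mul h5 h6 (Finset.sum_nonneg fun a _ => by positivity) (by norm_num)
  have h3 := (h1.hasSum.pow 2)
  exact le_of_tendsto h3 (Filter.Eventually.of_forall hfin)

/-- the transform of `ff` in terms of those of `fo` -/
theorem rsf_t2_exch {g Θ : ℝ → ℝ} (hg : Ker1 g) (hΘ : Cut Θ) (j : Fin 4) (m : ℕ) {L : ℝ} (hL : 4 ≤ L)
    (t : ℝ) {B : ℝ} (hB : ∀ a : ℕ, ‖∫ w : ℝ, ((fo g Θ L 1 j m w *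
      om ((w - (-(302 * L) + a * Real.log 2)) / L) : ℝ) : ℂ) * cexp (t * w * I)‖ ^ 2 ≤ B) :
    ‖∫ u : ℝ, ((ff g Θ L 1 j m u * om (u / L + 302) : ℝ) : ℂ) * cexp (t * u * I)‖ ^ 2 ≤
      4 * ∑' a : ℕ, (2 : ℝ) ^ (-(a : ℝ) / 2) * ‖∫ w : ℝ, ((fo g Θ L 1 j m w *
        om ((w - (-(302 * L) + a * Real.log 2)) / L) : ℝ) : ℂ) * cexp (t * w * I)‖ ^ 2 := by
  have hL0 : 0 < L := by linarith
  obtain ⟨hc, -⟩ := rse_dfo_c
  obtain ⟨C0, hC0, hfo⟩ := fo_pos hg hΘ
  set J : ℕ → ℂ := fun a => ∫ w : ℝ, ((fo g Θ L 1 j m w *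
    om ((w - (-(302 * L) + a * Real.log 2)) / L) : ℝ) : ℂ) * cexp (t * w * I) with hJ
  set F : ℕ → ℝ → ℂ := fun a u => (((rv j m (2 ^ a) : ℝ) * (2 : ℝ) ^ (-(a : ℝ) / 2) *
    fo g Θ L 1 j m (u + a * Real.log 2) * om (u / L + 302) : ℝ) : ℂ) * cexp (t * u * I) with hF
  set H : ℝ → ℝ := (Set.Ioi (-(302 * L))).indicator
    (fun u : ℝ => (C0 * Real.exp (4 * L)) * Real.exp (-1 * u)) with hH
  have hHint : Integrable H := rsf_t2_dom _ _
  have hrv : ∀ a : ℕ, |(rv j m (2 ^ a) : ℝ)| ≤ 1 := fun a => Pool.Agent.RC.rc_der_rv_abs j m _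
  have hexp : ∀ u : ℝ, ‖cexp (t * u * I)‖ = 1 := fun u => by
    rw [show (t : ℂ) * u * I = ((t * u : ℝ) : ℂ) * I by push_cast; ring]
    exact Complex.norm_exp_ofReal_mul_I _
  have hFb : ∀ (a : ℕ) (u : ℝ), ‖F a u‖ ≤ (2 : ℝ) ^ (-(a : ℝ) / 2) * H u := by
    intro a u
    simp only [hF]
    rw [norm_mul, hexp, mul_one, Complex.norm_real, Real.norm_eq_abs, abs_mul, abs_mul, abs_mul,
      abs_of_nonneg (by positivity : (0 : ℝ) ≤ (2 : ℝ) ^ (-(a : ℝ) / 2))]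
    by_cases hu : u ∈ Set.Ioi (-(302 * L))
    · rw [hH, Set.indicator_of_mem hu]
      obtain ⟨o1, o2, -⟩ := rsf_t2_om (u / L + 302)
      rw [abs_of_nonneg o1]
      have h1 := (hfo L 1 j m (u + a * Real.log 2) (by linarith)).1
      have h2 : Real.exp (4 * L - (u + a * Real.log 2)) ≤ Real.exp (4 * L) * Real.exp (-1 * u) := by
        rw [← Real.exp_add, Real.exp_le_exp]
        have : 0 ≤ (a : ℝ) * Real.log 2 := by positivity
        linarith
      calc |(rv j m (2 ^ a) : ℝ)| * (2 : ℝ) ^ (-(a : ℝ) / 2) *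
            |fo g Θ L 1 j m (u + a * Real.log 2)| * om (u / L + 302)
          ≤ 1 * (2 : ℝ) ^ (-(a : ℝ) / 2) * (C0 * (Real.exp (4 * L) * Real.exp (-1 * u))) * 1 := by
            refine mul_le_mul (mul_le_mul (mul_le_mul_of_nonneg_right (hrv a) (by positivity))
              (h1.trans (mul_le_mul_of_nonneg_left h2 hC0.le)) (abs_nonneg _) (by positivity))
              o2 o1 (by positivity)
        _ = _ := by ring
    · have h0 : om (u / L + 302) = 0 := by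
        apply (rsf_t2_om _).2.2
        have : u ≤ -(302 * L) := not_lt.1 hu
        have h3 : u / L ≤ -302 := by
          rw [div_le_iff₀ hL0]
          linarith
        linarith
      rw [h0, abs_zero, mul_zero, hH, Set.indicator_of_notMem hu, mul_zero]
  have hFc : ∀ a : ℕ, Continuous (F a) := by
    intro a
    have h1 := rsf_t2_fo_cont hg Θ L 1 j m
    have h2 := rsf_t2_om_cont
    simp only [hF]
    fun_prop
  have hFi : ∀ a : ℕ, Integrable (F a) := fun a =>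
    (hHint.const_mul _).mono' (hFc a).aestronglyMeasurable (Eventually.of_forall (hFb a))
  have hFs : Summable fun a : ℕ => ∫ u, ‖F a u‖ := by
    refine Summable.of_nonneg_of_le (fun a => integral_nonneg fun u => norm_nonneg _) (fun a => ?_)
      (hc.mul_right (∫ u, H u))
    rw [← integral_const_mul]
    exact integral_mono (hFi a).norm (hHint.const_mul _) (hFb a)
  have hsum := hasSum_integral_of_summable_integral_norm hFi hFs
  have hff : (∫ u, ∑' a, F a u) = ∫ u : ℝ, ((ff g Θ L 1 j m u * om (u / L + 302) : ℝ) : ℂ) *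
      cexp (t * u * I) := by
    congr 1
    funext u
    obtain ⟨-, h2⟩ := rse_dfo_ff (Θ := Θ) hg L 1 j m u
    rw [h2]
    simp only [hF]
    rw [tsum_mul_right, ← Complex.ofReal_tsum, tsum_mul_right]
  -- the terms
  have hterm : ∀ a : ℕ, ‖∫ u, F a u‖ ≤ (2 : ℝ) ^ (-(a : ℝ) / 2) * ‖J a‖ := by
    intro a
    set G : ℝ → ℂ := fun w => ((fo g Θ L 1 j m w *
      om ((w - (-(302 * L) + a * Real.log 2)) / L) : ℝ) : ℂ) * cexp (t * w * I) with hG
    have h1 : ∀ u : ℝ, F a u = (((rv j m (2 ^ a) : ℝ) * (2 : ℝ) ^ (-(a : ℝ) / 2) : ℝ) : ℂ) *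
        cexp (((-(t * (a * Real.log 2)) : ℝ) : ℂ) * I) * G (u + a * Real.log 2) := by
      intro u
      simp only [hF, hG]
      have h2 : (u + a * Real.log 2 - (-(302 * L) + a * Real.log 2)) / L = u / L + 302 := by
        field_simp
        ring
      have h3 : cexp (t * u * I) = cexp (((-(t * (a * Real.log 2)) : ℝ) : ℂ) * I) *
          cexp (t * ((u + a * Real.log 2 : ℝ) : ℂ) * I) := by
        rw [← Complex.exp_add]
        congr 1
        push_cast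
        ring
      rw [h2, h3]
      push_cast
      ring
    simp only [h1]
    rw [integral_const_mul, integral_add_right_eq_self G, norm_mul, norm_mul,
      Complex.norm_exp_ofReal_mul_I, mul_one, Complex.norm_real, Real.norm_eq_abs, abs_mul,
      abs_of_nonneg (by positivity : (0 : ℝ) ≤ (2 : ℝ) ^ (-(a : ℝ) / 2))]
    refine mul_le_mul_of_nonneg_right ?_ (norm_nonneg _)
    calc _ ≤ 1 * (2 : ℝ) ^ (-(a : ℝ) / 2) :=
          mul_le_mul_of_nonneg_right (hrv a) (by positivity)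
      _ = _ := one_mul _
  obtain ⟨s1, -, s3⟩ := rsf_t2_cs (fun a => ‖J a‖) (fun a => norm_nonneg _) hB
  rw [← hff, ← hsum.tsum_eq]
  refine le_trans (pow_le_pow_left₀ (norm_nonneg _) ?_ 2) s3
  exact tsum_of_norm_bounded s1.hasSum hterm

/-- T2 (cites T2A; DFO, SMO2). -/
theorem t2_bound_pr {g Θ : ℝ → ℝ} (hg : Ker1 g) (hΘ : Cut Θ) : ∃ C : ℝ, 0 < C ∧
    ∀ (j : Fin 4) (c : ℕ) (L K t : ℝ), OC c → 4 ≤ L → 1 ≤ K → 2000 * L ≤ Real.log K →
    ∑ m ∈ blk8 c K, ‖∫ u : ℝ, ((ff g Θ L 1 j m u * om (u / L + 302) : ℝ) : ℂ) *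
      cexp (t * u * I)‖ ^ 2 ≤ C * K := by
  obtain ⟨C, hC, h⟩ := t2a_bound hg hΘ
  refine ⟨16 * C, by positivity, fun j c L K t hc hL hK hLK => ?_⟩
  obtain ⟨hs, hs4⟩ := rse_dfo_c
  have hKC : 0 ≤ C * K := by positivity
  set J : ℕ → ℕ → ℝ := fun m a => ‖∫ w : ℝ, ((fo g Θ L 1 j m w *
    om ((w - (-(302 * L) + a * Real.log 2)) / L) : ℝ) : ℂ) * cexp (t * w * I)‖ ^ 2 with hJ
  have h1 : ∀ a : ℕ, ∑ m ∈ blk8 c K, J m a ≤ C * K := by
    intro a
    have h2 : 0 ≤ (a : ℝ) * Real.log 2 := by positivity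
    exact h j c L K (-(302 * L) + a * Real.log 2) t hc hL hK hLK (by linarith)
  have h2 : ∀ m ∈ blk8 c K, ∀ a, J m a ≤ C * K := fun m hm a =>
    (Finset.single_le_sum (f := fun m => J m a) (fun i _ => sq_nonneg _) hm).trans (h1 a)
  have h3 : ∀ m ∈ blk8 c K, Summable fun a : ℕ => (2 : ℝ) ^ (-(a : ℝ) / 2) * J m a :=
    fun m hm => Summable.of_nonneg_of_le (fun a => mul_nonneg (by positivity) (sq_nonneg _))
      (fun a => mul_le_mul_of_nonneg_left (h2 m hm a) (by positivity)) (hs.mul_right (C * K))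
  calc ∑ m ∈ blk8 c K, ‖∫ u : ℝ, ((ff g Θ L 1 j m u * om (u / L + 302) : ℝ) : ℂ) *
        cexp (t * u * I)‖ ^ 2
      ≤ ∑ m ∈ blk8 c K, 4 * ∑' a : ℕ, (2 : ℝ) ^ (-(a : ℝ) / 2) * J m a :=
        Finset.sum_le_sum fun m hm => rsf_t2_exch hg hΘ j m hL t (h2 m hm)
    _ = 4 * ∑' a : ℕ, (2 : ℝ) ^ (-(a : ℝ) / 2) * ∑ m ∈ blk8 c K, J m a := by
        rw [← Finset.mul_sum, ← Summable.tsum_finsetSum h3]
        congr 1
        refine tsum_congr fun a => ?_
        rw [Finset.mul_sum]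
    _ ≤ 4 * ∑' a : ℕ, (2 : ℝ) ^ (-(a : ℝ) / 2) * (C * K) := by
        refine mul_le_mul_of_nonneg_left ?_ (by norm_num)
        refine Summable.tsum_le_tsum (fun a => mul_le_mul_of_nonneg_left (h1 a) (by positivity)) ?_
          (hs.mul_right _)
        refine Summable.of_nonneg_of_le (fun a => mul_nonneg (by positivity)
          (Finset.sum_nonneg fun m _ => sq_nonneg _))
          (fun a => mul_le_mul_of_nonneg_left (h1 a) (by positivity)) (hs.mul_right (C * K))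
    _ ≤ 4 * (4 * (C * K)) := by
        rw [tsum_mul_right]
        gcongr
    _ = 16 * C * K := by ring

end Pool.Agent.RSF

namespace Pool.Agent.RSF

alias t2_bound := t2_bound_pr

end Pool.Agent.RSF
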