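import Pool.Agent.Lib_helper39.RSF.Defs
import Pool.Agent.Lib_helper39.RSF.KG1
import Pool.Agent.Lib_helper39.RSF.PFM
import Pool.Agent.Lib_helper39.RSF.SMO2
import Pool.Agent.Lib_helper39.RSF.AMB2
import Pool.Agent.Lib_helper39.RSF.DSQ
import Pool.Agent.Lib_helper39.RSF.XLIM
import Pool.Agent.Lib_helper39.RSF.XR2
import Pool.Agent.Lib_helper39.RSF.DDE
import Pool.Agent.Lib_helper39.RSF.DFO
import Pool.Agent.Lib_helper39.RSF.DOD
import Pool.Agent.Lib_helper39.RSF.M4B
import Pool.Agent.Lib_helper39.RSF.FUI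
import Pool.Agent.Lib_helper39.RSA.XR6
import Pool.Agent.Lib_helper39.RSA.PRM
import Pool.Agent.Lib_helper39.RSA.SOB
import Pool.Agent.Lib_helper39.RSA.BNS
import Pool.Agent.Lib_helper39.RSA.QLA
import Pool.Agent.Lib_helper39.RSA.QLB
import Pool.Agent.Lib_helper39.RSA.PER
import Pool.Agent.Lib_helper39.RSA.AVE
import Pool.Agent.Lib_helper39.RSA.CUT1
import Pool.Agent.Lib_helper39.RSA.CUT2
import Pool.Agent.Lib_helper24.ABS.Endgame
import Pool.Agent.Lib_helper39.RSG.FUP
import Pool.Agent.Lib_helper39.RSG.FUW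
import Pool.Agent.Lib_helper39.RSG.KGL
import Pool.Agent.Lib_helper39.RSG.T2
import Pool.Agent.Lib_helper39.RSG.UTW
/-!
# Block HH: the long twisted transform of `ff`
-/

namespace Pool.Agent.RSF

open Complex MeasureTheory Filter Topology
open Pool.Agent.RC (cc psi rv f0 IsRC Good gm pr DD)
open Pool.Agent.RSE
open Pool.Agent.ABS (Nice LData Piece oddZ)
open Pool.Agent.SQS (hat)
open scoped ContDiff

theorem rsf_hh_om0 {x : ℝ} (hx : x ≤ 0) : om x = 0 := Real.smoothTransition.zero_of_nonpos hx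

theorem rsf_hh_om1 {x : ℝ} (hx : 1 ≤ x) : om x = 1 := Real.smoothTransition.one_of_one_le hx

theorem rsf_hh_om_nonneg (x : ℝ) : 0 ≤ om x := Real.smoothTransition.nonneg x

theorem rsf_hh_om_le (x : ℝ) : om x ≤ 1 := Real.smoothTransition.le_one x

theorem rsf_hh_om_cont : Continuous om := Real.smoothTransition.continuous

theorem rsf_hh_norm (t u : ℝ) : ‖cexp (t * u * I)‖ = 1 := by
  have e : (t * u * I : ℂ) = ((t * u : ℝ) : ℂ) * I := by push_cast; rfl
  rw [e, norm_exp_ofReal_mul_I]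

theorem rsf_hh_shift (h : ℝ → ℂ) (l : ℝ) :
    ∫ v in Set.Ioi (0 : ℝ), h (v - l) = ∫ u in Set.Ioi (-l), h u := by
  rw [← integral_indicator measurableSet_Ioi, ← integral_indicator measurableSet_Ioi,
    ← integral_sub_right_eq_self (fun u => (Set.Ioi (-l)).indicator h u) l]
  refine integral_congr_ae (ae_of_all _ fun v => ?_)
  show (Set.Ioi (0 : ℝ)).indicator (fun v => h (v - l)) v = (Set.Ioi (-l)).indicator h (v - l)
  by_cases hv : 0 < v
  · rw [Set.indicator_of_mem (by exact hv), Set.indicator_of_mem (by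
      show -l < v - l
      linarith)]
  · rw [Set.indicator_of_notMem (by exact hv), Set.indicator_of_notMem (by
      show ¬ (-l < v - l)
      intro h2
      exact hv (by linarith))]

/-- The dividing points. -/
noncomputable def rsf_hh_A (L e : ℝ) (n : ℕ) : ℝ := min (e + n * L) (-(301 * L))

/-- The weights. -/
noncomputable def rsf_hh_W (p : ℝ → ℝ) (L e : ℝ) (n : ℕ) (u : ℝ) : ℝ :=
  (Set.Ioc (rsf_hh_A L e n) (rsf_hh_A L e (n + 1))).indicator
    (fun u => (1 - om (u / L + 302)) * p u) u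

theorem rsf_hh_A_le {L : ℝ} (hL : 4 ≤ L) (e : ℝ) (n : ℕ) :
    rsf_hh_A L e n ≤ rsf_hh_A L e (n + 1) ∧
      rsf_hh_A L e (n + 1) - rsf_hh_A L e n ≤ L := by
  unfold rsf_hh_A
  push_cast
  constructor
  · apply min_le_min_right
    nlinarith
  · rcases le_total (e + n * L) (-(301 * L)) with h | h
    · rw [min_eq_left h]
      have := min_le_left (e + (n + 1) * L) (-(301 * L))
      linarith
    · rw [min_eq_right h]
      have := min_le_right (e + (n + 1) * L) (-(301 * L))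
      linarith

theorem rsf_hh_wt {p : ℝ → ℝ} (hp : Continuous p) (hp1 : ∀ u, |p u| ≤ 1) {L : ℝ} (hL : 4 ≤ L)
    (e : ℝ) (n : ℕ) : Wt (rsf_hh_W p L e n) (rsf_hh_A L e n) (rsf_hh_A L e (n + 1)) ∧
    ∫ u : ℝ, rsf_hh_W p L e n u ^ 2 ≤ L := by
  obtain ⟨h1, h2⟩ := rsf_hh_A_le hL e n
  have hc : Continuous (fun u => (1 - om (u / L + 302)) * p u) := by
    have := rsf_hh_om_cont
    fun_prop
  have hb : ∀ u, |(1 - om (u / L + 302)) * p u| ≤ 1 := by
    intro u
    rw [abs_mul]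
    have h3 : |1 - om (u / L + 302)| ≤ 1 := by
      rw [abs_le]
      constructor <;> linarith [rsf_hh_om_nonneg (u / L + 302), rsf_hh_om_le (u / L + 302)]
    calc _ ≤ (1 : ℝ) * 1 := mul_le_mul h3 (hp1 u) (abs_nonneg _) zero_le_one
      _ = 1 := one_mul 1
  refine ⟨⟨h1, ?_, ⟨1, fun v => ?_⟩, fun v hv => ?_⟩, ?_⟩
  · exact hc.measurable.indicator measurableSet_Ioc
  · unfold rsf_hh_W
    by_cases hv : v ∈ Set.Ioc (rsf_hh_A L e n) (rsf_hh_A L e (n + 1))
    · rw [Set.indicator_of_mem hv]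
      exact hb v
    · rw [Set.indicator_of_notMem hv, abs_zero]
      exact zero_le_one
  · unfold rsf_hh_W
    rw [Set.indicator_of_notMem]
    exact fun h => hv ⟨h.1.le, h.2⟩
  · have h4 : ∀ u, rsf_hh_W p L e n u ^ 2 ≤
        (Set.Ioc (rsf_hh_A L e n) (rsf_hh_A L e (n + 1))).indicator (fun _ => (1 : ℝ)) u := by
      intro u
      unfold rsf_hh_W
      by_cases hv : u ∈ Set.Ioc (rsf_hh_A L e n) (rsf_hh_A L e (n + 1))
      · rw [Set.indicator_of_mem hv, Set.indicator_of_mem hv, ← sq_abs]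
        exact pow_le_one₀ (abs_nonneg _) (hb u)
      · rw [Set.indicator_of_notMem hv, Set.indicator_of_notMem hv]
        norm_num
    have hi : Integrable ((Set.Ioc (rsf_hh_A L e n) (rsf_hh_A L e (n + 1))).indicator
        (fun _ => (1 : ℝ))) := by
      rw [integrable_indicator_iff measurableSet_Ioc]
      exact integrableOn_const (by simp)
    calc ∫ u : ℝ, rsf_hh_W p L e n u ^ 2 ≤ ∫ u : ℝ,
          (Set.Ioc (rsf_hh_A L e n) (rsf_hh_A L e (n + 1))).indicator (fun _ => (1 : ℝ)) u :=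
          integral_mono_of_nonneg (ae_of_all _ fun u => sq_nonneg _) hi (ae_of_all _ h4)
      _ = rsf_hh_A L e (n + 1) - rsf_hh_A L e n := by
          rw [integral_indicator measurableSet_Ioc, setIntegral_const, smul_eq_mul, mul_one,
            Real.volume_real_Ioc_of_le h1]
      _ ≤ L := h2

/-- One piece: real and imaginary parts. -/
theorem rsf_hh_piece {G : ℝ → ℝ} (hG : Continuous G) {L : ℝ} (hL : 4 ≤ L) (e t : ℝ) (n : ℕ) :
    ‖∫ u in (rsf_hh_A L e n)..(rsf_hh_A L e (n + 1)),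
      ((1 - om (u / L + 302) : ℝ) : ℂ) * (((G u : ℝ) : ℂ) * cexp (t * u * I))‖ ^ 2 =
    (∫ u : ℝ, G u * rsf_hh_W (fun u => Real.cos (t * u)) L e n u) ^ 2 +
    (∫ u : ℝ, G u * rsf_hh_W (fun u => Real.sin (t * u)) L e n u) ^ 2 := by
  obtain ⟨h1, h2⟩ := rsf_hh_A_le hL e n
  set a := rsf_hh_A L e n with ha
  set b := rsf_hh_A L e (n + 1) with hb
  have hom := rsf_hh_om_cont
  have e1 : ∀ p : ℝ → ℝ, ∫ u : ℝ, G u * rsf_hh_W p L e n u =
      ∫ u in a..b, G u * ((1 - om (u / L + 302)) * p u) := by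
    intro p
    rw [intervalIntegral.integral_of_le h1, ← integral_indicator measurableSet_Ioc]
    refine integral_congr_ae (ae_of_all _ fun u => ?_)
    show G u * rsf_hh_W p L e n u =
      (Set.Ioc a b).indicator (fun u => G u * ((1 - om (u / L + 302)) * p u)) u
    unfold rsf_hh_W
    rw [← ha, ← hb]
    by_cases hv : u ∈ Set.Ioc a b
    · rw [Set.indicator_of_mem hv, Set.indicator_of_mem hv]
    · rw [Set.indicator_of_notMem hv, Set.indicator_of_notMem hv, mul_zero]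
  have e2 : ∀ u : ℝ, ((1 - om (u / L + 302) : ℝ) : ℂ) * (((G u : ℝ) : ℂ) * cexp (t * u * I)) =
      ((G u * ((1 - om (u / L + 302)) * Real.cos (t * u)) : ℝ) : ℂ) +
      ((G u * ((1 - om (u / L + 302)) * Real.sin (t * u)) : ℝ) : ℂ) * I := by
    intro u
    have e3 : (t * u * I : ℂ) = ((t * u : ℝ) : ℂ) * I := by push_cast; rfl
    rw [e3, Complex.exp_mul_I, ← ofReal_cos, ← ofReal_sin]
    push_cast
    ring
  simp only [e2]
  rw [intervalIntegral.integral_add, intervalIntegral.integral_mul_const,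
    intervalIntegral.integral_ofReal, intervalIntegral.integral_ofReal, e1, e1,
    Complex.sq_norm, Complex.normSq_add_mul_I]
  · refine Continuous.intervalIntegrable ?_ _ _
    fun_prop
  · refine Continuous.intervalIntegrable ?_ _ _
    fun_prop

/-- Cauchy-Schwarz on an interval. -/
theorem rsf_hh_cs {G : ℝ → ℝ} (hG : Continuous G) {a b : ℝ} (hab : a ≤ b) (t : ℝ) :
    ‖∫ u in a..b, ((G u : ℝ) : ℂ) * cexp (t * u * I)‖ ^ 2 ≤ (b - a) * ∫ u in a..b, G u ^ 2 := by
  obtain ⟨B, hB⟩ := (isCompact_Icc (a := a) (b := b)).exists_bound_of_continuousOn hG.continuousOn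
  have hW : Wt ((Set.Ioc a b).indicator G) a b := by
    refine ⟨hab, hG.measurable.indicator measurableSet_Ioc, ⟨|B|, fun v => ?_⟩, fun v hv => ?_⟩
    · by_cases hv : v ∈ Set.Ioc a b
      · rw [Set.indicator_of_mem hv]
        exact (hB v ⟨hv.1.le, hv.2⟩).trans (le_abs_self B)
      · rw [Set.indicator_of_notMem hv, abs_zero]
        exact abs_nonneg _
    · rw [Set.indicator_of_notMem]
      exact fun h => hv ⟨h.1.le, h.2⟩
  have h1 := wt_l1 hW
  have e1 : ∫ u : ℝ, |(Set.Ioc a b).indicator G u| = ∫ u in a..b, |G u| := by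
    rw [intervalIntegral.integral_of_le hab, ← integral_indicator measurableSet_Ioc]
    refine integral_congr_ae (ae_of_all _ fun u => ?_)
    show |(Set.Ioc a b).indicator G u| = (Set.Ioc a b).indicator (fun u => |G u|) u
    by_cases hv : u ∈ Set.Ioc a b
    · rw [Set.indicator_of_mem hv, Set.indicator_of_mem hv]
    · rw [Set.indicator_of_notMem hv, Set.indicator_of_notMem hv, abs_zero]
  have e2 : ∫ u : ℝ, (Set.Ioc a b).indicator G u ^ 2 = ∫ u in a..b, G u ^ 2 := by
    rw [intervalIntegral.integral_of_le hab, ← integral_indicator measurableSet_Ioc]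
    refine integral_congr_ae (ae_of_all _ fun u => ?_)
    show (Set.Ioc a b).indicator G u ^ 2 = (Set.Ioc a b).indicator (fun u => G u ^ 2) u
    by_cases hv : u ∈ Set.Ioc a b
    · rw [Set.indicator_of_mem hv, Set.indicator_of_mem hv]
    · rw [Set.indicator_of_notMem hv, Set.indicator_of_notMem hv]
      norm_num
  rw [e1, e2] at h1
  refine le_trans ?_ h1
  refine pow_le_pow_left₀ (norm_nonneg _) ?_ 2
  refine (intervalIntegral.norm_integral_le_integral_norm hab).trans (le_of_eq ?_)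
  refine intervalIntegral.integral_congr fun u _ => ?_
  show ‖((G u : ℝ) : ℂ) * cexp (t * u * I)‖ = |G u|
  rw [norm_mul, rsf_hh_norm, mul_one, norm_real, Real.norm_eq_abs]

theorem rsf_hh_cs_sum (N : ℕ) (x : ℕ → ℂ) :
    ‖∑ n ∈ Finset.range N, x n‖ ^ 2 ≤ (N : ℝ) * ∑ n ∈ Finset.range N, ‖x n‖ ^ 2 := by
  refine (pow_le_pow_left₀ (norm_nonneg _) (norm_sum_le _ _) 2).trans ?_
  have h := sq_sum_le_card_mul_sum_sq (s := Finset.range N) (f := fun n => ‖x n‖)
  rwa [Finset.card_range] at h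

/-- The splitting for one density. -/
theorem rsf_hh_split {G : ℝ → ℝ} (hG : Continuous G) {L e l t : ℝ}
    (hGi : IntegrableOn G (Set.Ioi (-l))) (hL : 4 ≤ L) (h1 : -l ≤ e) (h2 : e ≤ -(1000 * L))
    (h3 : -(2000 * L) ≤ e) :
    ‖∫ v in Set.Ioi (0 : ℝ), ((G (v - l) : ℝ) : ℂ) * cexp (t * v * I)‖ ^ 2 ≤
      3 * ‖∫ u : ℝ, ((G u * om (u / L + 302) : ℝ) : ℂ) * cexp (t * u * I)‖ ^ 2 +
      3 * ((e + l) * ∫ u in (-l)..e, G u ^ 2) +
      3 * (2000 * ∑ n ∈ Finset.range 2000,
        ((∫ u : ℝ, G u * rsf_hh_W (fun u => Real.cos (t * u)) L e n u) ^ 2 +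
        (∫ u : ℝ, G u * rsf_hh_W (fun u => Real.sin (t * u)) L e n u) ^ 2)) := by
  have hom := rsf_hh_om_cont
  have hL0 : 0 < L := by linarith
  set H : ℝ → ℂ := fun u => ((G u : ℝ) : ℂ) * cexp (t * u * I) with hH
  have hHc : Continuous H := by
    simp only [hH]
    fun_prop
  have hHi : IntegrableOn H (Set.Ioi (-l)) := by
    refine (hGi.norm).mono' hHc.aestronglyMeasurable (ae_of_all _ fun u => ?_)
    simp only [hH]
    rw [norm_mul, rsf_hh_norm, mul_one, norm_real]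
  -- translation
  have s1 : ‖∫ v in Set.Ioi (0 : ℝ), ((G (v - l) : ℝ) : ℂ) * cexp (t * v * I)‖ =
      ‖∫ u in Set.Ioi (-l), H u‖ := by
    have e1 : ∀ v : ℝ, ((G (v - l) : ℝ) : ℂ) * cexp (t * v * I) =
        cexp (t * l * I) * H (v - l) := by
      intro v
      simp only [hH]
      have : cexp (t * v * I) = cexp (t * l * I) * cexp (t * ((v - l : ℝ) : ℂ) * I) := by
        rw [← Complex.exp_add]
        congr 1
        push_cast
        ring
      rw [this]
      ring
    simp only [e1]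
    rw [integral_const_mul, norm_mul, rsf_hh_norm, one_mul, rsf_hh_shift]
  -- the two parts
  have i1 : IntegrableOn (fun u => ((om (u / L + 302) : ℝ) : ℂ) * H u) (Set.Ioi (-l)) := by
    refine hHi.norm.mono' (Continuous.aestronglyMeasurable (by fun_prop))
      (ae_of_all _ fun u => ?_)
    rw [norm_mul, norm_real, Real.norm_of_nonneg (rsf_hh_om_nonneg _)]
    exact mul_le_of_le_one_left (norm_nonneg _) (rsf_hh_om_le _)
  have i2 : IntegrableOn (fun u => ((1 - om (u / L + 302) : ℝ) : ℂ) * H u) (Set.Ioi (-l)) := by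
    refine hHi.norm.mono' (Continuous.aestronglyMeasurable (by fun_prop))
      (ae_of_all _ fun u => ?_)
    rw [norm_mul, norm_real, Real.norm_of_nonneg (by linarith [rsf_hh_om_le (u / L + 302)])]
    exact mul_le_of_le_one_left (norm_nonneg _) (by linarith [rsf_hh_om_nonneg (u / L + 302)])
  have s2 : ∫ u in Set.Ioi (-l), H u =
      (∫ u in Set.Ioi (-l), ((om (u / L + 302) : ℝ) : ℂ) * H u) +
      ∫ u in Set.Ioi (-l), ((1 - om (u / L + 302) : ℝ) : ℂ) * H u := by
    rw [← integral_add i1 i2]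
    refine integral_congr_ae (ae_of_all _ fun u => ?_)
    show H u = ((om (u / L + 302) : ℝ) : ℂ) * H u + ((1 - om (u / L + 302) : ℝ) : ℂ) * H u
    push_cast
    ring
  have s3 : ∫ u in Set.Ioi (-l), ((om (u / L + 302) : ℝ) : ℂ) * H u =
      ∫ u : ℝ, ((G u * om (u / L + 302) : ℝ) : ℂ) * cexp (t * u * I) := by
    rw [setIntegral_eq_integral_of_forall_compl_eq_zero]
    · refine integral_congr_ae (ae_of_all _ fun u => ?_)
      show ((om (u / L + 302) : ℝ) : ℂ) * H u =
        ((G u * om (u / L + 302) : ℝ) : ℂ) * cexp (t * u * I)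
      simp only [hH]
      push_cast
      ring
    · intro u hu
      have h5 : u ≤ -l := not_lt.1 hu
      have h6 : u / L + 302 ≤ 0 := by
        have : u / L ≤ -302 := by
          rw [div_le_iff₀ hL0]
          linarith
        linarith
      rw [rsf_hh_om0 h6, ofReal_zero, zero_mul]
  have hle : -l ≤ -(301 * L) := by linarith
  have s4 : ∫ u in Set.Ioi (-l), ((1 - om (u / L + 302) : ℝ) : ℂ) * H u =
      (∫ u in (-l)..e, H u) +
      ∑ n ∈ Finset.range 2000, ∫ u in (rsf_hh_A L e n)..(rsf_hh_A L e (n + 1)),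
        ((1 - om (u / L + 302) : ℝ) : ℂ) * H u := by
    have hcont : Continuous (fun u => ((1 - om (u / L + 302) : ℝ) : ℂ) * H u) := by fun_prop
    have hii : ∀ a b : ℝ, IntervalIntegrable
        (fun u => ((1 - om (u / L + 302) : ℝ) : ℂ) * H u) volume a b :=
      fun a b => hcont.intervalIntegrable a b
    have t1 : ∫ u in Set.Ioi (-l), ((1 - om (u / L + 302) : ℝ) : ℂ) * H u =
        ∫ u in (-l)..(-(301 * L)), ((1 - om (u / L + 302) : ℝ) : ℂ) * H u := by
      rw [intervalIntegral.integral_of_le hle]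
      refine setIntegral_eq_of_subset_of_forall_sdiff_eq_zero measurableSet_Ioi
        (fun u hu => hu.1) fun u hu => ?_
      have h5 : -(301 * L) < u := by
        by_contra h6
        exact hu.2 ⟨hu.1, not_lt.1 h6⟩
      have h6 : 1 ≤ u / L + 302 := by
        have : -301 ≤ u / L := by
          rw [le_div_iff₀ hL0]
          linarith
        linarith
      rw [rsf_hh_om1 h6, sub_self, ofReal_zero, zero_mul]
    have t2 : ∫ u in (-l)..e, ((1 - om (u / L + 302) : ℝ) : ℂ) * H u = ∫ u in (-l)..e, H u := by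
      refine intervalIntegral.integral_congr fun u hu => ?_
      rw [Set.uIcc_of_le h1] at hu
      have h6 : u / L + 302 ≤ 0 := by
        have : u / L ≤ -302 := by
          rw [div_le_iff₀ hL0]
          linarith [hu.2]
        linarith
      show ((1 - om (u / L + 302) : ℝ) : ℂ) * H u = H u
      rw [rsf_hh_om0 h6, sub_zero, ofReal_one, one_mul]
    have hA0 : rsf_hh_A L e 0 = e := by
      unfold rsf_hh_A
      rw [Nat.cast_zero, zero_mul, add_zero, min_eq_left (by linarith)]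
    have hA1 : rsf_hh_A L e 2000 = -(301 * L) := by
      unfold rsf_hh_A
      rw [min_eq_right]
      push_cast
      linarith
    rw [t1, ← intervalIntegral.integral_add_adjacent_intervals (hii _ e) (hii _ _), t2,
      intervalIntegral.sum_integral_adjacent_intervals (fun k _ => hii _ _), hA0, hA1]
  -- the estimate
  rw [s1, s2, s3, s4]
  set X := ∫ u : ℝ, ((G u * om (u / L + 302) : ℝ) : ℂ) * cexp (t * u * I) with hX
  set Y := ∫ u in (-l)..e, H u with hY
  have q1 : ‖Y‖ ^ 2 ≤ (e - -l) * ∫ u in (-l)..e, G u ^ 2 := rsf_hh_cs hG h1 t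
  rw [sub_neg_eq_add] at q1
  have q2 : ‖∑ n ∈ Finset.range 2000, ∫ u in (rsf_hh_A L e n)..(rsf_hh_A L e (n + 1)),
        ((1 - om (u / L + 302) : ℝ) : ℂ) * H u‖ ^ 2 ≤
      2000 * ∑ n ∈ Finset.range 2000,
        ((∫ u : ℝ, G u * rsf_hh_W (fun u => Real.cos (t * u)) L e n u) ^ 2 +
        (∫ u : ℝ, G u * rsf_hh_W (fun u => Real.sin (t * u)) L e n u) ^ 2) := by
    have q5 := rsf_hh_cs_sum 2000 (fun n => ∫ u in (rsf_hh_A L e n)..(rsf_hh_A L e (n + 1)),
        ((1 - om (u / L + 302) : ℝ) : ℂ) * H u)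
    rw [Nat.cast_ofNat] at q5
    have q6 : ∀ n ∈ Finset.range 2000, ‖∫ u in (rsf_hh_A L e n)..(rsf_hh_A L e (n + 1)),
        ((1 - om (u / L + 302) : ℝ) : ℂ) * H u‖ ^ 2 =
        (∫ u : ℝ, G u * rsf_hh_W (fun u => Real.cos (t * u)) L e n u) ^ 2 +
        (∫ u : ℝ, G u * rsf_hh_W (fun u => Real.sin (t * u)) L e n u) ^ 2 :=
      fun n _ => rsf_hh_piece hG hL e t n
    rw [Finset.sum_congr rfl q6] at q5
    exact q5
  set Z := ∑ n ∈ Finset.range 2000, ∫ u in (rsf_hh_A L e n)..(rsf_hh_A L e (n + 1)),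
        ((1 - om (u / L + 302) : ℝ) : ℂ) * H u with hZ
  have q3 : ‖X + (Y + Z)‖ ≤ ‖X‖ + (‖Y‖ + ‖Z‖) :=
    (norm_add_le _ _).trans (add_le_add le_rfl (norm_add_le _ _))
  have q4 : ‖X + (Y + Z)‖ ^ 2 ≤ 3 * ‖X‖ ^ 2 + 3 * ‖Y‖ ^ 2 + 3 * ‖Z‖ ^ 2 := by
    refine (pow_le_pow_left₀ (norm_nonneg _) q3 2).trans ?_
    nlinarith [sq_nonneg (‖X‖ - ‖Y‖), sq_nonneg (‖X‖ - ‖Z‖), sq_nonneg (‖Y‖ - ‖Z‖)]
  linarith

theorem rsf_hh_cc (j : Fin 4) : 1 ≤ cc j ∧ cc j ≤ 8 := by
  fin_cases j <;> simp [cc]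

theorem hh_bound_pr {Θ : ℝ → ℝ} (hΘ : Cut Θ) {κ : ℕ} (hκ : κ ≤ 1) (i : ℕ) : ∃ C : ℝ, 0 < C ∧
    ∀ (j : Fin 4) (c : ℕ) (L K t : ℝ), OC c → Par κ j c → 4 ≤ L → 1 ≤ K →
    2000 * L ≤ Real.log K → Real.log K ≤ 4000 * L →
    ∑ m ∈ blk8 c K, ‖∫ v in Set.Ioi (0 : ℝ),
      (ff (gl κ i) Θ L 1 j m (v - Real.log ((cc j * m : ℕ) : ℝ) / 2) : ℂ) *
        cexp (t * v * I)‖ ^ 2 ≤ C * K := by
  have hg := ker1_gl hκ i
  obtain ⟨C1, hC1, b1⟩ := fuw_bound hΘ hκ i
  obtain ⟨C2, hC2, b2⟩ := fup_bound hΘ hκ i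
  obtain ⟨C3, hC3, b3⟩ := t2_bound hg hΘ
  obtain ⟨C4, hC4, b4⟩ := fo_pos hg hΘ
  refine ⟨3 * C3 + 12 * C2 + 24000000 * C1, by positivity, ?_⟩
  intro j c L K t hOC hPar hL hK hK1 hK2
  have hL0 : 0 < L := by linarith
  have hK0 : 0 < K := by linarith
  set G : ℕ → ℝ → ℝ := fun m => ff (gl κ i) Θ L 1 j m with hGdef
  have hGc : ∀ m, Continuous (G m) := fun m =>
    continuous_iff_continuousAt.2 fun u => (ff_deriv hg Θ L 1 j m u).continuousAt
  have hGi : ∀ m a, IntegrableOn (G m) (Set.Ioi a) := by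
    intro m a
    have h1 : IntegrableOn (fun u : ℝ => (C4 * Real.exp (4 * L)) * Real.exp (-1 * u))
      (Set.Ioi a) := (exp_neg_integrableOn_Ioi a (by norm_num : (0 : ℝ) < 1)).const_mul _
    refine Integrable.mono' h1 (hGc m).aestronglyMeasurable (ae_of_all _ fun u => ?_)
    rw [Real.norm_eq_abs]
    refine ((b4 L 1 j m u (by linarith)).2).trans (le_of_eq ?_)
    have e1 : Real.exp (4 * L - u) = Real.exp (4 * L) * Real.exp (-1 * u) := by
      rw [← Real.exp_add]
      congr 1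
      ring
    rw [e1]
    ring
  set e := ce K with he
  have heK : e = -(1 / 2) * Real.log K := rfl
  have h2 : e ≤ -(1000 * L) := by rw [heK]; linarith
  have h3 : -(2000 * L) ≤ e := by rw [heK]; linarith
  have hl : ∀ m ∈ blk8 c K, -(Real.log ((cc j * m : ℕ) : ℝ) / 2) ≤ e ∧
      e - 2 ≤ -(Real.log ((cc j * m : ℕ) : ℝ) / 2) := by
    intro m hm
    unfold blk8 at hm
    obtain ⟨_, hm1, hm2, _⟩ := Finset.mem_filter.1 hm
    obtain ⟨c1, c2⟩ := rsf_hh_cc j
    have c1' : (1 : ℝ) ≤ cc j := by exact_mod_cast c1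
    have c2' : (cc j : ℝ) ≤ 8 := by exact_mod_cast c2
    have hq1 : K ≤ ((cc j * m : ℕ) : ℝ) := by
      push_cast
      nlinarith
    have hq2 : ((cc j * m : ℕ) : ℝ) ≤ K * 16 := by
      push_cast
      nlinarith
    have l1 := Real.log_le_log hK0 hq1
    have l2 := Real.log_le_log (by linarith) hq2
    rw [Real.log_mul hK0.ne' (by norm_num)] at l2
    have l3 : Real.log 16 ≤ 4 := by
      have : (16 : ℝ) = 2 ^ 4 := by norm_num
      rw [this, Real.log_pow]
      have := Real.log_two_lt_d9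
      push_cast
      linarith
    rw [heK]
    constructor <;> linarith
  -- each density
  have step := fun m (hm : m ∈ blk8 c K) =>
    rsf_hh_split (t := t) (hGc m) (hGi m (-(Real.log ((cc j * m : ℕ) : ℝ) / 2))) hL (hl m hm).1 h2 h3
  refine (Finset.sum_le_sum step).trans ?_
  rw [Finset.sum_add_distrib, Finset.sum_add_distrib, ← Finset.mul_sum, ← Finset.mul_sum,
    ← Finset.mul_sum, ← Finset.mul_sum]
  have p1 : ∑ m ∈ blk8 c K, ‖∫ u : ℝ, ((G m u * om (u / L + 302) : ℝ) : ℂ) *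
      cexp (t * u * I)‖ ^ 2 ≤ C3 * K := b3 j c L K t hOC hL hK hK1
  have p2 : ∑ m ∈ blk8 c K, ((e + Real.log ((cc j * m : ℕ) : ℝ) / 2) *
      ∫ u in (-(Real.log ((cc j * m : ℕ) : ℝ) / 2))..e, G m u ^ 2) ≤ 4 * C2 * K := by
    have r1 : ∀ m ∈ blk8 c K, ((e + Real.log ((cc j * m : ℕ) : ℝ) / 2) *
        ∫ u in (-(Real.log ((cc j * m : ℕ) : ℝ) / 2))..e, G m u ^ 2) ≤
        2 * ∫ u in (e - 2)..e, G m u ^ 2 := by
      intro m hm
      obtain ⟨l1, l2⟩ := hl m hm
      have hii : ∀ a b : ℝ, IntervalIntegrable (fun u => G m u ^ 2) volume a b :=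
        fun a b => ((hGc m).pow 2).intervalIntegrable a b
      have r2 : ∫ u in (-(Real.log ((cc j * m : ℕ) : ℝ) / 2))..e, G m u ^ 2 ≤
          ∫ u in (e - 2)..e, G m u ^ 2 := by
        refine intervalIntegral.integral_mono_interval l2 l1 le_rfl
          (ae_of_all _ fun u => sq_nonneg _) (hii _ _)
      have r3 : 0 ≤ ∫ u in (-(Real.log ((cc j * m : ℕ) : ℝ) / 2))..e, G m u ^ 2 :=
        intervalIntegral.integral_nonneg l1 fun u _ => sq_nonneg _
      have r4 : e + Real.log ((cc j * m : ℕ) : ℝ) / 2 ≤ 2 := by linarith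
      calc _ ≤ 2 * ∫ u in (-(Real.log ((cc j * m : ℕ) : ℝ) / 2))..e, G m u ^ 2 :=
            mul_le_mul_of_nonneg_right r4 r3
        _ ≤ _ := mul_le_mul_of_nonneg_left r2 (by norm_num)
    refine (Finset.sum_le_sum r1).trans ?_
    have r8 : ∑ m ∈ blk8 c K, ∫ u in (e - 2)..e, G m u ^ 2 =
        ∫ u in (e - 2)..e, ∑ m ∈ blk8 c K, G m u ^ 2 :=
      (intervalIntegral.integral_finsetSum (f := fun m u => G m u ^ 2)
        (fun m _ => ((hGc m).pow 2).intervalIntegrable _ _)).symm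
    rw [← Finset.mul_sum, r8]
    have r5 : ∫ u in (e - 2)..e, ∑ m ∈ blk8 c K, G m u ^ 2 ≤
        ∫ _ in (e - 2)..e, C2 * K / L := by
      refine intervalIntegral.integral_mono_on (by linarith)
        (Continuous.intervalIntegrable (continuous_finsetSum _ fun m _ => (hGc m).pow 2) _ _)
        (continuous_const.intervalIntegrable _ _) fun u hu => ?_
      exact b2 j c L K u hOC hPar hL hK hK1 hK2 (by linarith [hu.1]) (by linarith [hu.2])
    rw [intervalIntegral.integral_const, smul_eq_mul] at r5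
    have r6 : C2 * K / L ≤ C2 * K := div_le_self (by positivity) (by linarith)
    have r7 : (e - (e - 2)) * (C2 * K / L) ≤ 2 * (C2 * K) := by
      have : e - (e - 2) = 2 := by ring
      rw [this]
      linarith
    linarith
  have p3 : ∑ m ∈ blk8 c K, ∑ n ∈ Finset.range 2000,
      ((∫ u : ℝ, G m u * rsf_hh_W (fun u => Real.cos (t * u)) L e n u) ^ 2 +
        (∫ u : ℝ, G m u * rsf_hh_W (fun u => Real.sin (t * u)) L e n u) ^ 2) ≤
      4000 * C1 * K := by
    rw [Finset.sum_comm]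
    have r1 : ∀ p : ℝ → ℝ, Continuous p → (∀ u, |p u| ≤ 1) → ∀ n : ℕ,
        ∑ m ∈ blk8 c K, (∫ u : ℝ, G m u * rsf_hh_W p L e n u) ^ 2 ≤ C1 * K := by
      intro p hp hp1 n
      obtain ⟨w1, w2⟩ := rsf_hh_wt hp hp1 hL e n
      obtain ⟨a1, a2⟩ := rsf_hh_A_le hL e n
      have w3 : ce K - 3 ≤ rsf_hh_A L e n := by
        unfold rsf_hh_A
        rw [le_min_iff]
        rw [← he]
        constructor
        · have : 0 ≤ (n : ℝ) * L := by positivity
          linarith
        · linarith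
      have w4 : rsf_hh_A L e (n + 1) ≤ -(300 * L) := by
        unfold rsf_hh_A
        refine (min_le_right _ _).trans ?_
        linarith
      have w5 := b1 j c L K _ _ _ hOC hPar hL hK hK1 hK2 w1 a2 w3 w4
      refine w5.trans ?_
      calc C1 * K / L * ∫ u : ℝ, rsf_hh_W p L e n u ^ 2 ≤ C1 * K / L * L :=
            mul_le_mul_of_nonneg_left w2 (by positivity)
        _ = C1 * K := div_mul_cancel₀ _ hL0.ne'
    have r2 : ∀ n ∈ Finset.range 2000, ∑ m ∈ blk8 c K,
        ((∫ u : ℝ, G m u * rsf_hh_W (fun u => Real.cos (t * u)) L e n u) ^ 2 +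
        (∫ u : ℝ, G m u * rsf_hh_W (fun u => Real.sin (t * u)) L e n u) ^ 2) ≤
        2 * (C1 * K) := by
      intro n _
      rw [Finset.sum_add_distrib]
      have r3 := r1 (fun u => Real.cos (t * u)) (by fun_prop) (fun u => Real.abs_cos_le_one _) n
      have r4 := r1 (fun u => Real.sin (t * u)) (by fun_prop) (fun u => Real.abs_sin_le_one _) n
      linarith
    refine (Finset.sum_le_sum r2).trans (le_of_eq ?_)
    rw [Finset.sum_const, Finset.card_range, nsmul_eq_mul]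
    push_cast
    ring
  calc _ ≤ 3 * (C3 * K) + 3 * (4 * C2 * K) + 3 * (2000 * (4000 * C1 * K)) := by
        refine add_le_add (add_le_add ?_ ?_) ?_
        · exact mul_le_mul_of_nonneg_left p1 (by norm_num)
        · exact mul_le_mul_of_nonneg_left p2 (by norm_num)
        · exact mul_le_mul_of_nonneg_left (mul_le_mul_of_nonneg_left p3 (by norm_num))
            (by norm_num)
    _ = _ := by ring

end Pool.Agent.RSF

namespace Pool.Agent.RSF

alias hh_bound := hh_bound_pr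

end Pool.Agent.RSF
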