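import Pool.Agent.Lib_helper39.RSF.Defs
import Pool.Agent.Lib_helper39.RSA.REPK
/-! RSF block REL : the density of a real character -/

namespace Pool.Agent.RSF

open Complex MeasureTheory Filter Topology
open Pool.Agent.RC (cc psi rv f0 IsRC Good gm pr DD)
open Pool.Agent.RSE
open Pool.Agent.ABS (Nice LData Piece oddZ)
open Pool.Agent.SQS (hat)
open scoped ContDiff

theorem rsf_rel_sum {κ : ℕ} (hκ : κ ≤ 1) (j : Fin 4) (m i : ℕ) (u : ℝ) :
    DF (gl κ i) j m u = DF (iteratedDeriv (i + 2) (k0 κ)) j m u -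
      1 / 4 * DF (iteratedDeriv i (k0 κ)) j m u := by
  obtain ⟨C, hC⟩ := rse_repk_bd hκ (i + 2)
  obtain ⟨C', hC'⟩ := rse_repk_bd hκ i
  have s1 := rse_fek_t_sum hC j m u
  have s2 := rse_fek_t_sum hC' j m u
  rw [rse_fek_DF, rse_fek_DF, rse_fek_DF]
  simp only
  rw [← tsum_mul_left, ← s1.tsum_sub (s2.mul_left _)]
  refine tsum_congr fun n => ?_
  unfold rse_fek_t
  split_ifs
  · unfold gl
    ring
  · ring

theorem dfl_nice_pr {κ : ℕ} {j : Fin 4} {m : ℕ} (hm : 2 ≤ m)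
    {χ : DirichletCharacter ℂ (cc j * m)} (h : IsRC κ j m χ) (i : ℕ) :
    Nice (fun u => (DF (gl κ i) j m u : ℂ)) := by
  have hκ : κ ≤ 1 := by
    rcases h.2.2 with ⟨h, -⟩ | ⟨h, -⟩ <;> omega
  obtain ⟨c1, i1, B1, b1⟩ := rse_repk_int hm h (i + 2)
  obtain ⟨c2, i2, B2, b2⟩ := rse_repk_int hm h i
  have e : (fun u => (DF (gl κ i) j m u : ℂ)) = fun u =>
      (DF (iteratedDeriv (i + 2) (k0 κ)) j m u : ℂ) -
        1 / 4 * (DF (iteratedDeriv i (k0 κ)) j m u : ℂ) := by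
    funext u
    rw [rsf_rel_sum hκ]
    push_cast
    ring
  rw [e]
  refine ⟨?_, ?_, B1 + 1 / 4 * B2, fun u => ?_⟩
  · exact (c1.sub (continuous_const.mul c2)).measurable
  · exact i1.sub (i2.const_mul _)
  · refine (norm_sub_le _ _).trans ?_
    rw [norm_mul]
    have h1 : ‖(1 / 4 : ℂ)‖ = 1 / 4 := by norm_num
    rw [h1]
    have := b1 u
    have := b2 u
    linarith

theorem dfl_rep_pr {κ : ℕ} {j : Fin 4} {m : ℕ} (hm : 2 ≤ m) [NeZero (cc j * m)]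
    {χ : DirichletCharacter ℂ (cc j * m)} (h : IsRC κ j m χ) (t : ℝ) :
    hat (fun u => (DF (gl κ 0) j m u : ℂ)) t = -(t ^ 2 + 1 / 4) *
      DirichletCharacter.completedLFunction χ (1 / 2 + t * I) := by
  have hκ : κ ≤ 1 := by
    rcases h.2.2 with ⟨h, -⟩ | ⟨h, -⟩ <;> omega
  rw [Pool.Agent.RC.rc_fe_rep hm χ h t]
  have h0 : ∫ u : ℝ, (DD (f0 κ) 1 j m u : ℂ) * cexp (t * u * I) =
      ∫ u : ℝ, (DF (iteratedDeriv 0 (k0 κ)) j m u : ℂ) * cexp (t * u * I) := by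
    refine integral_congr_ae (Filter.Eventually.of_forall fun u => ?_)
    simp only [iteratedDeriv_zero, rse_fek_DD j hm]
  rw [h0]
  have h1 := rse_repk_parts hm h 0 t
  have h2 := rse_repk_parts hm h 1 t
  simp only [zero_add] at h1 h2
  obtain ⟨-, i1, -⟩ := rse_repk_int hm h 0
  obtain ⟨-, i3, -⟩ := rse_repk_int hm h 2
  have I1 := rse_repk_mul i1 t
  have I3 := rse_repk_mul i3 t
  unfold Pool.Agent.SQS.hat
  have h4 : ∫ u : ℝ, (DF (gl κ 0) j m u : ℂ) * cexp (t * u * I) =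
      (∫ u : ℝ, (DF (iteratedDeriv 2 (k0 κ)) j m u : ℂ) * cexp (t * u * I)) -
        1 / 4 * ∫ u : ℝ, (DF (iteratedDeriv 0 (k0 κ)) j m u : ℂ) * cexp (t * u * I) := by
    rw [← integral_const_mul, ← integral_sub I3 (I1.const_mul _)]
    refine integral_congr_ae (Filter.Eventually.of_forall fun u => ?_)
    simp only
    rw [rsf_rel_sum hκ]
    push_cast
    ring
  rw [h4]
  have e2 : (1 : ℕ) + 1 = 2 := rfl
  rw [e2] at h2
  rw [h2, h1]
  linear_combination ((t : ℂ) ^ 2 * (∫ u : ℝ, (DF (iteratedDeriv 0 (k0 κ)) j m u : ℂ) *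
    cexp (t * u * I))) * Complex.I_sq

end Pool.Agent.RSF

namespace Pool.Agent.RSF

alias dfl_nice := dfl_nice_pr

alias dfl_rep := dfl_rep_pr

end Pool.Agent.RSF
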