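import Pool.Agent.Lib_helper39.RSF.Defs
import Pool.Agent.Lib_helper39.RSF.KG1
import Pool.Agent.Lib_helper39.RSF.PFM
import Pool.Agent.Lib_helper39.RSF.SMO2
import Pool.Agent.Lib_helper39.RSF.AMB2
import Pool.Agent.Lib_helper39.RSF.DSQ
import Pool.Agent.Lib_helper39.RSF.XLIM
import Pool.Agent.Lib_helper39.RSF.XR2
import Pool.Agent.Lib_helper39.RSF.DDE
import Pool.Agent.Lib_helper39.RSF.DFO
import Pool.Agent.Lib_helper39.RSF.DOD
import Pool.Agent.Lib_helper39.RSF.M4B
import Pool.Agent.Lib_helper39.RSF.FUI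
import Pool.Agent.Lib_helper39.RSA.XR6
import Pool.Agent.Lib_helper39.RSA.PRM
import Pool.Agent.Lib_helper39.RSA.SOB
import Pool.Agent.Lib_helper39.RSA.BNS
import Pool.Agent.Lib_helper39.RSA.QLA
import Pool.Agent.Lib_helper39.RSA.QLB
import Pool.Agent.Lib_helper39.RSA.PER
import Pool.Agent.Lib_helper39.RSA.AVE
import Pool.Agent.Lib_helper39.RSA.CUT1
import Pool.Agent.Lib_helper39.RSA.CUT2
import Pool.Agent.Lib_helper24.ABS.Endgame
import Pool.Agent.Lib_helper39.RSG.FEL
import Pool.Agent.Lib_helper39.RSG.GLL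
import Pool.Agent.Lib_helper39.RSG.KGL
import Pool.Agent.Lib_helper39.RSG.REL
/-!
# Block PIL: the piece of a real character
-/

namespace Pool.Agent.RSF

open Complex MeasureTheory Filter Topology
open Pool.Agent.RC (cc psi rv f0 IsRC Good gm pr DD)
open Pool.Agent.RSE
open Pool.Agent.ABS (Nice LData Piece oddZ)
open Pool.Agent.SQS (hat)
open scoped ContDiff

theorem rsf_pil_ord {f g : ℂ → ℂ} {z : ℂ} (hf : AnalyticAt ℂ f z) (hg : AnalyticAt ℂ g z)
    (hz : f z ≠ 0) : analyticOrderNatAt (fun s => f s * g s) z = analyticOrderNatAt g z := by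
  unfold analyticOrderNatAt
  have h1 : analyticOrderAt (f * g) z = analyticOrderAt f z + analyticOrderAt g z :=
    analyticOrderAt_mul hf hg
  rw [hf.analyticOrderAt_eq_zero.2 hz, zero_add] at h1
  exact congrArg ENat.toNat h1

/-- PIL (cites FEL, REL, GLL): the piece of a real character. -/
theorem exists_piece_l_pr (Θ : ℝ → ℝ) (L : ℝ) {κ : ℕ} {j : Fin 4} {m : ℕ} (hm : 2 ≤ m)
    [NeZero (cc j * m)] {χ : DirichletCharacter ℂ (cc j * m)} (h : IsRC κ j m χ) :
    ∃ P : Piece, (∀ t : ℝ, t ∈ oddZ P.Λ ↔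
      Odd (analyticOrderNatAt (DirichletCharacter.completedLFunction χ) (1 / 2 + t * I))) ∧
    (∀ v : ℝ, P.f v =
      (ff (gl κ 0) Θ L 1 j m (v - Real.log ((cc j * m : ℕ) : ℝ) / 2) : ℂ)) ∧
    (∀ u : ℝ, P.D u = (DM (gl κ 0) Θ L j m u : ℂ)) ∧
    ∀ u : ℝ, P.g u = (gA (gl κ 0) j m u : ℂ) := by
  have hκ : κ ≤ 1 := by
    rcases h.2.2 with h1 | h1
    · omega
    · omega
  have hcc : 1 ≤ cc j := by
    fin_cases j <;> simp [cc]
  have hN : 2 ≤ cc j * m := by nlinarith
  have hχ : χ ≠ 1 := by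
    intro h1
    have h2 := h.1
    rw [h1] at h2
    have h3 : (1 : DirichletCharacter ℂ (cc j * m)).conductor = cc j * m := h2
    rw [DirichletCharacter.conductor_one] at h3
    omega
  set A : ℝ := Real.log ((cc j * m : ℕ) : ℝ) with hA
  set dens : ℝ → ℂ := fun u => (DF (gl κ 0) j m u : ℂ) with hdens
  set Λ : ℂ → ℂ := fun s => (-(s * (1 - s))) *
    DirichletCharacter.completedLFunction χ s with hΛ
  have hcd : Differentiable ℂ (DirichletCharacter.completedLFunction χ) :=
    DirichletCharacter.differentiable_completedLFunction hχ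
  have hrep : ∀ t : ℝ, hat dens t = Λ (1 / 2 + t * I) := by
    intro t
    rw [hdens, dfl_rep hm h t, hΛ]
    dsimp only
    have hI : I ^ 2 = -1 := Complex.I_sq
    have h1 : -((1 / 2 + (t : ℂ) * I) * (1 - (1 / 2 + t * I))) = -((t : ℂ) ^ 2 + 1 / 4) := by
      linear_combination ((t : ℂ) ^ 2) * hI
    rw [h1]
  obtain ⟨w, hw, hfek⟩ := fel_eq hm h 0
  let X : LData :=
    { Λ := Λ
      A := A
      dens := dens
      diff := by
        rw [hΛ]
        fun_prop
      nice := dfl_nice hm h 0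
      rep := hrep
      fe := by
        refine ⟨(w : ℂ), by rw [Complex.norm_real, Real.norm_eq_abs, hw], fun t => ?_⟩
        refine Pool.Agent.ABS.fe_of_dens hrep (by rw [Complex.norm_real, Real.norm_eq_abs, hw])
          (fun u => ?_) t
        rw [hdens]
        dsimp only
        rw [Complex.conj_ofReal, hfek u, ← Complex.ofReal_mul]
        congr 1
        have hww : w * w = 1 := by
          rw [← abs_mul_abs_self, hw, one_mul]
        rw [← mul_assoc, hww, one_mul] }
  set b : ℕ → ℂ := fun k => ((be Θ L 1 k * (rv j m k : ℝ) / √(k : ℝ) : ℝ) : ℂ) with hb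
  have hbc : ∀ k, starRingEnd ℂ (b k) = b k := fun k => Complex.conj_ofReal _
  have hrv : ∀ k l : ℕ, (rv j m (k * l) : ℝ) = (rv j m k : ℝ) * (rv j m l : ℝ) := by
    intro k l
    have h1 : (rv j m (k * l) : ℂ) = (rv j m k : ℂ) * (rv j m l : ℂ) := by
      rw [← h.2.1, ← h.2.1, ← h.2.1, Nat.cast_mul, map_mul]
    exact_mod_cast h1
  have hbb : ∀ k l : ℕ, b k * b l = ((be Θ L 1 k * be Θ L 1 l * (rv j m (k * l) : ℝ) /
      √((k : ℝ) * l) : ℝ) : ℂ) := by
    intro k l
    rw [hb]
    dsimp only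
    rw [← Complex.ofReal_mul, hrv, Real.sqrt_mul (Nat.cast_nonneg k)]
    congr 1
    rw [div_mul_div_comm]
    congr 1
    ring
  refine ⟨X.piece (KL L) b (fun k : ℕ => Real.log k) (fun u => (gA (gl κ 0) j m u : ℂ))
    (gal_nice (ker1_gl hκ 0) j m), fun t => ?_, fun v => ?_, fun u => ?_, fun u => rfl⟩
  · show Odd (analyticOrderNatAt Λ (1 / 2 + t * I)) ↔ _
    rw [hΛ, rsf_pil_ord (f := fun s : ℂ => -(s * (1 - s))) (by fun_prop)
      (hcd.analyticAt _)]
    have h1 : (1 / 2 + (t : ℂ) * I) ≠ 0 := by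
      intro h0
      have := congrArg Complex.re h0
      simp at this
    have h2 : (1 : ℂ) - (1 / 2 + (t : ℂ) * I) ≠ 0 := by
      intro h0
      have := congrArg Complex.re h0
      simp at this
      norm_num at this
    exact neg_ne_zero.mpr (mul_ne_zero h1 h2)
  · show X.fd (KL L) b (fun k : ℕ => Real.log k) v = _
    unfold LData.fd ff
    rw [Complex.ofReal_sum]
    refine Finset.sum_congr rfl fun k _ => ?_
    rw [Complex.ofReal_sum]
    refine Finset.sum_congr rfl fun l _ => ?_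
    rw [hbc, hbb, Complex.ofReal_mul]
    congr 1
    show ((DF (gl κ 0) j m (v + (Real.log k - Real.log l - A / 2)) : ℝ) : ℂ) = _
    congr 2
    ring
  · show X.Dd (KL L) b (fun k : ℕ => Real.log k) u = _
    unfold LData.Dd DM
    rw [Complex.ofReal_sum]
    refine Finset.sum_congr rfl fun k _ => ?_
    rw [Complex.ofReal_sum]
    refine Finset.sum_congr rfl fun l _ => ?_
    rw [hbb, Complex.ofReal_mul]
    congr 1
    show ((DF (gl κ 0) j m (u + (Real.log k + Real.log l)) : ℝ) : ℂ) = _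
    congr 2
    ring


end Pool.Agent.RSF

namespace Pool.Agent.RSF

alias exists_piece_l := exists_piece_l_pr

end Pool.Agent.RSF
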