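import Pool.Agent.Lib_helper39.RSF.Defs
import Pool.Agent.Lib_helper39.RSF.KG1
import Pool.Agent.Lib_helper39.RSF.PFM
import Pool.Agent.Lib_helper39.RSF.SMO2
import Pool.Agent.Lib_helper39.RSF.AMB2
import Pool.Agent.Lib_helper39.RSF.DSQ
import Pool.Agent.Lib_helper39.RSF.XLIM
import Pool.Agent.Lib_helper39.RSF.XR2
import Pool.Agent.Lib_helper39.RSF.DDE
import Pool.Agent.Lib_helper39.RSF.DFO
import Pool.Agent.Lib_helper39.RSF.DOD
import Pool.Agent.Lib_helper39.RSF.M4B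
import Pool.Agent.Lib_helper39.RSF.FUI
import Pool.Agent.Lib_helper39.RSA.XR6
import Pool.Agent.Lib_helper39.RSA.PRM
import Pool.Agent.Lib_helper39.RSA.SOB
import Pool.Agent.Lib_helper39.RSA.BNS
import Pool.Agent.Lib_helper39.RSA.QLA
import Pool.Agent.Lib_helper39.RSA.QLB
import Pool.Agent.Lib_helper39.RSA.PER
import Pool.Agent.Lib_helper39.RSA.AVE
import Pool.Agent.Lib_helper39.RSA.CUT1
import Pool.Agent.Lib_helper39.RSA.CUT2
import Pool.Agent.Lib_helper24.ABS.Endgame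
import Pool.Agent.Lib_helper39.RSF.FAM
import Pool.Agent.Lib_helper39.RSG.DDW
import Pool.Agent.Lib_helper39.RSG.FVW
import Pool.Agent.Lib_helper39.RSG.GLL
import Pool.Agent.Lib_helper39.RSG.HH
import Pool.Agent.Lib_helper39.RSG.KGL
import Pool.Agent.Lib_helper39.RSG.PIL
import Pool.Agent.Lib_helper39.RSG.UTW
/-!
# Selberg's theorem for real characters, all windows: one dyadic block
-/

namespace Pool.Agent.RSF

open Complex MeasureTheory Filter Topology
open Pool.Agent.RC (cc psi rv f0 IsRC Good gm pr DD)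
open Pool.Agent.RSE
open Pool.Agent.ABS (Nice LData Piece oddZ)
open Pool.Agent.SQS (hat)
open scoped ContDiff

/-- The odd order zeros of `Λ(s, χ)` on the critical line. -/
def oddS {q : ℕ} [NeZero q] (χ : DirichletCharacter ℂ q) : Set ℝ :=
  {t : ℝ | Odd (analyticOrderNatAt (DirichletCharacter.completedLFunction χ) (1 / 2 + t * I))}

/-- Some interval of length `h` in `[a, b]` contains at most `N` odd zeros. -/
def BadI (a b h : ℝ) (N : ℕ) {q : ℕ} [NeZero q] (χ : DirichletCharacter ℂ q) : Prop :=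
  ∃ x : ℝ, a ≤ x ∧ x + h ≤ b ∧ (oddS χ ∩ Set.Ioo x (x + h)).encard ≤ N

/-- The real character attached to `(j, m)` has parity `κ` and is bad on `[a, b]`. -/
def BadM (κ : ℕ) (j : Fin 4) (a b h : ℝ) (N : ℕ) (m : ℕ) : Prop :=
  2 ≤ m ∧ Odd m ∧ ∃ (_ : NeZero (cc j * m)) (χ : DirichletCharacter ℂ (cc j * m)),
    IsRC κ j m χ ∧ BadI a b h N χ

theorem card_blk8 (c : ℕ) {K : ℝ} (hK : 2 ≤ K) : ((blk8 c K).card : ℝ) ≤ 4 * K := by
  have h1 : (blk8 c K).card ≤ ⌈2 * K⌉₊ := by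
    have := Finset.card_filter_le (Finset.range ⌈2 * K⌉₊)
      (fun m : ℕ => K ≤ (m : ℝ) ∧ (m : ℝ) < 2 * K ∧ m % 8 = c)
    rw [Finset.card_range] at this
    exact this
  have h2 : ((⌈2 * K⌉₊ : ℕ) : ℝ) < 2 * K + 1 := Nat.ceil_lt_add_one (by linarith)
  have h3 : ((blk8 c K).card : ℝ) ≤ (⌈2 * K⌉₊ : ℕ) := by exact_mod_cast h1
  linarith

theorem fin_cplx {r : ℝ → ℝ} (hr : Integrable r) {W : ℝ → ℂ} (hWm : Measurable W)
    (hWb : ∃ B, ∀ v, ‖W v‖ ≤ B) : ‖∫ v, (r v : ℂ) * W v‖ ^ 2 =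
      (∫ v, r v * (W v).re) ^ 2 + (∫ v, r v * (W v).im) ^ 2 := by
  obtain ⟨B, hB⟩ := hWb
  have hi : Integrable (fun v => (r v : ℂ) * W v) :=
    (hr.ofReal (𝕜 := ℂ)).mul_bdd (c := B) hWm.aestronglyMeasurable (ae_of_all _ hB)
  have h1 : (∫ v, (r v : ℂ) * W v).re = ∫ v, r v * (W v).re := by
    have := integral_re hi
    simp only [RCLike.re_eq_complex_re, Complex.mul_re, ofReal_re, ofReal_im, zero_mul,
      sub_zero] at this
    exact this.symm
  have h2 : (∫ v, (r v : ℂ) * W v).im = ∫ v, r v * (W v).im := by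
    have := integral_im hi
    simp only [RCLike.im_eq_complex_im, Complex.mul_im, ofReal_re, ofReal_im, zero_mul,
      add_zero] at this
    exact this.symm
  rw [Complex.sq_norm, Complex.normSq_apply, h1, h2]
  ring

theorem fin_wt {W : ℝ → ℂ} {a b : ℝ} (hab : a ≤ b) (hWm : Measurable W)
    (hWb : ∃ B, ∀ v, ‖W v‖ ≤ B) (hs : ∀ v, v ∉ Set.Icc a b → W v = 0) :
    Wt (fun v => (W v).re) a b ∧ Wt (fun v => (W v).im) a b ∧
      (∫ v, (W v).re ^ 2) + ∫ v, (W v).im ^ 2 = ∫ v, ‖W v‖ ^ 2 := by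
  obtain ⟨B, hB⟩ := hWb
  have h1 : Wt (fun v => (W v).re) a b :=
    ⟨hab, Complex.measurable_re.comp hWm, ⟨B, fun v => (Complex.abs_re_le_norm _).trans (hB v)⟩,
      fun v hv => by simp [hs v hv]⟩
  have h2 : Wt (fun v => (W v).im) a b :=
    ⟨hab, Complex.measurable_im.comp hWm, ⟨B, fun v => (Complex.abs_im_le_norm _).trans (hB v)⟩,
      fun v hv => by simp [hs v hv]⟩
  refine ⟨h1, h2, ?_⟩
  have e1 := (wt_int h1 (continuous_const (y := (1 : ℝ)))).2.2.1
  have e2 := (wt_int h2 (continuous_const (y := (1 : ℝ)))).2.2.1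
  rw [← integral_add e1 e2]
  refine integral_congr_ae (ae_of_all _ fun v => ?_)
  show (W v).re ^ 2 + (W v).im ^ 2 = ‖W v‖ ^ 2
  rw [Complex.sq_norm, Complex.normSq_apply]
  ring

theorem fin_real {f : ℝ → ℂ} {r : ℝ → ℝ} (h : ∀ v, f v = (r v : ℂ)) (hf : Integrable f) :
    Integrable r := by
  have : r = fun v => (f v).re := by
    funext v
    rw [h v, ofReal_re]
  rw [this]
  exact hf.re

open Classical in
/-- One block. -/
theorem block_one {κ : ℕ} (hκ : κ ≤ 1) (T : ℝ) : ∃ C K0 : ℝ,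
    0 < C ∧ 2 ≤ K0 ∧ ∀ (j : Fin 4) (c : ℕ) (K a b h H : ℝ), OC c → Par κ j c → K0 ≤ K →
    -T ≤ a → b ≤ T → 0 < H → H ≤ h → h ≤ b - a →
    (((blk8 c K).filter (BadM κ j a b h ⌊h / H⌋₊)).card : ℝ) ≤
      C * (b - a) * K / (h * H * Real.log K) := by
  obtain ⟨Θ, hΘ⟩ := exists_cut
  obtain ⟨C1, hC1, hS1⟩ := fvw_bound hΘ hκ 0
  obtain ⟨C2, hC2, hS2⟩ := hh_bound hΘ hκ 0
  obtain ⟨C3, hC3, hS3⟩ := ddw_bound (ker1_gl hκ 0) hΘ
  set T' : ℝ := |T| + 2 with hT'
  obtain ⟨m₀, δ, M, hm₀, hδ, hM, hga⟩ := gal_bound hκ T'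
  obtain ⟨C', hC', hend⟩ := Fam2.uniform (C := C1 + C2 + C3) (c := 1 / 8) (T := T')
    (m := m₀) (δ := δ) (M := M) (by positivity) (by norm_num) hm₀ hδ hM
  refine ⟨8000 * C', Real.exp 8000, by positivity, ?_, ?_⟩
  · have := Real.add_one_le_exp (8000 : ℝ)
    linarith
  intro j c K a b h H hc hpar hK ha hb hH hHh hba
  have hK0 : 0 < K := (Real.exp_pos _).trans_le hK
  have hK2 : 2 ≤ K := by
    have := Real.add_one_le_exp (8000 : ℝ)
    linarith
  have hlog : 8000 ≤ Real.log K := by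
    have := Real.log_le_log (Real.exp_pos _) hK
    rwa [Real.log_exp] at this
  set L : ℝ := Real.log K / 2000 with hL
  have hL4 : 4 ≤ L := by rw [hL]; linarith
  have hL0 : 0 < L := by linarith
  have hLK : 2000 * L = Real.log K := by rw [hL]; ring
  have hh : 0 < h := hH.trans_le hHh
  set S := (blk8 c K).filter (BadM κ j a b h ⌊h / H⌋₊) with hS
  rcases S.eq_empty_or_nonempty with he | hne
  · rw [he, Finset.card_empty, Nat.cast_zero]
    have : 0 ≤ b - a := by linarith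
    positivity
  have hSsub : S ⊆ blk8 c K := Finset.filter_subset _ _
  have hex : ∀ m ∈ S, ∃ P : Piece,
    (∃ x : ℝ, a ≤ x ∧ x + h ≤ b ∧ (oddZ P.Λ ∩ Set.Ioo x (x + h)).encard ≤ ⌊h / H⌋₊) ∧
    (∀ v : ℝ, P.f v = (ff (gl κ 0) Θ L 1 j m (v - Real.log ((cc j * m : ℕ) : ℝ) / 2) : ℂ)) ∧
    (∀ u : ℝ, P.D u = (DM (gl κ 0) Θ L j m u : ℂ)) ∧
    ∀ u : ℝ, P.g u = (gA (gl κ 0) j m u : ℂ) := by
    intro m hm
    obtain ⟨hm2, hodd, hne, χ, hχ, x, hx1, hx2, hx3⟩ := (Finset.mem_filter.1 hm).2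
    obtain ⟨P, hP1, hP2, hP3, hP4⟩ := exists_piece_l Θ L hm2 hχ
    refine ⟨P, ⟨x, hx1, hx2, le_trans (Set.encard_le_encard ?_) hx3⟩, hP2, hP3, hP4⟩
    rintro t ⟨ht1, ht2⟩
    exact ⟨(hP1 t).1 ht1, ht2⟩
  have : Nonempty Piece := by
    obtain ⟨m, hm⟩ := hne
    obtain ⟨P, _⟩ := hex m hm
    exact ⟨P⟩
  choose! P hPw hPf hPD hPg using hex
  have hcard : (S.card : ℝ) ≤ 4 * K := by
    refine le_trans ?_ (card_blk8 c hK2)
    exact_mod_cast Finset.card_le_card hSsub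
  have hg1 : ∀ m ∈ S, (P m).g = fun u => (gA (gl κ 0) j m u : ℂ) := fun m hm =>
    funext fun u => hPg m hm u
  have hconst : ∀ X : ℝ, 0 ≤ X → ∀ C0 : ℝ, 0 ≤ C0 → C0 ≤ C1 + C2 + C3 →
      C0 * K / L * X ≤ (C1 + C2 + C3) * (4 * K) / L * X := by
    intro X hX C0 hC0 hC
    refine mul_le_mul_of_nonneg_right (div_le_div_of_nonneg_right ?_ hL0.le) hX
    nlinarith
  have F : Fam2 (C1 + C2 + C3) (1 / 8) T' m₀ δ M S P L (4 * K) := by
    refine ⟨hcard, ?_, ?_, ?_, ?_, ?_, ?_⟩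
    · intro W hWm hWb hWs
      have hs : ∀ v, v ∉ Set.Icc (0 : ℝ) L → W v = 0 := by
        intro v hv
        apply hWs
        by_contra hcon
        push Not at hcon
        exact hv ⟨hcon.1, by linarith [hcon.2]⟩
      obtain ⟨w1, w2, w3⟩ := fin_wt hL0.le hWm hWb hs
      have e0 : ∀ m ∈ S, ‖∫ v, (P m).f v * W v‖ ^ 2 =
          (∫ v, ff (gl κ 0) Θ L 1 j m (v - Real.log ((cc j * m : ℕ) : ℝ) / 2) *
            (W v).re) ^ 2 +
          (∫ v, ff (gl κ 0) Θ L 1 j m (v - Real.log ((cc j * m : ℕ) : ℝ) / 2) *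
            (W v).im) ^ 2 := by
        intro m hm
        rw [← fin_cplx (fin_real (hPf m hm) (P m).nf.int) hWm hWb]
        simp only [hPf m hm]
      have e1 := hS1 j c L K _ hc hpar hL4 (by linarith) hLK.le (by linarith) w1
      have e2 := hS1 j c L K _ hc hpar hL4 (by linarith) hLK.le (by linarith) w2
      calc ∑ m ∈ S, ‖∫ v, (P m).f v * W v‖ ^ 2
          = ∑ m ∈ S, ((∫ v, ff (gl κ 0) Θ L 1 j m (v - Real.log ((cc j * m : ℕ) : ℝ) / 2) *
              (W v).re) ^ 2 +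
            (∫ v, ff (gl κ 0) Θ L 1 j m (v - Real.log ((cc j * m : ℕ) : ℝ) / 2) *
              (W v).im) ^ 2) := Finset.sum_congr rfl e0
        _ ≤ ∑ m ∈ blk8 c K,
              ((∫ v, ff (gl κ 0) Θ L 1 j m (v - Real.log ((cc j * m : ℕ) : ℝ) / 2) *
                (W v).re) ^ 2 +
              (∫ v, ff (gl κ 0) Θ L 1 j m (v - Real.log ((cc j * m : ℕ) : ℝ) / 2) *
                (W v).im) ^ 2) :=
            Finset.sum_le_sum_of_subset_of_nonneg hSsub fun _ _ _ => by positivity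
        _ ≤ C1 * K / L * (∫ v, (W v).re ^ 2) + C1 * K / L * ∫ v, (W v).im ^ 2 := by
            rw [Finset.sum_add_distrib]
            exact add_le_add e1 e2
        _ = C1 * K / L * ∫ v, ‖W v‖ ^ 2 := by rw [← w3]; ring
        _ ≤ _ := hconst _ (integral_nonneg fun _ => by positivity) C1 hC1.le (by linarith)
    · intro W hWm hWb hWs
      have hs : ∀ v, v ∉ Set.Icc (-(L / 8)) (L / 8) → W v = 0 := by
        intro v hv
        apply hWs
        by_contra hcon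
        push Not at hcon
        have := abs_le.mp hcon
        exact hv ⟨by linarith [this.1], by linarith [this.2]⟩
      obtain ⟨w1, w2, w3⟩ := fin_wt (by linarith) hWm hWb hs
      have e0 : ∀ m ∈ S, ‖∫ v, ((P m).D v - (P m).g v) * W v‖ ^ 2 =
          (∫ v, (DM (gl κ 0) Θ L j m v - gA (gl κ 0) j m v) * (W v).re) ^ 2 +
          (∫ v, (DM (gl κ 0) Θ L j m v - gA (gl κ 0) j m v) * (W v).im) ^ 2 := by
        intro m hm
        have e : ∀ v, (P m).D v - (P m).g v =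
            ((DM (gl κ 0) Θ L j m v - gA (gl κ 0) j m v : ℝ) : ℂ) := by
          intro v
          rw [hPD m hm v, hPg m hm v, ofReal_sub]
        rw [← fin_cplx (fin_real e ((P m).nD.int.sub (P m).ng.int)) hWm hWb]
        simp only [e]
      have e1 := hS3 j c L K _ hc (by linarith) (by linarith) (by linarith) w1
      have e2 := hS3 j c L K _ hc (by linarith) (by linarith) (by linarith) w2
      calc ∑ m ∈ S, ‖∫ v, ((P m).D v - (P m).g v) * W v‖ ^ 2
          = ∑ m ∈ S, ((∫ v, (DM (gl κ 0) Θ L j m v - gA (gl κ 0) j m v) * (W v).re) ^ 2 +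
            (∫ v, (DM (gl κ 0) Θ L j m v - gA (gl κ 0) j m v) * (W v).im) ^ 2) :=
            Finset.sum_congr rfl e0
        _ ≤ ∑ m ∈ blk8 c K,
              ((∫ v, (DM (gl κ 0) Θ L j m v - gA (gl κ 0) j m v) * (W v).re) ^ 2 +
              (∫ v, (DM (gl κ 0) Θ L j m v - gA (gl κ 0) j m v) * (W v).im) ^ 2) :=
            Finset.sum_le_sum_of_subset_of_nonneg hSsub fun _ _ _ => by positivity
        _ ≤ C3 * K / L * (∫ v, (W v).re ^ 2) + C3 * K / L * ∫ v, (W v).im ^ 2 := by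
            rw [Finset.sum_add_distrib]
            exact add_le_add e1 e2
        _ = C3 * K / L * ∫ v, ‖W v‖ ^ 2 := by rw [← w3]; ring
        _ ≤ _ := hconst _ (integral_nonneg fun _ => by positivity) C3 hC3.le (by linarith)
    · intro t
      have e1 := hS2 j c L K t hc hpar hL4 (by linarith) hLK.le (by linarith)
      calc ∑ m ∈ S, ‖hat (P m).f t‖ ^ 2
          ≤ ∑ m ∈ S, 4 * ‖∫ v in Set.Ioi (0 : ℝ),
              (ff (gl κ 0) Θ L 1 j m (v - Real.log ((cc j * m : ℕ) : ℝ) / 2) : ℂ) *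
                cexp (t * v * I)‖ ^ 2 := by
            refine Finset.sum_le_sum fun m hm => ?_
            have h1 := (P m).hat_half t
            simp only [hPf m hm] at h1
            calc ‖hat (P m).f t‖ ^ 2 ≤ (2 * ‖∫ v in Set.Ioi (0 : ℝ),
              (ff (gl κ 0) Θ L 1 j m (v - Real.log ((cc j * m : ℕ) : ℝ) / 2) : ℂ) *
                cexp (t * v * I)‖) ^ 2 := pow_le_pow_left₀ (norm_nonneg _) h1 2
              _ = _ := by ring
        _ ≤ ∑ m ∈ blk8 c K, 4 * ‖∫ v in Set.Ioi (0 : ℝ),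
              (ff (gl κ 0) Θ L 1 j m (v - Real.log ((cc j * m : ℕ) : ℝ) / 2) : ℂ) *
                cexp (t * v * I)‖ ^ 2 :=
            Finset.sum_le_sum_of_subset_of_nonneg hSsub fun _ _ _ => by positivity
        _ ≤ 4 * (C2 * K) := by
            rw [← Finset.mul_sum]
            exact mul_le_mul_of_nonneg_left e1 (by norm_num)
        _ ≤ 4 * (C1 + C2 + C3) * (4 * K) := by nlinarith
    · intro m hm
      rw [hg1 m hm]
      exact (hga j m).1
    · intro m hm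
      rw [hg1 m hm]
      exact (hga j m).2.1
    · intro m hm
      rw [hg1 m hm]
      exact (hga j m).2.2
  have hTT : T ≤ |T| := le_abs_self T
  have hfin := hend ℕ S P L (4 * K) hL0 F a b h H (by rw [hT']; linarith) (by rw [hT']; linarith)
    hH hHh hba hPw
  refine hfin.trans (le_of_eq ?_)
  rw [hL]
  field_simp
  ring

end Pool.Agent.RSF
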