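import Pool.Agent.Lib_helper39.RSG.FINA
import Pool.Agent.Lib_helper39.RCA.CLS
/-!
# Selberg's theorem for real characters, all windows: counting
-/

namespace Pool.Agent.RSF

open Complex MeasureTheory Filter Topology
open Pool.Agent.RC (cc psi rv f0 IsRC Good gm pr DD classify)
open Pool.Agent.RSE
open scoped ContDiff

theorem cc_pos' (j : Fin 4) : 0 < cc j := by
  fin_cases j <;> simp [cc]

/-- From dyadic blocks to all `m < X`, with the gain of a logarithm. -/
theorem dyadic_log (B : ℕ → Prop) [DecidablePred B] (A D X1 : ℝ) (hA : 0 ≤ A) (hX1 : 2000 ≤ X1)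
    (hD1 : 3 / 2 * A ≤ D) (hD2 : Real.log X1 ≤ D)
    (h : ∀ K : ℕ, X1 / 3 ≤ K →
      (((Finset.Ico K (2 * K)).filter B).card : ℝ) ≤ A * K / Real.log K) :
    ∀ X : ℕ, 2 ≤ X → (((Finset.range X).filter B).card : ℝ) ≤ D * X / Real.log X := by
  intro X
  induction X using Nat.strong_induction_on with
  | _ X ih =>
    intro hX2
    have hXR : (2 : ℝ) ≤ X := by exact_mod_cast hX2
    have hlogX : 0 < Real.log X := Real.log_pos (by linarith)
    have hD0 : 0 ≤ D := le_trans (Real.log_nonneg (by linarith)) hD2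
    rcases lt_or_ge (X : ℝ) X1 with hX | hX
    · have h1 : (((Finset.range X).filter B).card : ℝ) ≤ X := by
        have := Finset.card_filter_le (Finset.range X) B
        rw [Finset.card_range] at this
        exact_mod_cast this
      have h2 : Real.log X ≤ D := (Real.log_le_log (by linarith) hX.le).trans hD2
      refine h1.trans ?_
      rw [le_div_iff₀ hlogX]
      nlinarith
    · set K : ℕ := (X + 1) / 2 with hK
      have hXn : 2000 ≤ X := by
        have : (2000 : ℝ) ≤ X := hX1.trans hX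
        exact_mod_cast this
      have hKX : K < X := by omega
      have hXK : X ≤ 2 * K := by omega
      have hK2 : 2 ≤ K := by omega
      have hKup : 2 * K ≤ X + 1 := by omega
      have hKupR : 2 * (K : ℝ) ≤ X + 1 := by exact_mod_cast hKup
      have hXKR : (X : ℝ) ≤ 2 * K := by exact_mod_cast hXK
      have hK3 : X1 / 3 ≤ K := by linarith
      have h1 := ih K hKX hK2
      have h2 := h K hK3
      have hsub : (Finset.range X).filter B ⊆
          (Finset.range K).filter B ∪ (Finset.Ico K (2 * K)).filter B := by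
        intro m hm
        obtain ⟨hm1, hm2⟩ := Finset.mem_filter.mp hm
        rw [Finset.mem_range] at hm1
        rw [Finset.mem_union, Finset.mem_filter, Finset.mem_filter, Finset.mem_range,
          Finset.mem_Ico]
        rcases lt_or_ge m K with h3 | h3
        · exact Or.inl ⟨h3, hm2⟩
        · exact Or.inr ⟨⟨h3, by omega⟩, hm2⟩
      have h3 : (((Finset.range X).filter B).card : ℝ) ≤
          (((Finset.range K).filter B).card : ℝ) +
            (((Finset.Ico K (2 * K)).filter B).card : ℝ) := by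
        have := (Finset.card_le_card hsub).trans (Finset.card_union_le _ _)
        exact_mod_cast this
      have hKpos : (0 : ℝ) < K := by linarith
      have hlogK : Real.log X - Real.log 2 ≤ Real.log K := by
        rw [← Real.log_div (by positivity) (by norm_num)]
        exact Real.log_le_log (by positivity) (by linarith)
      have hlog2 : Real.log 2 < 0.6931471808 := Real.log_two_lt_d9
      have hlog7 : 7 ≤ Real.log X := by
        have e1 : Real.exp 7 ≤ 2000 := by
          have h4 : Real.exp 1 < 2.7182818286 := Real.exp_one_lt_d9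
          have h5 : Real.exp 7 = Real.exp 1 ^ 7 := by
            rw [← Real.exp_nat_mul]; norm_num
          rw [h5]
          have h6 : Real.exp 1 ^ 7 ≤ 2.7182818286 ^ 7 :=
            pow_le_pow_left₀ (Real.exp_pos _).le h4.le 7
          refine h6.trans (by norm_num)
        have e2 : Real.exp 7 ≤ X := e1.trans (hX1.trans hX)
        have := Real.log_le_log (Real.exp_pos _) e2
        rwa [Real.log_exp] at this
      have hlogK0 : 0 < Real.log K := by linarith
      have hratio : (K : ℝ) / Real.log K ≤ 3 / 5 * (X / Real.log X) := by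
        rw [div_le_iff₀ hlogK0]
        have e1 : 3 / 5 * (X / Real.log X) * Real.log K =
          3 / 5 * X * (Real.log K / Real.log X) := by ring
        have e2 : (9 : ℝ) / 10 ≤ Real.log K / Real.log X := by
          rw [le_div_iff₀ hlogX]
          linarith
        have e3 : (0 : ℝ) ≤ 3 / 5 * X := by positivity
        rw [e1]
        have e4 := mul_le_mul_of_nonneg_left e2 e3
        have hX2000 : (2000 : ℝ) ≤ X := hX1.trans hX
        linarith
      have e5 : 0 ≤ X / Real.log X := by positivity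
      calc (((Finset.range X).filter B).card : ℝ)
          ≤ D * K / Real.log K + A * K / Real.log K := h3.trans (add_le_add h1 h2)
        _ = (D + A) * (K / Real.log K) := by ring
        _ ≤ (D + A) * (3 / 5 * (X / Real.log X)) :=
            mul_le_mul_of_nonneg_left hratio (by linarith)
        _ ≤ D * (X / Real.log X) := by nlinarith
        _ = D * X / Real.log X := by ring

open Classical in
/-- All `m < X`, one `κ`. -/
theorem count_one {κ : ℕ} (hκ : κ ≤ 1) (T : ℝ) : ∃ C : ℝ, 0 < C ∧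
    ∀ (j : Fin 4) (X : ℕ) (a b h H : ℝ), 2 ≤ X → -T ≤ a → b ≤ T → 0 < H → H ≤ h →
    h ≤ b - a →
    (((Finset.range X).filter (BadM κ j a b h ⌊h / H⌋₊)).card : ℝ) ≤
      C * (b - a) * X / (h * H * Real.log X) := by
  obtain ⟨C, K0, hC, hK0, hblock⟩ := block_one hκ T
  set X1 : ℝ := 3 * K0 + 2000 with hX1
  have hlogX1 : 0 ≤ Real.log X1 := Real.log_nonneg (by linarith)
  refine ⟨6 * C + 2 * |T| * Real.log X1 + 1, by positivity, ?_⟩
  intro j X a b h H hX ha hb hH hHh hhb
  have hh : 0 < h := hH.trans_le hHh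
  have hhH : 0 < h * H := by positivity
  have hba : 0 < b - a := hh.trans_le hhb
  have hbT : b - a ≤ 2 * |T| := by
    have := le_abs_self T
    linarith
  have hhH2 : h * H ≤ (b - a) * (2 * |T|) := by
    calc h * H ≤ (b - a) * (b - a) :=
          mul_le_mul hhb (hHh.trans hhb) hH.le hba.le
      _ ≤ (b - a) * (2 * |T|) := mul_le_mul_of_nonneg_left hbT hba.le
  have key := dyadic_log (BadM κ j a b h ⌊h / H⌋₊) (4 * C * (b - a) / (h * H))
    ((6 * C + 2 * |T| * Real.log X1 + 1) * (b - a) / (h * H)) X1 (by positivity)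
    (by linarith)
    (by
      rw [mul_div_assoc', div_le_div_iff_of_pos_right hhH]
      have : 0 ≤ (2 * |T| * Real.log X1 + 1) * (b - a) := by positivity
      nlinarith)
    (by
      rw [le_div_iff₀ hhH]
      have e1 := mul_le_mul_of_nonneg_left hhH2 hlogX1
      have e2 : 0 ≤ (6 * C + 1) * (b - a) := by positivity
      nlinarith)
    ?_ X hX
  · refine key.trans (le_of_eq ?_)
    have : 0 < Real.log X := Real.log_pos (by exact_mod_cast hX)
    field_simp
  · intro K hK
    have hKK : K0 ≤ K := by linarith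
    have hK2 : (2 : ℝ) ≤ K := hK0.trans hKK
    have hlogK : 0 < Real.log K := Real.log_pos (by linarith)
    have hsub : (Finset.Ico K (2 * K)).filter (BadM κ j a b h ⌊h / H⌋₊) ⊆
        ({1, 3, 5, 7} : Finset ℕ).biUnion fun c =>
          (blk8 c (K : ℝ)).filter (BadM κ j a b h ⌊h / H⌋₊) := by
      intro m hm
      obtain ⟨hm1, hm2⟩ := Finset.mem_filter.mp hm
      rw [Finset.mem_Ico] at hm1
      have hodd : Odd m := hm2.2.1
      refine Finset.mem_biUnion.mpr ⟨m % 8, ?_, Finset.mem_filter.mpr ⟨?_, hm2⟩⟩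
      · have h1 : m % 2 = 1 := Nat.odd_iff.mp hodd
        have h2 : m % 8 = 1 ∨ m % 8 = 3 ∨ m % 8 = 5 ∨ m % 8 = 7 := by omega
        simp only [Finset.mem_insert, Finset.mem_singleton]
        exact h2
      · refine Finset.mem_filter.mpr ⟨?_, ?_, ?_, rfl⟩
        · rw [Finset.mem_range]
          have : ((2 * K : ℕ) : ℝ) ≤ (⌈2 * (K : ℝ)⌉₊ : ℕ) := by
            push_cast
            exact Nat.le_ceil _
          have h3 : 2 * K ≤ ⌈2 * (K : ℝ)⌉₊ := by exact_mod_cast this
          omega
        · exact_mod_cast hm1.1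
        · exact_mod_cast hm1.2
    have hcase : ∀ c ∈ ({1, 3, 5, 7} : Finset ℕ),
        (((blk8 c (K : ℝ)).filter (BadM κ j a b h ⌊h / H⌋₊)).card : ℝ) ≤
          C * (b - a) * K / (h * H * Real.log K) := by
      intro c hc
      have hoc : OC c := by
        simp only [Finset.mem_insert, Finset.mem_singleton] at hc
        exact hc
      by_cases hpar : Par κ j c
      · exact hblock j c K a b h H hoc hpar hKK ha hb hH hHh hhb
      · have hempty : (blk8 c (K : ℝ)).filter (BadM κ j a b h ⌊h / H⌋₊) = ∅ := by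
          rw [Finset.filter_eq_empty_iff]
          rintro m hm ⟨_, hodd, _, χ, hχ, _⟩
          have h1 := par_of_isRC hodd hχ
          have h2 : m % 8 = c := (Finset.mem_filter.mp hm).2.2.2
          rw [← par_mod, h2] at h1
          exact hpar h1
        rw [hempty, Finset.card_empty, Nat.cast_zero]
        positivity
    calc (((Finset.Ico K (2 * K)).filter (BadM κ j a b h ⌊h / H⌋₊)).card : ℝ)
        ≤ ((({1, 3, 5, 7} : Finset ℕ).biUnion fun c =>
          (blk8 c (K : ℝ)).filter (BadM κ j a b h ⌊h / H⌋₊)).card : ℝ) := by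
          exact_mod_cast Finset.card_le_card hsub
      _ ≤ ∑ c ∈ ({1, 3, 5, 7} : Finset ℕ),
          (((blk8 c (K : ℝ)).filter (BadM κ j a b h ⌊h / H⌋₊)).card : ℝ) := by
          exact_mod_cast Finset.card_biUnion_le
      _ ≤ ∑ _c ∈ ({1, 3, 5, 7} : Finset ℕ), C * (b - a) * K / (h * H * Real.log K) :=
          Finset.sum_le_sum hcase
      _ = 4 * C * (b - a) / (h * H) * K / Real.log K := by
          rw [Finset.sum_const]
          simp only [Finset.mem_insert, Finset.mem_singleton, OfNat.one_ne_ofNat, or_self,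
            not_false_eq_true, Finset.card_insert_of_notMem, Nat.reduceEqDiff,
            Finset.card_singleton, Nat.reduceAdd, nsmul_eq_mul, Nat.cast_ofNat]
          field_simp

/-- A bad character gives a bad `(j, m)`. -/
theorem badI_to (a b h : ℝ) (N : ℕ) {q : ℕ} [NeZero q] (χ : DirichletCharacter ℂ q)
    (hp : χ.IsPrimitive) (h2 : MulChar.IsQuadratic χ) (hb : BadI a b h N χ) :
    ∃ (j : Fin 4) (m : ℕ), q = cc j * m ∧ (∀ n : ℕ, χ (n : ZMod q) = (rv j m n : ℂ)) ∧
      (m ≤ 1 ∨ ∃ κ ∈ Finset.range 2, BadM κ j a b h N m) := by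
  obtain ⟨j, m, hodd, hq, hv⟩ := Pool.Agent.RC.classify q χ hp h2
  subst hq
  refine ⟨j, m, rfl, hv, ?_⟩
  rcases le_or_gt m 1 with hm | hm
  · exact Or.inl hm
  right
  rcases χ.even_or_odd with he | ho
  · exact ⟨0, by simp, hm, hodd, inferInstance, χ, ⟨hp, hv, Or.inl ⟨rfl, he⟩⟩, hb⟩
  · exact ⟨1, by simp, hm, hodd, inferInstance, χ, ⟨hp, hv, Or.inr ⟨rfl, ho⟩⟩, hb⟩

/-- The final arithmetic. -/
theorem count_arith {T w h H X l l1 Cs s t Y : ℝ} (hh : 0 < h) (hH : 0 < H) (hHh : H ≤ h)
    (hw : h ≤ w) (hT : w ≤ 2 * T) (hX : 2 ≤ X) (hl : 0 < l) (hl1 : l ≤ l1) (hlX : l ≤ X)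
    (hCs : 0 ≤ Cs) (h1 : s ≤ t) (h2 : t ≤ 8 + 8 * (Cs * Y))
    (hY : Y = w * (X + 1) / (h * H * l1)) :
    s ≤ (16 * T + 16 * Cs) * w * X / (h * H * l) := by
  have hhH : 0 < h * H := by positivity
  have hw0 : 0 < w := hh.trans_le hw
  have hYle : Y ≤ 2 * (w * X / (h * H * l)) := by
    rw [hY, mul_div_assoc']
    have hwX : 0 ≤ w * X := by nlinarith
    refine div_le_div₀ (by linarith) ?_ (by positivity)
      (mul_le_mul_of_nonneg_left hl1 hhH.le)
    nlinarith
  have e2 : h * H ≤ w * (2 * T) :=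
    mul_le_mul hw ((hHh.trans hw).trans hT) hH.le hw0.le
  have e3 : 1 ≤ 2 * T * (w * X / (h * H * l)) := by
    rw [mul_div_assoc', le_div_iff₀ (by positivity)]
    have := mul_le_mul e2 hlX hl.le (mul_nonneg hw0.le (hw0.le.trans hT))
    linarith
  have e4 : Cs * Y ≤ Cs * (2 * (w * X / (h * H * l))) := mul_le_mul_of_nonneg_left hYle hCs
  have e5 : (16 * T + 16 * Cs) * w * X / (h * H * l) =
      8 * (2 * T * (w * X / (h * H * l))) + 8 * (Cs * (2 * (w * X / (h * H * l)))) := by ring
  rw [e5]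
  linarith

open Classical in
/-- The main theorem. -/
theorem count_all (T : ℝ) : ∃ C : ℝ, 0 < C ∧ ∀ (X : ℕ) (a b h H : ℝ), 2 ≤ X →
    -T ≤ a → b ≤ T → 0 < H → H ≤ h → h ≤ b - a →
    ∑ q ∈ Finset.range X, (Nat.card {χ : DirichletCharacter ℂ (q + 1) //
      χ.IsPrimitive ∧ MulChar.IsQuadratic χ ∧ BadI a b h ⌊h / H⌋₊ χ} : ℝ) ≤
      C * (b - a) * X / (h * H * Real.log X) := by
  obtain ⟨C0, hC0, hc0⟩ := count_one (κ := 0) (by norm_num) T
  obtain ⟨C1, hC1, hc1⟩ := count_one (κ := 1) le_rfl T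
  refine ⟨16 * |T| + 16 * (C0 + C1), by positivity,
    fun X a b h H hX ha hb hH hHh hba => ?_⟩
  have hh : 0 < h := hH.trans_le hHh
  have hhH : 0 < h * H := by positivity
  have hw0 : 0 < b - a := hh.trans_le hba
  have hXR : (2 : ℝ) ≤ X := by exact_mod_cast hX
  have hlogX : 0 < Real.log X := Real.log_pos (by linarith)
  have hbT : b - a ≤ 2 * |T| := by
    have := le_abs_self T
    linarith
  set N : ℕ := ⌊h / H⌋₊ with hN
  -- rewrite the count
  set B : (q : ℕ) → Finset (DirichletCharacter ℂ (q + 1)) := fun q =>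
    Finset.univ.filter fun χ => χ.IsPrimitive ∧ MulChar.IsQuadratic χ ∧
      BadI a b h N χ with hB
  have hcard : ∀ q : ℕ, (Nat.card {χ : DirichletCharacter ℂ (q + 1) //
      χ.IsPrimitive ∧ MulChar.IsQuadratic χ ∧ BadI a b h N χ}) = (B q).card := by
    intro q
    rw [Nat.card_eq_fintype_card, Fintype.card_subtype]
  simp only [hcard]
  set S : Finset (Σ q : ℕ, DirichletCharacter ℂ (q + 1)) := (Finset.range X).sigma B with hS
  have hScard : ((∑ q ∈ Finset.range X, (B q).card : ℕ) : ℝ) = (S.card : ℝ) := by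
    rw [hS, Finset.card_sigma]
  have hScard' : ∑ q ∈ Finset.range X, ((B q).card : ℝ) = (S.card : ℝ) := by
    rw [← hScard]; push_cast; rfl
  rw [hScard']
  have hex : ∀ x ∈ S, ∃ y : Fin 4 × ℕ, x.1 + 1 = cc y.1 * y.2 ∧
      (∀ n : ℕ, x.2 (n : ZMod (x.1 + 1)) = (rv y.1 y.2 n : ℂ)) ∧
      (y.2 ≤ 1 ∨ ∃ κ ∈ Finset.range 2, BadM κ y.1 a b h N y.2) := by
    intro x hx
    obtain ⟨_, hx2⟩ := Finset.mem_sigma.mp hx
    obtain ⟨_, hx3, hx4, hx5⟩ := Finset.mem_filter.mp hx2
    obtain ⟨j, m, h1, h2, h3⟩ := badI_to a b h N x.2 hx3 hx4 hx5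
    exact ⟨(j, m), h1, h2, h3⟩
  choose! Φ hΦ1 hΦ2 hΦ3 using hex
  have hinj : Set.InjOn Φ S := by
    intro x hx y hy hxy
    have h1 := hΦ1 x hx
    have h2 := hΦ1 y hy
    rw [hxy] at h1
    have h3 : x.1 = y.1 := by omega
    obtain ⟨q, χ⟩ := x
    obtain ⟨q', χ'⟩ := y
    simp only at h3
    subst h3
    congr 1
    have h4 := hΦ2 _ hx
    have h5 := hΦ2 _ hy
    rw [hxy] at h4
    simp only at h4 h5
    ext a
    obtain ⟨n, hn⟩ := ZMod.natCast_zmod_surjective (a : ZMod (q + 1))
    rw [← hn, h4, h5]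
  set Tx : Finset (Fin 4 × ℕ) := (Finset.univ ×ˢ Finset.range 2) ∪
    (Finset.range 2).biUnion fun κ => (Finset.univ : Finset (Fin 4)).biUnion fun j =>
      ((Finset.range (X + 1)).filter (BadM κ j a b h N)).image (fun m => (j, m)) with hTx
  have hmap : ∀ x ∈ S, Φ x ∈ Tx := by
    intro x hx
    rw [hTx, Finset.mem_union]
    have h4 := hΦ1 x hx
    have h5 : x.1 < X := Finset.mem_range.mp (Finset.mem_sigma.mp hx).1
    have h6 : (Φ x).2 ≤ cc (Φ x).1 * (Φ x).2 := Nat.le_mul_of_pos_left _ (cc_pos' _)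
    rcases hΦ3 x hx with h3 | ⟨κ, hκ, h3⟩
    · left
      rw [Finset.mem_product]
      exact ⟨Finset.mem_univ _, Finset.mem_range.mpr (by omega)⟩
    · right
      refine Finset.mem_biUnion.mpr ⟨κ, hκ, Finset.mem_biUnion.mpr
        ⟨(Φ x).1, Finset.mem_univ _, ?_⟩⟩
      refine Finset.mem_image.mpr ⟨(Φ x).2, Finset.mem_filter.mpr ⟨?_, h3⟩, rfl⟩
      rw [Finset.mem_range]
      omega
  have h1 : S.card ≤ Tx.card := Finset.card_le_card_of_injOn Φ hmap hinj
  set Y : ℝ := (b - a) * (X + 1 : ℕ) / (h * H * Real.log (X + 1 : ℕ)) with hY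
  have hX1R : (2 : ℝ) ≤ ((X + 1 : ℕ) : ℝ) := by push_cast; linarith
  have hlogX1 : Real.log X ≤ Real.log ((X + 1 : ℕ) : ℝ) :=
    Real.log_le_log (by linarith) (by push_cast; linarith)
  have hY0 : 0 ≤ Y := by
    rw [hY]
    have : 0 < Real.log ((X + 1 : ℕ) : ℝ) := hlogX.trans_le hlogX1
    positivity
  have hone : ∀ κ ∈ Finset.range 2, ∀ j : Fin 4,
      (((Finset.range (X + 1)).filter (BadM κ j a b h N)).card : ℝ) ≤ (C0 + C1) * Y := by
    intro κ hκ j
    have hκ' : κ = 0 ∨ κ = 1 := by have := Finset.mem_range.mp hκ; omega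
    have hn0 := mul_nonneg hC0.le hY0
    have hn1 := mul_nonneg hC1.le hY0
    have hsplit : (C0 + C1) * Y = C0 * Y + C1 * Y := by ring
    rw [hsplit]
    rcases hκ' with rfl | rfl
    · have e1 : (((Finset.range (X + 1)).filter (BadM 0 j a b h N)).card : ℝ) ≤
          C0 * Y := by
        rw [hY, mul_div_assoc', ← mul_assoc]
        exact hc0 j (X + 1) a b h H (by omega) ha hb hH hHh hba
      clear_value Y
      linarith only [e1, hn0, hn1]
    · have e1 : (((Finset.range (X + 1)).filter (BadM 1 j a b h N)).card : ℝ) ≤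
          C1 * Y := by
        rw [hY, mul_div_assoc', ← mul_assoc]
        exact hc1 j (X + 1) a b h H (by omega) ha hb hH hHh hba
      clear_value Y
      linarith only [e1, hn0, hn1]
  have h2 : (Tx.card : ℝ) ≤ 8 + 8 * ((C0 + C1) * Y) := by
    have e1 : Tx.card ≤ 8 + ∑ κ ∈ Finset.range 2, ∑ j : Fin 4,
        ((Finset.range (X + 1)).filter (BadM κ j a b h N)).card := by
      rw [hTx]
      refine (Finset.card_union_le _ _).trans ?_
      refine Nat.add_le_add ?_ ?_
      · rw [Finset.card_product]; simp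
      · refine Finset.card_biUnion_le.trans (Finset.sum_le_sum fun κ _ => ?_)
        refine Finset.card_biUnion_le.trans (Finset.sum_le_sum fun j _ => ?_)
        exact Finset.card_image_le
    have e2 : (Tx.card : ℝ) ≤ 8 + ∑ κ ∈ Finset.range 2, ∑ j : Fin 4,
        (((Finset.range (X + 1)).filter (BadM κ j a b h N)).card : ℝ) := by
      exact_mod_cast e1
    refine e2.trans ?_
    have e3 : ∑ κ ∈ Finset.range 2, ∑ j : Fin 4,
        (((Finset.range (X + 1)).filter (BadM κ j a b h N)).card : ℝ) ≤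
        ∑ κ ∈ Finset.range 2, ∑ j : Fin 4, (C0 + C1) * Y :=
      Finset.sum_le_sum fun κ hκ => Finset.sum_le_sum fun j _ => hone κ hκ j
    refine (add_le_add_right e3 8).trans (le_of_eq ?_)
    simp only [Finset.sum_const, Finset.card_range, Finset.card_univ, Fintype.card_fin,
      nsmul_eq_mul]
    push_cast
    ring
  have hlX : Real.log X ≤ X := (Real.log_le_sub_one_of_pos (by linarith)).trans (by linarith)
  have hCs : 0 ≤ C0 + C1 := by positivity
  have h1' : (S.card : ℝ) ≤ (Tx.card : ℝ) := by exact_mod_cast h1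
  have hYe : Y = (b - a) * ((X : ℝ) + 1) / (h * H * Real.log ((X + 1 : ℕ) : ℝ)) := by
    rw [hY]
    push_cast
    ring
  exact count_arith hh hH hHh hba hbT hXR hlogX hlogX1 hlX hCs h1' h2 hYe

end Pool.Agent.RSF
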