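import Mathlib
/-! Block QLC -/

namespace Pool.Agent.RSF

open ArithmeticFunction

/-- Mertens -/
theorem rsf_QLC_mertens : ∃ C : ℝ, 1 ≤ C ∧ ∀ N : ℕ, 1 ≤ N →
    ∑ n ∈ Finset.Ioc 0 N, vonMangoldt n / (n : ℝ) ≤ C * (1 + Real.log N) := by
  refine ⟨Real.log 4 + 5, ?_, fun N hN => ?_⟩
  · have : 0 ≤ Real.log 4 := Real.log_nonneg (by norm_num)
    linarith
  have hN0 : (0 : ℝ) < N := by exact_mod_cast hN
  have hl : 0 ≤ Real.log N := Real.log_natCast_nonneg N
  have h1 : ∑ n ∈ Finset.Ioc 0 N, vonMangoldt n * ((N / n : ℕ) : ℝ) ≤ N * Real.log N := by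
    rw [← sum_Ioc_mul_zeta_eq_sum, vonMangoldt_mul_zeta]
    calc ∑ n ∈ Finset.Ioc 0 N, ArithmeticFunction.log n ≤ ∑ _n ∈ Finset.Ioc 0 N, Real.log N := by
          refine Finset.sum_le_sum fun n hn => ?_
          rw [Finset.mem_Ioc] at hn
          rw [log_apply]
          exact Real.log_le_log (by exact_mod_cast hn.1) (by exact_mod_cast hn.2)
      _ = N * Real.log N := by
          rw [Finset.sum_const, Nat.card_Ioc, nsmul_eq_mul, Nat.sub_zero]
  have h2 : ∑ n ∈ Finset.Ioc 0 N, vonMangoldt n ≤ (Real.log 4 + 4) * N := by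
    have h := Chebyshev.psi_le_const_mul_self (x := (N : ℝ)) hN0.le
    unfold Chebyshev.psi at h
    rwa [Nat.floor_natCast] at h
  have h3 : (N : ℝ) * ∑ n ∈ Finset.Ioc 0 N, vonMangoldt n / (n : ℝ) ≤
      N * Real.log N + (Real.log 4 + 4) * N := by
    rw [Finset.mul_sum]
    calc ∑ n ∈ Finset.Ioc 0 N, (N : ℝ) * (vonMangoldt n / n) ≤
        ∑ n ∈ Finset.Ioc 0 N, (vonMangoldt n * ((N / n : ℕ) : ℝ) + vonMangoldt n) := by
          refine Finset.sum_le_sum fun n hn => ?_
          rw [Finset.mem_Ioc] at hn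
          have hn0 : (0 : ℝ) < n := by exact_mod_cast hn.1
          have h4 : (N : ℝ) / n ≤ ((N / n : ℕ) : ℝ) + 1 := by
            have := Nat.lt_div_mul_add (a := N) (b := n) hn.1
            rw [div_le_iff₀ hn0]
            have h5 : (N : ℝ) < ((N / n : ℕ) : ℝ) * n + n := by exact_mod_cast this
            nlinarith
          have h5 : 0 ≤ vonMangoldt n := vonMangoldt_nonneg
          calc (N : ℝ) * (vonMangoldt n / n) = vonMangoldt n * ((N : ℝ) / n) := by ring
            _ ≤ vonMangoldt n * (((N / n : ℕ) : ℝ) + 1) := mul_le_mul_of_nonneg_left h4 h5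
            _ = _ := by ring
      _ ≤ _ := by
          rw [Finset.sum_add_distrib]
          exact add_le_add h1 h2
  have h4 : (N : ℝ) * ∑ n ∈ Finset.Ioc 0 N, vonMangoldt n / (n : ℝ) ≤
      N * ((Real.log 4 + 5) * (1 + Real.log N)) := by
    have h5 : 0 ≤ Real.log 4 := Real.log_nonneg (by norm_num)
    have h6 : 0 ≤ Real.log 4 * Real.log N := mul_nonneg h5 hl
    nlinarith
  exact le_of_mul_le_mul_left h4 hN0

theorem rsf_QLC_nn (N : ℕ) : 0 ≤ (vonMangoldt * vonMangoldt) N := by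
  rw [mul_apply]
  exact Finset.sum_nonneg fun x _ => mul_nonneg vonMangoldt_nonneg vonMangoldt_nonneg

theorem rsf_QLC_le (N : ℕ) : (vonMangoldt * vonMangoldt) N ≤ Real.log N ^ 2 := by
  rw [mul_apply]
  rcases Nat.eq_zero_or_pos N with h | h
  · subst h; simp
  calc ∑ x ∈ N.divisorsAntidiagonal, vonMangoldt x.1 * vonMangoldt x.2 ≤
      ∑ x ∈ N.divisorsAntidiagonal, vonMangoldt x.1 * Real.log N := by
        refine Finset.sum_le_sum fun x hx => ?_
        refine mul_le_mul_of_nonneg_left ?_ vonMangoldt_nonneg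
        refine vonMangoldt_le_log.trans ?_
        have hx2 : x.2 ∣ N := Nat.snd_mem_divisors_of_mem_antidiagonal hx |> Nat.dvd_of_mem_divisors
        have hp : 0 < x.2 := Nat.pos_of_dvd_of_pos hx2 h
        exact Real.log_le_log (by exact_mod_cast hp) (by exact_mod_cast Nat.le_of_dvd h hx2)
    _ = (∑ i ∈ N.divisors, vonMangoldt i) * Real.log N := by
        rw [← Finset.sum_mul, Nat.sum_divisorsAntidiagonal (f := fun i _ => vonMangoldt i)]
    _ = _ := by rw [vonMangoldt_sum, pow_two]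

/-- the sum of `(Λ * Λ)(b) / b` -/
theorem rsf_QLC_conv (N : ℕ) :
    ∑ n ∈ Finset.Ioc 0 N, (vonMangoldt * vonMangoldt) n / (n : ℝ) ≤
      (∑ n ∈ Finset.Ioc 0 N, vonMangoldt n / (n : ℝ)) ^ 2 := by
  set f : ArithmeticFunction ℝ := ⟨fun n => vonMangoldt n / (n : ℝ), by simp⟩ with hf
  have hf' : ∀ n, f n = vonMangoldt n / (n : ℝ) := fun n => rfl
  have hfn : ∀ n, 0 ≤ f n := by
    intro n
    rw [hf']
    have := vonMangoldt_nonneg (n := n)
    positivity
  have h1 : ∀ n ∈ Finset.Ioc 0 N, (vonMangoldt * vonMangoldt) n / (n : ℝ) = (f * f) n := by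
    intro n hn
    rw [mul_apply, mul_apply, Finset.sum_div]
    refine Finset.sum_congr rfl fun x hx => ?_
    have h2 := (Nat.mem_divisorsAntidiagonal.1 hx).1
    rw [hf', hf', ← h2, Nat.cast_mul, div_mul_div_comm]
  rw [Finset.sum_congr rfl h1, sum_Ioc_mul_eq_sum_prod_filter, pow_two, Finset.sum_mul_sum,
    ← Finset.sum_product']
  exact Finset.sum_le_sum_of_subset_of_nonneg (Finset.filter_subset _ _)
    fun x _ _ => mul_nonneg (hfn _) (hfn _)

/-- two different primes -/
theorem rsf_QLC_two {p q i j : ℕ} (hp : p.Prime) (hq : q.Prime) (hne : p ≠ q) (hi : i ≠ 0)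
    (hj : j ≠ 0) : (vonMangoldt * vonMangoldt) (p ^ i * q ^ j) = 2 * (Real.log p * Real.log q) := by
  rw [mul_apply]
  have hN0 : p ^ i * q ^ j ≠ 0 := mul_ne_zero (pow_ne_zero _ hp.ne_zero) (pow_ne_zero _ hq.ne_zero)
  have hcop : ∀ a b : ℕ, (p ^ a).Coprime (q ^ b) := fun a b =>
    Nat.Coprime.pow _ _ ((Nat.coprime_primes hp hq).2 hne)
  have hne2 : (p ^ i, q ^ j) ≠ (q ^ j, p ^ i) := by
    intro h
    have h1 : p ^ i = q ^ j := congrArg Prod.fst h
    have h2 := hcop i j
    rw [h1, Nat.coprime_self] at h2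
    have h3 : 1 < q ^ j := Nat.one_lt_pow hj hq.one_lt
    omega
  have huniq : ∀ {a b : ℕ}, p ^ a * q ^ b = p ^ i * q ^ j → a = i ∧ b = j := by
    intro a b h
    have h1 : p ^ a ∣ p ^ i :=
      (hcop a j).dvd_of_dvd_mul_right (by rw [← h]; exact Dvd.intro _ rfl)
    have h2 : p ^ i ∣ p ^ a :=
      (hcop i b).dvd_of_dvd_mul_right (by rw [h]; exact Dvd.intro _ rfl)
    have h3 : a = i := le_antisymm ((Nat.pow_dvd_pow_iff_le_right hp.one_lt).1 h1)
      ((Nat.pow_dvd_pow_iff_le_right hp.one_lt).1 h2)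
    subst h3
    refine ⟨rfl, ?_⟩
    have h4 : q ^ b = q ^ j := Nat.eq_of_mul_eq_mul_left (pow_pos hp.pos _) h
    exact Nat.pow_right_injective hq.two_le h4
  rw [← Finset.sum_subset (s₁ := {(p ^ i, q ^ j), (q ^ j, p ^ i)})]
  · rw [Finset.sum_pair hne2, vonMangoldt_apply_pow hi, vonMangoldt_apply_pow hj,
      vonMangoldt_apply_prime hp, vonMangoldt_apply_prime hq]
    ring
  · intro x hx
    rw [Finset.mem_insert, Finset.mem_singleton] at hx
    rw [Nat.mem_divisorsAntidiagonal]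
    rcases hx with rfl | rfl
    · exact ⟨rfl, hN0⟩
    · exact ⟨mul_comm _ _, hN0⟩
  · intro x hx hx2
    rw [Nat.mem_divisorsAntidiagonal] at hx
    by_contra hc
    have h1 : vonMangoldt x.1 ≠ 0 := fun h => hc (by rw [h, zero_mul])
    have h2 : vonMangoldt x.2 ≠ 0 := fun h => hc (by rw [h, mul_zero])
    rw [vonMangoldt_ne_zero_iff] at h1 h2
    obtain ⟨r, a, hr, ha, hra⟩ := h1
    obtain ⟨t, b, ht, hb, htb⟩ := h2
    have hr' := hr.nat_prime
    have ht' := ht.nat_prime
    have hx1 : r ^ a * t ^ b = p ^ i * q ^ j := by rw [hra, htb]; exact hx.1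
    have hmem : ∀ {w : ℕ}, w.Prime → w ∣ p ^ i * q ^ j → w = p ∨ w = q := by
      intro w hw hd
      rcases (hw.dvd_mul).1 hd with h | h
      · exact Or.inl ((Nat.prime_dvd_prime_iff_eq hw hp).1 (hw.dvd_of_dvd_pow h))
      · exact Or.inr ((Nat.prime_dvd_prime_iff_eq hw hq).1 (hw.dvd_of_dvd_pow h))
    have hrm := hmem hr' (by rw [← hx1]; exact Dvd.dvd.mul_right (dvd_pow_self _ ha.ne') _)
    have htm := hmem ht' (by rw [← hx1]; exact Dvd.dvd.mul_left (dvd_pow_self _ hb.ne') _)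
    have hpd : p ∣ r ^ a * t ^ b := by rw [hx1]; exact Dvd.dvd.mul_right (dvd_pow_self _ hi) _
    have hqd : q ∣ r ^ a * t ^ b := by rw [hx1]; exact Dvd.dvd.mul_left (dvd_pow_self _ hj) _
    have hno : ∀ {w v : ℕ}, w.Prime → v.Prime → v ∣ w ^ a * w ^ b → v = w := by
      intro w v hw hv hd
      rw [← pow_add] at hd
      exact (Nat.prime_dvd_prime_iff_eq hv hw).1 (hv.dvd_of_dvd_pow hd)
    apply hx2
    rw [Finset.mem_insert, Finset.mem_singleton]
    rcases hrm with e1 | e1 <;> rcases htm with e2 | e2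
    · rw [e1, e2] at hqd
      exact absurd (hno hp hq hqd).symm hne
    · rw [e1, e2] at hx1
      obtain ⟨e3, e4⟩ := huniq hx1
      left
      rw [Prod.ext_iff]
      exact ⟨by rw [← hra, e1, e3], by rw [← htb, e2, e4]⟩
    · rw [e1, e2, mul_comm] at hx1
      obtain ⟨e3, e4⟩ := huniq hx1
      right
      rw [Prod.ext_iff]
      exact ⟨by rw [← hra, e1, e4], by rw [← htb, e2, e3]⟩
    · rw [e1, e2] at hpd
      exact absurd (hno hq hp hpd) hne

/-- the key inequality -/
theorem rsf_QLC_key {b N : ℕ} (hb : 2 ≤ b) (hN : N ≠ 0) (hbN : b ∣ N) :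
    (vonMangoldt * vonMangoldt) N ≤
      2 * vonMangoldt b * Real.log N + (vonMangoldt * vonMangoldt) b := by
  have hlb : 0 ≤ vonMangoldt b := vonMangoldt_nonneg
  have hlN : 0 ≤ Real.log N := Real.log_natCast_nonneg N
  have hbb := rsf_QLC_nn b
  by_cases h0 : (vonMangoldt * vonMangoldt) N = 0
  · rw [h0]
    positivity
  rw [mul_apply] at h0
  obtain ⟨x, hx, hxne⟩ := Finset.exists_ne_zero_of_sum_ne_zero h0
  rw [Nat.mem_divisorsAntidiagonal] at hx
  have h1 : vonMangoldt x.1 ≠ 0 := fun h => hxne (by rw [h, zero_mul])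
  have h2 : vonMangoldt x.2 ≠ 0 := fun h => hxne (by rw [h, mul_zero])
  rw [vonMangoldt_ne_zero_iff] at h1 h2
  obtain ⟨p, i, hp, hi, hpi⟩ := h1
  obtain ⟨q, j, hq, hj, hqj⟩ := h2
  have hp' := hp.nat_prime
  have hq' := hq.nat_prime
  have hNe : N = p ^ i * q ^ j := by rw [hpi, hqj]; exact hx.1.symm
  by_cases hpq : p = q
  · -- prime power
    subst hpq
    rw [← pow_add] at hNe
    obtain ⟨a, _, ha⟩ := (Nat.dvd_prime_pow hp').1 (hNe ▸ hbN)
    have ha0 : a ≠ 0 := by
      rintro rfl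
      rw [pow_zero] at ha
      omega
    have hLb : vonMangoldt b = Real.log p := by
      rw [ha, vonMangoldt_apply_pow ha0, vonMangoldt_apply_prime hp']
    have hlp : 0 ≤ Real.log p := Real.log_natCast_nonneg p
    have h3 : (vonMangoldt * vonMangoldt) N ≤ Real.log p * Real.log N := by
      rw [mul_apply]
      calc ∑ x ∈ N.divisorsAntidiagonal, vonMangoldt x.1 * vonMangoldt x.2 ≤
          ∑ x ∈ N.divisorsAntidiagonal, vonMangoldt x.1 * Real.log p := by
            refine Finset.sum_le_sum fun x hx => ?_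
            refine mul_le_mul_of_nonneg_left ?_ vonMangoldt_nonneg
            have hx2 : x.2 ∣ N := Nat.snd_mem_divisors_of_mem_antidiagonal hx |>
              Nat.dvd_of_mem_divisors
            obtain ⟨c, _, hc⟩ := (Nat.dvd_prime_pow hp').1 (hNe ▸ hx2)
            rw [hc]
            rcases Nat.eq_zero_or_pos c with h | h
            · rw [h, pow_zero, vonMangoldt_apply_one]
              exact hlp
            · rw [vonMangoldt_apply_pow h.ne', vonMangoldt_apply_prime hp']
        _ = (∑ i ∈ N.divisors, vonMangoldt i) * Real.log p := by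
            rw [← Finset.sum_mul, Nat.sum_divisorsAntidiagonal (f := fun i _ => vonMangoldt i)]
        _ = _ := by rw [vonMangoldt_sum, mul_comm]
    rw [hLb]
    have h4 : 0 ≤ Real.log p * Real.log N := mul_nonneg hlp hlN
    linarith
  · -- two primes
    have h3 := rsf_QLC_two hp' hq' hpq hi.ne' hj.ne'
    rw [hNe, h3, ← hNe]
    have hlp : 0 ≤ Real.log p := Real.log_natCast_nonneg p
    have hlq : 0 ≤ Real.log q := Real.log_natCast_nonneg q
    have hpN : Real.log p ≤ Real.log N := by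
      refine Real.log_le_log (by exact_mod_cast hp'.pos) ?_
      exact_mod_cast Nat.le_of_dvd (Nat.pos_of_ne_zero hN)
        (by rw [hNe]; exact Dvd.dvd.mul_right (dvd_pow_self _ hi.ne') _)
    have hqN : Real.log q ≤ Real.log N := by
      refine Real.log_le_log (by exact_mod_cast hq'.pos) ?_
      exact_mod_cast Nat.le_of_dvd (Nat.pos_of_ne_zero hN)
        (by rw [hNe]; exact Dvd.dvd.mul_left (dvd_pow_self _ hj.ne') _)
    -- b = p ^ a * q ^ c
    obtain ⟨b1, b2, hb1, hb2, hbe⟩ := (Nat.dvd_mul).1 (hNe ▸ hbN)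
    obtain ⟨a, _, ha⟩ := (Nat.dvd_prime_pow hp').1 hb1
    obtain ⟨c, _, hc⟩ := (Nat.dvd_prime_pow hq').1 hb2
    rw [ha, hc] at hbe
    rcases Nat.eq_zero_or_pos a with ha0 | ha0
    · rcases Nat.eq_zero_or_pos c with hc0 | hc0
      · rw [ha0, hc0, pow_zero, pow_zero] at hbe
        omega
      · rw [ha0, pow_zero, one_mul] at hbe
        have hLb : vonMangoldt b = Real.log q := by
          rw [← hbe, vonMangoldt_apply_pow hc0.ne', vonMangoldt_apply_prime hq']
        rw [hLb]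
        have h5 := mul_le_mul_of_nonneg_right hpN hlq
        nlinarith
    · rcases Nat.eq_zero_or_pos c with hc0 | hc0
      · rw [hc0, pow_zero, mul_one] at hbe
        have hLb : vonMangoldt b = Real.log p := by
          rw [← hbe, vonMangoldt_apply_pow ha0.ne', vonMangoldt_apply_prime hp']
        rw [hLb]
        have h5 := mul_le_mul_of_nonneg_left hqN hlp
        nlinarith
      · have h4 := rsf_QLC_two hp' hq' hpq ha0.ne' hc0.ne'
        rw [hbe] at h4
        rw [h4]
        have h5 : 0 ≤ 2 * vonMangoldt b * Real.log N := by positivity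
        linarith

theorem rsf_QLC_one {s b : ℕ} (hb : 2 ≤ b) : vonMangoldt (s * b ^ 2) ≤ vonMangoldt b := by
  by_cases h : vonMangoldt (s * b ^ 2) = 0
  · rw [h]
    exact vonMangoldt_nonneg
  rw [← ne_eq, vonMangoldt_ne_zero_iff] at h
  obtain ⟨p, e, hp, he, hpe⟩ := h
  have hp' := hp.nat_prime
  have had : b ∣ p ^ e := by
    rw [hpe, sq, ← mul_assoc]
    exact Dvd.intro_left _ rfl
  obtain ⟨k, _, hk⟩ := (Nat.dvd_prime_pow hp').1 had
  have hk0 : k ≠ 0 := by
    rintro rfl
    rw [pow_zero] at hk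
    omega
  rw [← hpe, hk, vonMangoldt_apply_pow he.ne', vonMangoldt_apply_pow hk0]

theorem qlc_bound_pr : ∃ C : ℝ, 0 < C ∧ ∀ s B : ℕ, Squarefree s → 1 ≤ B →
    ∑ b ∈ Finset.Icc 1 B, ArithmeticFunction.vonMangoldt (s * b ^ 2) / (b : ℝ) ≤
      C * (1 + Real.log s + Real.log B) ∧
    ∑ b ∈ Finset.Icc 1 B,
      (ArithmeticFunction.vonMangoldt * ArithmeticFunction.vonMangoldt) (s * b ^ 2) / (b : ℝ) ≤
        C * (1 + Real.log s + Real.log B) ^ 2 := by
  obtain ⟨C, hC1, hC⟩ := rsf_QLC_mertens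
  refine ⟨C + 1 + 4 * C + C ^ 2 + 1, by positivity, fun s B hs hB => ?_⟩
  have hs0 : 0 < s := Nat.pos_of_ne_zero hs.ne_zero
  have hls : 0 ≤ Real.log s := Real.log_natCast_nonneg s
  have hlB : 0 ≤ Real.log B := Real.log_natCast_nonneg B
  have hIoc : Finset.Icc 1 B = Finset.Ioc 0 B := rfl
  have hM := hC B hB
  have hsum0 : 0 ≤ ∑ n ∈ Finset.Ioc 0 B, vonMangoldt n / (n : ℝ) :=
    Finset.sum_nonneg fun n _ => div_nonneg vonMangoldt_nonneg (Nat.cast_nonneg n)
  have hsplit : Finset.Icc 1 B = insert 1 (Finset.Icc 2 B) := by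
    ext b
    simp only [Finset.mem_Icc, Finset.mem_insert]
    omega
  have h1n : 1 ∉ Finset.Icc 2 B := by simp
  have hsub : Finset.Icc 2 B ⊆ Finset.Ioc 0 B := by
    intro b hb
    rw [Finset.mem_Icc] at hb
    rw [Finset.mem_Ioc]
    omega
  have hW : 1 ≤ 1 + Real.log s + Real.log B := by linarith
  constructor
  · rw [hsplit, Finset.sum_insert h1n]
    have h2 : ∑ b ∈ Finset.Icc 2 B, vonMangoldt (s * b ^ 2) / (b : ℝ) ≤
        ∑ n ∈ Finset.Ioc 0 B, vonMangoldt n / (n : ℝ) := by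
      refine (Finset.sum_le_sum fun b hb => ?_).trans (Finset.sum_le_sum_of_subset_of_nonneg hsub
        fun n _ _ => div_nonneg vonMangoldt_nonneg (Nat.cast_nonneg n))
      rw [Finset.mem_Icc] at hb
      exact div_le_div_of_nonneg_right (rsf_QLC_one hb.1) (Nat.cast_nonneg b)
    have h3 : vonMangoldt (s * 1 ^ 2) / ((1 : ℕ) : ℝ) ≤ Real.log s := by
      rw [one_pow, mul_one, Nat.cast_one, div_one]
      exact vonMangoldt_le_log
    nlinarith [mul_nonneg (by positivity : 0 ≤ 4 * C + C ^ 2 + 1) (by linarith : 0 ≤ 1 + Real.log s + Real.log B), mul_nonneg (by positivity : 0 ≤ C) hls]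
  · rw [hsplit, Finset.sum_insert h1n]
    have h3 : (vonMangoldt * vonMangoldt) (s * 1 ^ 2) / ((1 : ℕ) : ℝ) ≤ Real.log s ^ 2 := by
      rw [one_pow, mul_one, Nat.cast_one, div_one]
      exact rsf_QLC_le s
    have h2 : ∑ b ∈ Finset.Icc 2 B, (vonMangoldt * vonMangoldt) (s * b ^ 2) / (b : ℝ) ≤
        ∑ n ∈ Finset.Ioc 0 B, (2 * (Real.log s + 2 * Real.log B) * (vonMangoldt n / (n : ℝ)) +
          (vonMangoldt * vonMangoldt) n / (n : ℝ)) := by
      refine (Finset.sum_le_sum fun b hb => ?_).trans (Finset.sum_le_sum_of_subset_of_nonneg hsub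
        fun n _ _ => ?_)
      · rw [Finset.mem_Icc] at hb
        have hb0 : (0 : ℝ) < b := by
          have : 0 < b := by omega
          exact_mod_cast this
        have hN : s * b ^ 2 ≠ 0 := mul_ne_zero hs0.ne' (pow_ne_zero _ (by omega))
        have h4 := rsf_QLC_key hb.1 hN (by rw [sq, ← mul_assoc]; exact Dvd.intro_left _ rfl)
        have h5 : Real.log ((s * b ^ 2 : ℕ) : ℝ) ≤ Real.log s + 2 * Real.log B := by
          push_cast
          rw [Real.log_mul (by exact_mod_cast hs0.ne') (by positivity), Real.log_pow]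
          have h6 : Real.log b ≤ Real.log B := Real.log_le_log hb0 (by exact_mod_cast hb.2)
          push_cast
          linarith
        have h7 : (vonMangoldt * vonMangoldt) (s * b ^ 2) ≤
            2 * (Real.log s + 2 * Real.log B) * vonMangoldt b + (vonMangoldt * vonMangoldt) b := by
          have h8 : 0 ≤ vonMangoldt b := vonMangoldt_nonneg
          have h9 := mul_le_mul_of_nonneg_left h5 (by positivity : 0 ≤ 2 * vonMangoldt b)
          linarith
        calc (vonMangoldt * vonMangoldt) (s * b ^ 2) / (b : ℝ) ≤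
            (2 * (Real.log s + 2 * Real.log B) * vonMangoldt b +
              (vonMangoldt * vonMangoldt) b) / (b : ℝ) := div_le_div_of_nonneg_right h7 hb0.le
          _ = _ := by ring
      · have h8 : 0 ≤ vonMangoldt n := vonMangoldt_nonneg
        have h9 := rsf_QLC_nn n
        positivity
    rw [Finset.sum_add_distrib, ← Finset.mul_sum] at h2
    have h4 := rsf_QLC_conv B
    set S := ∑ n ∈ Finset.Ioc 0 B, vonMangoldt n / (n : ℝ) with hS
    set Y := 1 + Real.log s + Real.log B with hY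
    have hSY : S ≤ C * Y := by
      have : C * (1 + Real.log B) ≤ C * Y := mul_le_mul_of_nonneg_left (by linarith) (by linarith)
      linarith
    have h5 : S ^ 2 ≤ C ^ 2 * Y ^ 2 := by
      rw [← mul_pow]
      exact pow_le_pow_left₀ hsum0 hSY 2
    have h6 : 2 * (Real.log s + 2 * Real.log B) * S ≤ 4 * C * Y ^ 2 := by
      have h7 : 2 * (Real.log s + 2 * Real.log B) ≤ 4 * Y := by linarith
      calc 2 * (Real.log s + 2 * Real.log B) * S ≤ 4 * Y * (C * Y) :=
            mul_le_mul h7 hSY hsum0 (by linarith)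
        _ = 4 * C * Y ^ 2 := by ring
    have h7 : Real.log s ^ 2 ≤ Y ^ 2 := pow_le_pow_left₀ hls (by linarith) 2
    have h8 : 0 ≤ Y ^ 2 := sq_nonneg _
    have h9 : 0 ≤ C * Y ^ 2 := by positivity
    nlinarith

end Pool.Agent.RSF

namespace Pool.Agent.RSF

alias qlc_bound := qlc_bound_pr

end Pool.Agent.RSF
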