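import Pool.Agent.Lib_helper39.RSF.Defs
import Pool.Agent.Lib_helper39.RSF.KG1
import Pool.Agent.Lib_helper39.RSF.PFM
import Pool.Agent.Lib_helper39.RSF.SMO2
import Pool.Agent.Lib_helper39.RSF.AMB2
import Pool.Agent.Lib_helper39.RSF.DSQ
import Pool.Agent.Lib_helper39.RSF.XLIM
import Pool.Agent.Lib_helper39.RSF.XR2
import Pool.Agent.Lib_helper39.RSF.DDE
import Pool.Agent.Lib_helper39.RSF.DFO
import Pool.Agent.Lib_helper39.RSF.DOD
import Pool.Agent.Lib_helper39.RSF.M4B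
import Pool.Agent.Lib_helper39.RSF.FUI
import Pool.Agent.Lib_helper39.RSA.XR6
import Pool.Agent.Lib_helper39.RSA.PRM
import Pool.Agent.Lib_helper39.RSA.SOB
import Pool.Agent.Lib_helper39.RSA.BNS
import Pool.Agent.Lib_helper39.RSA.QLA
import Pool.Agent.Lib_helper39.RSA.QLB
import Pool.Agent.Lib_helper39.RSA.PER
import Pool.Agent.Lib_helper39.RSA.AVE
import Pool.Agent.Lib_helper39.RSA.CUT1
import Pool.Agent.Lib_helper39.RSA.CUT2
import Pool.Agent.Lib_helper24.ABS.Endgame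
import Pool.Agent.Lib_helper39.RSA.QB
import Pool.Agent.Lib_helper39.RSG.QLC
import Pool.Agent.Lib_helper39.RSG.UTW
/-!
# Block QBW: the smeared diagonal of the approximation
-/

namespace Pool.Agent.RSF

open Complex MeasureTheory Filter Topology
open Pool.Agent.RC (cc psi rv f0 IsRC Good gm pr DD)
open Pool.Agent.RSE
open Pool.Agent.ABS (Nice LData Piece oddZ)
open Pool.Agent.SQS (hat)
open scoped ContDiff

/-- The square of a weight is a weight. -/
theorem rsf_qbw_sq {W : ℝ → ℝ} {a b : ℝ} (h : Wt W a b) : Wt (fun u => W u ^ 2) a b where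
  le := h.le
  meas := h.meas.pow_const 2
  bdd := by
    obtain ⟨B, hB⟩ := h.bdd
    refine ⟨B ^ 2, fun v => ?_⟩
    rw [abs_pow]
    exact pow_le_pow_left₀ (abs_nonneg _) (hB v) 2
  supp := fun v hv => by rw [h.supp v hv]; norm_num

/-- Cauchy-Schwarz. -/
theorem rsf_qbw_cs {A W : ℝ → ℝ} (hA : ∀ u, 0 ≤ A u) (h1 : Integrable A)
    (h2 : Integrable fun u => A u * |W u|) (h3 : Integrable fun u => A u * W u ^ 2) :
    (∫ u : ℝ, A u * |W u|) ^ 2 ≤ (∫ u : ℝ, A u) * ∫ u : ℝ, A u * W u ^ 2 := by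
  have key : ∀ x : ℝ, 0 ≤ (∫ u : ℝ, A u) * (x * x) + (-(2 * ∫ u : ℝ, A u * |W u|)) * x +
      ∫ u : ℝ, A u * W u ^ 2 := by
    intro x
    have e : (∫ u : ℝ, A u) * (x * x) + (-(2 * ∫ u : ℝ, A u * |W u|)) * x +
        ∫ u : ℝ, A u * W u ^ 2 = ∫ u : ℝ, A u * (|W u| - x) ^ 2 := by
      have e1 : (fun u : ℝ => A u * (|W u| - x) ^ 2) =
          fun u : ℝ => (A u * (x * x) + (A u * |W u|) * (-(2 * x))) + A u * W u ^ 2 := by
        funext u
        have := sq_abs (W u)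
        rw [← this]
        ring
      have i1 : Integrable fun u : ℝ => A u * (x * x) := h1.mul_const _
      have i2 : Integrable fun u : ℝ => (A u * |W u|) * (-(2 * x)) := h2.mul_const _
      have i3 : Integrable fun u : ℝ => A u * (x * x) + (A u * |W u|) * (-(2 * x)) := i1.add i2
      rw [e1, integral_add i3 h3, integral_add i1 i2, integral_mul_const, integral_mul_const]
      ring
    rw [e]
    exact integral_nonneg fun u => mul_nonneg (hA u) (sq_nonneg _)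
  have := discrim_le_zero key
  unfold discrim at this
  nlinarith

section
variable {g : ℝ → ℝ} (hg : Ker1 g)
include hg

theorem rsf_qbw_cont (x : ℝ) : Continuous fun u => g (x + u) :=
  hg.smooth.continuous.comp (continuous_const.add continuous_id)

theorem rsf_qbw_int (x : ℝ) : Integrable fun u => |g (x + u)| := by
  have hgf : Fast g := by simpa using hg.fast 0
  have h2 : Integrable fun z : ℝ => |g z| := by
    have := fast_int hgf hg.smooth.continuous (a := 0) (by norm_num)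
    simpa using this
  exact h2.comp_add_left x

theorem rsf_qbw_G {W : ℝ → ℝ} {a b : ℝ} (h : Wt W a b) (x : ℝ) :
    (∫ u : ℝ, |g (x + u) * W u|) ^ 2 ≤
      (∫ z : ℝ, |g z|) * ∫ u : ℝ, |g (x + u)| * W u ^ 2 := by
  have hc := rsf_qbw_cont hg x
  have h2 : Integrable fun u => |g (x + u)| * |W u| := by
    have := (wt_int h hc).1.abs
    refine this.congr (Eventually.of_forall fun u => ?_)
    exact abs_mul _ _
  have h3 : Integrable fun u => |g (x + u)| * W u ^ 2 := (wt_int (rsf_qbw_sq h) hc.abs).1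
  have h4 := rsf_qbw_cs (fun u => abs_nonneg (g (x + u))) (rsf_qbw_int hg x) h2 h3
  have h5 : ∫ u : ℝ, |g (x + u)| = ∫ z : ℝ, |g z| := integral_add_left_eq_self (fun z => |g z|) x
  rw [h5] at h4
  have h6 : (fun u => |g (x + u) * W u|) = fun u => |g (x + u)| * |W u| :=
    funext fun u => abs_mul _ _
  rw [h6]
  exact h4

end

/-- The coefficient of the squarefree decomposition. -/
noncomputable def rsf_qbw_c (L : ℝ) (p : ℕ × ℕ) : ℝ :=
  if Squarefree p.1 ∧ 0 < p.2 then rse_qb_b L (p.1 * p.2 ^ 2) / ((p.1 : ℝ) * p.2) else 0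

theorem rsf_qbw_c_nonneg {L : ℝ} (hL : 1 ≤ L) (p : ℕ × ℕ) : 0 ≤ rsf_qbw_c L p := by
  unfold rsf_qbw_c
  split_ifs
  · have := rse_qb_b_nonneg hL (p.1 * p.2 ^ 2)
    positivity
  · exact le_rfl

theorem rsf_qbw_sum {g : ℝ → ℝ} (hg : Ker1 g) : ∃ C : ℝ, 0 < C ∧
    ∀ (L a b : ℝ) (W : ℝ → ℝ), 1 ≤ L → Wt W a b → -(L / 8) ≤ a →
    Summable (fun p : ℕ × ℕ => rsf_qbw_c L p *
      (∫ u : ℝ, |g (Real.log ((p.1 * p.2 ^ 2 : ℕ) : ℝ) + u) * W u|) ^ 2) ∧
    ∑' p : ℕ × ℕ, rsf_qbw_c L p *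
      (∫ u : ℝ, |g (Real.log ((p.1 * p.2 ^ 2 : ℕ) : ℝ) + u) * W u|) ^ 2 ≤
      C / L * ∫ u : ℝ, W u ^ 2 := by
  have hgf : Fast g := by simpa using hg.fast 0
  obtain ⟨C0, hC0, hg0⟩ := rse_qb_gabs hgf
  obtain ⟨C3, hC3, hW3⟩ := rse_qb_W hC0
  set Ig : ℝ := ∫ z : ℝ, |g z| with hIg
  have hIg0 : 0 ≤ Ig := integral_nonneg fun z => abs_nonneg _
  refine ⟨(Ig + 1) * C3, by positivity, ?_⟩
  intro L a b W hL hW ha
  have hL0 : 0 < L := by linarith
  have hW2 : 0 ≤ ∫ u : ℝ, W u ^ 2 := integral_nonneg fun u => sq_nonneg _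
  set F : ℕ × ℕ → ℝ := fun p => rsf_qbw_c L p *
      (∫ u : ℝ, |g (Real.log ((p.1 * p.2 ^ 2 : ℕ) : ℝ) + u) * W u|) ^ 2 with hF
  have hF0 : ∀ p, 0 ≤ F p := fun p => mul_nonneg (rsf_qbw_c_nonneg hL p) (sq_nonneg _)
  have hint : ∀ p : ℕ × ℕ, Integrable fun u : ℝ =>
      rsf_qbw_c L p * (|g (Real.log ((p.1 * p.2 ^ 2 : ℕ) : ℝ) + u)| * W u ^ 2) := by
    intro p
    exact ((wt_int (rsf_qbw_sq hW) (rsf_qbw_cont hg _).abs).1).const_mul _
  have hfin : ∀ U : Finset (ℕ × ℕ), ∑ p ∈ U, F p ≤ (Ig + 1) * C3 / L * ∫ u : ℝ, W u ^ 2 := by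
    intro U
    have h1 : ∑ p ∈ U, F p ≤ ∑ p ∈ U, Ig * ∫ u : ℝ,
        rsf_qbw_c L p * (|g (Real.log ((p.1 * p.2 ^ 2 : ℕ) : ℝ) + u)| * W u ^ 2) := by
      apply Finset.sum_le_sum
      intro p _
      rw [integral_const_mul]
      calc F p ≤ rsf_qbw_c L p * (Ig * ∫ u : ℝ,
            |g (Real.log ((p.1 * p.2 ^ 2 : ℕ) : ℝ) + u)| * W u ^ 2) :=
            mul_le_mul_of_nonneg_left (rsf_qbw_G hg hW _) (rsf_qbw_c_nonneg hL p)
        _ = _ := by ring
    have h2 : ∑ p ∈ U, Ig * ∫ u : ℝ,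
        rsf_qbw_c L p * (|g (Real.log ((p.1 * p.2 ^ 2 : ℕ) : ℝ) + u)| * W u ^ 2) =
        Ig * ∫ u : ℝ, ∑ p ∈ U,
          rsf_qbw_c L p * (|g (Real.log ((p.1 * p.2 ^ 2 : ℕ) : ℝ) + u)| * W u ^ 2) := by
      rw [← Finset.mul_sum, integral_finsetSum]
      intro p _
      exact hint p
    have h3 : ∫ u : ℝ, ∑ p ∈ U,
          rsf_qbw_c L p * (|g (Real.log ((p.1 * p.2 ^ 2 : ℕ) : ℝ) + u)| * W u ^ 2) ≤
        ∫ u : ℝ, C3 / L * W u ^ 2 := by
      apply integral_mono (integrable_finsetSum _ fun p _ => hint p)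
      · exact (wt_int hW continuous_const (f := fun _ => (1 : ℝ))).2.2.1.const_mul _
      · intro u
        simp only
        by_cases hu : u ∈ Set.Icc a b
        · have hu1 : -(L / 8) ≤ u := ha.trans hu.1
          set v := min u 0 with hv
          have hv1 : |v| ≤ L / 8 := by
            rw [hv, abs_le]
            constructor
            · exact le_min (by linarith) (by linarith)
            · exact (min_le_right _ _).trans (by linarith)
          obtain ⟨sW, tW⟩ := hW3 L v hL hv1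
          have h4 : ∑ p ∈ U, rsf_qbw_c L p *
              |g (Real.log ((p.1 * p.2 ^ 2 : ℕ) : ℝ) + u)| ≤ C3 / L := by
            refine le_trans ?_ ((sW.sum_le_tsum U fun p _ => ?_).trans tW)
            · apply Finset.sum_le_sum
              intro p _
              unfold rsf_qbw_c
              split_ifs with hp
              · apply mul_le_mul_of_nonneg_left
                · have hp1 : 0 < p.1 := Nat.pos_of_ne_zero hp.1.ne_zero
                  have hp2 := hp.2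
                  have hpp : 0 < p.1 * p.2 ^ 2 := by positivity
                  have hlog : 0 ≤ Real.log ((p.1 * p.2 ^ 2 : ℕ) : ℝ) :=
                    Real.log_nonneg (by exact_mod_cast hpp)
                  refine (hg0 _).trans (mul_le_mul_of_nonneg_left (Real.exp_le_exp.mpr ?_) hC0.le)
                  rcases le_total u 0 with h | h
                  · rw [hv, min_eq_left h]
                  · rw [hv, min_eq_right h, add_zero, abs_of_nonneg hlog, abs_of_nonneg (by linarith)]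
                    linarith
                · have := rse_qb_b_nonneg hL (p.1 * p.2 ^ 2)
                  positivity
              · simp
            · split_ifs with hp
              · have := rse_qb_b_nonneg hL (p.1 * p.2 ^ 2)
                positivity
              · exact le_rfl
          have h5 : ∑ p ∈ U, rsf_qbw_c L p *
              (|g (Real.log ((p.1 * p.2 ^ 2 : ℕ) : ℝ) + u)| * W u ^ 2) =
              (∑ p ∈ U, rsf_qbw_c L p *
                |g (Real.log ((p.1 * p.2 ^ 2 : ℕ) : ℝ) + u)|) * W u ^ 2 := by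
            rw [Finset.sum_mul]
            exact Finset.sum_congr rfl fun p _ => by ring
          rw [h5]
          exact mul_le_mul_of_nonneg_right h4 (sq_nonneg _)
        · rw [hW.supp u hu]
          simp
    calc ∑ p ∈ U, F p ≤ _ := h1
      _ = _ := h2
      _ ≤ Ig * ∫ u : ℝ, C3 / L * W u ^ 2 := mul_le_mul_of_nonneg_left h3 hIg0
      _ = Ig * (C3 / L * ∫ u : ℝ, W u ^ 2) := by rw [integral_const_mul]
      _ ≤ (Ig + 1) * (C3 / L * ∫ u : ℝ, W u ^ 2) := by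
          apply mul_le_mul_of_nonneg_right (by linarith)
          positivity
      _ = _ := by ring
  have hs : Summable F := summable_of_sum_le hF0 hfin
  exact ⟨hs, hs.tsum_le_of_sum_le hfin⟩

/-- The kernel of the small part. -/
noncomputable def rsf_qbw_k (L : ℝ) (s b : ℕ) : ℝ :=
  if Squarefree s ∧ 0 < b ∧ Real.log ((s * b ^ 2 : ℕ) : ℝ) ≤ L / 2 then
    rse_qb_b L (s * b ^ 2) / (b : ℝ) else 0

theorem rsf_qbw_k_nonneg {L : ℝ} (hL : 1 ≤ L) (s b : ℕ) : 0 ≤ rsf_qbw_k L s b := by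
  unfold rsf_qbw_k
  split_ifs
  · have := rse_qb_b_nonneg hL (s * b ^ 2)
    positivity
  · exact le_rfl

theorem rsf_qbw_kern : ∃ C : ℝ, 0 < C ∧ ∀ L : ℝ, 1 ≤ L → ∀ s : ℕ, ∀ B : Finset ℕ,
    ∑ b ∈ B, rsf_qbw_k L s b ≤ C := by
  classical
  obtain ⟨C, hC, hq⟩ := qlc_bound
  refine ⟨3 * C, by positivity, ?_⟩
  intro L hL s B
  have hL0 : 0 < L := by linarith
  set B0 := B.filter (fun b => Squarefree s ∧ 0 < b ∧ Real.log ((s * b ^ 2 : ℕ) : ℝ) ≤ L / 2)
    with hB0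
  have h1 : ∑ b ∈ B, rsf_qbw_k L s b = ∑ b ∈ B0, rse_qb_b L (s * b ^ 2) / (b : ℝ) := by
    rw [hB0, Finset.sum_filter]
    rfl
  rw [h1]
  rcases B0.eq_empty_or_nonempty with he | hne
  · rw [he, Finset.sum_empty]
    positivity
  · set Bm := B0.max' hne with hBm
    have hBmm : Bm ∈ B0 := Finset.max'_mem _ _
    have hBm' := hBmm
    rw [hB0, Finset.mem_filter] at hBm'
    obtain ⟨_, hsf, hBm0, hlog⟩ := hBm'
    have hs0 : 0 < s := Nat.pos_of_ne_zero hsf.ne_zero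
    have hsR : (1 : ℝ) ≤ s := by exact_mod_cast hs0
    have hBR : (1 : ℝ) ≤ Bm := by exact_mod_cast hBm0
    have hlogs : 0 ≤ Real.log s := Real.log_nonneg hsR
    have hlogB : 0 ≤ Real.log Bm := Real.log_nonneg hBR
    have hlog2 : Real.log s + Real.log Bm ≤ L / 2 := by
      push_cast at hlog
      rw [Real.log_mul (by positivity) (by positivity), Real.log_pow] at hlog
      push_cast at hlog
      linarith
    obtain ⟨q1, q2⟩ := hq s Bm hsf hBm0
    have hsub : B0 ⊆ Finset.Icc 1 Bm := by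
      intro b hb
      have h2 := Finset.le_max' B0 b hb
      rw [hB0, Finset.mem_filter] at hb
      rw [Finset.mem_Icc]
      exact ⟨hb.2.2.1, h2⟩
    have h3 : ∑ b ∈ B0, rse_qb_b L (s * b ^ 2) / (b : ℝ) ≤
        ∑ b ∈ Finset.Icc 1 Bm, rse_qb_b L (s * b ^ 2) / (b : ℝ) := by
      apply Finset.sum_le_sum_of_subset_of_nonneg hsub
      intro b _ _
      have := rse_qb_b_nonneg hL (s * b ^ 2)
      positivity
    have h4 : ∑ b ∈ Finset.Icc 1 Bm, rse_qb_b L (s * b ^ 2) / (b : ℝ) =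
        (∑ b ∈ Finset.Icc 1 Bm, ArithmeticFunction.vonMangoldt (s * b ^ 2) / (b : ℝ)) / L +
        (∑ b ∈ Finset.Icc 1 Bm, (ArithmeticFunction.vonMangoldt *
          ArithmeticFunction.vonMangoldt) (s * b ^ 2) / (b : ℝ)) / (4 * L ^ 2) := by
      rw [Finset.sum_div, Finset.sum_div, ← Finset.sum_add_distrib]
      apply Finset.sum_congr rfl
      intro b _
      unfold rse_qb_b
      ring
    have h5 : (1 + Real.log s + Real.log Bm) ≤ 3 / 2 * L := by linarith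
    have h6 : 0 ≤ 1 + Real.log s + Real.log Bm := by linarith
    have h7 : (∑ b ∈ Finset.Icc 1 Bm, ArithmeticFunction.vonMangoldt (s * b ^ 2) / (b : ℝ)) / L ≤
        3 / 2 * C := by
      rw [div_le_iff₀ hL0]
      refine q1.trans ?_
      have := mul_le_mul_of_nonneg_left h5 hC.le
      linarith
    have h8 : (∑ b ∈ Finset.Icc 1 Bm, (ArithmeticFunction.vonMangoldt *
          ArithmeticFunction.vonMangoldt) (s * b ^ 2) / (b : ℝ)) / (4 * L ^ 2) ≤ 9 / 16 * C := by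
      rw [div_le_iff₀ (by positivity)]
      refine q2.trans ?_
      have h9 := mul_le_mul_of_nonneg_left (pow_le_pow_left₀ h6 h5 2) hC.le
      nlinarith
    linarith

theorem rsf_qbw_small {g : ℝ → ℝ} (hg : Ker1 g) : ∃ C : ℝ, 0 < C ∧
    ∀ (L a b : ℝ) (W : ℝ → ℝ), 1 ≤ L → Wt W a b → -(L / 8) ≤ a →
    ∃ G1 : ℕ × ℕ → ℝ, (∀ p, 0 ≤ G1 p) ∧ Summable G1 ∧
      ∑' p, G1 p ≤ C / L * (∫ u : ℝ, W u ^ 2) ∧
      ∀ p : ℕ × ℕ, 0 < p.1 → 0 < p.2 → IsSquare (p.1 * p.2) → Real.log p.1 ≤ L / 2 →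
        Real.log p.2 ≤ L / 2 → rse_qb_b L p.1 * rse_qb_b L p.2 / √((p.1 : ℝ) * p.2) *
          (∫ u : ℝ, |g (Real.log p.1 + u) * W u|) ^ 2 ≤ G1 p := by
  classical
  obtain ⟨C1, hC1, hsum⟩ := rsf_qbw_sum hg
  obtain ⟨C2, hC2, hk⟩ := rsf_qbw_kern
  refine ⟨C2 * C1, by positivity, ?_⟩
  intro L a b W hL hW ha
  obtain ⟨sS, tS⟩ := hsum L a b W hL hW ha
  set G1 : ℕ × ℕ → ℝ := fun p => if 0 < p.1 ∧ 0 < p.2 ∧ IsSquare (p.1 * p.2) ∧
      Real.log p.1 ≤ L / 2 ∧ Real.log p.2 ≤ L / 2 then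
        rse_qb_b L p.1 * rse_qb_b L p.2 / √((p.1 : ℝ) * p.2) *
          (∫ u : ℝ, |g (Real.log p.1 + u) * W u|) ^ 2 else 0 with hG1
  have hG0 : ∀ p, 0 ≤ G1 p := by
    intro p
    simp only [hG1]
    split_ifs
    · have h1 := rse_qb_b_nonneg hL p.1
      have h2 := rse_qb_b_nonneg hL p.2
      positivity
    · exact le_rfl
  obtain ⟨sG, tG⟩ := rse_qb_abs _ (rsf_qbw_k L)
    (fun p => mul_nonneg (rsf_qbw_c_nonneg hL p) (sq_nonneg _)) (rsf_qbw_k_nonneg hL) sS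
    (hk L hL) G1 hG0
    (fun p hp => by
      simp only [hG1]
      rw [if_neg (fun h => hp ⟨h.1, h.2.1, h.2.2.1⟩)])
    (by
      intro s a b hs hs0 ha hb
      have hs' : (0 : ℝ) < s := by exact_mod_cast hs0
      have ha' : (0 : ℝ) < a := by exact_mod_cast ha
      have hb' : (0 : ℝ) < b := by exact_mod_cast hb
      simp only [hG1]
      split_ifs with hcond
      · obtain ⟨_, _, _, _, hlb⟩ := hcond
        have e1 : √(((s * a ^ 2 : ℕ) : ℝ) * ((s * b ^ 2 : ℕ) : ℝ)) = (s : ℝ) * a * b := by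
          rw [show ((s * a ^ 2 : ℕ) : ℝ) * ((s * b ^ 2 : ℕ) : ℝ) = ((s : ℝ) * a * b) ^ 2 by
            push_cast; ring]
          exact Real.sqrt_sq (by positivity)
        unfold rsf_qbw_c rsf_qbw_k
        rw [if_pos ⟨hs, ha⟩, if_pos ⟨hs, hb, hlb⟩, e1]
        apply le_of_eq
        simp only
        field_simp
      · exact mul_nonneg (mul_nonneg (rsf_qbw_c_nonneg hL _) (sq_nonneg _))
          (rsf_qbw_k_nonneg hL _ _))
  refine ⟨G1, hG0, sG, ?_, ?_⟩
  · refine tG.trans ((mul_le_mul_of_nonneg_left tS hC2.le).trans (le_of_eq ?_))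
    ring
  · intro p h1 h2 h3 h4 h5
    simp only [hG1]
    rw [if_pos ⟨h1, h2, h3, h4, h5⟩]

/-- Crude bound of one factor. -/
theorem rsf_qbw_crude {g Θ : ℝ → ℝ} (hg : Ker1 g) (hΘ : Cut Θ) : ∃ C : ℝ, 0 < C ∧
    ∀ (L a b : ℝ) (W : ℝ → ℝ), 1 ≤ L → Wt W a b → -(L / 8) ≤ a → ∀ N : ℕ, 0 < N →
    |bN Θ L N| * (∫ u : ℝ, |g (Real.log N + u) * W u|) ≤
      C * Real.exp (L / 2) * (1 / (N : ℝ) ^ 2) * (∫ u : ℝ, |W u|) ∧
    (L / 2 < Real.log N →
      |bN Θ L N| * (∫ u : ℝ, |g (Real.log N + u) * W u|) ≤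
        C * Real.exp (-L) * (1 / (N : ℝ) ^ 2) * (∫ u : ℝ, |W u|)) := by
  have hgf : Fast g := by simpa using hg.fast 0
  obtain ⟨C, hC, hcr⟩ := rse_qb_crude hgf hΘ
  refine ⟨C, hC, ?_⟩
  intro L a b W hL hW ha N hN
  have hWi : Integrable fun u => |W u| :=
    (wt_int hW continuous_const (f := fun _ => (1 : ℝ))).2.2.2
  have hgi : Integrable fun u => |g (Real.log N + u) * W u| :=
    (wt_int hW (rsf_qbw_cont hg (Real.log N))).1.abs
  have gen : ∀ D : ℝ, 0 ≤ D → (∀ u, -(L / 8) ≤ u → |bN Θ L N| * |g (Real.log N + u)| ≤ D) →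
      |bN Θ L N| * (∫ u : ℝ, |g (Real.log N + u) * W u|) ≤ D * ∫ u : ℝ, |W u| := by
    intro D hD h
    rw [← integral_const_mul, ← integral_const_mul]
    apply integral_mono (hgi.const_mul _) (hWi.const_mul _)
    intro u
    simp only
    by_cases hu : u ∈ Set.Icc a b
    · rw [abs_mul, ← mul_assoc]
      exact mul_le_mul_of_nonneg_right (h u (ha.trans hu.1)) (abs_nonneg _)
    · rw [hW.supp u hu]
      simp
  constructor
  · exact gen _ (by positivity) fun u hu => (hcr L u hL hu N hN).1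
  · intro hlarge
    exact gen _ (by positivity) fun u hu => (hcr L u hL hu N hN).2 hlarge

theorem qbw_bound_pr {g Θ : ℝ → ℝ} (hg : Ker1 g) (hΘ : Cut Θ) : ∃ C : ℝ, 0 < C ∧
    ∀ (L a b : ℝ) (W : ℝ → ℝ), 1 ≤ L → Wt W a b → -(L / 8) ≤ a → b - a ≤ L →
    Summable (fun p : ℕ × ℕ => if Odd p.1 ∧ Odd p.2 ∧ 3 ≤ p.1 ∧ 3 ≤ p.2 ∧
      IsSquare (p.1 * p.2) then |bN Θ L p.1 * bN Θ L p.2| / √((p.1 : ℝ) * p.2) *
        ((∫ u : ℝ, |g (Real.log p.1 + u) * W u|) * ∫ u : ℝ, |g (Real.log p.2 + u) * W u|)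
      else 0) ∧
    ∑' p : ℕ × ℕ, (if Odd p.1 ∧ Odd p.2 ∧ 3 ≤ p.1 ∧ 3 ≤ p.2 ∧
      IsSquare (p.1 * p.2) then |bN Θ L p.1 * bN Θ L p.2| / √((p.1 : ℝ) * p.2) *
        ((∫ u : ℝ, |g (Real.log p.1 + u) * W u|) * ∫ u : ℝ, |g (Real.log p.2 + u) * W u|)
      else 0) ≤ C / L * ∫ u : ℝ, W u ^ 2 := by
  classical
  obtain ⟨C1, hC1, hsm⟩ := rsf_qbw_small hg
  obtain ⟨C2, hC2, hcr⟩ := rsf_qbw_crude hg hΘ
  have hz : Summable (fun n : ℕ => 1 / (n : ℝ) ^ 2) := Real.summable_one_div_nat_pow.mpr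
    (by norm_num)
  have hz0 : ∀ n : ℕ, 0 ≤ 1 / (n : ℝ) ^ 2 := fun n => by positivity
  have hzz : Summable (fun p : ℕ × ℕ => 1 / (p.1 : ℝ) ^ 2 * (1 / (p.2 : ℝ) ^ 2)) :=
    hz.mul_of_nonneg hz hz0 hz0
  set Z := ∑' p : ℕ × ℕ, 1 / (p.1 : ℝ) ^ 2 * (1 / (p.2 : ℝ) ^ 2) with hZ
  have hZ0 : 0 ≤ Z := tsum_nonneg fun p => mul_nonneg (hz0 _) (hz0 _)
  refine ⟨C1 + 8 * C2 ^ 2 * Z, by positivity, fun L a b W hL hW ha hba => ?_⟩
  have hL0 : 0 < L := by linarith
  have hW2 : 0 ≤ ∫ u : ℝ, W u ^ 2 := integral_nonneg fun u => sq_nonneg _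
  have hWn : 0 ≤ ∫ u : ℝ, |W u| := integral_nonneg fun u => abs_nonneg _
  obtain ⟨G1, hG0, sG, tG, hG⟩ := hsm L a b W hL hW ha
  set Gw : ℕ → ℝ := fun n => ∫ u : ℝ, |g (Real.log n + u) * W u| with hGw
  have hGw0 : ∀ n, 0 ≤ Gw n := fun n => integral_nonneg fun u => abs_nonneg _
  -- the symmetric copy
  have sG2 : Summable (fun p : ℕ × ℕ => G1 p.swap) := (Equiv.prodComm ℕ ℕ).summable_iff.mpr sG
  have tG2 : ∑' p : ℕ × ℕ, G1 p.swap = ∑' p, G1 p := (Equiv.prodComm ℕ ℕ).tsum_eq G1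
  -- the large part
  set H : ℕ × ℕ → ℝ := fun p => C2 ^ 2 * Real.exp (-(L / 2)) * (∫ u : ℝ, |W u|) ^ 2 *
    (1 / (p.1 : ℝ) ^ 2 * (1 / (p.2 : ℝ) ^ 2)) with hHd
  have sH : Summable H := hzz.mul_left _
  have tH : ∑' p, H p = C2 ^ 2 * Real.exp (-(L / 2)) * (∫ u : ℝ, |W u|) ^ 2 * Z := tsum_mul_left
  set F : ℕ × ℕ → ℝ := fun p => if Odd p.1 ∧ Odd p.2 ∧ 3 ≤ p.1 ∧ 3 ≤ p.2 ∧
      IsSquare (p.1 * p.2) then |bN Θ L p.1 * bN Θ L p.2| / √((p.1 : ℝ) * p.2) *
        (Gw p.1 * Gw p.2) else 0 with hFd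
  have hF0 : ∀ p, 0 ≤ F p := by
    intro p
    simp only [hFd]
    split_ifs
    · have := hGw0 p.1
      have := hGw0 p.2
      positivity
    · exact le_rfl
  have hH0 : ∀ p, 0 ≤ H p := fun p => by simp only [hHd]; positivity
  have hle : ∀ p, F p ≤ (1 / 2 * G1 p + 1 / 2 * G1 p.swap) + H p := by
    intro p
    have hGs := hG0 p.swap
    have hGp := hG0 p
    by_cases hp : Odd p.1 ∧ Odd p.2 ∧ 3 ≤ p.1 ∧ 3 ≤ p.2 ∧ IsSquare (p.1 * p.2)
    · obtain ⟨o1, o2, t1, t2, sq⟩ := hp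
      have eF : F p = |bN Θ L p.1 * bN Θ L p.2| / √((p.1 : ℝ) * p.2) *
        (Gw p.1 * Gw p.2) := if_pos ⟨o1, o2, t1, t2, sq⟩
      have hp1 : 0 < p.1 := by omega
      have hp2 : 0 < p.2 := by omega
      have hp1' : (1 : ℝ) ≤ p.1 := by exact_mod_cast hp1
      have hp2' : (1 : ℝ) ≤ p.2 := by exact_mod_cast hp2
      have hg1 := hGw0 p.1
      have hg2 := hGw0 p.2
      have hs1 : 1 ≤ √((p.1 : ℝ) * p.2) := by
        rw [Real.one_le_sqrt]
        exact one_le_mul_of_one_le_of_one_le hp1' hp2'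
      have hcrude : F p ≤ (|bN Θ L p.1| * Gw p.1) * (|bN Θ L p.2| * Gw p.2) := by
        rw [eF, abs_mul]
        calc |bN Θ L p.1| * |bN Θ L p.2| / √((p.1 : ℝ) * p.2) * (Gw p.1 * Gw p.2) ≤
            |bN Θ L p.1| * |bN Θ L p.2| * (Gw p.1 * Gw p.2) := by
              refine mul_le_mul_of_nonneg_right (div_le_self (by positivity) hs1) (by positivity)
          _ = _ := by ring
      obtain ⟨c1, d1⟩ := hcr L a b W hL hW ha p.1 hp1
      obtain ⟨c2, d2⟩ := hcr L a b W hL hW ha p.2 hp2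
      have hee : Real.exp (-L) * Real.exp (L / 2) = Real.exp (-(L / 2)) := by
        rw [← Real.exp_add]; congr 1; ring
      by_cases hl1 : L / 2 < Real.log p.1
      · have : F p ≤ H p := by
          refine hcrude.trans ((mul_le_mul (d1 hl1) c2 (by positivity) (by positivity)).trans
            (le_of_eq ?_))
          simp only [hHd]
          rw [← hee]; ring
        linarith
      · by_cases hl2 : L / 2 < Real.log p.2
        · have : F p ≤ H p := by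
            refine hcrude.trans ((mul_le_mul c1 (d2 hl2) (by positivity) (by positivity)).trans
              (le_of_eq ?_))
            simp only [hHd]
            rw [← hee]; ring
          linarith
        · rw [not_lt] at hl1 hl2
          have b1 : bN Θ L p.1 = rse_qb_b L p.1 := bn_small hΘ hL o1 t1 hl1
          have b2 : bN Θ L p.2 = rse_qb_b L p.2 := bn_small hΘ hL o2 t2 hl2
          have n1 := rse_qb_b_nonneg hL p.1
          have n2 := rse_qb_b_nonneg hL p.2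
          have g1 := hG p hp1 hp2 sq hl1 hl2
          have g2 := hG p.swap hp2 hp1 (by rw [Prod.fst_swap, Prod.snd_swap, mul_comm]; exact sq)
            hl2 hl1
          rw [Prod.fst_swap, Prod.snd_swap] at g2
          have e2 : rse_qb_b L p.2 * rse_qb_b L p.1 / √((p.2 : ℝ) * p.1) =
              rse_qb_b L p.1 * rse_qb_b L p.2 / √((p.1 : ℝ) * p.2) := by
            rw [mul_comm (rse_qb_b L p.2), mul_comm (p.2 : ℝ)]
          rw [e2] at g2
          have hA : 0 ≤ rse_qb_b L p.1 * rse_qb_b L p.2 / √((p.1 : ℝ) * p.2) := by positivity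
          have : F p ≤ 1 / 2 * G1 p + 1 / 2 * G1 p.swap := by
            rw [eF, b1, b2, abs_of_nonneg (mul_nonneg n1 n2)]
            have h3 : Gw p.1 * Gw p.2 ≤ 1 / 2 * Gw p.1 ^ 2 + 1 / 2 * Gw p.2 ^ 2 := by
              nlinarith [sq_nonneg (Gw p.1 - Gw p.2)]
            have h4 := mul_le_mul_of_nonneg_left h3 hA
            have g1' : rse_qb_b L p.1 * rse_qb_b L p.2 / √((p.1 : ℝ) * p.2) * Gw p.1 ^ 2 ≤
              G1 p := g1
            have g2' : rse_qb_b L p.1 * rse_qb_b L p.2 / √((p.1 : ℝ) * p.2) * Gw p.2 ^ 2 ≤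
              G1 p.swap := g2
            linarith
          linarith [hH0 p]
    · have eF : F p = 0 := if_neg hp
      rw [eF]
      have := hH0 p
      linarith
  have hsum : Summable fun p => (1 / 2 * G1 p + 1 / 2 * G1 p.swap) + H p :=
    ((sG.mul_left _).add (sG2.mul_left _)).add sH
  have hFs : Summable F := hsum.of_nonneg_of_le hF0 hle
  refine ⟨hFs, (hFs.tsum_le_tsum hle hsum).trans ?_⟩
  rw [((sG.mul_left _).add (sG2.mul_left _)).tsum_add sH, (sG.mul_left _).tsum_add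
    (sG2.mul_left _), tsum_mul_left, tsum_mul_left, tG2, tH]
  have h2 : L * Real.exp (-(L / 2)) ≤ 8 / L := by
    have hq := Real.quadratic_le_exp_of_nonneg (show 0 ≤ L / 2 by linarith)
    rw [Real.exp_neg, ← div_eq_mul_inv, div_le_div_iff₀ (Real.exp_pos _) hL0]
    nlinarith
  have h3 : (∫ u : ℝ, |W u|) ^ 2 ≤ L * ∫ u : ℝ, W u ^ 2 :=
    (wt_l1 hW).trans (mul_le_mul_of_nonneg_right hba hW2)
  have h4 : C2 ^ 2 * Real.exp (-(L / 2)) * (∫ u : ℝ, |W u|) ^ 2 * Z ≤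
      8 * C2 ^ 2 * Z / L * ∫ u : ℝ, W u ^ 2 := by
    calc C2 ^ 2 * Real.exp (-(L / 2)) * (∫ u : ℝ, |W u|) ^ 2 * Z
        ≤ C2 ^ 2 * Real.exp (-(L / 2)) * (L * ∫ u : ℝ, W u ^ 2) * Z := by gcongr
      _ = C2 ^ 2 * Z * (L * Real.exp (-(L / 2))) * ∫ u : ℝ, W u ^ 2 := by ring
      _ ≤ C2 ^ 2 * Z * (8 / L) * ∫ u : ℝ, W u ^ 2 := by gcongr
      _ = _ := by ring
  have e : (C1 + 8 * C2 ^ 2 * Z) / L * ∫ u : ℝ, W u ^ 2 =
      C1 / L * (∫ u : ℝ, W u ^ 2) + 8 * C2 ^ 2 * Z / L * ∫ u : ℝ, W u ^ 2 := by ring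
  rw [e]
  linarith


end Pool.Agent.RSF

namespace Pool.Agent.RSF

alias qbw_bound := qbw_bound_pr

end Pool.Agent.RSF
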